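import Pool.Agent.MP_34a893_an.Scale
import Mathlib.Combinatorics.Pigeonhole

-- ======== part 0: formerly Pool.Agent.MP_34a893_an.B.Final
section MrgPart0

-- ======== part 0: formerly Pool.Agent.MP_34a893_an.Tube
section MrgPart0

open MeasureTheory Set Filter Topology
open scoped ENNReal

namespace MP34a893

namespace Tube

variable {P : Par} {M : ℝ} {L : Lag P M}

lemma ii_of_bdd {f : ℝ → ℝ} (hf : Measurable f) {C : ℝ} (hC : ∀ x, |f x| ≤ C) (a b : ℝ) :
    IntervalIntegrable f volume a b := by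
  refine (intervalIntegrable_const (c := C)).mono_fun' hf.aestronglyMeasurable ?_
  exact Eventually.of_forall fun x => hC x

lemma u_meas (L : Lag P M) (t : ℝ) : Measurable (L.u t) :=
  L.u_meas.comp (measurable_const.prodMk measurable_id)

lemma X_meas (L : Lag P M) (t : ℝ) : Measurable (L.X t) :=
  (L.X_cont.comp (continuous_const.prodMk continuous_id)).measurable

lemma Y_meas (L : Lag P M) (t : ℝ) : Measurable (L.Y t) :=
  (L.Y_cont.comp (continuous_const.prodMk continuous_id)).measurable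

lemma abs_le_N (hL : L.Facts) (t x t' x' : ℝ) : |L.u t x - L.u t' x'| ≤ P.N M := by
  have h1 := hL.u_nonneg t x
  have h2 := hL.u_nonneg t' x'
  have h3 := L.u_le t x
  have h4 := L.u_le t' x'
  rw [abs_le]
  constructor <;> linarith

lemma NV_mono {ε ν ν' t1 t2 a c a' c' : ℝ} (h : L.NV ε ν t1 t2 a c) (hν : ν ≤ ν') (ha : a ≤ a')
    (hc : c' ≤ c) : L.NV ε ν' t1 t2 a' c' := by
  intro τ hτ
  refine le_trans (measure_mono ?_) ((h τ hτ).trans (ENNReal.ofReal_le_ofReal hν))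
  intro x hx
  exact ⟨⟨ha.trans hx.1.1, hx.1.2.trans hc⟩, hx.2⟩

/-- a small relative position forces a small gain of label -/
lemma label_lt (hM : 0 < M) (hL : L.Facts) (t y y' D : ℝ) (hD : 0 < D)
    (h : L.X t y' < L.X t y + D) : L.m y' - L.m y < M * D + 1 := by
  have hMD : 0 < M * D := mul_pos hM hD
  rcases le_total y' y with hy | hy
  · have := hL.m_mono hy
    linarith
  · have h1 : L.X t y ≤ L.X t y' := (hL.X_mono t).monotone hy
    have h2 := hL.Q_sub t (L.X t y) (L.X t y')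
    rw [hL.Q_X, hL.Q_X] at h2
    have hq : Measurable (L.q t) := hL.q_meas.comp (measurable_const.prodMk measurable_id)
    have h3 : ∫ x in L.X t y..L.X t y', L.q t x ≤ ∫ _x in L.X t y..L.X t y', M := by
      refine intervalIntegral.integral_mono_on h1 (ii_of_bdd hq (C := M) (fun x => ?_) _ _)
        intervalIntegrable_const fun x _ => (hL.q_mem t x).2
      rw [abs_of_nonneg (hL.q_mem t x).1]
      exact (hL.q_mem t x).2
    rw [intervalIntegral.integral_const, smul_eq_mul] at h3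
    nlinarith

/-- the mean deviation at the end of the chain -/
lemma end_le (hM : 0 < M) (hP : P.Facts M) (hL : L.Facts) (hW : L.Law) (t h y : ℝ) (n : ℕ)
    (R1 D1 R' ρ eP eH : ℝ) (hs : P.Small M h) (hn : n * h ≤ t) (ht : t ≤ L.T) (hR1 : 0 < R1)
    (hρ : 0 < ρ) (hD1 : 0 < D1) (hDR : D1 ≤ R') (hR' : R1 + ρ + P.Vm M * (n * h) ≤ R')
    (heP : 0 ≤ eP) (hC3 : 0 ≤ P.C3 M)
    (h1 : L.law t h ((volume.restrict (Icc (L.X t y) (L.X t y + R1))).map (L.Y t)) n
      {y' | L.m y' - L.m y < M * D1 + 1} ≤ ENNReal.ofReal eP)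
    (h2 : ∫ s in D1..R', |L.u (t - n * h) (L.X (t - n * h) y + s) - L.U t y| ≤ eH) :
    ∫ y', |L.U (t - n * h) y' - L.U t y|
        ∂(L.law t h ((volume.restrict (Icc (L.X t y) (L.X t y + R1))).map (L.Y t)) n) ≤
      P.N M * eP + P.N M * (R1 * (P.C3 M * (n * h) / ρ)) + Real.exp (P.C2 M * (n * h)) * eH := by
  set te := t - n * h with hte
  set x := L.X t y with hx
  set xe := L.X te y with hxe
  set μ0 : Measure ℝ := (volume.restrict (Icc x (x + R1))).map (L.Y t) with hμ0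
  set ν := L.law t h μ0 n with hν
  have hnh : 0 ≤ (n : ℝ) * h := mul_nonneg (Nat.cast_nonneg n) hs.1.le
  have hN := hP.N_pos
  have hf : Measurable fun x' => |L.u te x' - L.U t y| :=
    continuous_abs.measurable.comp ((u_meas L te).sub_const _)
  have hfb : ∀ x', |L.u te x' - L.U t y| ≤ P.N M := fun x' => abs_le_N hL _ _ _ _
  have hfb' : ∀ x', |(|L.u te x' - L.U t y|)| ≤ P.N M := fun x' => by
    rw [abs_abs]
    exact hfb x'
  have hφ : Measurable fun y' => |L.U te y' - L.U t y| := hf.comp (X_meas L te)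
  have heH : 0 ≤ eH :=
    le_trans (intervalIntegral.integral_nonneg hDR fun s _ => abs_nonneg _) h2
  set A1 : Set ℝ := {y' | L.m y' - L.m y < M * D1 + 1} with hA1
  set A3 : Set ℝ := {y' | x + R1 + ρ < L.X te y'} with hA3
  have hA1m : MeasurableSet A1 :=
    measurableSet_lt (hL.m_cont.measurable.sub_const _) measurable_const
  have hA3m : MeasurableSet A3 := measurableSet_lt measurable_const (X_meas L te)
  set ψ0 : ℝ → ℝ≥0∞ := (Icc (xe + D1) (xe + R')).indicator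
    fun x' => ENNReal.ofReal |L.u te x' - L.U t y| with hψ0
  have hψ0m : Measurable ψ0 := hf.ennreal_ofReal.indicator measurableSet_Icc
  have hψm : Measurable fun y' => ψ0 (L.X te y') := hψ0m.comp (X_meas L te)
  have hxx : x - P.Vm M * (n * h) ≤ xe := by
    have h3 := hL.X_lip y t ⟨by linarith, ht⟩ te ⟨by linarith, by linarith⟩
    rw [show t - te = n * h by rw [hte]; ring, abs_of_nonneg hnh] at h3
    have := (abs_le.1 h3).2
    linarith
  have hpt : ∀ y', ENNReal.ofReal |L.U te y' - L.U t y| ≤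
      A1.indicator (fun _ => ENNReal.ofReal (P.N M)) y' +
        A3.indicator (fun _ => ENNReal.ofReal (P.N M)) y' + ψ0 (L.X te y') := by
    intro y'
    have hb : ENNReal.ofReal |L.U te y' - L.U t y| ≤ ENNReal.ofReal (P.N M) :=
      ENNReal.ofReal_le_ofReal (hfb _)
    by_cases c1 : L.X te y' < xe + D1
    · have : y' ∈ A1 := label_lt hM hL te y y' D1 hD1 c1
      rw [indicator_of_mem this]
      exact hb.trans (le_self_add.trans le_self_add)
    by_cases c2 : xe + R' < L.X te y'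
    · have : y' ∈ A3 := by
        show x + R1 + ρ < L.X te y'
        linarith
      rw [indicator_of_mem this]
      exact hb.trans (le_add_self.trans le_self_add)
    · have : L.X te y' ∈ Icc (xe + D1) (xe + R') := ⟨not_lt.1 c1, not_lt.1 c2⟩
      rw [hψ0, indicator_of_mem this]
      exact le_add_self
  have hmass : μ0 univ = ENNReal.ofReal R1 := by
    rw [hμ0, Measure.map_apply (Y_meas L t) MeasurableSet.univ, preimage_univ,
      Measure.restrict_apply_univ, Real.volume_Icc]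
    congr 1
    ring
  have hae : ∀ᵐ y' ∂μ0, L.X t y' ≤ x + R1 := by
    rw [hμ0, ae_map_iff (Y_meas L t).aemeasurable
      (measurableSet_le (X_meas L t) measurable_const)]
    filter_upwards [ae_restrict_mem measurableSet_Icc] with x' hx'
    rw [L.XY]
    exact hx'.2
  have h3 := hW.right t h n μ0 (x + R1) ρ hs hn ht hρ hae
  rw [hmass, ← ENNReal.ofReal_mul hR1.le] at h3
  have h4 := hW.dens t h n hs hn ht (Icc x (x + R1)) 1 _ hψm
  rw [one_smul, one_mul] at h4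
  have h5 : ∫⁻ x', ψ0 (L.X te (L.Y te x')) ≤ ENNReal.ofReal eH := by
    simp only [L.XY]
    rw [hψ0, lintegral_indicator measurableSet_Icc, ← ofReal_integral_eq_lintegral_ofReal]
    · refine ENNReal.ofReal_le_ofReal (le_trans (le_of_eq ?_) h2)
      rw [intervalIntegral.integral_comp_add_left (fun x' => |L.u te x' - L.U t y|) xe,
        intervalIntegral.integral_of_le (by linarith), integral_Icc_eq_integral_Ioc]
    · exact (intervalIntegrable_iff_integrableOn_Icc_of_le (by linarith)).1 (ii_of_bdd hf hfb' _ _)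
    · exact Eventually.of_forall fun _ => abs_nonneg _
  have hq : 0 ≤ R1 * (P.C3 M * (n * h) / ρ) := by positivity
  rw [integral_eq_lintegral_of_nonneg_ae (Eventually.of_forall fun _ => abs_nonneg _)
    hφ.aestronglyMeasurable]
  refine ENNReal.toReal_le_of_le_ofReal (by positivity) ?_
  calc ∫⁻ y', ENNReal.ofReal |L.U te y' - L.U t y| ∂ν
      ≤ ∫⁻ y', (A1.indicator (fun _ => ENNReal.ofReal (P.N M)) y' +
        A3.indicator (fun _ => ENNReal.ofReal (P.N M)) y' + ψ0 (L.X te y')) ∂ν :=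
        lintegral_mono hpt
    _ = ENNReal.ofReal (P.N M) * ν A1 + ENNReal.ofReal (P.N M) * ν A3 +
        ∫⁻ y', ψ0 (L.X te y') ∂ν := by
        rw [lintegral_add_right _ hψm, lintegral_add_right _ (measurable_const.indicator hA3m),
          lintegral_indicator_const hA1m, lintegral_indicator_const hA3m]
    _ ≤ ENNReal.ofReal (P.N M) * ENNReal.ofReal eP +
        ENNReal.ofReal (P.N M) * ENNReal.ofReal (R1 * (P.C3 M * (n * h) / ρ)) +
        ENNReal.ofReal (Real.exp (P.C2 M * (n * h))) * ENNReal.ofReal eH := by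
        gcongr
        exact h4.trans (by gcongr)
    _ = _ := by
        rw [← ENNReal.ofReal_mul hN.le, ← ENNReal.ofReal_mul hN.le,
          ← ENNReal.ofReal_mul (Real.exp_pos _).le,
          ← ENNReal.ofReal_add (by positivity) (by positivity),
          ← ENNReal.ofReal_add (by positivity) (by positivity)]

/-- the deviation at the starting time is bounded by the mean deviation at the end -/
lemma start_le (hL : L.Facts) (hS : L.Step) (hW : L.Law) (t h y : ℝ) (n : ℕ) (R1 : ℝ)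
    (hs : P.Small M h) (hn : n * h ≤ t) (ht : t ≤ L.T) (hR1 : 0 < R1) :
    ∫ x' in L.X t y..(L.X t y + R1), |L.u t x' - L.U t y| ≤
      ∫ y', |L.U (t - n * h) y' - L.U t y|
        ∂(L.law t h ((volume.restrict (Icc (L.X t y) (L.X t y + R1))).map (L.Y t)) n) +
      R1 * (n * (P.E1 M * h ^ 2)) := by
  set te := t - n * h with hte
  set x := L.X t y with hx
  set c := L.U t y with hc
  have hU : Measurable (L.U te) := (u_meas L te).comp (X_meas L te)
  have hUb : ∀ y', |L.U te y'| ≤ P.N M := fun y' =>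
    (abs_of_nonneg (hL.u_nonneg _ _)).le.trans (L.u_le _ _)
  have hφ : Measurable fun y' => |L.U te y' - c| :=
    continuous_abs.measurable.comp (hU.sub_const _)
  have hφb : ∀ y', |L.U te y' - c| ≤ P.N M := fun y' => abs_le_N hL _ _ _ _
  have hφb' : ∀ y', |(|L.U te y' - c|)| ≤ P.N M := fun y' => by
    rw [abs_abs]
    exact hφb y'
  have hfin : IsFiniteMeasure ((volume.restrict (Icc x (x + R1))).map (L.Y t)) := inferInstance
  have hadd := hW.add t h _ hfin 0 n _ hφ ⟨_, hφb'⟩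
  rw [zero_add, Nat.cast_zero, zero_mul, sub_zero] at hadd
  have hPm := hS.Pit_meas h n t _ hφ
  have hPb := hS.Pit_mem h n t 0 (P.N M) _ hφ fun y' => ⟨abs_nonneg _, hφb y'⟩
  have hlaw0 : L.law t h ((volume.restrict (Icc x (x + R1))).map (L.Y t)) 0 =
      (volume.restrict (Icc x (x + R1))).map (L.Y t) := rfl
  rw [hadd, hlaw0, integral_map (Y_meas L t).aemeasurable hPm.aestronglyMeasurable,
    integral_Icc_eq_integral_Ioc, ← intervalIntegral.integral_of_le (by linarith)]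
  have hlin : ∀ a : ℝ, |a| ≤ 1 → ∀ y', a * (L.Pit h n t (L.U te) y' - c) ≤
      L.Pit h n t (fun y' => |L.U te y' - c|) y' := by
    intro a ha y'
    have h1 := hS.Pit_lin h n t a 0 (-(a * c)) _ _ hU hU ⟨_, hUb⟩ ⟨_, hUb⟩ y'
    have h2 : ∀ z, |a * L.U te z + 0 * L.U te z + -(a * c)| ≤ |L.U te z - c| := fun z => by
      rw [show a * L.U te z + 0 * L.U te z + -(a * c) = a * (L.U te z - c) by ring, abs_mul]
      exact mul_le_of_le_one_left (abs_nonneg _) ha
    have h3 := hS.Pit_mono h n t (fun z => a * L.U te z + 0 * L.U te z + -(a * c)) _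
      (((hU.const_mul a).add (hU.const_mul 0)).add_const _) hφ
      ⟨_, fun z => (h2 z).trans (hφb z)⟩ ⟨_, hφb'⟩ (fun z => (le_abs_self _).trans (h2 z)) y'
    rw [h1] at h3
    linarith
  have hpt : ∀ x', |L.u t x' - c| ≤
      L.Pit h n t (fun y' => |L.U te y' - c|) (L.Y t x') + n * (P.E1 M * h ^ 2) := by
    intro x'
    have h1 := abs_le.1 (hS.mart_it h n t hs hn ht (L.Y t x'))
    have h2 := hlin 1 (by norm_num) (L.Y t x')
    have h3 := hlin (-1) (by norm_num) (L.Y t x')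
    have h4 : L.U t (L.Y t x') = L.u t x' := by rw [Lag.U, L.XY]
    rw [h4] at h1
    rw [abs_le]
    constructor <;> linarith [h1.1, h1.2]
  have hi1 : IntervalIntegrable (fun x' => |L.u t x' - c|) volume x (x + R1) :=
    ii_of_bdd (continuous_abs.measurable.comp ((u_meas L t).sub_const _)) (C := P.N M)
      (fun x' => (abs_abs _).le.trans (abs_le_N hL _ _ _ _)) _ _
  have hi2 : IntervalIntegrable
      (fun x' => L.Pit h n t (fun y' => |L.U te y' - c|) (L.Y t x')) volume x (x + R1) :=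
    ii_of_bdd (hPm.comp (Y_meas L t)) (C := P.N M)
      (fun x' => (abs_of_nonneg (hPb _).1).le.trans (hPb _).2) _ _
  refine le_trans (intervalIntegral.integral_mono_on (by linarith) hi1
    (hi2.add intervalIntegrable_const) fun x' _ => hpt x') (le_of_eq ?_)
  rw [intervalIntegral.integral_add hi2 intervalIntegrable_const, intervalIntegral.integral_const,
    smul_eq_mul, add_sub_cancel_left]

/-- transfer from time `t` to a time of the first step -/
lemma transfer (hP : P.Facts M) (hL : L.Facts) (t h y R τ : ℝ) (hs : P.Small M h) (hh : h ≤ t)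
    (ht : t ≤ L.T) (hR : 0 < R) (hDV : P.DV M * h ≤ 1) (hτ : τ ∈ Icc (t - h) t) :
    ∫ s in (0 : ℝ)..R, |L.u τ (L.X τ y + s) - L.U t y| ≤
      2 * (∫ x' in L.X t y..(L.X t y + (R + 1)), |L.u t x' - L.U t y|) +
        P.Th M * P.k0 * P.N M * h * R := by
  set c := L.U t y with hc
  set y2 := L.Y τ (L.X τ y + R) with hy2
  have hX2 : L.X τ y2 = L.X τ y + R := L.XY _ _
  have hyy : y ≤ y2 := by
    rw [← (hL.X_mono τ).le_iff_le, hX2]
    linarith
  have hτ' : τ ∈ Icc 0 L.T := ⟨by linarith [hτ.1], hτ.2.trans ht⟩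
  have ht' : t ∈ Icc 0 L.T := ⟨by linarith [hs.1], ht⟩
  have hd : |τ - t| ≤ h := by
    rw [abs_le]
    constructor <;> linarith [hτ.1, hτ.2, hs.1]
  have hN := hP.N_pos
  have hbm := hP.bm_nonneg
  have hk := hP.k0_pos
  have hp := P.hp0
  have hTh : 0 ≤ P.Th M := by unfold Par.Th; positivity
  have hC0 : 0 ≤ P.C0 M := by unfold Par.C0; positivity
  have hDV0 : 0 ≤ P.DV M := by unfold Par.DV; positivity
  have hf : ∀ σ, Measurable fun x' => |L.u σ x' - c| := fun σ =>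
    continuous_abs.measurable.comp ((u_meas L σ).sub_const _)
  have hfb : ∀ σ x', |(|L.u σ x' - c|)| ≤ P.N M := fun σ x' => by
    rw [abs_abs]
    exact abs_le_N hL _ _ _ _
  have hi : ∀ σ, IntervalIntegrable (fun y' => |L.u σ (L.X σ y') - c| * L.j σ y') volume y y2 := by
    intro σ
    rw [intervalIntegrable_iff]
    exact Integrable.bdd_mul (c := P.N M) (intervalIntegrable_iff.1 (L.j_int σ y y2))
      ((hf σ).comp (X_meas L σ)).aestronglyMeasurable (Eventually.of_forall fun y' => hfb σ _)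
  set K := P.Th M * P.k0 * P.N M * h with hK
  have hexp : Real.exp (P.C0 M * |τ - t|) ≤ 2 := by
    have h1 : P.C0 M * |τ - t| ≤ 1 / 4 := le_trans (mul_le_mul_of_nonneg_left hd hC0) hs.2.2.2
    have h2 := Real.exp_bound_div_one_sub_of_interval (x := 1 / 4) (by norm_num) (by norm_num)
    have h3 := Real.exp_le_exp.2 h1
    norm_num at h2
    linarith
  have hpt : ∀ y', |L.u τ (L.X τ y') - c| * L.j τ y' ≤
      2 * (|L.u t (L.X t y') - c| * L.j t y') + K * L.j τ y' := by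
    intro y'
    have h1 := hL.U_lip y' τ hτ' t ht'
    have h2 : |L.U τ y' - L.U t y'| ≤ K :=
      h1.trans (mul_le_mul_of_nonneg_left hd (by positivity))
    have h3 := hL.j_ratio y' τ hτ' t ht'
    have h4 := L.j_pos τ y'
    have h5 := L.j_pos t y'
    have h6 : L.j τ y' ≤ 2 * L.j t y' := h3.trans (mul_le_mul_of_nonneg_right hexp h5.le)
    have h7 : |L.u τ (L.X τ y') - c| ≤ |L.u t (L.X t y') - c| + K := by
      have := abs_sub_le (L.U τ y') (L.U t y') c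
      simp only [Lag.U] at this h2
      linarith
    have h8 := abs_nonneg (L.u t (L.X t y') - c)
    nlinarith [mul_le_mul_of_nonneg_right h7 h4.le, mul_le_mul_of_nonneg_left h6 h8]
  have e1 : ∫ s in (0 : ℝ)..R, |L.u τ (L.X τ y + s) - c| =
      ∫ y' in y..y2, |L.u τ (L.X τ y') - c| * L.j τ y' := by
    rw [intervalIntegral.integral_comp_add_left (fun x' => |L.u τ x' - c|) (L.X τ y), add_zero,
      ← hX2]
    exact hL.cov_int τ _ (hf τ) ⟨_, hfb τ⟩ y y2
  have e2 := hL.cov_int t _ (hf t) ⟨_, hfb t⟩ y y2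
  have e3 : ∫ y' in y..y2, L.j τ y' = R := by
    rw [← L.X_sub, hX2]
    ring
  have hX3 : L.X t y2 ≤ L.X t y + (R + 1) := by
    have h1 := hL.dist_add y y2 τ hτ' t ht'
    have h2 := mul_le_mul_of_nonneg_left hd hDV0
    linarith
  have e4 : ∫ x' in L.X t y..L.X t y2, |L.u t x' - c| ≤
      ∫ x' in L.X t y..(L.X t y + (R + 1)), |L.u t x' - c| :=
    intervalIntegral.integral_mono_interval le_rfl ((hL.X_mono t).monotone hyy) hX3
      (Eventually.of_forall fun _ => abs_nonneg _) (ii_of_bdd (hf t) (hfb t) _ _)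
  rw [e1]
  refine le_trans (intervalIntegral.integral_mono_on hyy (hi τ)
    (((hi t).const_mul 2).add ((L.j_int τ y y2).const_mul K)) fun y' _ => hpt y') ?_
  rw [intervalIntegral.integral_add ((hi t).const_mul 2) ((L.j_int τ y y2).const_mul K),
    intervalIntegral.integral_const_mul, intervalIntegral.integral_const_mul, e3, ← e2]
  linarith

lemma small_mul {a e h : ℝ} (ha : 0 ≤ a) (h0 : 0 < h) (hh : h ≤ e / (a + 1)) :
    a * h ≤ e := by
  rw [le_div_iff₀ (by linarith)] at hh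
  nlinarith

end Tube

open Tube

theorem tubeS : Basic → HarS → ProgS → TubeS := by
  intro hB hH hG P M hM hSt ε1 R e hε hR he
  have hP := hB.1 P M hM
  have hN := hP.N_pos
  have hbm := hP.bm_nonneg
  have hk := hP.k0_pos
  have hp := P.hp0
  have hTh : 0 ≤ P.Th M := by unfold Par.Th; positivity
  have hC0 : 0 ≤ P.C0 M := by unfold Par.C0; positivity
  have hDV : 0 ≤ P.DV M := by unfold Par.DV; positivity
  have hVm : 0 ≤ P.Vm M := by unfold Par.Vm; positivity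
  have hC2 : 0 ≤ P.C2 M := by unfold Par.C2; positivity
  have hC3 : 0 ≤ P.C3 M := by unfold Par.C3; positivity
  have hE1 : 0 ≤ P.E1 M := by unfold Par.E1; positivity
  obtain ⟨D1, hD1, hH⟩ := hH P M hM hSt
  obtain ⟨T0, hT0, R3p, νp, hp0, hνp, hhp, hG⟩ := hG P M hM hSt ε1 (R + 1) (M * D1 + 1)
    (e / 16 / P.N M) hε (by linarith) (by positivity) (by positivity)
  set ρ := (P.N M * ((R + 1) * (P.C3 M * (T0 + 1))) + 1) / (e / 16) with hρ
  have hρ0 : 0 < ρ := by positivity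
  set R' := D1 + (R + 1 + ρ + P.Vm M * (T0 + 1)) with hR'
  have hDR : D1 ≤ R' := by
    have : 0 ≤ R + 1 + ρ + P.Vm M * (T0 + 1) := by positivity
    linarith
  obtain ⟨R3h, νh, e', hh0, hνh, he', hhh, hH⟩ := hH ε1 T0 R'
    (e / 16 / Real.exp (P.C2 M * (T0 + 1))) hε hT0 hDR (by positivity)
  obtain ⟨hs0, hhs, hsm⟩ := hP.small
  refine ⟨T0, hT0, max R3p R3h, min νp νh, e',
    min (min (min hp0 hh0) (min hs0 (1 / (P.DV M + 1))))
      (min (e / 2 / (P.Th M * P.k0 * P.N M * R + 1))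
        (e / 16 / ((R + 1) * ((T0 + 1) * P.E1 M) + 1))),
    lt_min hνp hνh, he', by positivity, ?_⟩
  intro L t h y n h0 hh hn1 hn2 hn ht hNV hU hw τ hτ
  simp only [le_min_iff] at hh
  obtain ⟨⟨⟨a1, a2⟩, a3, a4⟩, a5, a6⟩ := hh
  have hL := hB.2.1 P M L hM
  have hS := hB.2.2.1 P M L hM
  have hW := hB.2.2.2 P M L hM
  have hs := hsm h h0 a3
  have hht : h ≤ t := by linarith [hs.2.1]
  have b1 := hG L t h y n h0 a1 hn1 hn2 hn ht (NV_mono hNV (min_le_left _ _)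
    (by linarith [le_max_left R3p R3h]) (by linarith [le_max_left R3p R3h]))
  have b2 := hH L t h y n h0 a2 hn1 hn2 hn ht (NV_mono hNV (min_le_right _ _)
    (by linarith [le_max_right R3p R3h]) (by linarith [le_max_right R3p R3h])) hU hw
  have b3 := end_le hM hP hL hW t h y n (R + 1) D1 R' ρ _ _ hs hn ht (by linarith) hρ0 hD1 hDR
    (by linarith [mul_le_mul_of_nonneg_left hn2 hVm]) (by positivity) hC3 b1 b2
  have b4 := start_le hL hS hW t h y n (R + 1) hs hn ht (by linarith)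
  have b5 := transfer hP hL t h y R τ hs hht ht hR (small_mul hDV h0 a4) hτ
  have c1 : P.N M * (e / 16 / P.N M) = e / 16 := by field_simp
  have c2 : P.N M * ((R + 1) * (P.C3 M * (n * h) / ρ)) ≤ e / 16 := by
    have h1 : P.N M * ((R + 1) * (P.C3 M * (n * h))) ≤ P.N M * ((R + 1) * (P.C3 M * (T0 + 1))) := by
      gcongr
    have h2 : e / 16 * ρ = P.N M * ((R + 1) * (P.C3 M * (T0 + 1))) + 1 := by
      rw [hρ]
      field_simp
    rw [show P.N M * ((R + 1) * (P.C3 M * (n * h) / ρ)) =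
      P.N M * ((R + 1) * (P.C3 M * (n * h))) / ρ by ring, div_le_iff₀ hρ0]
    linarith
  have c3 : Real.exp (P.C2 M * (n * h)) * (e / 16 / Real.exp (P.C2 M * (T0 + 1))) ≤ e / 16 := by
    have h1 : Real.exp (P.C2 M * (n * h)) ≤ Real.exp (P.C2 M * (T0 + 1)) := by gcongr
    calc _ ≤ Real.exp (P.C2 M * (T0 + 1)) * (e / 16 / Real.exp (P.C2 M * (T0 + 1))) := by gcongr
      _ = e / 16 := by field_simp
  have c4 : (R + 1) * (n * (P.E1 M * h ^ 2)) ≤ e / 16 := by
    have h1 := small_mul (by positivity) h0 a6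
    calc (R + 1) * (n * (P.E1 M * h ^ 2)) = (R + 1) * (n * h * P.E1 M) * h := by ring
      _ ≤ (R + 1) * ((T0 + 1) * P.E1 M) * h := by gcongr
      _ ≤ e / 16 := h1
  have c5 : P.Th M * P.k0 * P.N M * h * R ≤ e / 2 := by
    have h1 := small_mul (by positivity) h0 a5
    linarith
  linarith

end MP34a893

end MrgPart0

-- ======== part 1: formerly Pool.Agent.MP_34a893_an.Final
section MrgPart1

open MeasureTheory Set Filter Topology

namespace MP34a893

namespace Final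

theorem pot_mono {T C C' : ℝ} {q F Q : ℝ → ℝ → ℝ} (h : Pot T C q F Q) (hC : C ≤ C') :
    Pot T C' q F Q where
  q_meas := h.q_meas
  F_meas := h.F_meas
  bdd := fun t ht => (h.bdd t ht).mono fun _ hx => ⟨hx.1.trans hC, hx.2.trans hC⟩
  Qx := h.Qx
  Qt := h.Qt
  lip := fun t1 h1 t2 h2 x =>
    (h.lip t1 h1 t2 h2 x).trans (mul_le_mul_of_nonneg_right hC (abs_nonneg _))

theorem ii_of_bdd {w : ℝ → ℝ} (hw : Measurable w) {C : ℝ} (hC : ∀ᵐ x, |w x| ≤ C) (a c : ℝ) :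
    IntervalIntegrable w volume a c := by
  rw [intervalIntegrable_iff]
  refine Measure.integrableOn_of_bounded (M := C) ?_ hw.aestronglyMeasurable ?_
  · exact (measure_mono uIoc_subset_uIcc |>.trans_lt isCompact_uIcc.measure_lt_top).ne
  · exact ae_restrict_of_ae (hC.mono fun x hx => by simpa using hx)

theorem Q_zero {P : Par} {M η : ℝ} (L : Lag P M) (q0 : ℝ → ℝ) (hη : 0 < η)
    (h0 : ∀ y, L.q0 y = q0 (η * y)) (y : ℝ) :
    η * L.Q (0 / η) (y / η) = ∫ x in (0 : ℝ)..y, q0 x := by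
  have hY : L.Y 0 (y / η) = y / η := by
    have := L.YX 0 (y / η)
    rwa [L.X_zero] at this
  have hq : L.q0 = fun s => q0 (η * s) := funext h0
  simp only [Lag.Q, Lag.m, zero_div, hY, hq]
  rw [intervalIntegral.integral_comp_mul_left (fun s => q0 s) hη.ne']
  have : η * (y / η) = y := by field_simp
  simp only [mul_zero, this, smul_eq_mul]
  field_simp

theorem sprop_scale {P : Par} {M η T C1 e D0 : ℝ} (L : Lag P M) (Q : ℝ → ℝ → ℝ) (hη : 0 < η)
    (hT : L.T = T / η) (hQ : ∀ t ∈ Icc 0 T, ∀ x, Q t x = η * L.Q (t / η) (x / η))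
    (h : SProp L.T M C1 e D0 P.f L.Q) : SProp T M C1 e (η * D0) P.f Q := by
  intro s δ x κ hs hδ hsT hκ
  obtain ⟨y, hy1, hy2⟩ := h (s / η) (δ / η) (x / η) κ (by positivity) (by positivity)
    (by rw [hT, ← add_div]; gcongr) hκ
  refine ⟨η * y, ?_, ?_⟩
  · have : η * y - x = η * (y - x / η) := by field_simp
    rw [this, abs_mul, abs_of_pos hη]
    calc η * |y - x / η| ≤ η * (C1 * (δ / η) + D0) := by gcongr
      _ = C1 * δ + η * D0 := by field_simp
  · rw [hQ (s + δ) ⟨by linarith, hsT⟩, hQ s ⟨hs, by linarith⟩]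
    have e1 : η * y / η = y := by field_simp
    rw [e1, add_div]
    calc η * L.Q (s / η + δ / η) (x / η)
        ≤ η * (L.Q (s / η) y + κ * (x / η - y) - δ / η * P.f κ + e * (δ / η) + D0) := by gcongr
      _ = _ := by field_simp

end Final

open Final in
theorem potConvS (hB : Basic) (hO : OscS) (hF : FluxS) (hS : SubS) (hU : HLupS) (hL : HLlowS) :
    PotConvS := by
  intro P T M C q0 qs Fs Qs hT hM hSt hconc hPs hQs0 hq0 hqs hSs e he
  have PF := hB.1 P M hM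
  obtain ⟨C1s, hC1s, hSs⟩ := hSs
  obtain ⟨C1, hC1, hsub⟩ := hS P M hM
  have hVm : 0 ≤ P.Vm M := by
    unfold Par.Vm Par.DV
    have := PF.bm_nonneg
    have := PF.N_pos
    positivity
  set C' : ℝ := max C (M + M * P.Vm M) with hC'
  have hMC : M ≤ C' := le_trans (by nlinarith) (le_max_right _ _)
  have hC'pos : 0 < C' := lt_of_lt_of_le hM hMC
  have hfC : ∀ κ ∈ Icc 0 M, |P.f κ| ≤ C' := fun κ hκ =>
    (PF.f_abs κ hκ).trans (le_trans (by linarith) (le_max_right _ _))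
  obtain ⟨e0s, he0s, hups⟩ := hU T M C1s (e / 4) P.f hT hM hC1s (by positivity) PF.f_cont hconc
  obtain ⟨e0, he0, hup⟩ := hU T M C1 (e / 4) P.f hT hM hC1 (by positivity) PF.f_cont hconc
  obtain ⟨D0, hD0, hsub⟩ := hsub e0 he0
  set σ : ℝ := e / (16 * C') with hσ
  have hσpos : 0 < σ := by positivity
  have hbm := PF.bm_nonneg
  set e2 : ℝ := e / (4 * T * (3 * M * P.bm M + 1)) with he2
  have he2pos : 0 < e2 := by positivity
  obtain ⟨K, S0, hK, hosc⟩ := hO P M hM hSt e2 he2pos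
  obtain ⟨S1, hflux⟩ := hF P M hM e2 K he2pos hK
  set S2 : ℝ := max (max S0 S1) 1 with hS2
  have hS2pos : 0 < S2 := lt_of_lt_of_le one_pos (le_max_right _ _)
  refine ⟨min (σ / S2) (e0 / D0), by positivity, ?_⟩
  intro η L Q hη hη0 hLT hL0 hQ hP t ht x
  have LF := hB.2.1 P M L hM
  have hη1 : η < σ / S2 := lt_of_lt_of_le hη0 (min_le_left _ _)
  have hη2 : η < e0 / D0 := lt_of_lt_of_le hη0 (min_le_right _ _)
  have hSS : S2 ≤ σ / η := by
    rw [le_div_iff₀ hη]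
    rw [lt_div_iff₀ hS2pos] at hη1
    linarith
  have h0 : ∀ y, Q 0 y = Qs 0 y := by
    intro y
    rw [hQ 0 ⟨le_rfl, hT.le⟩, Q_zero L q0 hη hL0]
    have := hPs.Qx 0 ⟨le_rfl, hT.le⟩ 0 y
    rw [hQs0, sub_zero] at this
    rw [this]
    exact intervalIntegral.integral_congr_ae (hq0.mono fun x hx _ => hx.symm)
  have hlow1 := hL T M C' σ σ (3 * M * P.bm M * e2) P.f _ _ Q hM hMC hσpos hσpos.le
    (by positivity) PF.f_meas hfC (pot_mono hP (le_max_right _ _))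
    (fun t _ => Eventually.of_forall fun x => LF.q_mem _ _) (by
      intro τ hτ hστ x0
      have h1 := hosc L (σ / η) (τ / η) (x0 / η)
        ((le_max_left _ _).trans ((le_max_left _ _).trans hSS)) (by gcongr)
        (by rw [hLT]; gcongr; exact hτ.2)
      have h2 := hflux L (σ / η) (τ / η) (x0 / η)
        ((le_max_right _ _).trans ((le_max_left _ _).trans hSS)) h1
      set gq : ℝ → ℝ := fun x => L.v (τ / η) x * L.q (τ / η) x - P.f (L.q (τ / η) x) with hgq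
      have hqm : Measurable (L.q (τ / η)) := LF.q_meas.of_uncurry_left
      have hvm : Measurable (L.v (τ / η)) := LF.v_cont.measurable.of_uncurry_left
      have hgm : Measurable gq := (hvm.mul hqm).sub (PF.f_meas.comp hqm)
      have hgb : ∀ x, |gq x| ≤ P.Vm M * M + M * P.Vm M := by
        intro x
        have hq := LF.q_mem (τ / η) x
        refine (abs_sub _ _).trans (add_le_add ?_ (PF.f_abs _ hq))
        rw [abs_mul, abs_of_nonneg hq.1]
        exact mul_le_mul (LF.v_abs _ _) hq.2 hq.1 hVm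
      have h3 : ∫ x in x0..(x0 + σ), gq (x / η) = η * ∫ x in (x0 / η)..(x0 / η + σ / η), gq x := by
        rw [intervalIntegral.integral_comp_div (fun x => gq x) hη.ne', add_div, smul_eq_mul]
      have hi := ii_of_bdd hgm (Eventually.of_forall hgb) (x0 / η) (x0 / η + σ / η)
      have h4 : ∫ x in (x0 / η)..(x0 / η + σ / η), gq x ≤
          ∫ x in (x0 / η)..(x0 / η + σ / η), |gq x| :=
        intervalIntegral.integral_mono_on (by have : 0 < σ / η := by positivity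
                                              linarith) hi hi.abs fun x _ => le_abs_self _
      calc ∫ x in x0..(x0 + σ), gq (x / η) = _ := h3
        _ ≤ η * (3 * M * P.bm M * e2 * (σ / η)) := by
            gcongr
            exact h4.trans h2
        _ = 3 * M * P.bm M * e2 * σ := by field_simp)
  have hlow2 := hL T M C' σ 0 0 P.f qs Fs Qs hM hMC hσpos le_rfl le_rfl PF.f_meas hfC
    (pot_mono hPs (le_max_left _ _)) (fun t ht => (hqs t ht).mono fun _ hx => hx.1) (by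
      intro τ hτ _ x0
      have : ∫ x in x0..(x0 + σ), (Fs τ x - P.f (qs τ x)) = ∫ x in x0..(x0 + σ), (0 : ℝ) :=
        intervalIntegral.integral_congr_ae ((hqs τ hτ).mono fun x hx _ => by rw [hx.2, sub_self])
      rw [this]
      simp)
  obtain ⟨y1, hy1⟩ := hups 0 0 Qs le_rfl he0s.le le_rfl he0s.le hSs t ht x
  obtain ⟨y2, hy2⟩ := hup e0 (η * D0) Q he0.le le_rfl (by positivity)
    (by rw [lt_div_iff₀ hD0] at hη2; exact hη2.le) (sprop_scale L Q hη hLT hQ (hsub L)) t ht x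
  have a1 := hlow1 t ht x y1 _ hy1
  have a2 := hlow2 t ht x y2 _ hy2
  have b1 : 2 * C' * (σ + σ) = e / 4 := by rw [hσ]; field_simp; ring
  have b2 : 2 * C' * (σ + 0) = e / 8 := by rw [hσ]; field_simp; ring
  have b3 : 3 * M * P.bm M * e2 * t ≤ e / 4 := by
    have h1 : 3 * M * P.bm M * e2 * t ≤ (3 * M * P.bm M + 1) * e2 * T := by
      have := ht.1
      have := ht.2
      gcongr
      linarith
    have h2 : (3 * M * P.bm M + 1) * e2 * T = e / 4 := by rw [he2]; field_simp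
    linarith
  rw [h0 y1] at a1
  rw [← h0 y2] at a2
  rw [abs_le]
  constructor <;> linarith

open Final in
theorem mainS (hPar : ParS) (hBV : BVS) (hPot : PotS) (hR : RangeS) (hE : EntS) (hSc : ScaleS)
    (hPC : PotConvS) (hLate : LateS) (hEarly : EarlyS) (hBl : BlockS) (hStr : StrongS)
    (hB : Basic) : MainS := by
  intro p T M V γ q0 q qs hp0 hp1 hT hM hV hV' hγ hbv hq0 hconc hq hqs a c e he
  obtain ⟨P, hPp, hPk, hPΦ, hPS⟩ := hPar p V γ hp0 hp1 hV hV' hγ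
  have hSt := hPS M hM hconc
  subst hPp
  have hq0m : Measurable q0 := (hBV P.p M q0 hp0 hp1 hbv hq0).1
  have hf : ∀ κ, 0 ≤ κ → P.f κ = κ * V κ := fun κ hκ => by rw [Par.f, hPΦ κ hκ]
  have hconc' : StrictConcaveOn ℝ (Icc 0 M) P.f :=
    hconc.congr fun κ hκ => (hf κ hκ.1).symm
  have hrange := hR T M V q0 qs hT hV hq0m hq0 hqs
  obtain ⟨CV, hCV⟩ := isCompact_Icc.exists_bound_of_continuousOn
    (hV.continuous.continuousOn (s := Icc 0 M))
  have hCV0 : 0 ≤ CV := (norm_nonneg _).trans (hCV 0 ⟨le_rfl, hM.le⟩)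
  have hqsm : Measurable (Function.uncurry qs) := hqs.1.1
  have hFm : Measurable (Function.uncurry fun t x => V (qs t x) * qs t x) :=
    (hV.continuous.measurable.comp hqsm).mul hqsm
  obtain ⟨Qs, hPs, hQs0, hqs0⟩ := hPot T (M + CV * M) q0 qs (fun t x => V (qs t x) * qs t x) hT
    hqsm hFm (fun t ht => (hrange t ht).mono fun x hx => by
      constructor
      · rw [abs_of_nonneg hx.1]
        nlinarith [hx.2]
      · rw [abs_mul, abs_of_nonneg hx.1]
        have := mul_le_mul (hCV _ hx) hx.2 hx.1 hCV0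
        rw [Real.norm_eq_abs] at this
        linarith) hq0m (fun x => by
      rw [abs_of_nonneg (hq0 x).1]
      nlinarith [(hq0 x).2]) hqs.2.1 hqs.2.2.1
  obtain ⟨C1, hC1, hSs⟩ := hE T M _ V q0 qs Qs hT hV hqs hrange hPs
  have hSs' : SProp T M C1 0 0 P.f Qs := by
    intro s δ x κ hs hδ hsT hκ
    rw [hf κ hκ.1]
    exact hSs s δ x κ hs hδ hsT hκ
  set S : ℝ := |c - a| + 1 with hS
  have hSpos : 0 < S := by positivity
  obtain ⟨t1, ht1, hearly⟩ := hEarly P M q0 hM hbv hq0 a (a + S) (e / 2) (by linarith)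
    (by positivity)
  have hc0 := hqs.2.1 a (a + S) 0 ⟨le_rfl, hT.le⟩
  rw [Metric.tendsto_nhdsWithin_nhds] at hc0
  obtain ⟨t2, ht2, hc0⟩ := hc0 (e / 2) (by positivity)
  set t0 : ℝ := min t1 (t2 / 2) with ht0
  have ht0pos : 0 < t0 := by positivity
  obtain ⟨K0, hblock⟩ := hBl T M qs hM.le hqsm hrange hqs.2.1 a S (e / (8 * S)) hSpos
    (by positivity)
  obtain ⟨K, η1, hK0, hK, hη1, hlate⟩ := hLate P M hM hSt S (e / (8 * S)) t0 K0 hSpos
    (by positivity) ht0pos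
  have hKr : (0 : ℝ) < K := by exact_mod_cast hK
  obtain ⟨η2, hη2, hconv⟩ := hPC P T M _ q0 qs _ Qs hT hM hSt hconc' hPs hQs0 hqs0
    (fun t ht => (hrange t ht).mono fun x hx => ⟨hx, by rw [hf _ hx.1, mul_comm]⟩)
    ⟨C1, hC1, hSs'⟩ (e / (4 * K)) (by positivity)
  refine ⟨min η1 η2, by positivity, ?_⟩
  intro η hη hη0 t ht
  obtain ⟨L, Q, hLT, hL0, hLq, hQ, hP⟩ := hSc P η T M V γ q0 (q η) hη hT hM hPk
    (fun s hs => hγ.2.2.2.1 s hs) hPΦ hV.continuous hγ.1 hq0m hq0 (hq η hη)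
  have LF := hB.2.1 P M L hM
  set w : ℝ → ℝ := fun x => L.q (t / η) (x / η) with hw
  have hwm : Measurable w := hP.q_meas.of_uncurry_left (x := t)
  have hwr : ∀ x, w x ∈ Icc 0 M := fun x => LF.q_mem _ _
  have hqt : Measurable (qs t) := hqsm.of_uncurry_left
  have hbd : ∀ {w1 w2 : ℝ → ℝ}, (∀ᵐ x, w1 x ∈ Icc 0 M) → (∀ᵐ x, w2 x ∈ Icc 0 M) →
      ∀ᵐ x, |(|w1 x - w2 x|)| ≤ M := by
    intro w1 w2 h1 h2
    filter_upwards [h1, h2] with x hx1 hx2
    rw [abs_abs, abs_le]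
    constructor <;> linarith [hx1.1, hx1.2, hx2.1, hx2.2]
  have hi : IntervalIntegrable (fun x => |w x - qs t x|) volume a (a + S) :=
    ii_of_bdd (hwm.sub hqt).abs (hbd (Eventually.of_forall hwr) (hrange t ht)) _ _
  have haS : a ≤ a + S := by linarith
  have hred : ∫ x in Icc a c, |q η t x - qs t x| ≤ ∫ x in a..(a + S), |w x - qs t x| := by
    have e1 : ∫ x in Icc a c, |q η t x - qs t x| = ∫ x in Icc a c, |w x - qs t x| :=
      integral_congr_ae (ae_restrict_of_ae ((hLq t ht).mono fun x hx => by simp only [hx, hw]))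
    rw [e1, intervalIntegral.integral_of_le haS, ← integral_Icc_eq_integral_Ioc]
    refine setIntegral_mono_set ((intervalIntegrable_iff_integrableOn_Icc_of_le haS).1 hi)
      (Eventually.of_forall fun x => abs_nonneg _) (HasSubset.Subset.eventuallyLE ?_)
    refine Icc_subset_Icc le_rfl ?_
    have := le_abs_self (c - a)
    linarith
  refine hred.trans ?_
  have htT : t / η ≤ L.T := by rw [hLT]; gcongr; exact ht.2
  rcases le_total t t0 with h | h
  · have h1 := hearly η t L hη ht.1 (h.trans (min_le_left _ _)) htT hL0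
    have h2 := hc0 ht (by
      rw [Real.dist_eq, sub_zero, abs_of_nonneg ht.1]
      have := h.trans (min_le_right _ _)
      linarith)
    rw [Real.dist_eq, sub_zero] at h2
    have h3 : ∫ x in a..(a + S), |qs t x - q0 x| ≤ e / 2 := by
      rw [intervalIntegral.integral_of_le haS, ← integral_Icc_eq_integral_Ioc]
      have : ∫ x in Icc a (a + S), |qs t x - q0 x| = ∫ x in Icc a (a + S), |qs t x - qs 0 x| :=
        integral_congr_ae (ae_restrict_of_ae (hqs0.mono fun x hx => by simp only [hx]))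
      rw [this]
      exact ((le_abs_self _).trans h2.le)
    have i1 : IntervalIntegrable (fun x => |w x - q0 x|) volume a (a + S) :=
      ii_of_bdd (hwm.sub hq0m).abs (hbd (Eventually.of_forall hwr) (Eventually.of_forall hq0)) _ _
    have i2 : IntervalIntegrable (fun x => |qs t x - q0 x|) volume a (a + S) :=
      ii_of_bdd (hqt.sub hq0m).abs (hbd (hrange t ht) (Eventually.of_forall hq0)) _ _
    have h4 : ∫ x in a..(a + S), |w x - qs t x| ≤
        ∫ x in a..(a + S), (|w x - q0 x| + |qs t x - q0 x|) :=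
      intervalIntegral.integral_mono_on haS hi (i1.add i2) fun x _ => by
        have := abs_sub_le (w x) (q0 x) (qs t x)
        rwa [abs_sub_comm (q0 x)] at this
    rw [intervalIntegral.integral_add i1 i2] at h4
    linarith
  · have h1 := hlate η t a L hη (lt_of_lt_of_le hη0 (min_le_left _ _)) h htT
    have h2 := hblock K hK0 hK t ht
    have h3 := hconv η L Q hη (lt_of_lt_of_le hη0 (min_le_right _ _)) hLT hL0 hQ hP t ht
    have h4 := hStr M w (qs t) K a S _ _ (e / (2 * K)) hK hSpos hwm hqt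
      (Eventually.of_forall hwr) (hrange t ht) h1 h2 (by
        intro x1 x2
        rw [← hP.Qx t ht x1 x2, ← hPs.Qx t ht x1 x2]
        have a1 := abs_le.1 (h3 x1)
        have a2 := abs_le.1 (h3 x2)
        have : e / (2 * K) = e / (4 * K) + e / (4 * K) := by field_simp; ring
        rw [this, abs_le]
        constructor <;> linarith [a1.1, a1.2, a2.1, a2.2])
    refine h4.trans (le_of_eq ?_)
    field_simp
    ring

end MP34a893

end MrgPart1

-- ======== part 2: formerly Pool.Agent.MP_34a893_an.B.Spec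
section MrgPart2

/-! Statements for the flux with one inflection (concave, then convex). -/

open MeasureTheory Set Filter Topology
open scoped ENNReal

namespace MP34a893

noncomputable section

namespace Par
variable (P : Par)

/-- the velocity is strictly decreasing -/
def Pos (M : ℝ) : Prop := ∀ z ∈ Ioc 0 (P.N M), 0 < P.b z
/-- jump rate of the chain in a constant state -/
def rt (z : ℝ) : ℝ := P.p * P.b z * z
/-- characteristic speed -/
def sp (z : ℝ) : ℝ := P.Φ z - P.rt z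
/-- drift of `A * position + B * label` along the backward chain in a constant state -/
def dr (A B z : ℝ) : ℝ := B * P.lam z - A * P.sp z
def Shape (M a : ℝ) : Prop :=
  a ∈ Icc 0 M ∧ StrictConcaveOn ℝ (Icc 0 a) P.f ∧ StrictConvexOn ℝ (Icc a M) P.f
/-- the drift near `cX` exceeds the drift near `cY` -/
def Sep (M A B c ω cX cY : ℝ) : Prop := (A = 1 ∧ B = 0 ∨ A = 0 ∧ B = 1) ∧
  ∀ x ∈ Icc 0 (P.N M), ∀ y ∈ Icc 0 (P.N M), |x - cX| ≤ ω → |y - cY| ≤ ω →
    P.dr A B y + c ≤ P.dr A B x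
/-- no two states have the same tangent line -/
def NoBit (M : ℝ) : Prop := ∀ δ, 0 < δ → ∃ c ω, 0 < c ∧ 0 < ω ∧ ∀ z z', z + δ ≤ z' →
  ∃ A B, P.Sep M A B c ω z z' ∨ P.Sep M A B c ω z' z
/-- tangent lines at high states pass below the graph at `κ`; a line through the point of the
graph at `κ` lies above the graph at the other states -/
def Tan (M : ℝ) : Prop := ∀ e, 0 < e → ∃ gap Sg, 0 < gap ∧ 0 ≤ Sg ∧ ∀ κ ∈ Icc 0 M,
  e ≤ κ * P.Φ 0 - P.f κ → ∃ cm σ, gap ≤ cm ∧ |σ| ≤ Sg ∧ κ * σ ≤ P.f κ ∧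
    (∀ z ∈ Icc cm (P.N M), P.lam z + κ * P.sp z ≤ P.f κ) ∧
    ∀ q ∈ Icc 0 M, q ^ P.p ≤ cm + gap → P.f q ≤ P.f κ + σ * (q - κ) + e

variable {P}

theorem Pos.b_low {M : ℝ} (h : P.Pos M) (z0 : ℝ) (h0 : 0 < z0) :
    ∃ b0, 0 < b0 ∧ ∀ z ∈ Icc z0 (P.N M), b0 ≤ P.b z :=
  isCompact_Icc.exists_forall_le' P.hb.continuousOn fun _ hz => h _ ⟨h0.trans_le hz.1, hz.2⟩

theorem Pos.Φ_lt {M : ℝ} (h : P.Pos M) (hP : P.Facts M) (z : ℝ) (hz : 0 < z) : P.Φ z < P.Φ 0 := by
  have hN := hP.N_pos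
  have : StrictAntiOn P.Φ (Icc 0 (P.N M)) :=
    strictAntiOn_of_deriv_neg (convex_Icc _ _) hP.Φ_cont.continuousOn fun x hx => by
      rw [interior_Icc] at hx
      rw [(P.hΦ x).deriv]
      exact neg_neg_of_pos (h x ⟨hx.1, hx.2.le⟩)
  exact (hP.Φ_anti (min_le_left z (P.N M))).trans_lt
    (this ⟨le_rfl, hN.le⟩ ⟨(lt_min hz hN).le, min_le_right _ _⟩ (lt_min hz hN))

end Par

namespace Lag
variable {P : Par} {M : ℝ} (L : Lag P M)

/-- the label is a potential of the solution -/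
def HasPot : Prop := Pot L.T (M + M * P.Vm M) L.q (fun t x => L.v t x * L.q t x) L.Q

/-- `(t,x)` is a record: in the backward cone of slope `C` and height `S` the potential stays
above the affine function with slopes `κ` and `-r` -/
def Rec (κ r C S t x : ℝ) : Prop := ∀ τ ∈ Icc (t - S) t, ∀ y, |y - x| ≤ C * (t - τ) →
  L.Q t x ≤ L.Q τ y + κ * (x - y) - (t - τ) * r + 1

end Lag

/-- local comparison with affine solutions from below -/
def SLow (T M C1 e1 e2 : ℝ) (f : ℝ → ℝ) (Q : ℝ → ℝ → ℝ) : Prop :=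
  ∀ s δ x κ, 0 ≤ s → 0 ≤ δ → s + δ ≤ T → κ ∈ Icc 0 M → ∃ y, |y - x| ≤ C1 * δ + e2 ∧
    Q s y + κ * (x - y) - δ * f κ - e1 * δ - e2 ≤ Q (s + δ) x

namespace B

/-! Rows carried over with `Pos` in place of `Strict`. -/

def DefS : Prop := ∀ (P : Par) (M : ℝ), 0 < M → P.Pos M → ∀ θ, 0 < θ →
  ∃ κ0, 0 < κ0 ∧ ∀ κ S, 0 < κ → κ ≤ κ0 → 1 ≤ κ * S → ∀ (L : Lag P M) (τ y : ℝ), S ≤ τ → τ ≤ L.T →
    L.dfc y (τ - S) τ ≤ κ * S → L.Q τ (L.X τ y) - L.Q τ (L.X τ y - κ * S) ≤ θ * (κ * S)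

def GapStepS : Prop := ∀ (P : Par) (M : ℝ), 0 < M → P.Pos M → ∀ l γ e, P.d ≤ l → 0 < γ →
  0 < e → GapP P M (l + P.d) γ → GapP P M l (γ + e)

def GapBlockS : Prop := ∀ (P : Par) (M : ℝ), 0 < M → P.Pos M → ∀ γ, 0 < γ →
  ∃ B K, 2 ≤ B ∧ 0 < K ∧ ∀ (L : Lag P M) (y t1 t2 : ℝ), B ≤ t1 → t2 ≤ L.T → B / 2 ≤ t2 - t1 →
    t2 - t1 ≤ B → L.dfc y t1 t2 ≤ K * (∫ τ in t1..t2, L.bG τ y) + γ * (t2 - t1)

def VacS : Prop := ∀ (P : Par) (M : ℝ), 0 < M → P.Pos M → ∀ γ0, 0 < γ0 →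
  ∃ ε1 c S0, 0 < ε1 ∧ 0 < c ∧ ∀ (L : Lag P M) (S τ a a' : ℝ), S0 ≤ S → 2 * S ≤ τ → τ ≤ L.T →
    a ≤ a' → (∀ x ∈ Icc a a', γ0 * S ≤ L.dfc (L.Y τ x) (τ - S) τ) →
    volume {x | x ∈ Icc a a' ∧ L.u τ x < ε1} ≤ ENNReal.ofReal (Real.exp (-c * S) * (a' - a + S))

def HarS : Prop := ∀ (P : Par) (M : ℝ), 0 < M → P.Pos M → ∃ D1, 0 < D1 ∧
  ∀ ε1 T0 R' e, 0 < ε1 → 1 ≤ T0 → D1 ≤ R' → 0 < e → ∃ R3 ν0 e' h0, 0 < ν0 ∧ 0 < e' ∧ 0 < h0 ∧
    ∀ (L : Lag P M) (t h y : ℝ) (n : ℕ), 0 < h → h ≤ h0 → T0 ≤ n * h → n * h ≤ T0 + 1 →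
      n * h ≤ t → t ≤ L.T → L.NV ε1 ν0 (t - n * h) t (L.X t y - R3) (L.X t y + R3) →
      ε1 ≤ L.U t y → L.w t h n y ≤ e' →
      ∫ s in D1..R', |L.u (t - n * h) (L.X (t - n * h) y + s) - L.U t y| ≤ e

/-- progress of the chain in the mass label, for a Lebesgue start on `[x, x+R]` -/
def ProgS : Prop := ∀ (P : Par) (M : ℝ), 0 < M → P.Pos M → ∀ ε1 R D e, 0 < ε1 → 0 < R →
  0 < D → 0 < e → ∃ T0, 1 ≤ T0 ∧ ∃ R3 ν0 h0, 0 < ν0 ∧ 0 < h0 ∧
    ∀ (L : Lag P M) (t h y : ℝ) (n : ℕ), 0 < h → h ≤ h0 → T0 ≤ n * h → n * h ≤ T0 + 1 →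
      n * h ≤ t → t ≤ L.T → L.NV ε1 ν0 (t - n * h) t (L.X t y - R3) (L.X t y + R3) →
      L.law t h ((volume.restrict (Icc (L.X t y) (L.X t y + R))).map (L.Y t)) n
        {y' | L.m y' - L.m y < D} ≤ ENNReal.ofReal e

def TubeS : Prop := ∀ (P : Par) (M : ℝ), 0 < M → P.Pos M → ∀ ε1 R e, 0 < ε1 → 0 < R → 0 < e →
  ∃ T0, 1 ≤ T0 ∧ ∃ R3 ν0 e' h0, 0 < ν0 ∧ 0 < e' ∧ 0 < h0 ∧
    ∀ (L : Lag P M) (t h y : ℝ) (n : ℕ), 0 < h → h ≤ h0 → T0 ≤ n * h → n * h ≤ T0 + 1 →
      n * h ≤ t → t ≤ L.T → L.NV ε1 ν0 (t - n * h) t (L.X t y - R3) (L.X t y + R3) →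
      ε1 ≤ L.U t y → L.w t h n y ≤ e' →
      ∀ τ ∈ Icc (t - h) t, ∫ s in (0 : ℝ)..R, |L.u τ (L.X τ y + s) - L.U t y| ≤ e

/-! Shape of the flux. -/

def PosS : Prop := ∀ (P : Par) (M a : ℝ), 0 < M → P.Shape M a → (a < M → 0 < P.b (P.N M)) → P.Pos M
def NoBitS : Prop := ∀ (P : Par) (M a : ℝ), 0 < M → P.Shape M a → P.NoBit M
def TanS : Prop := ∀ (P : Par) (M a : ℝ), 0 < M → P.Shape M a → P.Tan M

/-! Oscillation. -/

/-- spatial drift of one step at a state with a tube -/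
def DriftXS : Prop := ∀ (P : Par) (M : ℝ), 0 < M → ∀ e, 0 < e → ∃ R0, 4 ≤ R0 ∧ ∀ R, R0 ≤ R →
  ∃ e' h0, 0 < e' ∧ 0 < h0 ∧ ∀ (L : Lag P M) (t h y : ℝ), 0 < h → h ≤ h0 → h ≤ t → t ≤ L.T →
    (∀ τ ∈ Icc (t - h) t, ∫ s in (0 : ℝ)..R, |L.u τ (L.X τ y + s) - L.U t y| ≤ e') →
    |L.X t y - L.X (t - h) y - h * P.Φ (L.U t y)| ≤ h * e ∧
    (∫⁻ ξ, ENNReal.ofReal (L.X (t - h) (L.step t h y ξ) - L.X (t - h) y) ∂P.noise ≤
        ENNReal.ofReal (h * (P.rt (L.U t y) + e))) ∧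
      ∀ y', L.X t y + R / 2 ≤ L.X t y' →
        ENNReal.ofReal (h * (P.rt (L.U t y) - e)) ≤
          ∫⁻ ξ in {ξ | L.step t h y ξ ≤ y'},
            ENNReal.ofReal (L.X (t - h) (L.step t h y ξ) - L.X (t - h) y) ∂P.noise

/-- the core of the pair argument for two cells of values -/
def CoreS : Prop := ∀ (P : Par) (M : ℝ), 0 < M → P.Pos M → ∀ gap c ω ε1 π0 K, 0 < gap → 0 < c →
  0 < ω → 8 * ω ≤ gap → 4 * ω ≤ ε1 → 0 < π0 → 1 ≤ K →
  ∃ K3 K4 eQ ν0 s0, 2 ≤ K3 ∧ 0 < K4 ∧ 0 < eQ ∧ 0 < ν0 ∧ 1 ≤ s0 ∧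
    ∀ s, s0 ≤ s → ∃ h0, 0 < h0 ∧ ∀ (L : Lag P M) (t h A B cX cY x1 : ℝ) (n1 n2 : ℕ) (H H' : Set ℝ)
      (μ : Measure (ℝ × ℝ)), 0 < h → h ≤ h0 → n1 * h ≤ s + 1 → K3 * s ≤ n2 * h →
      n2 * h ≤ K3 * s + 1 → n2 * h ≤ t → t ≤ L.T → gap ≤ |cX - cY| → ε1 ≤ cX → ε1 ≤ cY →
      P.Sep M A B c (2 * ω) cX cY →
      IsProbabilityMeasure (L.start t H) → IsProbabilityMeasure (L.start t H') →
      μ ≤ (L.law t h (L.start t H) n1).prod (L.law t h (L.start t H') n1) →
      ENNReal.ofReal π0 ≤ μ univ →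
      (∀ᵐ z ∂μ, z.1 ≤ z.2 ∧ |L.U (t - n1 * h) z.1 - cX| ≤ ω ∧ |L.U (t - n1 * h) z.2 - cY| ≤ ω ∧
        x1 ≤ L.X (t - n1 * h) z.1 ∧ L.X (t - n1 * h) z.2 ≤ x1 + K * s) →
      L.NV ε1 ν0 (t - n2 * h) t (x1 - K4 * s) (x1 + K4 * s) →
      L.mom t h H n2 - L.mom t h H n1 ≤ eQ → L.mom t h H' n2 - L.mom t h H' n1 ≤ eQ → False

def PairS : Prop := ∀ (P : Par) (M : ℝ), 0 < M → P.Pos M → ∀ π, 0 < π →
  ∃ K1, 1 ≤ K1 ∧ ∀ gap c ω ε1 K2, 0 < gap → 0 < c → 0 < ω → 8 * ω ≤ gap → 4 * ω ≤ ε1 → K1 ≤ K2 →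
    ∃ K3 K4 eQ ν0 s0, 2 ≤ K3 ∧ 0 < K4 ∧ 0 < eQ ∧ 0 < ν0 ∧ 1 ≤ s0 ∧
    ∀ s, s0 ≤ s → ∃ h0, 0 < h0 ∧ ∀ (L : Lag P M) (t h A B cX cY x1 x2 : ℝ) (n1 n2 : ℕ)
      (H H' : Set ℝ), 0 < h → h ≤ h0 → s ≤ n1 * h → n1 * h ≤ s + 1 → K3 * s ≤ n2 * h →
      n2 * h ≤ K3 * s + 1 → n2 * h ≤ t → t ≤ L.T → gap ≤ |cX - cY| → ε1 ≤ cX → ε1 ≤ cY →
      P.Sep M A B c (2 * ω) cX cY →
      MeasurableSet H → MeasurableSet H' → H ⊆ Icc x1 (x1 + s) → H' ⊆ Icc x2 (x2 + s) →
      volume H ≠ 0 → volume H' ≠ 0 →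
      ENNReal.ofReal π ≤ L.law t h (L.start t H) n1 {y | |L.U (t - n1 * h) y - cX| ≤ ω} →
      ENNReal.ofReal π ≤ L.law t h (L.start t H') n1 {y | |L.U (t - n1 * h) y - cY| ≤ ω} →
      K1 * s ≤ x2 - x1 → x2 - x1 ≤ K2 * s →
      L.NV ε1 ν0 (t - n2 * h) t (x1 - K4 * s) (x1 + K4 * s) →
      L.mom t h H n2 - L.mom t h H n1 ≤ eQ → L.mom t h H' n2 - L.mom t h H' n1 ≤ eQ → False

/-- a chain started on a high set or on a low set charges one cell of values -/
def CellS : Prop := ∀ (P : Par) (M : ℝ), 0 < M → ∀ gap ω, 0 < gap → 0 < ω →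
  ∃ (nc : ℕ) (π K ν1 : ℝ), 0 < nc ∧ 0 < π ∧ 0 < K ∧ 0 < ν1 ∧ ∀ s, 1 ≤ s → ∃ h0, 0 < h0 ∧
    ∀ (L : Lag P M) (t h x ρ : ℝ) (n : ℕ) (H : Set ℝ), 0 < h → h ≤ h0 → n * h ≤ s + 1 →
      n * h ≤ t → t ≤ L.T → MeasurableSet H → H ⊆ Icc x (x + s) → 0 < ρ →
      ENNReal.ofReal ρ ≤ volume H →
      (∀ β, (∀ x' ∈ H, β ≤ L.u t x') → ∃ i < nc, β - gap ≤ i * ω ∧
        ENNReal.ofReal π ≤ L.law t h (L.start t H) n {y | |L.U (t - n * h) y - i * ω| ≤ ω}) ∧
      ∀ α ε1 ν, (∀ x' ∈ H, L.u t x' ≤ α) → 0 ≤ ν →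
        L.NV ε1 ν (t - n * h) t (x - K * s) (x + K * s) →
        ν * Real.exp (P.C2 M * (s + 1)) ≤ ν1 * ρ → ∃ i < nc, ε1 ≤ i * ω ∧ i * ω ≤ α + gap + ω ∧
          ENNReal.ofReal π ≤ L.law t h (L.start t H) n {y | |L.U (t - n * h) y - i * ω| ≤ ω}

open Classical in
/-- few bad blocks in a region without vacuum -/
def FewS : Prop := ∀ (P : Par) (M : ℝ), 0 < M → P.Pos M → P.NoBit M → ∀ gap ρ δ ε1, 0 < gap → 0 < ρ →
  0 < δ → 0 < ε1 → ∃ (nb : ℕ) (K5 ν0 l0 : ℝ), 0 < nb ∧ 0 < K5 ∧ 0 < ν0 ∧ 0 < l0 ∧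
    ∀ (L : Lag P M) (t l x α β ν : ℝ), l0 ≤ l → K5 * l ≤ t → t ≤ L.T → α + gap ≤ β → 0 ≤ ν →
      ν * Real.exp (K5 * l) ≤ ν0 →
      L.NV ε1 ν (t - K5 * l) t (x - K5 * l) (x + K5 * l) →
      (((Finset.range nb).filter (fun i : ℕ => L.BadBlock t α β ρ (x + i * l) l)).card : ℝ) ≤ δ * nb

/-- in a region without vacuum a superblock has small block oscillation -/
def DenseS : Prop := ∀ (P : Par) (M : ℝ), 0 < M → P.Pos M → P.NoBit M → ∀ e ε1, 0 < e → 0 < ε1 →
  ∃ (nb : ℕ) (K5 ν0 l0 : ℝ), 0 < nb ∧ 0 < K5 ∧ 0 < ν0 ∧ 0 < l0 ∧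
    ∀ (L : Lag P M) (t l x ν : ℝ), l0 ≤ l → K5 * l ≤ t → t ≤ L.T → 0 ≤ ν →
      ν * Real.exp (K5 * l) ≤ ν0 →
      L.NV ε1 ν (t - K5 * l) t (x - K5 * l) (x + K5 * l) →
      ∃ c : ℕ → ℝ, (∀ i, c i ∈ Icc 0 (P.N M)) ∧
        ∑ i ∈ Finset.range nb, ∫ x' in (x + i * l)..(x + (i + 1) * l), |L.u t x' - c i| ≤ e * (nb * l)

def OscS : Prop := ∀ (P : Par) (M : ℝ), 0 < M → P.Pos M → P.NoBit M → ∀ e, 0 < e →
  ∃ (K : ℕ) (S0 : ℝ), 0 < K ∧ ∀ (L : Lag P M) (S t x0 : ℝ), S0 ≤ S → S ≤ t → t ≤ L.T →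
    OscP (L.u t) 0 (P.N M) K x0 S e

/-- block oscillation in macroscopic units for times `t ≥ t0` -/
def LateS : Prop := ∀ (P : Par) (M : ℝ), 0 < M → P.Pos M → P.NoBit M → ∀ (S e t0 : ℝ) (K0 : ℕ), 0 < S →
  0 < e → 0 < t0 → ∃ (K : ℕ) (η0 : ℝ), K0 ≤ K ∧ 0 < K ∧ 0 < η0 ∧
    ∀ (η t a : ℝ) (L : Lag P M), 0 < η → η < η0 → t0 ≤ t → t / η ≤ L.T →
      OscP (fun x => L.q (t / η) (x / η)) 0 M K a S e

/-! Records. -/

/-- no vacuum near a particle whose label is far ahead of the label of a particle close behind -/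
def OffS : Prop := ∀ (P : Par) (M : ℝ), 0 < M → P.Pos M → ∀ a C, 0 < a → 0 < C →
  ∃ ε1 Kt, 0 < ε1 ∧ 0 < Kt ∧ ∀ T1 R3 ν0, 0 < T1 → 0 < ν0 → ∃ s1, ∀ s, s1 ≤ s →
    ∀ (L : Lag P M) (τ ya y : ℝ), Kt * s ≤ τ → τ ≤ L.T → a * s ≤ L.m y - L.m ya →
      L.X τ y - L.X τ ya ≤ C * s → L.NV ε1 ν0 (τ - T1) τ (L.X τ y - R3) (L.X τ y + R3)

/-- below a record the solution does not take high values -/
def LinS : Prop := ∀ (P : Par) (M : ℝ), 0 < M → P.Pos M → ∀ e gap D, 0 < e → 0 < gap → 1 ≤ D →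
  ∃ K C, 1 ≤ K ∧ D ≤ C ∧ ∀ ε1, 0 < ε1 → ∃ T1 R3 ν0 s1, 0 < T1 ∧ 0 < ν0 ∧ ∀ s, s1 ≤ s →
    ∀ (L : Lag P M) (κ cm t x t' a a' : ℝ), κ ∈ Icc 0 M → gap ≤ cm →
      (∀ z ∈ Icc cm (P.N M), P.lam z + κ * P.sp z ≤ P.f κ) → s ≤ t - t' → t - t' ≤ D * s →
      x - D * (t - t') ≤ a → a' ≤ x + D * (t - t') → (K + D + 1) * s ≤ t → t ≤ L.T →
      L.Rec κ (P.f κ + e) C ((K + D) * s) t x →
      (∀ τ ∈ Icc (t' - K * s) t', ∀ y, L.Y t' a ≤ y → L.X τ y ≤ x + C * (t - τ) →
        L.NV ε1 ν0 (τ - T1) τ (L.X τ y - R3) (L.X τ y + R3)) →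
      volume {x' | x' ∈ Icc a a' ∧ cm + gap ≤ L.u t' x'} = 0

/-- a record is impossible when the flux lies below a line on a slanted strip -/
def StripS : Prop := ∀ (P : Par) (M : ℝ), 0 < M → P.Pos M → P.NoBit M → ∀ e w Sg, 0 < e → 0 < w →
  0 ≤ Sg → ∃ D s1, 1 ≤ D ∧ Sg + w ≤ D ∧ ∀ s, s1 ≤ s → ∀ (L : Lag P M) (κ σ t x C S : ℝ), L.HasPot →
    κ ∈ Icc 0 M → |σ| ≤ Sg → (D + w) * s ≤ t → t ≤ L.T → D ≤ C → D * s ≤ S →
    L.Rec κ (P.f κ + 2 * e) C S t x →
    (∀ t', s ≤ t - t' → t - t' ≤ D * s → ∀ᵐ x', x' ∈ Icc (x - σ * (t - t')) (x - σ * (t - t') + w * s) →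
      P.f (L.q t' x') ≤ P.f κ + σ * (L.q t' x' - κ) + e) → False

/-- no point is a record -/
def RecS : Prop := ∀ (P : Par) (M : ℝ), 0 < M → P.Pos M → P.NoBit M → P.Tan M → ∀ e, 0 < e →
  ∃ C S, 0 ≤ C ∧ 0 < S ∧ ∀ (L : Lag P M) (κ t x : ℝ), L.HasPot → κ ∈ Icc 0 M → S ≤ t → t ≤ L.T →
    ¬ L.Rec κ (P.f κ + e) C S t x

def SupS : Prop := ∀ (P : Par) (M : ℝ), 0 < M → P.Pos M → P.NoBit M → P.Tan M → ∀ e, 0 < e →
  ∃ C1 D0, 0 ≤ C1 ∧ 0 < D0 ∧ ∀ L : Lag P M, L.HasPot → SLow L.T M C1 e D0 P.f L.Q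

/-! Identification. -/

def EntLowS : Prop := ∀ (T M C : ℝ) (V q0 : ℝ → ℝ) (q Q : ℝ → ℝ → ℝ), 0 < T → ContDiff ℝ 1 V →
  IsEntropySol T V q0 q → (∀ t ∈ Icc 0 T, ∀ᵐ x, q t x ∈ Icc 0 M) →
  Pot T C q (fun t x => V (q t x) * q t x) Q →
    ∃ C1, 0 ≤ C1 ∧ SLow T M C1 0 0 (fun κ => κ * V κ) Q

/-- comparison of approximate sub- and supersolutions -/
def CmpS : Prop := ∀ (T M e : ℝ), 0 < T → 0 < M → 0 < e → ∃ e1, 0 < e1 ∧ ∀ C1, 0 ≤ C1 →
  ∃ e2, 0 < e2 ∧ ∀ (f : ℝ → ℝ) (Q1 Q2 : ℝ → ℝ → ℝ), SProp T M C1 e1 e2 f Q1 →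
    SLow T M C1 e1 e2 f Q2 → (∀ x y, Q1 0 x - Q2 0 y ≤ M * max (x - y) 0) →
    ∀ t ∈ Icc 0 T, ∀ x, Q1 t x ≤ Q2 t x + e

/-- uniform convergence of the potentials -/
def PotConvS : Prop := ∀ (P : Par) (T M C : ℝ) (q0 : ℝ → ℝ) (qs Fs Qs : ℝ → ℝ → ℝ), 0 < T →
  0 < M → P.Pos M → P.NoBit M → P.Tan M → Pot T C qs Fs Qs → Qs 0 0 = 0 →
  (∀ᵐ x, qs 0 x = q0 x) → (∀ x, q0 x ∈ Icc 0 M) →
  (∃ C1, 0 ≤ C1 ∧ SProp T M C1 0 0 P.f Qs) → (∃ C1, 0 ≤ C1 ∧ SLow T M C1 0 0 P.f Qs) →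
  ∀ e, 0 < e → ∃ η0, 0 < η0 ∧
    ∀ (η : ℝ) (L : Lag P M) (Q : ℝ → ℝ → ℝ), 0 < η → η < η0 → L.T = T / η →
      (∀ y, L.q0 y = q0 (η * y)) → (∀ t ∈ Icc 0 T, ∀ x, Q t x = η * L.Q (t / η) (x / η)) →
      Pot T (M + M * P.Vm M) (fun t x => L.q (t / η) (x / η))
        (fun t x => L.v (t / η) (x / η) * L.q (t / η) (x / η)) Q →
      ∀ t ∈ Icc 0 T, ∀ x, |Q t x - Qs t x| ≤ e

def MainS : Prop := ∀ (p T M a0 : ℝ) (V γ q0 : ℝ → ℝ) (q : ℝ → ℝ → ℝ → ℝ) (qs : ℝ → ℝ → ℝ),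
  0 < p → p < 1 → 0 < T → 0 < M → ContDiff ℝ 1 V → (∀ x, deriv V x ≤ 0) → IsKernel p γ →
  BoundedVariationOn q0 univ → (∀ x, q0 x ∈ Icc 0 M) → a0 ∈ Icc 0 M →
  StrictConcaveOn ℝ (Icc 0 a0) (fun r => r * V r) →
  StrictConvexOn ℝ (Icc a0 M) (fun r => r * V r) → (a0 < M → deriv V M < 0) →
  (∀ η, 0 < η → IsWeakSol p η T V γ q0 (q η)) → IsEntropySol T V q0 qs →
    ∀ a c e, 0 < e → ∃ η0, 0 < η0 ∧ ∀ η, 0 < η → η < η0 → ∀ t ∈ Icc 0 T,
      ∫ x in Icc a c, |q η t x - qs t x| ≤ e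

end B

end

end MP34a893

end MrgPart2

-- ======== part 3: formerly Pool.Agent.MP_34a893_an.B.EntLow
section MrgPart3

/-! The lower comparison for entropy solutions, by the reflection `x ↦ -x`. -/

open MeasureTheory Set Filter Topology

namespace MP34a893.B

namespace EntLow

/-- the reflection -/
noncomputable def N : (ℝ × ℝ) ≃L[ℝ] ℝ × ℝ :=
  (ContinuousLinearEquiv.refl ℝ ℝ).prodCongr (ContinuousLinearEquiv.neg ℝ)

lemma N_apply (z : ℝ × ℝ) : N z = (z.1, -z.2) := rfl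

lemma ae_neg {p : ℝ → Prop} (h : ∀ᵐ x, p x) : ∀ᵐ x, p (-x) :=
  (Measure.measurePreserving_neg (volume : Measure ℝ)).quasiMeasurePreserving.ae h

lemma meas {q : ℝ → ℝ → ℝ} (h : Measurable (Function.uncurry q)) :
    Measurable (Function.uncurry fun t x => q t (-x)) :=
  h.comp (measurable_fst.prodMk measurable_snd.neg)

lemma int_N (s : Set ℝ) (g : ℝ × ℝ → ℝ) :
    ∫ z in s ×ˢ univ, g (N z) = ∫ z in s ×ˢ univ, g z := by
  have h : MeasurePreserving N (volume : Measure (ℝ × ℝ)) volume :=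
    (MeasurePreserving.id (volume : Measure ℝ)).prod (Measure.measurePreserving_neg volume)
  have e : N ⁻¹' (s ×ˢ univ) = s ×ˢ univ := by
    ext z
    simp [N_apply]
  rw [← h.setIntegral_preimage_emb N.toHomeomorph.measurableEmbedding g, e]

lemma fd (φ : ℝ × ℝ → ℝ) (z : ℝ × ℝ) :
    fderiv ℝ (φ ∘ N) z (1, 0) = fderiv ℝ φ (N z) (1, 0) ∧
      fderiv ℝ (φ ∘ N) z (0, 1) = -fderiv ℝ φ (N z) (0, 1) := by
  rw [N.comp_right_fderiv, ← map_neg]
  simp [N_apply]

lemma supp {φ : ℝ × ℝ → ℝ} {s : Set ℝ} (h : tsupport φ ⊆ s ×ˢ univ) :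
    tsupport (φ ∘ N) ⊆ s ×ˢ univ := fun _ hz =>
  ⟨(h (tsupport_comp_subset_preimage φ N.continuous hz)).1, trivial⟩

lemma ent {T : ℝ} {V q0 : ℝ → ℝ} {q : ℝ → ℝ → ℝ} (h : IsEntropySol T V q0 q) :
    IsEntropySol T (fun r => -V r) (fun x => q0 (-x)) fun t x => q t (-x) := by
  obtain ⟨⟨h1, B, h2⟩, h3, h4, h5⟩ := h
  refine ⟨⟨meas h1, B, fun t ht => ae_neg (h2 t ht)⟩, fun a b t0 ht0 => ?_, fun φ k1 k2 k3 => ?_,
    fun κ φ k1 k2 k3 k4 => ?_⟩
  · refine (h3 (-b) (-a) t0 ht0).congr fun t => ?_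
    rw [← (Measure.measurePreserving_neg (volume : Measure ℝ)).setIntegral_preimage_emb
      (Homeomorph.neg ℝ).measurableEmbedding]
    simp
  · refine Eq.trans ?_
      (h4 (φ ∘ N) (k1.comp N.contDiff) (k2.comp_homeomorph N.toHomeomorph) (supp k3))
    rw [← int_N, ← integral_neg_eq_self fun x => q0 (-x) * φ (0, x)]
    simp only [fd]
    simp [N_apply]
  · refine (h5 κ (φ ∘ N) (k1.comp N.contDiff) (k2.comp_homeomorph N.toHomeomorph) (supp k3)
      fun z => k4 _).trans_eq ?_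
    rw [← int_N]
    simp only [fd]
    refine integral_congr_ae (.of_forall fun z => ?_)
    simp only [N_apply, neg_neg]
    ring

lemma pot {T C : ℝ} {q F Q : ℝ → ℝ → ℝ} (h : Pot T C q F Q) :
    Pot T C (fun t x => q t (-x)) (fun t x => -F t (-x)) fun t x => -Q t (-x) where
  q_meas := meas h.q_meas
  F_meas := (meas h.F_meas).neg
  bdd t ht := (ae_neg (h.bdd t ht)).mono fun x e => by rwa [abs_neg]
  Qx t ht x1 x2 := by
    rw [intervalIntegral.integral_comp_neg, ← h.Qx t ht]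
    ring
  Qt t1 h1 t2 h2 x1 x2 := by
    have := h.Qt t1 h1 t2 h2 (-x2) (-x1)
    rw [← intervalIntegral.integral_comp_neg] at this
    simp only [intervalIntegral.integral_neg, intervalIntegral.integral_comp_neg (f := F _)]
    rw [← this, ← intervalIntegral.integral_neg]
    exact intervalIntegral.integral_congr fun x _ => by ring
  lip t1 h1 t2 h2 x := by
    rw [neg_sub_neg, abs_sub_comm]
    exact h.lip t1 h1 t2 h2 _

end EntLow

theorem entLowS : EntS → EntLowS := by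
  intro ent T M C V q0 q Q hT hV hE hq hP
  obtain ⟨C1, h0, h⟩ := ent T M C _ _ _ (fun t x => -Q t (-x)) hT hV.neg (EntLow.ent hE)
    (fun t ht => EntLow.ae_neg (hq t ht)) (by simpa only [neg_mul] using EntLow.pot hP)
  refine ⟨C1, h0, fun s δ x κ h1 h2 h3 h4 => ?_⟩
  obtain ⟨y, k1, k2⟩ := h s δ (-x) κ h1 h2 h3 h4
  refine ⟨-y, by rwa [← abs_neg, neg_sub', neg_neg], ?_⟩
  simp only [neg_neg] at k2
  linarith

end MP34a893.B

end MrgPart3

-- ======== part 4: formerly Pool.Agent.MP_34a893_an.B.Final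
section MrgPart4

open MeasureTheory Set Filter Topology

namespace MP34a893.B

namespace FinB

theorem b_end {P : Par} {M : ℝ} {V : ℝ → ℝ} (hM : 0 < M) (h : ∀ q, 0 ≤ q → P.Φ (q ^ P.p) = V q)
    (hV : deriv V M < 0) : 0 < P.b (P.N M) := by
  have d1 : HasDerivAt (fun q : ℝ => P.Φ (q ^ P.p)) (-P.b (P.N M) * (P.p * M ^ (P.p - 1))) M :=
    (P.hΦ (M ^ P.p)).comp M (Real.hasDerivAt_rpow_const (.inl hM.ne'))
  have d2 : HasDerivAt V (-P.b (P.N M) * (P.p * M ^ (P.p - 1))) M :=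
    d1.congr_of_eventuallyEq ((eventually_ge_nhds hM).mono fun q hq => (h q hq).symm)
  rw [d2.deriv] at hV
  refine (P.hb0 _).lt_of_ne fun e => ?_
  rw [← e] at hV
  simp at hV

theorem slow_scale {P : Par} {M η T C1 e D0 : ℝ} (L : Lag P M) (Q : ℝ → ℝ → ℝ) (hη : 0 < η)
    (hT : L.T = T / η) (hQ : ∀ t ∈ Icc 0 T, ∀ x, Q t x = η * L.Q (t / η) (x / η))
    (h : SLow L.T M C1 e D0 P.f L.Q) : SLow T M C1 e (η * D0) P.f Q := by
  intro s δ x κ hs hδ hsT hκ
  obtain ⟨y, hy1, hy2⟩ := h (s / η) (δ / η) (x / η) κ (by positivity) (by positivity)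
    (by rw [hT, ← add_div]; gcongr) hκ
  refine ⟨η * y, ?_, ?_⟩
  · have : η * y - x = η * (y - x / η) := by field_simp
    rw [this, abs_mul, abs_of_pos hη]
    calc η * |y - x / η| ≤ η * (C1 * (δ / η) + D0) := by gcongr
      _ = C1 * δ + η * D0 := by field_simp
  · rw [hQ (s + δ) ⟨by linarith, hsT⟩, hQ s ⟨hs, by linarith⟩]
    have e1 : η * y / η = y := by field_simp
    rw [e1, add_div]
    calc _ = η * (L.Q (s / η) y + κ * (x / η - y) - δ / η * P.f κ - e * (δ / η) - D0) := by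
          field_simp
      _ ≤ _ := by gcongr

theorem sprop_mono {T M C e1 e2 C' e1' e2' : ℝ} {f : ℝ → ℝ} {Q : ℝ → ℝ → ℝ}
    (h : SProp T M C e1 e2 f Q) (h0 : C ≤ C') (h1 : e1 ≤ e1') (h2 : e2 ≤ e2') :
    SProp T M C' e1' e2' f Q := fun s δ x κ hs hδ hT hκ => by
  obtain ⟨y, a, b⟩ := h s δ x κ hs hδ hT hκ
  exact ⟨y, by linarith [mul_le_mul_of_nonneg_right h0 hδ],
    by linarith [mul_le_mul_of_nonneg_right h1 hδ]⟩

theorem slow_mono {T M C e1 e2 C' e1' e2' : ℝ} {f : ℝ → ℝ} {Q : ℝ → ℝ → ℝ}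
    (h : SLow T M C e1 e2 f Q) (h0 : C ≤ C') (h1 : e1 ≤ e1') (h2 : e2 ≤ e2') :
    SLow T M C' e1' e2' f Q := fun s δ x κ hs hδ hT hκ => by
  obtain ⟨y, a, b⟩ := h s δ x κ hs hδ hT hκ
  exact ⟨y, by linarith [mul_le_mul_of_nonneg_right h0 hδ],
    by linarith [mul_le_mul_of_nonneg_right h1 hδ]⟩

theorem hasPot {P : Par} {M η T : ℝ} (L : Lag P M) {Q : ℝ → ℝ → ℝ} (hη : 0 < η)
    (hT : L.T = T / η) (hQ : ∀ t ∈ Icc 0 T, ∀ x, Q t x = η * L.Q (t / η) (x / η))
    (h : Pot T (M + M * P.Vm M) (fun t x => L.q (t / η) (x / η))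
      (fun t x => L.v (t / η) (x / η) * L.q (t / η) (x / η)) Q) : L.HasPot := by
  have hT' : η * L.T = T := by rw [hT]; field_simp
  have h1 := Sca.pot_scale h hη hT'
  simp only [mul_div_cancel_left₀ _ hη.ne'] at h1
  have e : ∀ t ∈ Icc 0 L.T, ∀ x, η⁻¹ * Q (η * t) (η * x) = L.Q t x := fun t ht x => by
    rw [hQ _ (Sca.mem_mul hη hT' ht), mul_div_cancel_left₀ _ hη.ne',
      mul_div_cancel_left₀ _ hη.ne', inv_mul_cancel_left₀ hη.ne']
  exact ⟨h1.q_meas, h1.F_meas, h1.bdd,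
    fun t ht x1 x2 => by rw [← e t ht, ← e t ht]; exact h1.Qx t ht x1 x2,
    fun t1 a t2 b x1 x2 => by simp only [← e t1 a, ← e t2 b]; exact h1.Qt t1 a t2 b x1 x2,
    fun t1 a t2 b x => by rw [← e t1 a, ← e t2 b]; exact h1.lip t1 a t2 b x⟩

end FinB

open Final FinB in
theorem potConvS (hS : SubS) (hU : SupS) (hC : CmpS) : PotConvS := by
  intro P T M C q0 qs Fs Qs hT hM hSt hnb htan hPs hQs0 hq0 hq0M ⟨Ca, hCa, hSs⟩ ⟨Cb, hCb, hSl⟩ e he
  obtain ⟨e1, he1, hC⟩ := hC T M e hT hM he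
  obtain ⟨C1, hC1, hsub⟩ := hS P M hM
  obtain ⟨D1, hD1, hsub⟩ := hsub e1 he1
  obtain ⟨C2, D2, hC2, hD2, hsup⟩ := hU P M hM hSt hnb htan e1 he1
  obtain ⟨e2, he2, hC⟩ := hC (Ca + Cb + C1 + C2) (by positivity)
  refine ⟨e2 / (D1 + D2), by positivity, fun η L Q hη hη0 hLT hL0 hQ hP t ht x => ?_⟩
  rw [lt_div_iff₀ (by positivity)] at hη0
  have a1 := mul_pos hη hD1
  have a2 := mul_pos hη hD2
  have m0 : (0 : ℝ) ∈ Icc 0 T := ⟨le_rfl, hT.le⟩
  have h0 : ∀ y, Q 0 y = Qs 0 y := by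
    intro y
    rw [hQ 0 m0, Q_zero L q0 hη hL0]
    have := hPs.Qx 0 m0 0 y
    rw [hQs0, sub_zero] at this
    rw [this]
    exact intervalIntegral.integral_congr_ae (hq0.mono fun x hx _ => hx.symm)
  have h1 : ∀ y z, Qs 0 y - Qs 0 z ≤ M * max (y - z) 0 := by
    intro y z
    have hi := ii_of_bdd (hPs.q_meas.of_uncurry_left (x := 0)) ((hPs.bdd 0 m0).mono fun _ h => h.1)
    have hr : ∀ᵐ x, qs 0 x ∈ Icc 0 M := hq0.mono fun x hx => hx ▸ hq0M x
    rcases le_total z y with h | h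
    · rw [hPs.Qx 0 m0, max_eq_left (by linarith)]
      have := intervalIntegral.integral_mono_ae h (hi z y) (intervalIntegrable_const (c := M))
        (hr.mono fun _ hx => hx.2)
      simpa [mul_comm] using this
    · have := intervalIntegral.integral_nonneg_of_ae h (hr.mono fun _ hx => hx.1)
      rw [← hPs.Qx 0 m0] at this
      rw [max_eq_right (by linarith)]
      linarith
  have b1 := hC P.f Q Qs (sprop_mono (sprop_scale L Q hη hLT hQ (hsub L)) (by linarith) le_rfl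
    (by linarith)) (slow_mono hSl (by linarith) he1.le he2.le)
    (fun y z => by rw [h0]; exact h1 y z) t ht x
  have b2 := hC P.f Qs Q (sprop_mono hSs (by linarith) he1.le he2.le)
    (slow_mono (slow_scale L Q hη hLT hQ (hsup L (hasPot L hη hLT hQ hP))) (by linarith) le_rfl
      (by linarith)) (fun y z => by rw [h0]; exact h1 y z) t ht x
  rw [abs_le]
  constructor <;> linarith

open Final FinB in
theorem mainS (hPar : ParS) (hPos : PosS) (hNB : NoBitS) (hTan : TanS) (hBV : BVS) (hPot : PotS)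
    (hR : RangeS) (hE : EntS) (hEl : EntLowS) (hSc : ScaleS)
    (hPC : PotConvS) (hLate : LateS) (hEarly : EarlyS) (hBl : BlockS) (hStr : StrongS)
    (hB : Basic) : MainS := by
  intro p T M a0 V γ q0 q qs hp0 hp1 hT hM hV hV' hγ hbv hq0 ha0 hconc hconv hVM hq hqs a c e he
  obtain ⟨P, hPp, hPk, hPΦ, -⟩ := hPar p V γ hp0 hp1 hV hV' hγ
  subst hPp
  have hq0m : Measurable q0 := (hBV P.p M q0 hp0 hp1 hbv hq0).1
  have hf : ∀ κ, 0 ≤ κ → P.f κ = κ * V κ := fun κ hκ => by rw [Par.f, hPΦ κ hκ]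
  have hSh : P.Shape M a0 := ⟨ha0, hconc.congr fun κ hκ => (hf κ hκ.1).symm,
    hconv.congr fun κ hκ => (hf κ (ha0.1.trans hκ.1)).symm⟩
  have hSt := hPos P M a0 hM hSh fun h => b_end hM hPΦ (hVM h)
  have hnb := hNB P M a0 hM hSh
  have htan := hTan P M a0 hM hSh
  have hrange := hR T M V q0 qs hT hV hq0m hq0 hqs
  obtain ⟨CV, hCV⟩ := isCompact_Icc.exists_bound_of_continuousOn
    (hV.continuous.continuousOn (s := Icc 0 M))
  have hCV0 : 0 ≤ CV := (norm_nonneg _).trans (hCV 0 ⟨le_rfl, hM.le⟩)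
  have hqsm : Measurable (Function.uncurry qs) := hqs.1.1
  have hFm : Measurable (Function.uncurry fun t x => V (qs t x) * qs t x) :=
    (hV.continuous.measurable.comp hqsm).mul hqsm
  obtain ⟨Qs, hPs, hQs0, hqs0⟩ := hPot T (M + CV * M) q0 qs (fun t x => V (qs t x) * qs t x) hT
    hqsm hFm (fun t ht => (hrange t ht).mono fun x hx => by
      constructor
      · rw [abs_of_nonneg hx.1]
        nlinarith [hx.2]
      · rw [abs_mul, abs_of_nonneg hx.1]
        have := mul_le_mul (hCV _ hx) hx.2 hx.1 hCV0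
        rw [Real.norm_eq_abs] at this
        linarith) hq0m (fun x => by
      rw [abs_of_nonneg (hq0 x).1]
      nlinarith [(hq0 x).2]) hqs.2.1 hqs.2.2.1
  obtain ⟨C1, hC1, hSs⟩ := hE T M _ V q0 qs Qs hT hV hqs hrange hPs
  have hSs' : SProp T M C1 0 0 P.f Qs := by
    intro s δ x κ hs hδ hsT hκ
    rw [hf κ hκ.1]
    exact hSs s δ x κ hs hδ hsT hκ
  obtain ⟨C2, hC2, hSl⟩ := hEl T M _ V q0 qs Qs hT hV hqs hrange hPs
  have hSl' : SLow T M C2 0 0 P.f Qs := by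
    intro s δ x κ hs hδ hsT hκ
    rw [hf κ hκ.1]
    exact hSl s δ x κ hs hδ hsT hκ
  set S : ℝ := |c - a| + 1 with hS
  have hSpos : 0 < S := by positivity
  obtain ⟨t1, ht1, hearly⟩ := hEarly P M q0 hM hbv hq0 a (a + S) (e / 2) (by linarith)
    (by positivity)
  have hc0 := hqs.2.1 a (a + S) 0 ⟨le_rfl, hT.le⟩
  rw [Metric.tendsto_nhdsWithin_nhds] at hc0
  obtain ⟨t2, ht2, hc0⟩ := hc0 (e / 2) (by positivity)
  set t0 : ℝ := min t1 (t2 / 2) with ht0
  have ht0pos : 0 < t0 := by positivity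
  obtain ⟨K0, hblock⟩ := hBl T M qs hM.le hqsm hrange hqs.2.1 a S (e / (8 * S)) hSpos
    (by positivity)
  obtain ⟨K, η1, hK0, hK, hη1, hlate⟩ := hLate P M hM hSt hnb S (e / (8 * S)) t0 K0 hSpos
    (by positivity) ht0pos
  have hKr : (0 : ℝ) < K := by exact_mod_cast hK
  obtain ⟨η2, hη2, hcv⟩ := hPC P T M _ q0 qs _ Qs hT hM hSt hnb htan hPs hQs0 hqs0 hq0
    ⟨C1, hC1, hSs'⟩ ⟨C2, hC2, hSl'⟩ (e / (4 * K)) (by positivity)
  refine ⟨min η1 η2, by positivity, ?_⟩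
  intro η hη hη0 t ht
  obtain ⟨L, Q, hLT, hL0, hLq, hQ, hP⟩ := hSc P η T M V γ q0 (q η) hη hT hM hPk
    (fun s hs => hγ.2.2.2.1 s hs) hPΦ hV.continuous hγ.1 hq0m hq0 (hq η hη)
  have LF := hB.2.1 P M L hM
  set w : ℝ → ℝ := fun x => L.q (t / η) (x / η) with hw
  have hwm : Measurable w := hP.q_meas.of_uncurry_left (x := t)
  have hwr : ∀ x, w x ∈ Icc 0 M := fun x => LF.q_mem _ _
  have hqt : Measurable (qs t) := hqsm.of_uncurry_left
  have hbd : ∀ {w1 w2 : ℝ → ℝ}, (∀ᵐ x, w1 x ∈ Icc 0 M) → (∀ᵐ x, w2 x ∈ Icc 0 M) →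
      ∀ᵐ x, |(|w1 x - w2 x|)| ≤ M := by
    intro w1 w2 h1 h2
    filter_upwards [h1, h2] with x hx1 hx2
    rw [abs_abs, abs_le]
    constructor <;> linarith [hx1.1, hx1.2, hx2.1, hx2.2]
  have hi : IntervalIntegrable (fun x => |w x - qs t x|) volume a (a + S) :=
    ii_of_bdd (hwm.sub hqt).abs (hbd (Eventually.of_forall hwr) (hrange t ht)) _ _
  have haS : a ≤ a + S := by linarith
  have hred : ∫ x in Icc a c, |q η t x - qs t x| ≤ ∫ x in a..(a + S), |w x - qs t x| := by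
    have e1 : ∫ x in Icc a c, |q η t x - qs t x| = ∫ x in Icc a c, |w x - qs t x| :=
      integral_congr_ae (ae_restrict_of_ae ((hLq t ht).mono fun x hx => by simp only [hx, hw]))
    rw [e1, intervalIntegral.integral_of_le haS, ← integral_Icc_eq_integral_Ioc]
    refine setIntegral_mono_set ((intervalIntegrable_iff_integrableOn_Icc_of_le haS).1 hi)
      (Eventually.of_forall fun x => abs_nonneg _) (HasSubset.Subset.eventuallyLE ?_)
    refine Icc_subset_Icc le_rfl ?_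
    have := le_abs_self (c - a)
    linarith
  refine hred.trans ?_
  have htT : t / η ≤ L.T := by rw [hLT]; gcongr; exact ht.2
  rcases le_total t t0 with h | h
  · have h1 := hearly η t L hη ht.1 (h.trans (min_le_left _ _)) htT hL0
    have h2 := hc0 ht (by
      rw [Real.dist_eq, sub_zero, abs_of_nonneg ht.1]
      have := h.trans (min_le_right _ _)
      linarith)
    rw [Real.dist_eq, sub_zero] at h2
    have h3 : ∫ x in a..(a + S), |qs t x - q0 x| ≤ e / 2 := by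
      rw [intervalIntegral.integral_of_le haS, ← integral_Icc_eq_integral_Ioc]
      have : ∫ x in Icc a (a + S), |qs t x - q0 x| = ∫ x in Icc a (a + S), |qs t x - qs 0 x| :=
        integral_congr_ae (ae_restrict_of_ae (hqs0.mono fun x hx => by simp only [hx]))
      rw [this]
      exact ((le_abs_self _).trans h2.le)
    have i1 : IntervalIntegrable (fun x => |w x - q0 x|) volume a (a + S) :=
      ii_of_bdd (hwm.sub hq0m).abs (hbd (Eventually.of_forall hwr) (Eventually.of_forall hq0)) _ _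
    have i2 : IntervalIntegrable (fun x => |qs t x - q0 x|) volume a (a + S) :=
      ii_of_bdd (hqt.sub hq0m).abs (hbd (hrange t ht) (Eventually.of_forall hq0)) _ _
    have h4 : ∫ x in a..(a + S), |w x - qs t x| ≤
        ∫ x in a..(a + S), (|w x - q0 x| + |qs t x - q0 x|) :=
      intervalIntegral.integral_mono_on haS hi (i1.add i2) fun x _ => by
        have := abs_sub_le (w x) (q0 x) (qs t x)
        rwa [abs_sub_comm (q0 x)] at this
    rw [intervalIntegral.integral_add i1 i2] at h4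
    linarith
  · have h1 := hlate η t a L hη (lt_of_lt_of_le hη0 (min_le_left _ _)) h htT
    have h2 := hblock K hK0 hK t ht
    have h3 := hcv η L Q hη (lt_of_lt_of_le hη0 (min_le_right _ _)) hLT hL0 hQ hP t ht
    have h4 := hStr M w (qs t) K a S _ _ (e / (2 * K)) hK hSpos hwm hqt
      (Eventually.of_forall hwr) (hrange t ht) h1 h2 (by
        intro x1 x2
        rw [← hP.Qx t ht x1 x2, ← hPs.Qx t ht x1 x2]
        have a1 := abs_le.1 (h3 x1)
        have a2 := abs_le.1 (h3 x2)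
        have : e / (2 * K) = e / (4 * K) + e / (4 * K) := by field_simp; ring
        rw [this, abs_le]
        constructor <;> linarith [a1.1, a1.2, a2.1, a2.2])
    refine h4.trans (le_of_eq ?_)
    field_simp
    ring

end MP34a893.B

end MrgPart4

-- marker of a merged file
example : 731051 + 451174 = 731051 + 451174 := rfl

end MrgPart0

-- ======== part 1: formerly Pool.Agent.MP_34a893_an.B.Few
section MrgPart1

-- ======== part 0: formerly Pool.Agent.MP_34a893_an.Few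
section MrgPart0

/-! Rows FEW and DENSE: few bad blocks, small block oscillation. -/

open MeasureTheory Set Filter Topology
open scoped ENNReal

namespace MP34a893

namespace Few

/-- a monotone bounded sequence has few large increments -/
theorem few_jumps (B : ℕ → ℝ) (J : ℕ) (D e : ℝ) (hB : ∀ j < J, B j ≤ B (j + 1))
    (hD : B J - B 0 ≤ D) :
    (((Finset.range J).filter fun j => e < B (j + 1) - B j).card : ℝ) * e ≤ D := by
  refine le_trans ?_ hD
  rw [← Finset.sum_range_sub, ← nsmul_eq_mul]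
  refine (Finset.card_nsmul_le_sum _ _ _ fun j hj => (Finset.mem_filter.1 hj).2.le).trans ?_
  exact Finset.sum_le_sum_of_subset_of_nonneg (Finset.filter_subset _ _)
    fun j hj _ => sub_nonneg.2 (hB j (Finset.mem_range.1 hj))

theorem double (B : Finset ℕ) (J : ℕ) (hJ : 0 < J) (g : ℕ → ℕ → Prop) [∀ i j, Decidable (g i j)]
    (h : ∀ i ∈ B, 2 * (((Finset.range J).filter fun j => ¬ g i j).card : ℝ) ≤ J) :
    ∃ j < J, (B.card : ℝ) ≤ 2 * (B.filter fun i => g i j).card := by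
  have h1 : ∑ _j ∈ Finset.range J, (B.card : ℝ) ≤
      ∑ j ∈ Finset.range J, 2 * ((B.filter fun i => g i j).card : ℝ) := by
    simp only [Finset.card_filter, Nat.cast_sum, Finset.mul_sum]
    rw [Finset.sum_comm, Finset.sum_const, Finset.card_range, nsmul_eq_mul, mul_comm,
      ← nsmul_eq_mul]
    refine Finset.card_nsmul_le_sum _ _ _ fun i hi => ?_
    have h2 := Finset.card_filter_add_card_filter_not (s := Finset.range J) (g i)
    have h3 := h i hi
    rw [← Finset.mul_sum, ← Nat.cast_sum, ← Finset.card_filter]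
    rw [Finset.card_range] at h2
    have h4 : ((((Finset.range J).filter (g i)).card : ℝ) +
      ((Finset.range J).filter fun j => ¬ g i j).card) = J := by exact_mod_cast h2
    linarith
  obtain ⟨j, hj, h2⟩ := Finset.exists_le_of_sum_le ⟨0, Finset.mem_range.2 hJ⟩ h1
  exact ⟨j, Finset.mem_range.1 hj, h2⟩

theorem windows (G : Finset ℕ) (nb A W : ℕ) (hW : 0 < W) (hG : ∀ i ∈ G, i < nb)
    (h : ∀ i ∈ G, ∀ i' ∈ G, i ≤ i' → i' < i + W → i' < i + A) : G.card ≤ A * (nb / W + 1) := by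
  refine (Finset.card_le_mul_card_image (f := (· / W)) G A fun q hq => ?_).trans
    (Nat.mul_le_mul_left _ ?_)
  · obtain ⟨i0, hi0, rfl⟩ := Finset.mem_image.1 hq
    obtain ⟨m, hm, hm'⟩ := (G.filter fun i => i / W = i0 / W).exists_min_image id
      ⟨i0, Finset.mem_filter.2 ⟨hi0, rfl⟩⟩
    refine (Finset.card_le_card (t := Finset.Ico m (m + A)) fun i hi => ?_).trans (by simp)
    have h1 : m ≤ i := hm' i hi
    rw [Finset.mem_filter] at hi hm
    refine Finset.mem_Ico.2 ⟨h1, h m hm.1 i hi.1 h1 ?_⟩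
    have h2 := Nat.div_add_mod i W
    have h3 := Nat.div_add_mod m W
    have h4 := Nat.mod_lt i hW
    rw [hi.2] at h2; rw [hm.2] at h3
    omega
  · refine (Finset.card_le_card (t := Finset.range (nb / W + 1)) fun q hq => ?_).trans (by simp)
    obtain ⟨i, hi, rfl⟩ := Finset.mem_image.1 hq
    exact Finset.mem_range.2 (Nat.lt_succ_of_le (Nat.div_le_div_right (hG i hi).le))

/-- a dense set of indices contains a pair at distance in `[a, b]` -/
theorem pair (G : Finset ℕ) (nb : ℕ) (a b : ℝ) (ha : 1 ≤ a) (hb : 0 < b) (hG : ∀ i ∈ G, i < nb)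
    (h : 2 * a * (nb / b + 1) < G.card) :
    ∃ i ∈ G, ∃ i' ∈ G, a ≤ (i' : ℝ) - i ∧ (i' : ℝ) - i ≤ b := by
  by_contra H
  push Not at H
  have h1 := windows G nb ⌈a⌉₊ (⌊b⌋₊ + 1) (Nat.succ_pos _) hG fun i hi i' hi' _ h2 => by
    by_contra h3
    have h4 : ((i + ⌈a⌉₊ : ℕ) : ℝ) ≤ i' := by exact_mod_cast not_lt.1 h3
    have h5 : (i' : ℝ) ≤ (i + ⌊b⌋₊ : ℕ) := by exact_mod_cast Nat.lt_succ_iff.1 h2
    push_cast at h4 h5
    have := H i hi i' hi' (by linarith [Nat.le_ceil a])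
    linarith [Nat.floor_le hb.le]
  have h2 : (G.card : ℝ) ≤ ⌈a⌉₊ * ((nb / (⌊b⌋₊ + 1) : ℕ) + 1) := by exact_mod_cast h1
  have h3 : ((nb / (⌊b⌋₊ + 1) : ℕ) : ℝ) ≤ nb / b := Nat.cast_div_le.trans (by
    push_cast
    exact div_le_div_of_nonneg_left (Nat.cast_nonneg _) hb (Nat.lt_floor_add_one b).le)
  have h4 : (⌈a⌉₊ : ℝ) ≤ 2 * a := by linarith [Nat.ceil_lt_add_one (zero_le_one.trans ha)]
  have h5 : (⌈a⌉₊ : ℝ) * ((nb / (⌊b⌋₊ + 1) : ℕ) + 1) ≤ 2 * a * (nb / b + 1) := by gcongr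
  linarith

variable {P : Par} {M : ℝ} {L : Lag P M}

theorem jumps (hS : L.Step) (hL : L.Law) {t h e : ℝ} {H : Set ℝ} (n : ℕ → ℕ) (J : ℕ)
    (hp : IsProbabilityMeasure (L.start t H)) (hh : P.Small M h) (hn : Monotone n)
    (ht : n J * h ≤ t) (hT : t ≤ L.T) (he : 0 ≤ e) (hc : 0 ≤ 2 * P.N M * (P.E1 M * h ^ 2))
    (h1 : n J * (2 * P.N M * (P.E1 M * h ^ 2)) ≤ 1) :
    (((Finset.range J).filter fun j => e < L.mom t h H (n (j + 1)) - L.mom t h H (n j)).card : ℝ) *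
      e ≤ P.N M ^ 2 + 1 := by
  set c := 2 * P.N M * (P.E1 M * h ^ 2) with hc'
  have key : ∀ a b : ℕ, a ≤ b → b ≤ n J → L.mom t h H a + a * c ≤ L.mom t h H b + b * c := by
    intro a b hab
    induction b, hab using Nat.le_induction with
    | base => exact fun _ => le_rfl
    | succ b _ ih =>
      intro hb
      have h2 : ((b : ℝ) + 1) * h ≤ t :=
        (mul_le_mul_of_nonneg_right (by exact_mod_cast hb) hh.1.le).trans ht
      have h3 := hL.one t h H b hp hh h2 hT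
      have h4 : 0 ≤ ∫ y, L.w (t - b * h) h 1 y ∂(L.law t h (L.start t H) b) :=
        integral_nonneg fun y => (hS.w_mem _ _ _ y).1
      have h5 := ih (Nat.le_of_succ_le hb)
      push_cast
      linarith
  refine le_trans ?_ (few_jumps (fun j => L.mom t h H (n j) + n j * c) J _ e
    (fun j hj => key _ _ (hn (Nat.le_succ j)) (hn hj)) ?_)
  · refine mul_le_mul_of_nonneg_right (Nat.cast_le.2 (Finset.card_le_card fun j hj => ?_)) he
    rw [Finset.mem_filter] at hj ⊢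
    have h2 : (n j : ℝ) * c ≤ n (j + 1) * c :=
      mul_le_mul_of_nonneg_right (Nat.cast_le.2 (hn (Nat.le_succ j))) hc
    exact ⟨hj.1, by linarith [hj.2]⟩
  · have h2 := (hL.mom_mem t h H (n J) hp).2
    have h3 := (hL.mom_mem t h H (n 0) hp).1
    have h4 : 0 ≤ (n 0 : ℝ) * c := mul_nonneg (Nat.cast_nonneg _) hc
    linarith

theorem int_le {u : ℝ → ℝ} (hu : Measurable u) {a l N η r : ℝ} (hl : 0 ≤ l) (hη : 0 ≤ η)
    (hN : 0 ≤ N) (hr : 0 ≤ r) {S : Set ℝ} (hS : MeasurableSet S)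
    (hv : volume S ≤ ENNReal.ofReal r) (h1 : ∀ x, |u x| ≤ N)
    (h2 : ∀ x ∈ Icc a (a + l), x ∉ S → |u x| ≤ η) : ∫ x in a..(a + l), |u x| ≤ η * l + N * r := by
  have h3 : IntegrableOn (fun x => |u x|) (Ioc a (a + l)) :=
    Measure.integrableOn_of_bounded (M := N) measure_Ioc_lt_top.ne
      (continuous_abs.measurable.comp hu).aestronglyMeasurable
      (ae_of_all _ fun x => by simpa using h1 x)
  rw [intervalIntegral.integral_of_le (by linarith), ← integral_inter_add_sdiff hS h3, add_comm]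
  have h4 : volume (Ioc a (a + l)) < ∞ := measure_Ioc_lt_top
  refine add_le_add ((Real.le_norm_self _).trans ?_) ((Real.le_norm_self _).trans ?_)
  · refine (norm_setIntegral_le_of_norm_le_const (C := η)
      ((measure_mono sdiff_subset).trans_lt h4) fun x hx => ?_).trans ?_
    · simpa using h2 x (Ioc_subset_Icc_self hx.1) hx.2
    · refine mul_le_mul_of_nonneg_left ((measureReal_mono sdiff_subset h4.ne).trans ?_) hη
      simp [hl]
  · refine (norm_setIntegral_le_of_norm_le_const (C := N)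
      ((measure_mono inter_subset_left).trans_lt h4) fun x _ => ?_).trans ?_
    · simpa using h1 x
    · exact mul_le_mul_of_nonneg_left
        (ENNReal.toReal_le_of_le_ofReal hr ((measure_mono inter_subset_right).trans hv)) hN

theorem good_block (hF : L.Facts) {t η ρ a l : ℝ} {m : ℕ} (hη : 0 < η) (hρ : 0 < ρ) (hl : 0 < l)
    (hm : P.N M ≤ m * η) (h : ∀ i < m, ¬ L.BadBlock t (i * η) ((i + 1) * η) ρ a l) :
    ∃ c ∈ Icc 0 (P.N M), ∫ x in a..(a + l), |L.u t x - c| ≤ η * l + P.N M * (2 * (ρ * l)) := by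
  have hu : Measurable (L.u t) := L.u_meas.of_uncurry_left
  have h0 : 0 < ENNReal.ofReal (ρ * l) := ENNReal.ofReal_pos.2 (mul_pos hρ hl)
  have hN : 0 ≤ P.N M := (hF.u_nonneg t 0).trans (L.u_le t 0)
  obtain ⟨i, h1, h2⟩ : ∃ i : ℕ,
      volume {x | x ∈ Icc a (a + l) ∧ L.u t x ≤ (i - 1) * η} < ENNReal.ofReal (ρ * l) ∧
      volume {x | x ∈ Icc a (a + l) ∧ (i + 1) * η ≤ L.u t x} < ENNReal.ofReal (ρ * l) := by
    by_contra H
    push Not at H
    have key : ∀ i ≤ m,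
        volume {x | x ∈ Icc a (a + l) ∧ L.u t x ≤ (i - 1) * η} < ENNReal.ofReal (ρ * l) := by
      intro i
      induction i with
      | zero =>
        intro _
        rw [eq_empty_of_forall_notMem (s := {x | x ∈ Icc a (a + l) ∧ _}) fun x hx => by
          have := hx.2
          have := hF.u_nonneg t x
          push_cast at *
          linarith, measure_empty]
        exact h0
      | succ i ih =>
        intro hi
        by_contra h3
        exact h i hi ⟨by simpa using not_lt.1 h3, H i (ih (Nat.le_of_succ_le hi))⟩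
    have h3 := H m (key m le_rfl)
    rw [eq_empty_of_forall_notMem (s := {x | x ∈ Icc a (a + l) ∧ _}) fun x hx => by
      have := hx.2
      have := L.u_le t x
      linarith, measure_empty] at h3
    exact h0.not_ge h3
  have hi : 0 ≤ (i : ℝ) * η := by positivity
  refine ⟨min (i * η) (P.N M), ⟨le_min hi hN, min_le_right _ _⟩,
    int_le (hu.sub_const _) hl.le hη.le hN (by positivity)
      (S := {x | x ∈ Icc a (a + l) ∧ L.u t x ≤ (i - 1) * η} ∪
        {x | x ∈ Icc a (a + l) ∧ (i + 1) * η ≤ L.u t x})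
      ((measurableSet_Icc.inter (measurableSet_le hu measurable_const)).union
        (measurableSet_Icc.inter (measurableSet_le measurable_const hu))) ?_ (fun x => ?_)
      fun x hx hx' => ?_⟩
  · rw [two_mul, ENNReal.ofReal_add (by positivity) (by positivity)]
    exact (measure_union_le _ _).trans (add_le_add h1.le h2.le)
  · have := hF.u_nonneg t x
    have := L.u_le t x
    have := le_min hi hN
    have := min_le_right (i * η) (P.N M)
    rw [abs_le]; constructor <;> linarith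
  · have h3 : (i - 1) * η < L.u t x := not_le.1 fun e => hx' (Or.inl ⟨hx, e⟩)
    have h4 : L.u t x < (i + 1) * η := not_le.1 fun e => hx' (Or.inr ⟨hx, e⟩)
    have := L.u_le t x
    have := min_le_left (i * η) (P.N M)
    rw [abs_le]
    refine ⟨by linarith, ?_⟩
    rcases min_choice (i * η) (P.N M) with e | e <;> rw [e] <;> linarith

end Few

open Few in
theorem fewS : Basic → PairS → FewS := by
  classical
  intro hB hP P M hM hst gap ρ δ ε1 hgap hρ hδ hε
  obtain ⟨K1, hK1, hP⟩ := hP P M hM hst gap hgap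
  have hK8 : 0 < 16 * K1 / δ := by positivity
  obtain ⟨K3, K4, eQ, ν0, s0, hK3, hK4, heQ, hν0, hs0, hP⟩ :=
    hP ε1 (K1 + 16 * K1 / δ) hε (by linarith)
  have hPF := hB.1 P M hM
  obtain ⟨J, hJ⟩ := exists_nat_gt (4 * (P.N M ^ 2 + 1) / eQ)
  have hJ0 : 0 < J := Nat.cast_pos.1 (lt_trans (by positivity) hJ)
  have h3 : ∀ j, (1 : ℝ) ≤ K3 ^ j := fun j => one_le_pow₀ (by linarith)
  have h3' : ∀ {i j}, i ≤ j → K3 ^ i ≤ K3 ^ j := fun h => pow_le_pow_right₀ (by linarith) h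
  obtain ⟨nb, hnb⟩ := exists_nat_gt (8 * K1 * K3 ^ J / δ)
  have hnb0 : (0 : ℝ) < nb := lt_trans (by have := h3 J; positivity) hnb
  have hC := abs_nonneg (P.C2 M)
  have hKJ := h3 J
  refine ⟨nb, nb + K4 * K3 ^ J + (|P.C2 M| + 1) * (K3 ^ J + 1), ν0 * min 1 ρ, s0,
    Nat.cast_pos.1 hnb0, by positivity, by positivity, by linarith, ?_⟩
  intro L t l x α β ν hl ht hT hαβ hν hνe hNV
  have hl1 : 1 ≤ l := hs0.trans hl
  have hl0 : 0 < l := by linarith
  have hsj : ∀ j, l ≤ K3 ^ j * l := fun j => le_mul_of_one_le_left hl0.le (h3 j)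
  choose! h0 hh0 hP using hP
  obtain ⟨h1, hh1, hsm⟩ := hPF.small
  have hE : 0 ≤ 2 * P.N M * P.E1 M := by
    have := hPF.N_pos
    unfold Par.E1; positivity
  obtain ⟨h, hh, hh', hh2, hh3⟩ : ∃ h, 0 < h ∧ h ≤ h1 ∧
      h ≤ 1 / ((K3 ^ J * l + 1) * (2 * P.N M * P.E1 M) + 1) ∧ ∀ j < J, h ≤ h0 (K3 ^ j * l) := by
    obtain ⟨j0, -, hj0⟩ := (Finset.range J).exists_min_image (fun j => h0 (K3 ^ j * l))
      ⟨0, Finset.mem_range.2 hJ0⟩
    refine ⟨min h1 (min _ (h0 (K3 ^ j0 * l))), lt_min hh1 (lt_min (by positivity)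
      (hh0 _ (hl.trans (hsj j0)))), min_le_left _ _, (min_le_right _ _).trans (min_le_left _ _),
      fun j hj => ((min_le_right _ _).trans (min_le_right _ _)).trans
        (hj0 j (Finset.mem_range.2 hj))⟩
  have hs := hsm h hh hh'
  obtain ⟨n, hn, hn1, hn2⟩ : ∃ n : ℕ → ℕ, Monotone n ∧ (∀ j, K3 ^ j * l ≤ n j * h) ∧
      ∀ j, n j * h ≤ K3 ^ j * l + 1 := by
    refine ⟨fun j => ⌈K3 ^ j * l / h⌉₊, fun i j hij => Nat.ceil_mono (by have := h3' hij; gcongr),
      fun j => (div_le_iff₀ hh).1 (Nat.le_ceil _), fun j => ?_⟩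
    have h4 := Nat.ceil_lt_add_one (a := K3 ^ j * l / h) (by have := h3 j; positivity)
    have h5 := mul_le_mul_of_nonneg_right h4.le hh.le
    rw [add_mul, div_mul_cancel₀ _ hh.ne'] at h5
    linarith [hs.2.1]
  set K5 := nb + K4 * K3 ^ J + (|P.C2 M| + 1) * (K3 ^ J + 1) with hK5
  have hA : ∀ j ≤ J, (|P.C2 M| + 1) * (K3 ^ j * l + 1) ≤ K5 * l := fun j hj => by
    have h4 := h3' hj
    calc _ ≤ (|P.C2 M| + 1) * (K3 ^ J * l + l) := by gcongr
      _ = (|P.C2 M| + 1) * (K3 ^ J + 1) * l := by ring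
      _ ≤ K5 * l := by
        refine mul_le_mul_of_nonneg_right (le_add_of_nonneg_left ?_) hl0.le
        positivity
  have hA' : ∀ j ≤ J, n j * h ≤ K5 * l := fun j hj =>
    (hn2 j).trans ((le_mul_of_one_le_left (by have := hsj j; linarith) (by linarith)).trans
      (hA j hj))
  have hu : Measurable (L.u t) := L.u_meas.of_uncurry_left
  let H : ℕ → Set ℝ := fun i => {x' | x' ∈ Icc (x + i * l) (x + i * l + l) ∧ β ≤ L.u t x'}
  let H' : ℕ → Set ℝ := fun i => {x' | x' ∈ Icc (x + i * l) (x + i * l + l) ∧ L.u t x' ≤ α}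
  have mH : ∀ i, MeasurableSet (H i) := fun i =>
    measurableSet_Icc.inter (measurableSet_le measurable_const hu)
  have mH' : ∀ i, MeasurableSet (H' i) := fun i =>
    measurableSet_Icc.inter (measurableSet_le hu measurable_const)
  have hLaw := hB.2.2.2 P M L hM
  have jm : ∀ (S : Set ℝ) (a : ℝ), MeasurableSet S → S ⊆ Icc a (a + l) →
      ENNReal.ofReal (ρ * l) ≤ volume S → 4 * (((Finset.range J).filter fun j =>
        eQ < L.mom t h S (n (j + 1)) - L.mom t h S (n j)).card : ℝ) ≤ J := fun S a mS hS hv => by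
    have h4 := jumps (e := eQ) (hB.2.2.1 P M L hM) hLaw n J (hLaw.start_prob t S mS
      ((ENNReal.ofReal_pos.2 (mul_pos hρ hl0)).trans_le hv).ne'
      ((measure_mono hS).trans_lt measure_Icc_lt_top).ne) hs hn ((hA' J le_rfl).trans ht) hT heQ.le
      (by rw [← mul_assoc]; positivity) (by
        have h5 := mul_le_mul_of_nonneg_right (hn2 J) hE
        rw [le_div_iff₀ (by have := hsj J; positivity)] at hh2
        calc _ = h * (n J * h * (2 * P.N M * P.E1 M)) := by ring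
          _ ≤ _ := (mul_le_mul_of_nonneg_left (h5.trans (le_add_of_nonneg_right zero_le_one))
            hh.le).trans hh2)
    rw [div_lt_iff₀ heQ] at hJ
    exact le_of_mul_le_mul_right (by linarith) heQ
  by_contra hcon
  obtain ⟨j, hj, hG⟩ := double ((Finset.range nb).filter fun i : ℕ =>
      L.BadBlock t α β ρ (x + i * l) l) J hJ0
    (fun i j => L.mom t h (H i) (n (j + 1)) - L.mom t h (H i) (n j) ≤ eQ ∧
      L.mom t h (H' i) (n (j + 1)) - L.mom t h (H' i) (n j) ≤ eQ) fun i hi => by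
      have hb := (Finset.mem_filter.1 hi).2
      have h4 := jm (H i) _ (mH i) (fun _ h => h.1) hb.2
      have h5 := jm (H' i) _ (mH' i) (fun _ h => h.1) hb.1
      simp only [not_and_or, not_le, Finset.filter_or]
      have h6 := (Nat.cast_le (α := ℝ)).2 (Finset.card_union_le
        ((Finset.range J).filter fun j => eQ < L.mom t h (H i) (n (j + 1)) - L.mom t h (H i) (n j))
        ((Finset.range J).filter fun j =>
          eQ < L.mom t h (H' i) (n (j + 1)) - L.mom t h (H' i) (n j)))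
      push_cast at h6
      linarith
  have hj3 := h3 j
  have hj4 := h3' hj.le
  obtain ⟨i, hi, i', hi', hd1, hd2⟩ := pair _ nb (K1 * K3 ^ j) ((K1 + 16 * K1 / δ) * K3 ^ j)
    (one_le_mul_of_one_le_of_one_le hK1 hj3) (by positivity)
    (fun i hi => Finset.mem_range.1 (Finset.mem_filter.1 (Finset.mem_filter.1 hi).1).1) (by
      refine lt_of_mul_lt_mul_left (lt_of_le_of_lt ?_ ((not_le.1 hcon).trans_le hG)) zero_le_two
      have h4 : K1 * K3 ^ j * (nb / ((K1 + 16 * K1 / δ) * K3 ^ j)) ≤ δ * nb / 16 := by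
        calc _ ≤ K1 * K3 ^ j * (nb / (16 * K1 / δ * K3 ^ j)) := by gcongr; linarith
          _ = _ := by field_simp
      rw [div_lt_iff₀ hδ] at hnb
      have h5 : K1 * K3 ^ j ≤ K1 * K3 ^ J := by gcongr
      have h6 := mul_pos hδ hnb0
      linarith)
  rw [Finset.mem_filter, Finset.mem_filter, Finset.mem_range] at hi hi'
  have hν1 : ν ≤ ν * Real.exp (K5 * l) :=
    le_mul_of_one_le_right hν (Real.one_le_exp (by positivity))
  have hil : (i : ℝ) * l ≤ nb * l := by have := hi.1.1.le; gcongr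
  have hi0 : 0 ≤ (i : ℝ) * l := by positivity
  have h4 : nb * l + K4 * (K3 ^ j * l) ≤ K5 * l := by
    calc _ ≤ nb * l + K4 * (K3 ^ J * l) := by gcongr
      _ = (nb + K4 * K3 ^ J) * l := by ring
      _ ≤ K5 * l := by
        refine mul_le_mul_of_nonneg_right (le_add_of_nonneg_right ?_) hl0.le
        positivity
  refine hP (K3 ^ j * l) (hl.trans (hsj j)) L t h α β (x + i * l) (x + i' * l) (ρ * l) ν (n j)
    (n (j + 1)) (H i) (H' i') hh (hh3 j hj) (hn1 j) (hn2 j)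
    (by rw [← mul_assoc, ← pow_succ']; exact hn1 _) (by rw [← mul_assoc, ← pow_succ']; exact hn2 _)
    ((hA' _ hj).trans ht) hT hαβ (mH i) (mH' i')
    (fun y hy => ⟨hy.1.1, hy.1.2.trans (by linarith [hsj j])⟩)
    (fun y hy => ⟨hy.1.1, hy.1.2.trans (by linarith [hsj j])⟩) (mul_pos hρ hl0) hi.1.2.2 hi'.1.2.1
    (fun _ h => h.2) (fun _ h => h.2) (by nlinarith) (by nlinarith) (fun τ hτ => ?_) hν
    ((hν1.trans hνe).trans (mul_le_of_le_one_right hν0.le (min_le_left _ _))) ?_ hi.2.1 hi'.2.2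
  · refine (measure_mono fun y hy => ?_).trans
      (hNV τ ⟨le_trans (by linarith [hA' _ hj]) hτ.1, hτ.2⟩)
    exact ⟨⟨le_trans (by linarith) hy.1.1, hy.1.2.trans (by linarith)⟩, hy.2⟩
  · refine le_trans (mul_le_mul_of_nonneg_left (Real.exp_le_exp.2 (le_trans ?_ (hA j hj.le))) hν)
      (hνe.trans (mul_le_mul_of_nonneg_left ((min_le_right _ _).trans
        (le_mul_of_one_le_right hρ.le hl1)) hν0.le))
    exact mul_le_mul_of_nonneg_right (by linarith [le_abs_self (P.C2 M)]) (by positivity)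

open Few in
theorem denseS : Basic → FewS → DenseS := by
  classical
  intro hB hF P M hM hst e ε1 he hε
  have hN := (hB.1 P M hM).N_pos
  obtain ⟨m, hm⟩ := exists_nat_gt (P.N M / (e / 3))
  have hm0 : (0 : ℝ) < m := lt_trans (by positivity) hm
  rw [div_lt_iff₀ (by positivity)] at hm
  obtain ⟨nb, K5, ν0, l0, h1, h2, h3, h4, hF⟩ := hF P M hM hst (e / 3) (e / (6 * P.N M))
    (e / (3 * P.N M * m)) ε1 (by positivity) (by positivity) (by positivity) hε
  refine ⟨nb, K5, ν0, l0, h1, h2, h3, h4, fun L t l x ν hl ht hT hν hνe hNV => ?_⟩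
  have hl0 : 0 < l := h4.trans_le hl
  have hL := hB.2.1 P M L hM
  let bad : ℕ → ℕ → Prop := fun q i =>
    L.BadBlock t (q * (e / 3)) ((q + 1) * (e / 3)) (e / (6 * P.N M)) (x + i * l) l
  have key : ∀ i : ℕ, ∃ c ∈ Icc 0 (P.N M), ∫ x' in (x + i * l)..(x + (i + 1) * l), |L.u t x' - c| ≤
      2 * e / 3 * l + ∑ q ∈ Finset.range m, if bad q i then P.N M * l else 0 := fun i => by
    have h5 : ∀ q ∈ Finset.range m, 0 ≤ if bad q i then P.N M * l else 0 := fun q _ => by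
      split_ifs <;> positivity
    rw [add_mul, one_mul, ← add_assoc]
    by_cases hb : ∃ q < m, bad q i
    · obtain ⟨q, hq, hb⟩ := hb
      refine ⟨0, ⟨le_rfl, hN.le⟩, ?_⟩
      have h6 := Finset.single_le_sum h5 (Finset.mem_range.2 hq)
      have h7 : ∀ y, |L.u t y - 0| ≤ P.N M := fun y => by
        rw [sub_zero, abs_of_nonneg (hL.u_nonneg t y)]; exact L.u_le t y
      have h8 := int_le (a := x + i * l) ((L.u_meas.of_uncurry_left (x := t)).sub_const 0) hl0.le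
        hN.le hN.le le_rfl MeasurableSet.empty (by simp) h7 fun y _ _ => h7 y
      rw [if_pos hb] at h6
      have : 0 ≤ 2 * e / 3 * l := by positivity
      linarith
    · push Not at hb
      obtain ⟨c, hc, h6⟩ := good_block hL (by positivity) (by positivity) hl0 hm.le hb
      refine ⟨c, hc, h6.trans ((le_of_eq ?_).trans (le_add_of_nonneg_right
        (Finset.sum_nonneg h5)))⟩
      field_simp; ring
  choose c hc h5 using key
  refine ⟨c, hc, (Finset.sum_le_sum fun i _ => h5 i).trans ?_⟩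
  rw [Finset.sum_add_distrib, Finset.sum_comm, Finset.sum_const, Finset.card_range, nsmul_eq_mul]
  have h6 : ∀ q ∈ Finset.range m, (∑ i ∈ Finset.range nb, if bad q i then P.N M * l else 0) ≤
      e / (3 * P.N M * m) * nb * (P.N M * l) := fun q _ => by
    rw [← Finset.sum_filter, Finset.sum_const, nsmul_eq_mul]
    exact mul_le_mul_of_nonneg_right
      (hF L t l x _ _ ν hl ht hT (le_of_eq (by ring)) hν hνe hNV) (by positivity)
  have h7 := Finset.sum_le_card_nsmul _ _ _ h6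
  rw [Finset.card_range, nsmul_eq_mul] at h7
  refine (add_le_add le_rfl h7).trans (le_of_eq ?_)
  field_simp; ring

end MP34a893

end MrgPart0

-- ======== part 1: formerly Pool.Agent.MP_34a893_an.B.Few
section MrgPart1

/-! Row FEW for the flux with one inflection: few bad blocks. -/

open MeasureTheory Set Filter Topology
open scoped ENNReal

namespace MP34a893.B

namespace FewB

/-- one pair of colours is frequent -/
theorem colour (G : Finset ℕ) (nc : ℕ) (hnc : 0 < nc) (f g : ℕ → ℕ)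
    (hf : ∀ i ∈ G, f i < nc ∧ g i < nc) :
    ∃ a b, (G.card : ℝ) / nc ^ 2 ≤ (G.filter fun i => (f i, g i) = (a, b)).card := by
  have h0 : (0 : ℝ) < nc := Nat.cast_pos.2 hnc
  obtain ⟨y, -, hy⟩ := Finset.exists_le_card_fiber_of_nsmul_le_card_of_maps_to (s := G)
    (t := Finset.range nc ×ˢ Finset.range nc) (f := fun i => (f i, g i))
    (b := (G.card : ℝ) / nc ^ 2)
    (fun i hi => Finset.mem_product.2 ⟨Finset.mem_range.2 (hf i hi).1,
      Finset.mem_range.2 (hf i hi).2⟩)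
    ⟨(0, 0), Finset.mem_product.2 ⟨Finset.mem_range.2 hnc, Finset.mem_range.2 hnc⟩⟩ (by
      rw [Finset.card_product, Finset.card_range, nsmul_eq_mul]
      push_cast
      exact le_of_eq (by field_simp))
  exact ⟨y.1, y.2, hy⟩

theorem sep_mono {P : Par} {M A B c ω ω' x y : ℝ} (h : P.Sep M A B c ω x y) (hω : ω' ≤ ω) :
    P.Sep M A B c ω' x y :=
  ⟨h.1, fun u hu v hv a b => h.2 u hu v hv (a.trans hω) (b.trans hω)⟩

theorem nv_mono {P : Par} {M : ℝ} {L : Lag P M} {ε ν ν' t1 t1' t a c a' c' : ℝ}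
    (h : L.NV ε ν t1 t a c) (h1 : ν ≤ ν') (h2 : t1 ≤ t1') (h3 : a ≤ a') (h4 : c' ≤ c) :
    L.NV ε ν' t1' t a' c' := fun τ hτ => by
  refine le_trans (measure_mono fun y hy => ?_)
    ((h τ ⟨h2.trans hτ.1, hτ.2⟩).trans (ENNReal.ofReal_le_ofReal h1))
  exact ⟨⟨h3.trans hy.1.1, hy.1.2.trans h4⟩, hy.2⟩

end FewB

open MP34a893.Few FewB in
theorem fewS : Basic → CellS → PairS → FewS := by
  classical
  intro hB hC hP P M hM hst hnb gap ρ δ0 ε1 hgap hρ hδ0 hε
  obtain ⟨c, ω0, hc, hω0, hsep⟩ := hnb (gap / 2) (by positivity)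
  obtain ⟨ω, hω, hω1, hω2, hω3⟩ : ∃ ω, 0 < ω ∧ 2 * ω ≤ ω0 ∧ 16 * ω ≤ gap ∧ 4 * ω ≤ ε1 := by
    refine ⟨min (ω0 / 2) (min (gap / 16) (ε1 / 4)), by positivity, ?_, ?_, ?_⟩
    · linarith [min_le_left (ω0 / 2) (min (gap / 16) (ε1 / 4))]
    · linarith [min_le_right (ω0 / 2) (min (gap / 16) (ε1 / 4)), min_le_left (gap / 16) (ε1 / 4)]
    · linarith [min_le_right (ω0 / 2) (min (gap / 16) (ε1 / 4)), min_le_right (gap / 16) (ε1 / 4)]
  obtain ⟨nc, π, K, ν1, hnc, hπ, hK, hν1', hC⟩ := hC P M hM (gap / 8) ω (by positivity) hω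
  have hnc' : (0 : ℝ) < nc := Nat.cast_pos.2 hnc
  obtain ⟨δ, hδ, hδ'⟩ : ∃ δ, 0 < δ ∧ δ = δ0 / nc ^ 2 := ⟨_, by positivity, rfl⟩
  obtain ⟨K1, hK1, hP⟩ := hP P M hM hst π hπ
  have hK8 : 0 < 16 * K1 / δ := by positivity
  obtain ⟨K3, K4, eQ, ν0, s0, hK3, hK4, heQ, hν0, hs0, hP⟩ :=
    hP (gap / 2) c ω ε1 (K1 + 16 * K1 / δ) (by positivity) hc hω (by linarith) hω3 (by linarith)
  have hPF := hB.1 P M hM
  obtain ⟨J, hJ⟩ := exists_nat_gt (4 * (P.N M ^ 2 + 1) / eQ)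
  have hJ0 : 0 < J := Nat.cast_pos.1 (lt_trans (by positivity) hJ)
  have h3 : ∀ j, (1 : ℝ) ≤ K3 ^ j := fun j => one_le_pow₀ (by linarith)
  have h3' : ∀ {i j}, i ≤ j → K3 ^ i ≤ K3 ^ j := fun h => pow_le_pow_right₀ (by linarith) h
  obtain ⟨nb, hnb⟩ := exists_nat_gt (8 * K1 * K3 ^ J / δ)
  have hnb0 : (0 : ℝ) < nb := lt_trans (by have := h3 J; positivity) hnb
  have hC2 := abs_nonneg (P.C2 M)
  have hKJ := h3 J
  refine ⟨nb, nb + (K4 + K) * K3 ^ J + (|P.C2 M| + 1) * (K3 ^ J + 1), min ν0 (ν1 * ρ), s0,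
    Nat.cast_pos.1 hnb0, by positivity, by positivity, by linarith, ?_⟩
  intro L t l x α β ν hl ht hT hαβ hν hνe hNV
  have hl1 : 1 ≤ l := hs0.trans hl
  have hl0 : 0 < l := by linarith
  have hsj : ∀ j, l ≤ K3 ^ j * l := fun j => le_mul_of_one_le_left hl0.le (h3 j)
  choose! h0 hh0 hP using hP
  choose! g0 hg0 hC using hC
  obtain ⟨h1, hh1, hsm⟩ := hPF.small
  have hE : 0 ≤ 2 * P.N M * P.E1 M := by
    have := hPF.N_pos
    unfold Par.E1; positivity
  obtain ⟨h, hh, hh', hh2, hh3⟩ : ∃ h, 0 < h ∧ h ≤ h1 ∧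
      h ≤ 1 / ((K3 ^ J * l + 1) * (2 * P.N M * P.E1 M) + 1) ∧
      ∀ j < J, h ≤ min (h0 (K3 ^ j * l)) (g0 (K3 ^ j * l)) := by
    obtain ⟨j0, -, hj0⟩ := (Finset.range J).exists_min_image
      (fun j => min (h0 (K3 ^ j * l)) (g0 (K3 ^ j * l))) ⟨0, Finset.mem_range.2 hJ0⟩
    refine ⟨min h1 (min _ (min (h0 (K3 ^ j0 * l)) (g0 (K3 ^ j0 * l)))), lt_min hh1
      (lt_min (by positivity) (lt_min (hh0 _ (hl.trans (hsj j0))) (hg0 _ (hl1.trans (hsj j0))))),
      min_le_left _ _, (min_le_right _ _).trans (min_le_left _ _),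
      fun j hj => ((min_le_right _ _).trans (min_le_right _ _)).trans
        (hj0 j (Finset.mem_range.2 hj))⟩
  have hs := hsm h hh hh'
  obtain ⟨n, hn, hn1, hn2⟩ : ∃ n : ℕ → ℕ, Monotone n ∧ (∀ j, K3 ^ j * l ≤ n j * h) ∧
      ∀ j, n j * h ≤ K3 ^ j * l + 1 := by
    refine ⟨fun j => ⌈K3 ^ j * l / h⌉₊, fun i j hij => Nat.ceil_mono (by have := h3' hij; gcongr),
      fun j => (div_le_iff₀ hh).1 (Nat.le_ceil _), fun j => ?_⟩
    have h4 := Nat.ceil_lt_add_one (a := K3 ^ j * l / h) (by have := h3 j; positivity)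
    have h5 := mul_le_mul_of_nonneg_right h4.le hh.le
    rw [add_mul, div_mul_cancel₀ _ hh.ne'] at h5
    linarith [hs.2.1]
  set K5 := nb + (K4 + K) * K3 ^ J + (|P.C2 M| + 1) * (K3 ^ J + 1) with hK5
  have hA : ∀ j ≤ J, (|P.C2 M| + 1) * (K3 ^ j * l + 1) ≤ K5 * l := fun j hj => by
    have h4 := h3' hj
    calc _ ≤ (|P.C2 M| + 1) * (K3 ^ J * l + l) := by gcongr
      _ = (|P.C2 M| + 1) * (K3 ^ J + 1) * l := by ring
      _ ≤ K5 * l := by
        refine mul_le_mul_of_nonneg_right (le_add_of_nonneg_left ?_) hl0.le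
        positivity
  have hA' : ∀ j ≤ J, n j * h ≤ K5 * l := fun j hj =>
    (hn2 j).trans ((le_mul_of_one_le_left (by have := hsj j; linarith) (by linarith)).trans
      (hA j hj))
  have hu : Measurable (L.u t) := L.u_meas.of_uncurry_left
  let H : ℕ → Set ℝ := fun i => {x' | x' ∈ Icc (x + i * l) (x + i * l + l) ∧ β ≤ L.u t x'}
  let H' : ℕ → Set ℝ := fun i => {x' | x' ∈ Icc (x + i * l) (x + i * l + l) ∧ L.u t x' ≤ α}
  have mH : ∀ i, MeasurableSet (H i) := fun i =>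
    measurableSet_Icc.inter (measurableSet_le measurable_const hu)
  have mH' : ∀ i, MeasurableSet (H' i) := fun i =>
    measurableSet_Icc.inter (measurableSet_le hu measurable_const)
  have hLaw := hB.2.2.2 P M L hM
  have hpos : 0 < ENNReal.ofReal (ρ * l) := ENNReal.ofReal_pos.2 (mul_pos hρ hl0)
  have jm : ∀ (S : Set ℝ) (a : ℝ), MeasurableSet S → S ⊆ Icc a (a + l) →
      ENNReal.ofReal (ρ * l) ≤ volume S → 4 * (((Finset.range J).filter fun j =>
        eQ < L.mom t h S (n (j + 1)) - L.mom t h S (n j)).card : ℝ) ≤ J := fun S a mS hS hv => by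
    have h4 := jumps (e := eQ) (hB.2.2.1 P M L hM) hLaw n J (hLaw.start_prob t S mS
      (hpos.trans_le hv).ne'
      ((measure_mono hS).trans_lt measure_Icc_lt_top).ne) hs hn ((hA' J le_rfl).trans ht) hT heQ.le
      (by rw [← mul_assoc]; positivity) (by
        have h5 := mul_le_mul_of_nonneg_right (hn2 J) hE
        rw [le_div_iff₀ (by have := hsj J; positivity)] at hh2
        calc _ = h * (n J * h * (2 * P.N M * P.E1 M)) := by ring
          _ ≤ _ := (mul_le_mul_of_nonneg_left (h5.trans (le_add_of_nonneg_right zero_le_one))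
            hh.le).trans hh2)
    rw [div_lt_iff₀ heQ] at hJ
    exact le_of_mul_le_mul_right (by linarith) heQ
  by_contra hcon
  obtain ⟨j, hj, hG⟩ := double ((Finset.range nb).filter fun i : ℕ =>
      L.BadBlock t α β ρ (x + i * l) l) J hJ0
    (fun i j => L.mom t h (H i) (n (j + 1)) - L.mom t h (H i) (n j) ≤ eQ ∧
      L.mom t h (H' i) (n (j + 1)) - L.mom t h (H' i) (n j) ≤ eQ) fun i hi => by
      have hb := (Finset.mem_filter.1 hi).2
      have h4 := jm (H i) _ (mH i) (fun _ h => h.1) hb.2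
      have h5 := jm (H' i) _ (mH' i) (fun _ h => h.1) hb.1
      simp only [not_and_or, not_le, Finset.filter_or]
      have h6 := (Nat.cast_le (α := ℝ)).2 (Finset.card_union_le
        ((Finset.range J).filter fun j => eQ < L.mom t h (H i) (n (j + 1)) - L.mom t h (H i) (n j))
        ((Finset.range J).filter fun j =>
          eQ < L.mom t h (H' i) (n (j + 1)) - L.mom t h (H' i) (n j)))
      push_cast at h6
      linarith
  have hj3 := h3 j
  have hj4 := h3' hj.le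
  have hν1 : ν ≤ ν * Real.exp (K5 * l) :=
    le_mul_of_one_le_right hν (Real.one_le_exp (by positivity))
  have h4 : nb * l + (K4 * (K3 ^ j * l) + K * (K3 ^ j * l)) ≤ K5 * l := by
    calc _ ≤ nb * l + (K4 * (K3 ^ J * l) + K * (K3 ^ J * l)) := by gcongr
      _ = (nb + (K4 + K) * K3 ^ J) * l := by ring
      _ ≤ K5 * l := by
        refine mul_le_mul_of_nonneg_right (le_add_of_nonneg_right ?_) hl0.le
        positivity
  have k1 : 0 ≤ K4 * (K3 ^ j * l) := by positivity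
  have k2 : 0 ≤ K * (K3 ^ j * l) := by positivity
  have hil : ∀ i < nb, 0 ≤ (i : ℝ) * l ∧ (i : ℝ) * l ≤ nb * l := fun i hi =>
    ⟨by positivity, by have := hi.le; gcongr⟩
  have sH : ∀ i, H i ⊆ Icc (x + i * l) (x + i * l + K3 ^ j * l) := fun i y hy =>
    ⟨hy.1.1, hy.1.2.trans (by linarith [hsj j])⟩
  have sH' : ∀ i, H' i ⊆ Icc (x + i * l) (x + i * l + K3 ^ j * l) := fun i y hy =>
    ⟨hy.1.1, hy.1.2.trans (by linarith [hsj j])⟩
  have cell : ∀ i : ℕ, ∃ a b : ℕ, i < nb → L.BadBlock t α β ρ (x + i * l) l →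
      (a < nc ∧ b < nc) ∧ β - gap / 8 ≤ a * ω ∧ ε1 ≤ b * ω ∧ b * ω ≤ α + gap / 8 + ω ∧
      ENNReal.ofReal π ≤ L.law t h (L.start t (H i)) (n j) {y | |L.U (t - n j * h) y - a * ω| ≤ ω} ∧
      ENNReal.ofReal π ≤
        L.law t h (L.start t (H' i)) (n j) {y | |L.U (t - n j * h) y - b * ω| ≤ ω} := fun i => by
    by_cases hi : i < nb ∧ L.BadBlock t α β ρ (x + i * l) l
    · obtain ⟨i1, i2⟩ := hil i hi.1
      obtain ⟨a, a1, a2, a3⟩ := (hC (K3 ^ j * l) (hl1.trans (hsj j)) L t h (x + i * l) (ρ * l) (n j)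
        (H i) hh ((hh3 j hj).trans (min_le_right _ _)) (hn2 j) ((hA' _ hj.le).trans ht) hT (mH i)
        (sH i) (mul_pos hρ hl0) hi.2.2).1 β fun _ h => h.2
      obtain ⟨b, b1, b2, b3, b4⟩ := (hC (K3 ^ j * l) (hl1.trans (hsj j)) L t h (x + i * l) (ρ * l)
        (n j) (H' i) hh ((hh3 j hj).trans (min_le_right _ _)) (hn2 j) ((hA' _ hj.le).trans ht) hT
        (mH' i) (sH' i) (mul_pos hρ hl0) hi.2.1).2 α ε1 ν (fun _ h => h.2) hν
        (nv_mono hNV le_rfl (by linarith [hA' _ hj.le]) (by linarith) (by linarith)) (by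
          refine le_trans (mul_le_mul_of_nonneg_left (Real.exp_le_exp.2 (le_trans ?_ (hA j hj.le)))
            hν) (hνe.trans ((min_le_right _ _).trans (mul_le_mul_of_nonneg_left
              (le_mul_of_one_le_right hρ.le hl1) hν1'.le)))
          exact mul_le_mul_of_nonneg_right (by linarith [le_abs_self (P.C2 M)]) (by positivity))
      exact ⟨a, b, fun _ _ => ⟨⟨a1, b1⟩, a2, b2, b3, a3, b4⟩⟩
    · exact ⟨0, 0, fun a b => absurd ⟨a, b⟩ hi⟩
  choose ca cb cell using cell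
  obtain ⟨a, b, hab⟩ := colour (((Finset.range nb).filter fun i : ℕ =>
      L.BadBlock t α β ρ (x + i * l) l).filter fun i =>
      L.mom t h (H i) (n (j + 1)) - L.mom t h (H i) (n j) ≤ eQ ∧
      L.mom t h (H' i) (n (j + 1)) - L.mom t h (H' i) (n j) ≤ eQ) nc hnc ca cb fun i hi => by
    rw [Finset.mem_filter, Finset.mem_filter, Finset.mem_range] at hi
    exact (cell i hi.1.1 hi.1.2).1
  obtain ⟨i, hi, i', hi', hd1, hd2⟩ := pair _ nb (K1 * K3 ^ j) ((K1 + 16 * K1 / δ) * K3 ^ j)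
    (one_le_mul_of_one_le_of_one_le hK1 hj3) (by positivity)
    (fun i hi => Finset.mem_range.1 (Finset.mem_filter.1 (Finset.mem_filter.1
      (Finset.mem_filter.1 hi).1).1).1) (by
      refine lt_of_lt_of_le ?_ hab
      rw [lt_div_iff₀ (by positivity)]
      refine lt_of_mul_lt_mul_left (lt_of_le_of_lt ?_ ((not_le.1 hcon).trans_le hG)) zero_le_two
      have h4 : K1 * K3 ^ j * (nb / ((K1 + 16 * K1 / δ) * K3 ^ j)) ≤ δ * nb / 16 := by
        calc _ ≤ K1 * K3 ^ j * (nb / (16 * K1 / δ * K3 ^ j)) := by gcongr; linarith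
          _ = _ := by field_simp
      rw [div_lt_iff₀ hδ] at hnb
      have h5 : K1 * K3 ^ j ≤ K1 * K3 ^ J := by gcongr
      have h6 := mul_pos hδ hnb0
      have h7 : δ0 * nb = δ * nb * nc ^ 2 := by
        rw [hδ']
        field_simp
      rw [h7, ← mul_assoc]
      exact mul_le_mul_of_nonneg_right (by linarith) (by positivity))
  rw [Finset.mem_filter, Finset.mem_filter, Finset.mem_filter, Finset.mem_range,
    Prod.mk.injEq] at hi hi'
  obtain ⟨⟨⟨i1, i2⟩, i3, i4⟩, i5, i6⟩ := hi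
  obtain ⟨⟨⟨j1, j2⟩, j3, j4⟩, j5, j6⟩ := hi'
  obtain ⟨-, c1, c2, c3, c4, c5⟩ := cell i i1 i2
  obtain ⟨-, -, -, -, d4, d5⟩ := cell i' j1 j2
  rw [i5] at c1 c4
  rw [i6] at c2 c3 c5
  rw [j5] at d4
  rw [j6] at d5
  obtain ⟨l1, l2⟩ := hil i i1
  have hg : b * ω + gap / 2 ≤ a * ω := by linarith
  have hfin : ∀ (A B cX cY : ℝ) (S S' : Set ℝ), gap / 2 ≤ |cX - cY| → ε1 ≤ cX → ε1 ≤ cY →
      P.Sep M A B c ω0 cX cY → MeasurableSet S → MeasurableSet S' →
      S ⊆ Icc (x + i * l) (x + i * l + K3 ^ j * l) →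
      S' ⊆ Icc (x + i' * l) (x + i' * l + K3 ^ j * l) → ENNReal.ofReal (ρ * l) ≤ volume S →
      ENNReal.ofReal (ρ * l) ≤ volume S' →
      ENNReal.ofReal π ≤ L.law t h (L.start t S) (n j) {y | |L.U (t - n j * h) y - cX| ≤ ω} →
      ENNReal.ofReal π ≤ L.law t h (L.start t S') (n j) {y | |L.U (t - n j * h) y - cY| ≤ ω} →
      L.mom t h S (n (j + 1)) - L.mom t h S (n j) ≤ eQ →
      L.mom t h S' (n (j + 1)) - L.mom t h S' (n j) ≤ eQ → False :=
    fun A B cX cY S S' e1 e2 e3 e4 e5 e6 e7 e8 e9 e10 e11 e12 e13 e14 =>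
      hP (K3 ^ j * l) (hl.trans (hsj j)) L t h A B cX cY (x + i * l) (x + i' * l) (n j)
        (n (j + 1)) S S' hh ((hh3 j hj).trans (min_le_left _ _)) (hn1 j) (hn2 j)
        (by rw [← mul_assoc, ← pow_succ']; exact hn1 _)
        (by rw [← mul_assoc, ← pow_succ']; exact hn2 _)
        ((hA' _ hj).trans ht) hT e1 e2 e3 (sep_mono e4 hω1) e5 e6 e7 e8 (hpos.trans_le e9).ne'
        (hpos.trans_le e10).ne' e11 e12
        (by linarith [mul_le_mul_of_nonneg_right hd1 hl0.le])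
        (by linarith [mul_le_mul_of_nonneg_right hd2 hl0.le])
        (nv_mono hNV ((hν1.trans hνe).trans (min_le_left _ _)) (by linarith [hA' _ hj])
          (by linarith) (by linarith)) e13 e14
  obtain ⟨A, B, hs | hs⟩ := hsep _ _ hg
  · exact hfin A B _ _ (H' i) (H i') (le_abs.2 (Or.inr (by linarith))) c2 (by linarith) hs (mH' i)
      (mH i') (sH' i) (sH i') i2.1 j2.2 c5 d4 i4 j3
  · exact hfin A B _ _ (H i) (H' i') (le_abs.2 (Or.inl (by linarith))) (by linarith) c2 hs (mH i)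
      (mH' i') (sH i) (sH' i') i2.2 j2.1 c4 d5 i3 j4

end MP34a893.B

end MrgPart1

-- marker of a merged file
example : 731051 + 736565 = 731051 + 736565 := rfl

end MrgPart1

-- marker of a merged file
example : 731051 + 736565 = 731051 + 736565 := rfl
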