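import Pool.Agent.MP_34a893_an.Scale
import Pool.Agent.MP_34a893_an.B.Few

-- ======== part 0: formerly Pool.Agent.MP_34a893_an.Osc
section MrgPart0

/-! Row OSC: block oscillation at every time, and the flux defect. -/

open MeasureTheory Set Filter Topology

namespace MP34a893

namespace Osc

lemma sum_blocks (f : ℕ → ℝ) (n b : ℕ) :
    ∑ i ∈ Finset.range (n * b), f i = ∑ j ∈ Finset.range n, ∑ r ∈ Finset.range b, f (j * b + r) := by
  induction n with
  | zero => simp
  | succ n ih => rw [Nat.succ_mul, Finset.sum_range_add, ih, Finset.sum_range_succ]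

open Classical in
lemma sum_marked (a : ℕ → ℝ) (ha : ∀ j, a j ≤ a (j + 1)) (sp : ℕ → Prop) (B : ℝ) (hB : 0 ≤ B)
    (m : ℕ) (h : ∀ j < m, sp j → a (j + 1) - a 0 ≤ B) :
    ∑ j ∈ Finset.range m, (if sp j then a (j + 1) - a j else 0) ≤ B := by
  induction m with
  | zero => simpa
  | succ m ih =>
    by_cases c : sp m
    · refine le_trans (Finset.sum_le_sum fun j _ => ?_)
        ((Finset.sum_range_sub a (m + 1)).trans_le (h m m.lt_succ_self c))
      split_ifs
      · exact le_rfl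
      · exact sub_nonneg.2 (ha j)
    · rw [Finset.sum_range_succ, if_neg c, add_zero]
      exact ih fun j hj => h j (hj.trans m.lt_succ_self)

lemma ii {w : ℝ → ℝ} (hw : Measurable w) {C : ℝ} (hC : ∀ x, |w x| ≤ C) (a b : ℝ) :
    IntervalIntegrable w volume a b :=
  (intervalIntegrable_const (c := C)).mono_fun' hw.aestronglyMeasurable (ae_of_all _ hC)

/-- the mean of a forward average over a long interval -/
lemma avg_le {k w : ℝ → ℝ} {N a l R : ℝ} (hk : Continuous k) (hk0 : ∀ s, 0 ≤ k s)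
    (hki : IntegrableOn k (Ioi 0)) (hk1 : ∫ s in Ioi (0 : ℝ), k s = 1) (hw : Measurable w)
    (hN : ∀ x, w x ∈ Icc 0 N) (hl : 0 ≤ l) (hR : 0 ≤ R) :
    IntervalIntegrable (fun x => ∫ s in Ioi (0 : ℝ), k s * w (x + s)) volume a (a + l) ∧
    ∫ x in a..(a + l), ∫ s in Ioi (0 : ℝ), k s * w (x + s) ≤
      (∫ x in a..(a + l), w x) + N * R + N * l * ∫ s in Ioi R, k s := by
  have hal : a ≤ a + l := by linarith
  have hN0 : 0 ≤ N := (hN 0).1.trans (hN 0).2
  have hab : ∀ x, |w x| ≤ N := fun x => by rw [abs_of_nonneg (hN x).1]; exact (hN x).2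
  have hi : Integrable (Function.uncurry fun x s => k s * w (x + s))
      ((volume.restrict (Ioc a (a + l))).prod (volume.restrict (Ioi (0 : ℝ)))) := by
    refine Integrable.mono' ((integrable_const N).mul_prod hki) ?_ (ae_of_all _ fun z => ?_)
    · exact ((hk.measurable.comp measurable_snd).mul
        (hw.comp (measurable_fst.add measurable_snd))).aestronglyMeasurable
    · change ‖k z.2 * w (z.1 + z.2)‖ ≤ N * k z.2
      rw [Real.norm_eq_abs, abs_mul, abs_of_nonneg (hk0 _), mul_comm]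
      exact mul_le_mul_of_nonneg_right (hab _) (hk0 _)
  refine ⟨(intervalIntegrable_iff_integrableOn_Ioc_of_le hal).2 hi.integral_prod_left, ?_⟩
  set I := ∫ x in a..(a + l), w x with hI
  have up : ∀ b c : ℝ, b ≤ c → ∫ x in b..c, w x ≤ N * (c - b) := fun b c h => by
    have := intervalIntegral.integral_mono_on h (ii hw hab b c) (intervalIntegrable_const (c := N))
      fun x _ => (hN x).2
    rwa [intervalIntegral.integral_const, smul_eq_mul, mul_comm] at this
  have lo : ∀ b c : ℝ, b ≤ c → 0 ≤ ∫ x in b..c, w x := fun b c h =>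
    intervalIntegral.integral_nonneg h fun x _ => (hN x).1
  have i2 : Integrable ((Ioi R).indicator fun s => N * l * k s) (volume.restrict (Ioi 0)) :=
    (hki.const_mul _).indicator measurableSet_Ioi
  rw [intervalIntegral.integral_of_le hal, integral_integral_swap hi]
  calc _ ≤ ∫ s in Ioi (0 : ℝ), ((I + N * R) * k s + (Ioi R).indicator (fun s => N * l * k s) s) := by
        refine setIntegral_mono_on hi.integral_prod_right ((hki.const_mul _).add i2)
          measurableSet_Ioi fun s hs => ?_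
        have hs0 : 0 ≤ s := le_of_lt hs
        rw [integral_const_mul, ← intervalIntegral.integral_of_le hal,
          intervalIntegral.integral_comp_add_right]
        have := hk0 s
        by_cases c : s ∈ Ioi R
        · rw [indicator_of_mem c]
          have h1 := up (a + s) (a + l + s) (by linarith)
          have h2 : 0 ≤ I + N * R := add_nonneg (lo _ _ hal) (mul_nonneg hN0 hR)
          rw [show a + l + s - (a + s) = l by ring] at h1
          nlinarith [mul_le_mul_of_nonneg_left h1 this, mul_nonneg h2 this]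
        · rw [indicator_of_notMem c, add_zero, mul_comm]
          refine mul_le_mul_of_nonneg_right ?_ this
          have e1 := intervalIntegral.integral_add_adjacent_intervals (ii hw hab a (a + s))
            (ii hw hab (a + s) (a + l + s))
          have e2 := intervalIntegral.integral_add_adjacent_intervals (ii hw hab a (a + l))
            (ii hw hab (a + l) (a + l + s))
          have h1 := up (a + l) (a + l + s) (by linarith)
          have h2 := lo a (a + s) (by linarith)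
          have h3 : N * s ≤ N * R := mul_le_mul_of_nonneg_left (not_lt.1 c) hN0
          rw [show a + l + s - (a + l) = s by ring] at h1
          linarith
    _ = _ := by
        rw [integral_add (hki.const_mul _) i2, integral_const_mul, hk1, mul_one,
          integral_indicator measurableSet_Ioi, Measure.restrict_restrict measurableSet_Ioi,
          inter_eq_left.2 (Ioi_subset_Ioi hR), integral_const_mul]

variable {P : Par} {M : ℝ}

lemma u_meas (L : Lag P M) (t : ℝ) : Measurable (L.u t) := L.u_meas.of_uncurry_left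

lemma abs_u (L : Lag P M) (hL : L.Facts) (t x : ℝ) {c : ℝ} (hc : c ∈ Icc 0 (P.N M)) :
    |L.u t x - c| ∈ Icc 0 (P.N M) :=
  ⟨abs_nonneg _, abs_le.2 ⟨by linarith [hL.u_nonneg t x, hc.2], by linarith [L.u_le t x, hc.1]⟩⟩

lemma Q_lip (L : Lag P M) (hL : L.Facts) (t x y : ℝ) : |L.Q t x - L.Q t y| ≤ M * |x - y| := by
  rw [hL.Q_sub]
  refine intervalIntegral.norm_integral_le_of_norm_le_const (f := L.q t) fun z _ => ?_
  rw [Real.norm_eq_abs, abs_of_nonneg (hL.q_mem t z).1]
  exact (hL.q_mem t z).2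

lemma Q_mono (L : Lag P M) (hL : L.Facts) (t : ℝ) : Monotone (L.Q t) :=
  hL.m_mono.comp (hL.Y_mono t).monotone

/-- the flux defect on one block -/
lemma flux_block (hP : P.Facts M) (L : Lag P M) (hL : L.Facts) (t a l R c : ℝ) (hM : 0 < M)
    (hl : 0 ≤ l) (hR : 0 ≤ R) (hc : c ∈ Icc 0 (P.N M)) :
    ∫ x in a..(a + l), |L.v t x * L.q t x - P.f (L.q t x)| ≤ M * P.bm M *
      (2 * (∫ x in a..(a + l), |L.u t x - c|) + P.N M * R + P.N M * l * ∫ s in Ioi R, P.k s) := by
  have hw : Measurable fun x => |L.u t x - c| := ((u_meas L t).sub_const c).abs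
  have hb := fun x => abs_u L hL t x hc
  obtain ⟨i1, h1⟩ := avg_le (a := a) hP.k_cont hP.k_nonneg hP.k_int hP.k_one hw hb hl hR
  have i2 := ii hw (C := P.N M) (fun x => by rw [abs_abs]; exact (hb x).2) a (a + l)
  have hbm : 0 ≤ M * P.bm M := mul_nonneg hM.le hP.bm_nonneg
  have pt : ∀ x, |L.v t x * L.q t x - P.f (L.q t x)| ≤
      M * P.bm M * ((∫ s in Ioi (0 : ℝ), P.k s * |L.u t (x + s) - c|) + |L.u t x - c|) := by
    intro x
    have iu : IntegrableOn (fun s => P.k s * L.u t (x + s)) (Ioi 0) := by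
      refine Integrable.mul_bdd (c := P.N M) hP.k_int
        ((u_meas L t).comp (measurable_const_add x)).aestronglyMeasurable (ae_of_all _ fun s => ?_)
      rw [Real.norm_eq_abs, abs_of_nonneg (hL.u_nonneg _ _)]
      exact L.u_le _ _
    have e : L.Z t x - c = ∫ s in Ioi (0 : ℝ), P.k s * (L.u t (x + s) - c) := by
      simp only [mul_sub]
      rw [integral_sub iu (hP.k_int.mul_const c), integral_mul_const, hP.k_one, one_mul]
      rfl
    have z : |L.Z t x - c| ≤ ∫ s in Ioi (0 : ℝ), P.k s * |L.u t (x + s) - c| := by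
      rw [e]
      refine abs_integral_le_integral_abs.trans_eq (integral_congr_ae (ae_of_all _ fun s => ?_))
      simp only [abs_mul, abs_of_nonneg (hP.k_nonneg s)]
    have f1 : L.v t x * L.q t x - P.f (L.q t x) = L.q t x * (P.Φ (L.Z t x) - P.Φ (L.u t x)) := by
      rw [Par.f, hL.q_pow, Lag.v]; ring
    have f2 := hP.Φ_lip _ (hL.Z_mem t x) _ ⟨hL.u_nonneg t x, L.u_le t x⟩
    have f3 : |L.Z t x - L.u t x| ≤ |L.Z t x - c| + |L.u t x - c| := by
      rw [abs_sub_comm (L.u t x)]; exact abs_sub_le _ _ _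
    rw [f1, abs_mul, abs_of_nonneg (hL.q_mem t x).1, mul_assoc]
    exact mul_le_mul (hL.q_mem t x).2 (f2.trans (mul_le_mul_of_nonneg_left (by linarith)
      hP.bm_nonneg)) (abs_nonneg _) hM.le
  calc _ ≤ ∫ x in a..(a + l), M * P.bm M *
        ((∫ s in Ioi (0 : ℝ), P.k s * |L.u t (x + s) - c|) + |L.u t x - c|) := by
        rw [intervalIntegral.integral_of_le (by linarith), intervalIntegral.integral_of_le (by linarith)]
        exact integral_mono_of_nonneg (ae_of_all _ fun x => abs_nonneg _)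
          (((i1.add i2).const_mul _).1) (ae_of_all _ pt)
    _ ≤ _ := by
        rw [intervalIntegral.integral_const_mul, intervalIntegral.integral_add i1 i2]
        exact mul_le_mul_of_nonneg_left (by linarith) hbm

/-- an interval of small mass has small oscillation -/
lemma sparse_block (hP : P.Facts M) (L : Lag P M) (hL : L.Facts) (t x l δ : ℝ) (nb : ℕ)
    (hl : 0 ≤ l) (hδ : 0 < δ) :
    ∑ i ∈ Finset.range nb, ∫ x' in (x + i * l)..(x + (i + 1) * l), |L.u t x' - 0| ≤
      δ * (nb * l) + δ ^ (1 - 1 / P.p) * (L.Q t (x + nb * l) - L.Q t x) := by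
  have hw : Measurable fun x => |L.u t x - 0| := ((u_meas L t).sub_const 0).abs
  have i1 := ii hw (C := P.N M) fun x => by
    rw [abs_abs]; exact (abs_u L hL t x ⟨le_rfl, hP.N_pos.le⟩).2
  have i2 := ii (hL.q_meas.of_uncurry_left (x := t)) (C := M) fun x => by
    rw [abs_of_nonneg (hL.q_mem t x).1]; exact (hL.q_mem t x).2
  have e := intervalIntegral.sum_integral_adjacent_intervals (a := fun i : ℕ => x + i * l) (n := nb)
    (μ := volume) (f := fun x => |L.u t x - 0|) fun k _ => i1 _ _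
  simp only [Nat.cast_add, Nat.cast_one, Nat.cast_zero, zero_mul, add_zero] at e
  rw [e, hL.Q_sub]
  have hle : x ≤ x + nb * l := le_add_of_nonneg_right (by positivity)
  refine (intervalIntegral.integral_mono_on hle (i1 _ _)
    ((intervalIntegrable_const (c := δ)).add ((i2 _ _).const_mul (δ ^ (1 - 1 / P.p))))
    fun y _ => ?_).trans_eq ?_
  · rw [sub_zero, abs_of_nonneg (hL.u_nonneg t y)]
    exact hP.le_root δ hδ _ (hL.u_nonneg t y)
  · rw [intervalIntegral.integral_add intervalIntegrable_const ((i2 _ _).const_mul _),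
      intervalIntegral.integral_const, intervalIntegral.integral_const_mul, smul_eq_mul]
    ring

end Osc

open Osc

theorem fluxS : Basic → FluxS := by
  intro hB P M hM e K he hK
  have hP := hB.1 P M hM
  have hN := hP.N_pos
  obtain ⟨R, hR, hR0⟩ := ((hP.tail.eventually (ge_mem_nhds (by positivity : 0 < e / (2 * P.N M)))).and
    (eventually_ge_atTop 0)).exists
  refine ⟨2 * P.N M * K * R / e, fun L S t x0 hS ⟨c, hc, hs⟩ => ?_⟩
  have hL := hB.2.1 P M L hM
  have hK' : (0 : ℝ) < K := by exact_mod_cast hK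
  have hS0 : 0 ≤ S := le_trans (by positivity) hS
  have hq : Measurable (L.q t) := hL.q_meas.of_uncurry_left
  have hv : Measurable (L.v t) := hL.v_cont.measurable.of_uncurry_left
  have i1 := ii ((hv.mul hq).sub (hP.f_meas.comp hq)).abs (C := P.Vm M * M + M * P.Vm M) fun x => by
    rw [abs_abs]
    refine (abs_sub _ _).trans (add_le_add ?_ (hP.f_abs _ (hL.q_mem t x)))
    rw [Pi.mul_apply, abs_mul, abs_of_nonneg (hL.q_mem t x).1]
    exact mul_le_mul (hL.v_abs t x) (hL.q_mem t x).2 (hL.q_mem t x).1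
      ((abs_nonneg _).trans (hL.v_abs t x))
  have e1 := intervalIntegral.sum_integral_adjacent_intervals (n := K) (μ := volume)
    (a := fun i : ℕ => x0 + i * (S / K))
    (f := fun x => |L.v t x * L.q t x - P.f (L.q t x)|) fun k _ => i1 _ _
  simp only [Nat.cast_add, Nat.cast_one, Nat.cast_zero, zero_mul, add_zero] at e1
  rw [mul_div_cancel₀ S hK'.ne'] at e1
  rw [← e1]
  have e2 : ∀ i : ℕ, x0 + (i + 1) * (S / K) = x0 + i * (S / K) + S / K := fun i => by ring
  simp only [e2] at hs ⊢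
  refine (Finset.sum_le_sum fun i _ =>
    flux_block hP L hL t _ (S / K) R (c i) hM (by positivity) hR0 (hc i)).trans ?_
  rw [← Finset.mul_sum, Finset.sum_add_distrib, Finset.sum_add_distrib, ← Finset.mul_sum,
    Finset.sum_const, Finset.sum_const, Finset.card_range, nsmul_eq_mul, nsmul_eq_mul,
    show 3 * M * P.bm M * e * S = M * P.bm M * (3 * (e * S)) by ring]
  refine mul_le_mul_of_nonneg_left ?_ (mul_nonneg hM.le hP.bm_nonneg)
  rw [div_le_iff₀ he] at hS
  rw [le_div_iff₀ (by positivity)] at hR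
  rw [show (K : ℝ) * (P.N M * (S / K) * ∫ s in Ioi R, P.k s) =
    S * ((∫ s in Ioi R, P.k s) * (2 * P.N M)) / 2 by field_simp]
  nlinarith [mul_le_mul_of_nonneg_left hR hS0]

theorem oscS : Basic → DefS → VacS → DenseS → OscS := by
  intro hB hDef hVac hDen P M hM hSt e he
  classical
  have hP := hB.1 P M hM
  set A := (e / 2) ^ (1 - 1 / P.p) with hA
  have hA0 : 0 < A := Real.rpow_pos_of_pos (by positivity) _
  obtain ⟨θ, hθ, hθA⟩ : ∃ θ : ℝ, 0 < θ ∧ A * θ = e / 8 := ⟨e / 8 / A, by positivity, by field_simp⟩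
  obtain ⟨κ0, hκ0, hD⟩ := hDef P M hM hSt θ hθ
  obtain ⟨nh, hnh⟩ := exists_nat_gt (4 / κ0)
  have nh0 : (0 : ℝ) < nh := lt_trans (by positivity) hnh
  obtain ⟨ε1, c, S1, hε, hc, hV⟩ := hVac P M hM hSt (4 / nh) (by positivity)
  obtain ⟨nb, K5, ν0, l0, nb0, hK5, hν0, hl0, hE⟩ := hDen P M hM hSt (e / 2) ε1 (by positivity) hε
  have hVm : 0 ≤ P.Vm M := add_nonneg (abs_nonneg _) (mul_nonneg hP.bm_nonneg hP.N_pos.le)
  obtain ⟨ns, hns⟩ := exists_nat_gt
    (max (max (4 * M * A / e) (2 * M * (P.Vm M + 1) * K5 / θ)) (max (2 * K5) (8 * K5 / c)))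
  simp only [max_lt_iff] at hns
  obtain ⟨⟨n1, n2⟩, n3, n4⟩ := hns
  have ns0 : (0 : ℝ) < ns := lt_trans (by positivity) n3
  have nh1 : (1 : ℝ) ≤ nh := by exact_mod_cast (Nat.cast_pos.1 nh0 : 0 < nh)
  have nb1 : (1 : ℝ) ≤ nb := by exact_mod_cast nb0
  have lim : Tendsto (fun S : ℝ => (c / 8 * S) ^ 1 * Real.exp (-(c / 8 * S))) atTop (𝓝 0) :=
    (Real.tendsto_pow_mul_exp_neg_atTop_nhds_zero 1).comp
      (tendsto_id.const_mul_atTop (by positivity))
  obtain ⟨S0, hS0⟩ := eventually_atTop.1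
    ((lim.eventually (ge_mem_nhds (by positivity : 0 < ν0 * c / 10))).and
      ((eventually_ge_atTop (4 * S1)).and ((eventually_ge_atTop (nh : ℝ)).and
        (eventually_ge_atTop (nh * ns * nb * l0)))))
  refine ⟨nh * ns * nb, S0, Nat.mul_pos (Nat.mul_pos (Nat.cast_pos.1 nh0) (Nat.cast_pos.1 ns0)) nb0,
    fun L S t x0 hS hSt' hT => ?_⟩
  obtain ⟨s1, s2, s3, s4⟩ := hS0 S hS
  have hL := hB.2.1 P M L hM
  obtain ⟨l, hl⟩ : ∃ l, l = S / ((nh * ns * nb : ℕ) : ℝ) := ⟨_, rfl⟩
  have hSl : S = nh * (ns * (nb * l)) := by rw [hl]; push_cast; field_simp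
  have ll0 : l0 ≤ l := by
    rw [hl, le_div_iff₀ (by push_cast; positivity)]; push_cast; linarith
  have lp : 0 < l := hl0.trans_le ll0
  obtain ⟨H, hH⟩ : ∃ H, H = ns * (nb * l) := ⟨_, rfl⟩
  have b1 : l ≤ nb * l := le_mul_of_one_le_left lp.le nb1
  have b2 : ns * l ≤ H := hH ▸ mul_le_mul_of_nonneg_left b1 ns0.le
  have Hp : 0 < H := lt_of_lt_of_le (by positivity) b2
  have b3 : H ≤ S := by rw [hSl, ← hH]; exact le_mul_of_one_le_left Hp.le nh1
  have hκ : 4 / nh * (S / 4) = H := by rw [hSl, hH]; field_simp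
  have k1 : 2 * (K5 * l) ≤ S := by nlinarith [mul_le_mul_of_nonneg_right n3.le lp.le]
  have k2 : K5 * l ≤ c / 8 * S := by
    rw [div_lt_iff₀ hc] at n4
    nlinarith [mul_le_mul_of_nonneg_right n4.le lp.le, mul_le_mul_of_nonneg_left (b2.trans b3) hc.le]
  have k3 : 2 * (M * (K5 * l) + M * P.Vm M * (K5 * l)) < θ * H := by
    rw [div_lt_iff₀ hθ] at n2
    nlinarith [mul_lt_mul_of_pos_right n2 lp, mul_le_mul_of_nonneg_left b2 hθ.le]
  have k0 : 0 < K5 * l := by positivity
  have blk : ∀ x : ℝ, ∃ C : ℕ → ℝ, (∀ i, C i ∈ Icc 0 (P.N M)) ∧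
      ∑ i ∈ Finset.range nb, ∫ x' in (x + i * l)..(x + (i + 1) * l), |L.u t x' - C i| ≤
        e / 2 * (nb * l) + A * if L.Q t x - L.Q t (x - H) < 2 * θ * H then
          L.Q t (x + nb * l) - L.Q t x else 0 := by
    intro x
    split_ifs with hx
    · exact ⟨fun _ => 0, fun _ => ⟨le_rfl, hP.N_pos.le⟩,
        sparse_block hP L hL t x l _ nb lp.le (by positivity)⟩
    rw [mul_zero, add_zero]
    refine hE L t l x (Real.exp (-c * (S / 4)) * (x + K5 * l - (x - K5 * l) + S / 4)) ll0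
      (by linarith) hT (mul_nonneg (Real.exp_pos _).le (by linarith)) ?_ fun τ hτ => ?_
    · have e1 : Real.exp (-c * (S / 4)) * Real.exp (K5 * l) ≤ Real.exp (-(c / 8 * S)) := by
        rw [← Real.exp_add]; exact Real.exp_le_exp.2 (by linarith)
      have e2 : x + K5 * l - (x - K5 * l) + S / 4 ≤ 10 / c * (c / 8 * S) := by
        rw [show 10 / c * (c / 8 * S) = 5 / 4 * S by field_simp; ring]; linarith
      calc _ = (x + K5 * l - (x - K5 * l) + S / 4) *
            (Real.exp (-c * (S / 4)) * Real.exp (K5 * l)) := by ring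
        _ ≤ 10 / c * (c / 8 * S) * Real.exp (-(c / 8 * S)) :=
            mul_le_mul e2 e1 (by positivity) (le_trans (by linarith) e2)
        _ ≤ 10 / c * (ν0 * c / 10) := by
            rw [mul_assoc]; rw [pow_one] at s1
            exact mul_le_mul_of_nonneg_left s1 (by positivity)
        _ = ν0 := by field_simp
    · refine hV L (S / 4) τ _ _ (by linarith) (by linarith [hτ.1]) (hτ.2.trans hT) (by linarith)
        fun x' hx' => ?_
      by_contra hlt
      have d := hD (4 / nh) (S / 4) (by positivity)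
        (by rw [div_lt_iff₀ hκ0] at hnh; rw [div_le_iff₀ nh0]; linarith)
        (by rw [hκ]; rw [hSl, ← hH] at s3; nlinarith) L τ (L.Y τ x') (by linarith [hτ.1])
        (hτ.2.trans hT) (not_le.1 hlt).le
      rw [L.XY, hκ] at d
      have tI : t ∈ Icc 0 L.T := ⟨by linarith, hT⟩
      have τI : τ ∈ Icc 0 L.T := ⟨by linarith [hτ.1], hτ.2.trans hT⟩
      have a1 : |t - τ| ≤ K5 * l := abs_le.2 ⟨by linarith [hτ.2], by linarith [hτ.1]⟩
      have a2 : |x - x'| ≤ K5 * l := abs_le.2 ⟨by linarith [hx'.2], by linarith [hx'.1]⟩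
      have q : ∀ r, |L.Q t (x - r) - L.Q τ (x' - r)| ≤ M * (K5 * l) + M * P.Vm M * (K5 * l) := by
        intro r
        refine (abs_sub_le _ (L.Q t (x' - r)) _).trans (add_le_add ?_ ?_)
        · refine (Q_lip L hL t _ _).trans (mul_le_mul_of_nonneg_left ?_ hM.le)
          rwa [sub_sub_sub_cancel_right]
        · exact (hL.Q_time t tI τ τI _).trans (mul_le_mul_of_nonneg_left a1 (by positivity))
      have q0 := abs_le.1 (q 0)
      have qH := abs_le.1 (q H)
      rw [sub_zero, sub_zero] at q0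
      linarith [q0.2, qH.1, not_lt.1 hx]
  choose C hC1 hC2 using blk
  refine ⟨fun i => C (x0 + (i / nb : ℕ) * (nb * l)) (i % nb), fun i => hC1 _ _, ?_⟩
  rw [← hl, sum_blocks]
  have t1 : ∀ j ∈ Finset.range (nh * ns), ∑ r ∈ Finset.range nb,
      ∫ x in (x0 + (j * nb + r : ℕ) * l)..(x0 + ((j * nb + r : ℕ) + 1) * l),
        |L.u t x - C (x0 + ((j * nb + r) / nb : ℕ) * (nb * l)) ((j * nb + r) % nb)| ≤ _ :=
      fun j _ => le_of_eq_of_le (Finset.sum_congr rfl fun r hr => ?_) (hC2 (x0 + j * (nb * l)))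
  swap
  · have hr := Finset.mem_range.1 hr
    rw [Nat.mul_add_mod_of_lt hr, show (j * nb + r) / nb = j by
      rw [mul_comm, Nat.mul_add_div nb0, Nat.div_eq_of_lt hr, add_zero]]
    congr 1 <;> push_cast <;> ring
  refine (Finset.sum_le_sum t1).trans ?_
  rw [Finset.sum_add_distrib, Finset.sum_const, Finset.card_range, nsmul_eq_mul, ← Finset.mul_sum,
    sum_blocks]
  have t2 : ∀ h ∈ Finset.range nh, ∑ r ∈ Finset.range ns,
      (if L.Q t (x0 + (h * ns + r : ℕ) * (nb * l)) - L.Q t (x0 + (h * ns + r : ℕ) * (nb * l) - H) <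
        2 * θ * H then L.Q t (x0 + (h * ns + r : ℕ) * (nb * l) + nb * l) -
          L.Q t (x0 + (h * ns + r : ℕ) * (nb * l)) else 0) ≤ 2 * θ * H + M * (nb * l) := by
    intro h _
    have e1 : ∀ r : ℕ, x0 + (h * ns + (r + 1) : ℕ) * (nb * l) =
        x0 + (h * ns + r : ℕ) * (nb * l) + nb * l := fun r => by push_cast; ring
    have := sum_marked (fun r => L.Q t (x0 + (h * ns + r : ℕ) * (nb * l)))
      (fun r => Q_mono L hL t (by rw [e1]; linarith))
      (fun r => L.Q t (x0 + (h * ns + r : ℕ) * (nb * l)) -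
        L.Q t (x0 + (h * ns + r : ℕ) * (nb * l) - H) < 2 * θ * H)
      (2 * θ * H + M * (nb * l)) (by positivity) ns fun r hr hsp => ?_
    · simpa only [e1] using this
    · have a1 := (abs_le.1 (Q_lip L hL t (x0 + (h * ns + r : ℕ) * (nb * l) + nb * l)
        (x0 + (h * ns + r : ℕ) * (nb * l)))).2
      rw [add_sub_cancel_left, abs_of_nonneg (by positivity)] at a1
      have a2 : L.Q t (x0 + (h * ns + r : ℕ) * (nb * l) - H) ≤
          L.Q t (x0 + (h * ns + 0 : ℕ) * (nb * l)) := Q_mono L hL t (by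
        have : (r : ℝ) ≤ ns := by exact_mod_cast hr.le
        have := mul_le_mul_of_nonneg_right this (lp.le.trans b1)
        push_cast; linarith)
      rw [e1]
      linarith
  have t3 := Finset.sum_le_card_nsmul _ _ _ t2
  rw [Finset.card_range, nsmul_eq_mul] at t3
  have t4 := mul_le_mul_of_nonneg_left t3 hA0.le
  rw [div_lt_iff₀ he] at n1
  have t5 : A * (nh * (2 * θ * H + M * (nb * l))) ≤ e / 2 * S := by
    have := mul_le_mul_of_nonneg_right n1.le (by positivity : (0 : ℝ) ≤ nh * (nb * l))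
    have e1 : A * (nh * (2 * θ * H)) = e / 4 * S := by
      rw [hSl, ← hH]; linear_combination 2 * nh * H * hθA
    rw [hSl] at e1 ⊢
    linarith
  have t6 : ((nh * ns : ℕ) : ℝ) * (e / 2 * (nb * l)) = e / 2 * S := by rw [hSl]; push_cast; ring
  linarith

end MP34a893

end MrgPart0

-- ======== part 1: formerly Pool.Agent.MP_34a893_an.B.Cmp
section MrgPart1

open MeasureTheory Set Filter Topology

namespace MP34a893.B

namespace Cmp

/-- the clipped slope -/
noncomputable def kk (M α r : ℝ) : ℝ := max 0 (min (r / α) M)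

noncomputable def rho (M α r : ℝ) : ℝ := kk M α r * r - α * kk M α r ^ 2 / 2

lemma kk_mem {M α : ℝ} (hM : 0 ≤ M) (r : ℝ) : kk M α r ∈ Icc 0 M :=
  ⟨le_max_left _ _, max_le hM (min_le_right _ _)⟩

lemma opt {M α κ : ℝ} (hM : 0 ≤ M) (hα : 0 < α) (hκ : κ ∈ Icc 0 M) (r : ℝ) :
    κ * r - α * κ ^ 2 / 2 + α * (κ - kk M α r) ^ 2 / 2 ≤ rho M α r := by
  have key : (κ - kk M α r) * (r - α * kk M α r) ≤ 0 := by
    unfold kk
    rcases le_total (r / α) 0 with h | h
    · rw [min_eq_left (h.trans hM), max_eq_left h]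
      rw [div_le_iff₀ hα] at h
      nlinarith [hκ.1]
    · rcases le_total (r / α) M with h' | h'
      · rw [min_eq_left h', max_eq_right h, mul_div_cancel₀ _ hα.ne', sub_self, mul_zero]
      · rw [min_eq_right h', max_eq_right hM]
        rw [le_div_iff₀ hα] at h'
        nlinarith [hκ.2]
  unfold rho
  nlinarith

lemma step {M α : ℝ} (hM : 0 ≤ M) (hα : 0 < α) (r r' : ℝ) :
    rho M α r' ≤ rho M α r + kk M α r * (r' - r) + (r' - r) ^ 2 / (2 * α) := by
  have h := opt hM hα (kk_mem (α := α) hM r') r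
  have e : (r' - r) ^ 2 / (2 * α) = α * ((r' - r) / α) ^ 2 / 2 := by field_simp
  have e2 : r' - r = α * ((r' - r) / α) := by field_simp
  rw [e]
  generalize (r' - r) / α = d at e2 ⊢
  have e3 : r' = r + α * d := by linarith
  have := mul_nonneg hα.le (sq_nonneg (kk M α r' - kk M α r - d))
  unfold rho at h ⊢
  generalize kk M α r' = a at h this ⊢
  generalize kk M α r = b at h this ⊢
  subst e3
  nlinarith

lemma low {M α : ℝ} (hM : 0 ≤ M) (hα : 0 < α) (r : ℝ) :
    M * max r 0 - α * M ^ 2 / 2 ≤ rho M α r := by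
  have h1 := opt hM hα ⟨hM, le_rfl⟩ r
  have h2 := opt hM hα ⟨le_rfl, hM⟩ r
  have h3 := mul_nonneg hα.le (sq_nonneg (M - kk M α r))
  have h4 := mul_nonneg hα.le (sq_nonneg (0 - kk M α r))
  have h5 := mul_nonneg hα.le (sq_nonneg M)
  rcases le_total r 0 with h | h
  · rw [max_eq_right h]; linarith
  · rw [max_eq_left h]; linarith

lemma rho_zero {M α : ℝ} (hM : 0 ≤ M) : rho M α 0 = 0 := by
  simp [rho, kk, hM]

end Cmp

open Cmp in
theorem cmpS : CmpS := by
  intro T M e hT hM he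
  refine ⟨e / (8 * T), by positivity, fun C1 hC => ?_⟩
  obtain ⟨α, hα, hαe⟩ : ∃ α, 0 < α ∧ α * M ^ 2 / 2 = e / 4 :=
    ⟨e / (2 * M ^ 2), by positivity, by field_simp; ring⟩
  obtain ⟨n, hn⟩ := exists_nat_gt (8 * ((C1 + 1) * T) ^ 2 / (α * e))
  have hn0 : (0 : ℝ) < n := lt_of_le_of_lt (by positivity) hn
  rw [div_lt_iff₀ (by positivity)] at hn
  refine ⟨min (T / n) (e / (8 * n)), by positivity, fun f Q1 Q2 h1 h2 h0 t ht x => ?_⟩
  obtain ⟨e2, he2⟩ : ∃ e2, e2 = min (T / n) (e / (8 * n)) := ⟨_, rfl⟩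
  rw [← he2] at h1 h2
  have a0 : 0 < e2 := by rw [he2]; positivity
  have a1 : e2 ≤ T / n := he2 ▸ min_le_left _ _
  have a2 : e2 * (8 * n) ≤ e := (le_div_iff₀ (by positivity)).1 (he2 ▸ min_le_right _ _)
  obtain ⟨δ, hδ0, hδ⟩ : ∃ δ, 0 ≤ δ ∧ n * δ = t :=
    ⟨t / n, div_nonneg ht.1 hn0.le, by field_simp⟩
  have a3 : δ ≤ T / n := by rw [le_div_iff₀ hn0]; linarith [ht.2]
  have a4 : C1 * δ + e2 ≤ (C1 + 1) * T / n := by
    have := mul_le_mul_of_nonneg_left a3 hC
    calc _ ≤ C1 * (T / n) + T / n := by linarith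
      _ = _ := by ring
  obtain ⟨ε, hε⟩ : ∃ ε, ε = (2 * ((C1 + 1) * T / n)) ^ 2 / (2 * α) + 2 * (e / (8 * T) * δ) + 2 * e2 :=
    ⟨_, rfl⟩
  have key : ∀ i : ℕ, i ≤ n → ∃ y z, Q1 t x - Q2 t x ≤
      Q1 (t - i * δ) y - Q2 (t - i * δ) z - rho M α (y - z) + i * ε := by
    intro i
    induction i with
    | zero => exact fun _ => ⟨x, x, by simp [rho_zero hM.le]⟩
    | succ i ih =>
      intro hi
      obtain ⟨y, z, hy⟩ := ih (by omega)
      have b1 : ((i + 1 : ℕ) : ℝ) ≤ n := by exact_mod_cast hi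
      have b2 : 0 ≤ (i : ℝ) * δ := by positivity
      have m0 := kk_mem (α := α) hM.le (y - z)
      have s0 : 0 ≤ t - (i + 1 : ℕ) * δ := by nlinarith
      have s1 : t - (i + 1 : ℕ) * δ + δ ≤ T := by push_cast; linarith [ht.2]
      obtain ⟨y', d1, d2⟩ := h1 _ δ y _ s0 hδ0 s1 m0
      obtain ⟨z', d3, d4⟩ := h2 _ δ z _ s0 hδ0 s1 m0
      refine ⟨y', z', ?_⟩
      push_cast at d2 d4 ⊢
      rw [show t - (i + 1) * δ + δ = t - i * δ by ring] at d2 d4
      have d5 := step hM.le hα (y - z) (y' - z')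
      have d6 : (y' - z' - (y - z)) ^ 2 / (2 * α) ≤ (2 * ((C1 + 1) * T / n)) ^ 2 / (2 * α) := by
        refine div_le_div_of_nonneg_right (sq_le_sq' ?_ ?_) (by positivity)
        · linarith [(abs_le.1 d1).1, (abs_le.1 d3).2]
        · linarith [(abs_le.1 d1).2, (abs_le.1 d3).1]
      rw [hε] at hy ⊢
      linarith
  obtain ⟨y, z, hy⟩ := key n le_rfl
  rw [hδ, sub_self] at hy
  have f1 := h0 y z
  have f2 := low hM.le hα (y - z)
  have f3 : n * ε = 2 * ((C1 + 1) * T) ^ 2 / (n * α) + e / (4 * T) * t + 2 * (n * e2) := by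
    rw [hε, ← hδ]; field_simp; ring
  have f4 : 2 * ((C1 + 1) * T) ^ 2 / (n * α) ≤ e / 4 := by
    rw [div_le_iff₀ (by positivity)]; linarith
  have f5 : e / (4 * T) * t ≤ e / 4 := by
    calc _ ≤ e / (4 * T) * T := mul_le_mul_of_nonneg_left ht.2 (by positivity)
      _ = _ := by field_simp
  linarith

theorem supS (hB : Basic) (hR : RecS) : SupS := by
  intro P M hM hP hN hT e he
  obtain ⟨C, S, hC, hS, hR⟩ := hR P M hM hP hN hT e he
  have PF := hB.1 P M hM
  have hV : 0 ≤ P.Vm M := add_nonneg (abs_nonneg _) (mul_nonneg PF.bm_nonneg PF.N_pos.le)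
  refine ⟨C, 2 * (M * P.Vm M * S) + 1, hC, by positivity, fun L hL s δ x κ hs hδ hsT hκ => ?_⟩
  have LF := hB.2.1 P M L hM
  have hf := abs_le.1 (PF.f_abs κ hκ)
  obtain ⟨A, hA⟩ : ∃ A, A = 2 * (M * P.Vm M) + 2 * (M * C) + e := ⟨_, rfl⟩
  have hA0 : 0 < A := by rw [hA]; positivity
  have key : ∀ n : ℕ, ∀ t z, s ≤ t → t ≤ L.T → A * (t - s) ≤ n → ∃ τ y, s ≤ τ ∧ τ ≤ t ∧ τ ≤ s + S ∧
      |y - z| ≤ C * (t - τ) ∧ L.Q τ y + κ * (z - y) - (t - τ) * (P.f κ + e) ≤ L.Q t z := by
    intro n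
    induction n with
    | zero =>
      intro t z h1 _ h3
      have : t - s ≤ 0 := by
        by_contra H
        have := mul_pos hA0 (not_le.1 H)
        simp only [Nat.cast_zero] at h3
        linarith
      exact ⟨t, z, h1, le_rfl, by linarith, by simp, by simp⟩
    | succ n ih =>
      intro t z h1 h2 h3
      by_cases hc : t ≤ s + S
      · exact ⟨t, z, h1, le_rfl, hc, by simp, by simp⟩
      have hr := hR L κ t z hL hκ (by linarith) h2
      unfold Lag.Rec at hr
      push Not at hr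
      obtain ⟨τ, hτ, y, hy, hQ⟩ := hr
      have t0 : 0 ≤ t - τ := by linarith [hτ.2]
      have q1 := abs_le.1 (LF.Q_time t ⟨by linarith, h2⟩ τ ⟨by linarith [hτ.1], by linarith⟩ y)
      rw [abs_of_nonneg t0] at q1
      have q2 := abs_le.1 ((Osc.Q_lip L LF t y z).trans (mul_le_mul_of_nonneg_left hy hM.le))
      have q3 : -(M * (C * (t - τ))) ≤ κ * (z - y) := by
        have : |κ * (z - y)| ≤ M * (C * (t - τ)) := by
          rw [abs_mul, abs_of_nonneg hκ.1, abs_sub_comm]
          exact mul_le_mul hκ.2 hy (abs_nonneg _) hM.le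
        exact (abs_le.1 this).1
      have q4 := mul_le_mul_of_nonneg_left hf.2 t0
      have q5 : 1 ≤ A * (t - τ) := by rw [hA]; linarith [q1.2, q2.1]
      obtain ⟨τ', y', c1, c2, c3, c4, c5⟩ := ih τ y (by linarith [hτ.1]) (by linarith)
        (by push_cast at h3; linarith)
      refine ⟨τ', y', c1, by linarith, c3, ?_, by linarith⟩
      calc |y' - z| ≤ |y' - y| + |y - z| := abs_sub_le _ _ _
        _ ≤ _ := by linarith
  obtain ⟨n, hn⟩ := exists_nat_ge (A * (s + δ - s))
  obtain ⟨τ, y, c1, c2, c3, c4, c5⟩ := key n (s + δ) x (by linarith) hsT hn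
  have p0 : 0 ≤ M * P.Vm M := by positivity
  have p1 : M * P.Vm M * (τ - s) ≤ M * P.Vm M * S := mul_le_mul_of_nonneg_left (by linarith) p0
  refine ⟨y, c4.trans ?_, ?_⟩
  · have := mul_le_mul_of_nonneg_left (show s + δ - τ ≤ δ by linarith) hC
    have : 0 ≤ M * P.Vm M * S := by positivity
    linarith
  · have q1 := abs_le.1 (LF.Q_time τ ⟨by linarith, by linarith⟩ s ⟨hs, by linarith⟩ y)
    rw [abs_of_nonneg (by linarith)] at q1
    have q2 := mul_le_mul_of_nonneg_left hf.1 (show 0 ≤ τ - s by linarith)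
    have q3 := mul_nonneg he.le (show 0 ≤ τ - s by linarith)
    linarith [q1.1]

end MP34a893.B

end MrgPart1

-- marker of a merged file
example : 731051 + 566670 = 731051 + 566670 := rfl
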