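import Mathlib.Topology.Sheaves.Presheaf
import Mathlib.Tactic.Monotonicity.Lemmas
import Mathlib.Algebra.Order.Star.Real
import Mathlib.MeasureTheory.Integral.DominatedConvergence
import Mathlib.MeasureTheory.Measure.RegularityCompacts
import Mathlib.RingTheory.PiTensorProduct
import Mathlib.MeasureTheory.Order.Group.Lattice
import Mathlib.Topology.UniformSpace.Uniformizable
import Pool.Agent.MP_34a893_an.Scale
import Mathlib.Analysis.Complex.ExponentialBounds
import Pool.Agent.MP_34a893_an.B.Few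
import Pool.Agent.MP_34a893_an.B.Cmp

-- ======== part 0: formerly Pool.Agent.MP_34a893_an.h9.CoreC
section MrgPart0

-- ======== part 0: formerly Pool.Agent.MP_34a893_an.Gap2
section MrgPart0

open MeasureTheory Set Filter Topology
open scoped ENNReal

namespace MP34a893

namespace Gap2

lemma ii {φ : ℝ → ℝ} (hm : Measurable φ) {C : ℝ} (hb : ∀ x, |φ x| ≤ C) (a c : ℝ) :
    IntervalIntegrable φ volume a c :=
  (intervalIntegrable_const (c := C)).mono_fun' hm.aestronglyMeasurable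
    (Eventually.of_forall fun x => by simpa using hb x)

lemma shift {Q : ℝ → ℝ} (hc : Continuous Q) (hm : Monotone Q) {x1 x2 s1 s2 c : ℝ} (h0 : 0 ≤ c)
    (hw : x1 + c ≤ x2) (hs : s1 + c ≤ s2) :
    c * (Q (x2 + s2 - c) - Q (x1 + s1 + c)) ≤ ∫ x in x1..x2, (Q (x + s2) - Q (x + s1)) := by
  have hi : ∀ a b, IntervalIntegrable Q volume a b := fun a b => hc.intervalIntegrable a b
  have h1 : ∫ x in x1..x2, (Q (x + s2) - Q (x + s1)) =
      (∫ x in x1 + s2..x2 + s2, Q x) - ∫ x in x1 + s1..x2 + s1, Q x := by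
    have hj : ∀ s, IntervalIntegrable (fun x => Q (x + s)) volume x1 x2 := fun s =>
      (hc.comp (continuous_add_const s)).intervalIntegrable _ _
    rw [intervalIntegral.integral_sub (hj s2) (hj s1),
      intervalIntegral.integral_comp_add_right, intervalIntegral.integral_comp_add_right]
  have a1 := intervalIntegral.integral_add_adjacent_intervals (hi (x1 + s2) (x2 + s2 - c))
    (hi (x2 + s2 - c) (x2 + s2))
  have a2 := intervalIntegral.integral_add_adjacent_intervals (hi (x1 + s1) (x1 + s1 + c))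
    (hi (x1 + s1 + c) (x2 + s1))
  have b1 : c * Q (x2 + s2 - c) ≤ ∫ x in x2 + s2 - c..x2 + s2, Q x := by
    have := intervalIntegral.integral_mono_on (by linarith : x2 + s2 - c ≤ x2 + s2)
      (intervalIntegrable_const (c := Q (x2 + s2 - c))) (hi _ _) fun x hx => hm hx.1
    simpa using this
  have b2 : ∫ x in x1 + s1..x1 + s1 + c, Q x ≤ c * Q (x1 + s1 + c) := by
    have := intervalIntegral.integral_mono_on (by linarith : x1 + s1 ≤ x1 + s1 + c)
      (hi _ _) (intervalIntegrable_const (c := Q (x1 + s1 + c))) fun x hx => hm hx.2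
    simpa using this
  have b3 : ∫ x in x1 + s1 + c..x2 + s1, Q x ≤ ∫ x in x1 + s2..x2 + s2 - c, Q x := by
    have e : ∫ x in x1 + s2..x2 + s2 - c, Q x =
        ∫ x in x1 + s1 + c..x2 + s1, Q (x + (s2 - s1 - c)) := by
      rw [intervalIntegral.integral_comp_add_right]
      congr 1 <;> ring
    rw [e]
    exact intervalIntegral.integral_mono_on (by linarith) (hi _ _)
      ((hc.comp (continuous_add_const _)).intervalIntegrable _ _) fun x _ => hm (by linarith)
  rw [h1]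
  linarith

variable {P : Par} {M : ℝ} {L : Lag P M}

lemma u_meas (t : ℝ) : Measurable (L.u t) := L.u_meas.of_uncurry_left

lemma q_meas (hL : L.Facts) (t : ℝ) : Measurable (L.q t) := hL.q_meas.of_uncurry_left

lemma q_ii (hL : L.Facts) (t a c : ℝ) : IntervalIntegrable (L.q t) volume a c :=
  ii (q_meas hL t) (C := M) (fun x => by
    rw [abs_of_nonneg (hL.q_mem t x).1]; exact (hL.q_mem t x).2) a c

lemma Q_mono (hL : L.Facts) (t : ℝ) : Monotone (L.Q t) :=
  fun _ _ h => hL.m_mono ((hL.Y_mono t).monotone h)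

lemma Q_cont (hL : L.Facts) (t : ℝ) : Continuous (L.Q t) := hL.Q_cont.uncurry_left t

lemma G_low (hP : P.Facts M) (hL : L.Facts) (t x : ℝ) :
    P.m0 / P.N M ^ (1 / P.p - 1) * (L.Q t (x + P.s2) - L.Q t (x + P.s1)) ≤ L.G t x := by
  have hN : 0 < P.N M ^ (1 / P.p - 1) := Real.rpow_pos_of_pos hP.N_pos _
  have hm : Measurable fun s => L.u t (x + s) := (u_meas t).comp (measurable_const_add x)
  have hi : Integrable fun s => P.g s * L.u t (x + s) :=
    P.hgi.mul_bdd (c := P.N M) hm.aestronglyMeasurable (Eventually.of_forall fun s => by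
      rw [Real.norm_eq_abs, abs_of_nonneg (hL.u_nonneg _ _)]; exact L.u_le _ _)
  have h1 : ∫ s in Ioc P.s1 P.s2, P.g s * L.u t (x + s) ≤ L.G t x :=
    setIntegral_mono_set hi.integrableOn
      (Eventually.of_forall fun s => mul_nonneg (P.hg0 s) (hL.u_nonneg _ _))
      (Eventually.of_forall fun s (hs : s ∈ Ioc P.s1 P.s2) => lt_trans P.hs1 hs.1)
  rw [← intervalIntegral.integral_of_le P.hs12.le] at h1
  refine le_trans ?_ h1
  rw [hL.Q_sub, ← intervalIntegral.integral_comp_add_left, ← intervalIntegral.integral_const_mul]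
  refine intervalIntegral.integral_mono_on P.hs12.le ?_ hi.intervalIntegrable fun s hs => ?_
  · refine IntervalIntegrable.const_mul ?_ _
    exact ii (φ := fun s => L.q t (x + s)) ((q_meas hL t).comp (measurable_const_add x)) (C := M)
      (fun s => by rw [abs_of_nonneg (hL.q_mem t _).1]; exact (hL.q_mem t _).2) _ _
  · have h2 := hP.root_le (L.u t (x + s)) ⟨hL.u_nonneg _ _, L.u_le _ _⟩
    have h3 := P.hgm s hs
    have h4 := hL.u_nonneg t (x + s)
    calc P.m0 / P.N M ^ (1 / P.p - 1) * L.q t (x + s)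
        ≤ P.m0 / P.N M ^ (1 / P.p - 1) * (P.N M ^ (1 / P.p - 1) * L.u t (x + s)) :=
          mul_le_mul_of_nonneg_left h2 (div_pos P.hm0 hN).le
      _ = P.m0 * L.u t (x + s) := by field_simp
      _ ≤ _ := mul_le_mul_of_nonneg_right h3 h4

lemma v_up (hP : P.Facts M) (hL : L.Facts) (t : ℝ) {x1 x2 δ β : ℝ} (h12 : x1 ≤ x2) (hδ : 0 < δ)
    (hβ : 0 ≤ β) (hb : ∀ x ∈ Icc x1 x2, β ≤ P.b (L.Z t x)) :
    L.v t x2 - L.v t x1 ≤ P.bm M * P.k0 * δ * (x2 - x1) +
      P.bm M * P.k0 * δ ^ (1 - 1 / P.p) * (L.Q t x2 - L.Q t x1) -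
      β * (P.m0 / P.N M ^ (1 / P.p - 1)) *
        ∫ x in x1..x2, (L.Q t (x + P.s2) - L.Q t (x + P.s1)) := by
  have hZ : Continuous (L.Z t) := L.Z_cont.comp (Continuous.prodMk_right t)
  have hG : Continuous (L.G t) := L.G_cont.comp (Continuous.prodMk_right t)
  have hQ : Continuous fun x => L.Q t (x + P.s2) - L.Q t (x + P.s1) :=
    ((Q_cont hL t).comp (continuous_add_const _)).sub ((Q_cont hL t).comp (continuous_add_const _))
  have hu : IntervalIntegrable (L.u t) volume x1 x2 := ii (u_meas t) (C := P.N M) (fun x => by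
    rw [abs_of_nonneg (hL.u_nonneg t x)]; exact L.u_le t x) _ _
  have hi : IntervalIntegrable (fun x => P.b (L.Z t x) * (P.k0 * L.u t x - L.G t x)) volume x1 x2 :=
    ((hu.const_mul P.k0).sub (hG.intervalIntegrable _ _)).continuousOn_mul
      (P.hb.comp hZ).continuousOn
  have i1 : IntervalIntegrable (fun _ : ℝ => P.bm M * P.k0 * δ) volume x1 x2 :=
    intervalIntegrable_const
  have i2 := (q_ii hL t x1 x2).const_mul (P.bm M * P.k0 * δ ^ (1 - 1 / P.p))
  have i3 := (hQ.intervalIntegrable (μ := volume) x1 x2).const_mul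
    (β * (P.m0 / P.N M ^ (1 / P.p - 1)))
  have key := intervalIntegral.integral_mono_on h12 hi ((i1.add i2).sub i3) fun x hx => by
    have h1 := hP.le_root δ hδ (L.u t x) (hL.u_nonneg t x)
    have h2 := hP.b_le _ (hL.Z_mem t x)
    have h3 := G_low hP hL t x
    have h4 := hb x hx
    have h5 := (hL.G_mem t x).1
    have h6 : 0 ≤ P.k0 * L.u t x := mul_nonneg hP.k0_pos.le (hL.u_nonneg t x)
    have h7 : P.b (L.Z t x) * (P.k0 * L.u t x) ≤ P.bm M * (P.k0 * L.u t x) :=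
      mul_le_mul_of_nonneg_right h2 h6
    have h8 : P.bm M * P.k0 * L.u t x ≤ P.bm M * P.k0 * (δ + δ ^ (1 - 1 / P.p) * L.q t x) :=
      mul_le_mul_of_nonneg_left h1 (mul_nonneg hP.bm_nonneg hP.k0_pos.le)
    have h9 := mul_le_mul_of_nonneg_left h3 hβ
    have h10 := mul_le_mul_of_nonneg_right h4 h5
    nlinarith
  rw [intervalIntegral.integral_sub (i1.add i2) i3, intervalIntegral.integral_add i1 i2,
    intervalIntegral.integral_const_mul, intervalIntegral.integral_const_mul,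
    intervalIntegral.integral_const_mul, ← hL.v_sub, ← hL.Q_sub] at key
  simp only [intervalIntegral.integral_const, smul_eq_mul] at key
  linarith

/-- The pointwise alternative at a time that is not triggered. -/
lemma point (hP : P.Facts M) (hL : L.Facts) (t : ℝ) {x1 x2 l γ μ μ' δ a0 b0 K : ℝ} (hl : P.d ≤ l)
    (hγ : 0 < γ) (hδ : 0 < δ) (hμ : μ ≤ μ') (hK0 : 0 ≤ K) (hb0 : 0 < b0)
    (hb : ∀ z ∈ Icc (γ / (2 * (P.bm M + 1))) (P.N M), b0 ≤ P.b z)
    (ha : P.bm M * P.k0 * δ * (l + P.d) + P.bm M * P.k0 * δ ^ (1 - 1 / P.p) * μ ≤ a0)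
    (ha' : a0 ≤ γ / 2)
    (hK : P.DV M ≤ K * (b0 * (P.m0 / P.N M ^ (1 / P.p - 1)) * (P.d / 2 * μ')))
    (hw : l - P.d / 2 ≤ x2 - x1) (hm : L.Q t x2 - L.Q t x1 ≤ μ)
    (hn : ∀ x', x1 ≤ x' → x' ≤ x1 + P.s2 → μ' < L.Q t (x' + (l + P.d)) - L.Q t x') :
    x2 - x1 ≤ l + P.d ∧ P.Φ 0 - L.v t x1 ≤ γ + K * a0 - K * (L.v t x2 - L.v t x1) := by
  have hd := hP.d_pos
  have hs1 := P.hs1
  have hs12 := P.hs12
  have hdd : P.s2 - P.s1 = 4 * P.d := by unfold Par.d; ring
  have hN : 0 < P.N M ^ (1 / P.p - 1) := Real.rpow_pos_of_pos hP.N_pos _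
  have hw2 : x2 - x1 ≤ l + P.d := by
    by_contra hc
    have h1 := hn x1 le_rfl (by linarith)
    have h2 := Q_mono hL t (show x1 + (l + P.d) ≤ x2 by linarith)
    linarith
  have hc1 : 0 ≤ P.bm M * P.k0 * δ := mul_nonneg (mul_nonneg hP.bm_nonneg hP.k0_pos.le) hδ.le
  have hc2 : 0 ≤ P.bm M * P.k0 * δ ^ (1 - 1 / P.p) :=
    mul_nonneg (mul_nonneg hP.bm_nonneg hP.k0_pos.le) (Real.rpow_pos_of_pos hδ _).le
  have hA : ∀ x ∈ Icc x1 x2, P.bm M * P.k0 * δ * (x - x1) +
      P.bm M * P.k0 * δ ^ (1 - 1 / P.p) * (L.Q t x - L.Q t x1) ≤ a0 := fun x hx => by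
    have h1 := mul_le_mul_of_nonneg_left (show x - x1 ≤ l + P.d by linarith [hx.2]) hc1
    have h2 := mul_le_mul_of_nonneg_left
      (show L.Q t x - L.Q t x1 ≤ μ by linarith [Q_mono hL t hx.2]) hc2
    linarith
  have h12 : x1 ≤ x2 := by linarith
  have hv : ∀ x ∈ Icc x1 x2, L.v t x - L.v t x1 ≤ a0 := fun x hx => by
    have h1 := v_up hP hL t hx.1 hδ le_rfl fun x _ => P.hb0 _
    have h2 := hA x hx
    simp only [zero_mul, sub_zero] at h1
    linarith
  refine ⟨hw2, ?_⟩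
  by_cases hr : P.Φ 0 - L.v t x1 ≤ γ
  · have := mul_le_mul_of_nonneg_left (hv x2 ⟨h12, le_rfl⟩) hK0
    linarith
  · push Not at hr
    have hb' : ∀ x ∈ Icc x1 x2, b0 ≤ P.b (L.Z t x) := fun x hx => by
      refine hb _ ⟨?_, (hL.Z_mem t x).2⟩
      have h1 := hv x hx
      have h2 := hP.Φ_lip 0 ⟨le_rfl, hP.N_pos.le⟩ _ (hL.Z_mem t x)
      have h3 := (hL.Z_mem t x).1
      rw [zero_sub, abs_neg, abs_of_nonneg h3] at h2
      have h4 : P.Φ 0 - L.v t x ≤ P.bm M * L.Z t x := le_trans (le_abs_self _) h2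
      rw [div_le_iff₀ (by linarith [hP.bm_nonneg])]
      nlinarith
    have h1 := v_up hP hL t h12 hδ hb0.le hb'
    have h2 := hA x2 ⟨h12, le_rfl⟩
    have h3 := shift (Q_cont hL t) (Q_mono hL t) (x1 := x1) (x2 := x2) (s1 := P.s1) (s2 := P.s2)
      (c := P.d / 2) (by linarith) (by linarith) (by linarith)
    have h4 := hn (x1 + P.s1 + P.d / 2) (by linarith) (by linarith)
    have h5 := Q_mono hL t
      (show x1 + P.s1 + P.d / 2 + (l + P.d) ≤ x2 + P.s2 - P.d / 2 by linarith)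
    have h6 : P.d / 2 * μ' ≤ ∫ x in x1..x2, (L.Q t (x + P.s2) - L.Q t (x + P.s1)) :=
      le_trans (mul_le_mul_of_nonneg_left (by linarith) (by linarith)) h3
    have h7 := mul_le_mul_of_nonneg_left h6 (mul_pos hb0 (div_pos P.hm0 hN)).le
    have h8 := mul_le_mul_of_nonneg_left
      (show b0 * (P.m0 / P.N M ^ (1 / P.p - 1)) * (P.d / 2 * μ') ≤ a0 - (L.v t x2 - L.v t x1) by
        linarith) hK0
    have h9 := (hL.v_mem t x1).1
    linarith

lemma quiet (hL : L.Facts) {y1 y2 σ c K : ℝ} (h0 : 0 ≤ σ - 1) (hT : σ ≤ L.T)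
    (h : ∀ ρ ∈ Icc (σ - 1) σ, P.Φ 0 - L.v ρ (L.X ρ y1) ≤
      c - K * (L.v ρ (L.X ρ y2) - L.v ρ (L.X ρ y1))) :
    L.dfc y1 (σ - 1) σ ≤
      c - K * ((L.X σ y2 - L.X σ y1) - (L.X (σ - 1) y2 - L.X (σ - 1) y1)) := by
  have m1 : σ - 1 ∈ Icc 0 L.T := ⟨h0, by linarith⟩
  have m2 : σ ∈ Icc 0 L.T := ⟨by linarith, hT⟩
  have hc : ∀ y, Continuous fun ρ => L.v ρ (L.X ρ y) := fun y =>
    hL.v_cont.comp (continuous_id.prodMk (L.X_cont.comp (Continuous.prodMk_left y)))
  have hi : ∀ y, IntervalIntegrable (fun ρ => L.v ρ (L.X ρ y)) volume (σ - 1) σ := fun y =>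
    (hc y).intervalIntegrable _ _
  have i1 : IntervalIntegrable (fun _ : ℝ => c) volume (σ - 1) σ := intervalIntegrable_const
  have key := intervalIntegral.integral_mono_on (by linarith : σ - 1 ≤ σ)
    (intervalIntegrable_const.sub (hi y1)) (i1.sub (((hi y2).sub (hi y1)).const_mul K)) h
  rw [← hL.dfc_int y1 _ m1 _ m2, intervalIntegral.integral_sub i1 (((hi y2).sub (hi y1)).const_mul K),
    intervalIntegral.integral_const_mul, intervalIntegral.integral_sub (hi y2) (hi y1),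
    ← hL.X_int y1 _ m1 _ m2, ← hL.X_int y2 _ m1 _ m2] at key
  simp only [intervalIntegral.integral_const, smul_eq_mul] at key
  linarith

lemma small {A c : ℝ} (hA : 0 ≤ A) (hc : 0 < c) : ∃ x, 0 < x ∧ A * x ≤ c :=
  ⟨c / (A + 1), by positivity, by
    rw [← mul_div_assoc, div_le_iff₀ (by linarith)]
    nlinarith⟩

end Gap2

open Gap2 in
theorem gapStepS : Basic → WidthS → GapStepS := by
  intro hB hW P M hM hS l γ e hl hγ he hG B0
  have hP := hB.1 P M hM
  have hd := hP.d_pos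
  have hs2 : 0 < P.s2 := P.hs1.trans P.hs12
  have hDV : 0 ≤ P.DV M := mul_nonneg hP.bm_nonneg hP.N_pos.le
  have hbk : 0 ≤ P.bm M * P.k0 := mul_nonneg hP.bm_nonneg hP.k0_pos.le
  have hN : 0 < P.N M ^ (1 / P.p - 1) := Real.rpow_pos_of_pos hP.N_pos _
  obtain ⟨B', hB', -, μ', hμ', hG⟩ := hG (1 + 4 * (P.s2 + P.DV M) / e)
  have hq : 0 ≤ 4 * (P.s2 + P.DV M) / e := by positivity
  have hB1 : 1 ≤ B' := by linarith
  have hB2 : P.s2 + P.DV M ≤ e / 4 * B' := by
    have : 4 * (P.s2 + P.DV M) / e ≤ B' := by linarith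
    rw [div_le_iff₀ he] at this
    linarith
  obtain ⟨b0, hb0, hb⟩ := hP.b_low hS (γ / (2 * (P.bm M + 1)))
    (div_pos hγ (by linarith [hP.bm_nonneg]))
  have he0 : 0 < b0 * (P.m0 / P.N M ^ (1 / P.p - 1)) * (P.d / 2 * μ') :=
    mul_pos (mul_pos hb0 (div_pos P.hm0 hN)) (by positivity)
  obtain ⟨K, hK0, hK⟩ : ∃ K, 0 ≤ K ∧
      P.DV M ≤ K * (b0 * (P.m0 / P.N M ^ (1 / P.p - 1)) * (P.d / 2 * μ')) :=
    ⟨_, div_nonneg hDV he0.le, (div_mul_cancel₀ _ he0.ne').ge⟩
  obtain ⟨e1, he1, h1, h2⟩ : ∃ e1, 0 < e1 ∧ (l + 1) * e1 ≤ P.d / 2 ∧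
      K * (l + P.d + 1) * e1 ≤ e / 4 := by
    obtain ⟨x, hx, h1⟩ := small (A := l + 1) (c := P.d / 2) (by linarith) (by linarith)
    obtain ⟨x', hx', h2⟩ := small (A := K * (l + P.d + 1)) (c := e / 4)
      (mul_nonneg hK0 (by linarith)) (by linarith)
    exact ⟨min x x', lt_min hx hx',
      le_trans (mul_le_mul_of_nonneg_left (min_le_left _ _) (by linarith)) h1,
      le_trans (mul_le_mul_of_nonneg_left (min_le_right _ _) (mul_nonneg hK0 (by linarith))) h2⟩
  have he11 : e1 ≤ 1 := le_of_mul_le_mul_left (a := l + 1) (by linarith) (by linarith)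
  obtain ⟨a0, ha0, h3, h4⟩ : ∃ a0, 0 < a0 ∧ a0 ≤ γ / 2 ∧ K * a0 ≤ e / 2 := by
    obtain ⟨x, hx, h1⟩ := small (A := K) (c := e / 2) hK0 (by linarith)
    exact ⟨min (γ / 2) x, lt_min (by linarith) hx, min_le_left _ _,
      le_trans (mul_le_mul_of_nonneg_left (min_le_right _ _) hK0) h1⟩
  obtain ⟨δ, hδ, h5⟩ := small (A := P.bm M * P.k0 * (l + P.d)) (c := a0 / 2)
    (mul_nonneg hbk (by linarith)) (by linarith)
  have hc2 : 0 ≤ P.bm M * P.k0 * δ ^ (1 - 1 / P.p) :=
    mul_nonneg hbk (Real.rpow_pos_of_pos hδ _).le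
  obtain ⟨μ1, hμ1, h6⟩ := small (c := a0 / 2) hc2 (by linarith)
  obtain ⟨B, hBB, hB0, h7⟩ : ∃ B, B0 ≤ B ∧ 0 < B ∧
      K * (l + P.d) + P.DV M * (B' + 1) ≤ e / 2 * B := by
    refine ⟨max (max B0 1) (2 * (K * (l + P.d) + P.DV M * (B' + 1)) / e),
      le_trans (le_max_left _ _) (le_max_left _ _),
      lt_of_lt_of_le one_pos (le_trans (le_max_right _ _) (le_max_left _ _)), ?_⟩
    have := le_max_right (max B0 1) (2 * (K * (l + P.d) + P.DV M * (B' + 1)) / e)
    rw [div_le_iff₀ he] at this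
    linarith
  obtain ⟨μ2, hμ2, hW⟩ := hW P M hM B e1 hB0 he1
  refine ⟨B, hBB, hB0, min μ' (min μ1 μ2), lt_min hμ' (lt_min hμ1 hμ2), fun L τ x hτ hT hm => ?_⟩
  have hL := hB.2.1 P M L hM
  set y1 := L.Y τ x with hy1
  set y2 := L.Y τ (x + l) with hy2
  have h12 : y1 ≤ y2 := (hL.Y_mono τ).monotone (by linarith)
  have hm' : L.m y2 - L.m y1 ≤ min μ' (min μ1 μ2) := hm
  have hW' : ∀ t σ, τ - B ≤ σ → σ ≤ t → t ≤ τ →
      (1 - e1) * (L.X t y2 - L.X t y1) - e1 ≤ L.X σ y2 - L.X σ y1 := fun t σ a b c =>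
    hW L y1 y2 t σ h12 (hm'.trans ((min_le_right _ _).trans (min_le_right _ _))) (by linarith) b
      (c.trans hT) (by linarith)
  have hwτ : L.X τ y2 - L.X τ y1 = l := by
    rw [hy1, hy2, L.XY, L.XY]
    ring
  have hadd : ∀ a b c, L.dfc y1 a c = L.dfc y1 a b + L.dfc y1 b c := fun a b c => by
    unfold Lag.dfc
    ring
  have ind : ∀ n : ℕ, ∃ σ, τ - B ≤ σ ∧ σ ≤ τ ∧ (σ ≤ τ - n ∨ σ ≤ τ - B + B' + 1) ∧
      L.dfc y1 σ τ ≤ (γ + e / 2) * (τ - σ) + K * min (L.X σ y2 - L.X σ y1) (l + P.d) := by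
    intro n
    induction n with
    | zero =>
      refine ⟨τ, by linarith, le_rfl, Or.inl (by simp), ?_⟩
      have : 0 ≤ K * min (L.X τ y2 - L.X τ y1) (l + P.d) :=
        mul_nonneg hK0 (le_min (by linarith) (by linarith))
      have e0 : L.dfc y1 τ τ = 0 := by simp [Lag.dfc]
      rw [e0, sub_self, mul_zero]
      linarith
    | succ n ih =>
      obtain ⟨σ, s1, s2, s3, s4⟩ := ih
      by_cases hc : σ ≤ τ - B + B' + 1
      · exact ⟨σ, s1, s2, Or.inr hc, s4⟩
      have s3' : σ ≤ τ - n := s3.resolve_right hc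
      push Not at hc
      by_cases ht : ∃ ρ ∈ Icc (σ - 1) σ, ∃ x', L.X ρ y1 ≤ x' ∧ x' ≤ L.X ρ y1 + P.s2 ∧
          L.Q ρ (x' + (l + P.d)) - L.Q ρ x' ≤ μ'
      · obtain ⟨ρ, ⟨r1, r2⟩, x', x1, x2, x3⟩ := ht
        refine ⟨ρ - B', by linarith, by linarith, Or.inl (by push_cast; linarith), ?_⟩
        have g1 := hG L ρ x' (by linarith) (by linarith) x3
        have g2 : y1 ≤ L.Y ρ x' := by
          have := (hL.Y_mono ρ).monotone x1
          rwa [L.YX] at this
        have g3 := (hL.X_mono (ρ - B')).monotone g2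
        have g4 : L.dfc y1 (ρ - B') ρ ≤ γ * B' + P.s2 := by
          unfold Lag.dfc at g1 ⊢
          rw [L.XY] at g1
          linarith
        have g5 := (hL.dfc_mem y1 ρ σ (by linarith) r2 (by linarith)).2
        have g6 : P.DV M * (σ - ρ) ≤ P.DV M * 1 := mul_le_mul_of_nonneg_left (by linarith) hDV
        have g7 := hW' σ (ρ - B') (by linarith) (by linarith) s2
        have g8 : min (L.X σ y2 - L.X σ y1) (l + P.d) - (l + P.d + 1) * e1 ≤
            min (L.X (ρ - B') y2 - L.X (ρ - B') y1) (l + P.d) := by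
          have k1 := min_le_left (L.X σ y2 - L.X σ y1) (l + P.d)
          have k2 := min_le_right (L.X σ y2 - L.X σ y1) (l + P.d)
          have k3 := mul_le_mul_of_nonneg_left k1 (sub_nonneg.2 he11)
          have k4 := mul_le_mul_of_nonneg_left k2 he1.le
          have k5 : 0 ≤ (l + P.d + 1) * e1 := mul_nonneg (by linarith) he1.le
          exact le_min (by linarith) (by linarith)
        have g9 := mul_le_mul_of_nonneg_left g8 hK0
        have g10 : (γ + e / 2) * B' ≤ (γ + e / 2) * (σ - (ρ - B')) :=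
          mul_le_mul_of_nonneg_left (by linarith) (by linarith)
        have g11 : e / 4 * 1 ≤ e / 4 * B' := mul_le_mul_of_nonneg_left hB1 (by linarith)
        rw [hadd (ρ - B') ρ τ, hadd ρ σ τ]
        linarith
      · push Not at ht
        have hp : ∀ ρ ∈ Icc (σ - 1) σ, L.X ρ y2 - L.X ρ y1 ≤ l + P.d ∧
            P.Φ 0 - L.v ρ (L.X ρ y1) ≤
              γ + K * a0 - K * (L.v ρ (L.X ρ y2) - L.v ρ (L.X ρ y1)) := fun ρ hρ => by
          refine point hP hL ρ hl hγ hδ (min_le_left μ' (min μ1 μ2)) hK0 hb0 hb ?_ h3 hK ?_ ?_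
            (ht ρ hρ)
          · have := mul_le_mul_of_nonneg_left
              ((min_le_right μ' (min μ1 μ2)).trans (min_le_left _ _)) hc2
            linarith
          · have := hW' τ ρ (by linarith [hρ.1]) (by linarith [hρ.2]) le_rfl
            rw [hwτ] at this
            linarith
          · rw [hL.Q_X, hL.Q_X]
            exact hm'
        refine ⟨σ - 1, by linarith, by linarith, Or.inl (by push_cast; linarith), ?_⟩
        have g1 := quiet hL (by linarith) (by linarith) fun ρ hρ => (hp ρ hρ).2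
        rw [min_eq_left (hp σ ⟨by linarith, le_rfl⟩).1] at s4
        rw [min_eq_left (hp (σ - 1) ⟨le_rfl, by linarith⟩).1, hadd (σ - 1) σ τ]
        linarith
  obtain ⟨n, hn⟩ := exists_nat_ge B
  obtain ⟨σ, s1, s2, s3, s4⟩ := ind n
  have s5 : σ ≤ τ - B + B' + 1 := by
    rcases s3 with s3 | s3
    · linarith
    · exact s3
  have g1 := (hL.dfc_mem y1 (τ - B) σ (by linarith) s1 (by linarith)).2
  have g2 : P.DV M * (σ - (τ - B)) ≤ P.DV M * (B' + 1) :=
    mul_le_mul_of_nonneg_left (by linarith) hDV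
  have g3 := mul_le_mul_of_nonneg_left (min_le_right (L.X σ y2 - L.X σ y1) (l + P.d)) hK0
  have g4 : (γ + e / 2) * (τ - σ) ≤ (γ + e / 2) * B :=
    mul_le_mul_of_nonneg_left (by linarith) (by linarith)
  rw [hadd (τ - B) σ τ]
  linarith

end MP34a893

end MrgPart0

-- ======== part 1: formerly Pool.Agent.MP_34a893_an.h9.CoreA
section MrgPart1

open MeasureTheory Set Filter Topology
open scoped ENNReal

namespace MP34a893

noncomputable section

namespace Core

section abstract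

variable {S Ξ : Type} [MeasurableSpace S] [MeasurableSpace Ξ] (ν : Measure Ξ)
  [IsProbabilityMeasure ν] (F : ℕ → S × Ξ → S) (A : ℕ → Set (S × Ξ)) (μ : Measure S)

omit [IsProbabilityMeasure ν] in
theorem inv (hF : ∀ n, Measurable (F n)) (hA : ∀ n, MeasurableSet (A n)) (I : ℕ → Set S)
    (hI : ∀ n, MeasurableSet (I n)) (h0 : ∀ᵐ z ∂μ, z ∈ I 0) (hs : ∀ n, ∀ z ∈ A n, F n z ∈ I (n + 1))
    (n : ℕ) : ∀ᵐ z ∂(evolve ν F A μ n), z ∈ I n := by
  cases n with
  | zero => exact h0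
  | succ n =>
    exact (ae_map_iff (p := fun z => z ∈ I (n + 1)) (hF n).aemeasurable (hI _)).2
      ((ae_restrict_mem (hA n)).mono (hs n))

open Classical in
theorem lyap (hF : ∀ n, Measurable (F n)) (hA : ∀ n, MeasurableSet (A n)) (I : ℕ → Set S)
    (hI : ∀ n, ∀ᵐ z ∂(evolve ν F A μ n), z ∈ I n) (Λ e : ℕ → S → ℝ≥0∞)
    (hΛ : ∀ n, Measurable (Λ n)) (N : ℕ)
    (hs : ∀ n < N, ∀ z ∈ I n,
      ∫⁻ ξ, (if (z, ξ) ∈ A n then Λ (n + 1) (F n (z, ξ)) else 1) ∂ν ≤ Λ n z + e n z)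
    (hN : ∀ z ∈ I N, 1 ≤ Λ N z) :
    μ univ ≤ ∫⁻ z, Λ 0 z ∂μ + ∑ n ∈ Finset.range N, ∫⁻ z, e n z ∂(evolve ν F A μ n) := by
  have key : ∀ n ≤ N, ∃ k, μ univ ≤ k + evolve ν F A μ n univ ∧
      k + ∫⁻ z, Λ n z ∂(evolve ν F A μ n) ≤
        ∫⁻ z, Λ 0 z ∂μ + ∑ i ∈ Finset.range n, ∫⁻ z, e i z ∂(evolve ν F A μ i) := by
    intro n
    induction n with
    | zero => exact fun _ => ⟨0, by simp [evolve], by simp [evolve]⟩
    | succ n ih =>
      intro hn
      obtain ⟨k, h1, h2⟩ := ih (by omega)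
      have split : ∀ φ : S → ℝ≥0∞, Measurable φ →
          ∫⁻ z, (∫⁻ ξ, (A n)ᶜ.indicator 1 (z, ξ) ∂ν) ∂(evolve ν F A μ n) +
            ∫⁻ z, φ z ∂(evolve ν F A μ (n + 1)) =
          ∫⁻ z, (∫⁻ ξ, (if (z, ξ) ∈ A n then φ (F n (z, ξ)) else 1) ∂ν) ∂(evolve ν F A μ n) := by
        intro φ hφ
        have m1 : Measurable ((A n)ᶜ.indicator (1 : S × Ξ → ℝ≥0∞)) :=
          measurable_one.indicator (hA n).compl
        rw [lintegral_evolve_succ ν F A μ n (hF n) (hA n) φ hφ,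
          ← lintegral_add_left m1.lintegral_prod_right']
        refine lintegral_congr fun z => ?_
        rw [← lintegral_add_left (f := fun ξ => (A n)ᶜ.indicator 1 (z, ξ))
          (m1.comp measurable_prodMk_left)]
        refine lintegral_congr fun ξ => ?_
        by_cases c : (z, ξ) ∈ A n <;> simp [c]
      refine ⟨k + ∫⁻ z, (∫⁻ ξ, (A n)ᶜ.indicator 1 (z, ξ) ∂ν) ∂(evolve ν F A μ n), ?_, ?_⟩
      · have := split (fun _ => 1) measurable_const
        simp only [ite_self, lintegral_const, measure_univ, mul_one, one_mul] at this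
        rwa [add_assoc, this]
      · rw [add_assoc, split _ (hΛ _), Finset.sum_range_succ, ← add_assoc]
        refine le_trans ?_ (add_le_add_left h2 _)
        rw [add_assoc, ← lintegral_add_left (hΛ n)]
        exact add_le_add_right (lintegral_mono_ae ((hI n).mono (hs n (by omega)))) _
  obtain ⟨k, h1, h2⟩ := key N le_rfl
  refine h1.trans (le_trans (add_le_add_right ?_ _) h2)
  rw [← lintegral_one]
  exact lintegral_mono_ae ((hI N).mono hN)

end abstract

theorem quad (x d : ℝ) : max (x + d) 0 ^ 2 ≤ max x 0 ^ 2 + 2 * max x 0 * d + d ^ 2 := by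
  rcases le_total x 0 with h | h <;> rcases le_total (x + d) 0 with h' | h'
  · rw [max_eq_right h, max_eq_right h']; nlinarith [sq_nonneg d]
  · rw [max_eq_right h, max_eq_left h']; nlinarith
  · rw [max_eq_left h, max_eq_right h']; nlinarith [sq_nonneg (x + d)]
  · rw [max_eq_left h, max_eq_left h']; nlinarith

theorem conc {k : ℝ → ℝ} (hk : Antitone k) (a a' : ℝ) : ∫ r in a..a', k r ≤ k a * (a' - a) := by
  have hi : ∀ x y, IntervalIntegrable k volume x y := fun x y => hk.intervalIntegrable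
  rcases le_total a a' with h | h
  · have := intervalIntegral.integral_mono_on h (hi a a') (intervalIntegrable_const (c := k a))
      fun x hx => hk hx.1
    simpa [mul_comm] using this
  · have := intervalIntegral.integral_mono_on h (intervalIntegrable_const (c := k a)) (hi a' a)
      fun x hx => hk hx.2
    rw [intervalIntegral.integral_symm]
    simp only [intervalIntegral.integral_const, smul_eq_mul] at this
    linarith

variable {P : Par} {M : ℝ} (L : Lag P M)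

/-- one step of a quadratic test -/
theorem test (hp : P.Facts M) (hf : L.Facts) (hs : L.Step) {t h σ γ b : ℝ} (y : ℝ)
    (hh : P.Small M h) (h1 : h ≤ t) (h2 : t ≤ L.T) (hσ : σ = 1 ∨ σ = -1)
    (hb : max (σ * (L.U t y - γ)) 0 ≤ b) :
    ∫⁻ ξ, ENNReal.ofReal (max (σ * (L.U (t - h) (L.step t h y ξ) - γ)) 0 ^ 2) ∂P.noise ≤
      ENNReal.ofReal (max (σ * (L.U t y - γ)) 0 ^ 2 + 2 * b * (P.E1 M * h ^ 2) + L.w t h 1 y) := by
  have := hp.noise_prob
  have hU : ∀ t y, L.U t y ∈ Icc 0 (P.N M) := fun t y => ⟨hf.u_nonneg _ _, L.u_le _ _⟩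
  have mU : Measurable fun ξ => L.U (t - h) (L.step t h y ξ) :=
    hf.U_meas.of_uncurry_left.comp ((hs.step_meas t h).comp measurable_prodMk_left)
  have i1 : Integrable (fun ξ => L.U (t - h) (L.step t h y ξ)) P.noise :=
    .of_bound mU.aestronglyMeasurable (P.N M) (ae_of_all _ fun ξ => by
      rw [Real.norm_eq_abs, abs_of_nonneg (hU _ _).1]; exact (hU _ _).2)
  have i2 : Integrable (fun ξ => (L.U (t - h) (L.step t h y ξ) - L.U t y) ^ 2) P.noise :=
    .of_bound ((mU.sub_const _).pow_const 2).aestronglyMeasurable (P.N M ^ 2)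
      (ae_of_all _ fun ξ => by
        have a := hU (t - h) (L.step t h y ξ)
        have b := hU t y
        rw [Real.norm_eq_abs, abs_of_nonneg (sq_nonneg _)]
        nlinarith [a.1, a.2, b.1, b.2])
  have hw : L.w t h 1 y = ∫ ξ, (L.U (t - h) (L.step t h y ξ) - L.U t y) ^ 2 ∂P.noise := by
    simp [Lag.w, Lag.Pit, Lag.Pop]
  have hm := hs.mart t h hh h1 h2 y
  set x := max (σ * (L.U t y - γ)) 0 with hx
  have hx0 : 0 ≤ x := le_max_right _ _
  have i4 : Integrable (fun ξ => 2 * x * σ * (L.U (t - h) (L.step t h y ξ) - L.U t y)) P.noise :=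
    (i1.sub (integrable_const _)).const_mul _
  have i5 : Integrable (fun ξ => x ^ 2 + 2 * x * σ * (L.U (t - h) (L.step t h y ξ) - L.U t y))
      P.noise := (integrable_const _).add i4
  have i3 : Integrable (fun ξ => x ^ 2 + 2 * x * σ * (L.U (t - h) (L.step t h y ξ) - L.U t y) +
      (L.U (t - h) (L.step t h y ξ) - L.U t y) ^ 2) P.noise := i5.add i2
  have pt : ∀ ξ, max (σ * (L.U (t - h) (L.step t h y ξ) - γ)) 0 ^ 2 ≤
      x ^ 2 + 2 * x * σ * (L.U (t - h) (L.step t h y ξ) - L.U t y) +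
      (L.U (t - h) (L.step t h y ξ) - L.U t y) ^ 2 := fun ξ => by
    have := quad (σ * (L.U t y - γ)) (σ * (L.U (t - h) (L.step t h y ξ) - L.U t y))
    rw [← hx, ← mul_add, add_comm, sub_add_sub_cancel] at this
    rcases hσ with rfl | rfl <;> nlinarith
  refine (lintegral_mono fun ξ => ENNReal.ofReal_le_ofReal (pt ξ)).trans ?_
  rw [← ofReal_integral_eq_lintegral_ofReal i3 (ae_of_all _ fun ξ => (sq_nonneg _).trans (pt ξ))]
  refine ENNReal.ofReal_le_ofReal ?_
  rw [integral_add i5 i2, integral_add (integrable_const _) i4, integral_const_mul, integral_sub i1 (integrable_const _), ← hw]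
  simp only [integral_const, probReal_univ, smul_eq_mul, one_mul]
  change |∫ ξ, L.U (t - h) (L.step t h y ξ) ∂P.noise - L.U t y| ≤ _ at hm
  have hE := (abs_nonneg _).trans hm
  rw [abs_le] at hm
  have : x * (P.E1 M * h ^ 2) ≤ b * (P.E1 M * h ^ 2) := mul_le_mul_of_nonneg_right hb hE
  rcases hσ with rfl | rfl <;> nlinarith [hm.1, hm.2]

/-- two tubes with different values do not overlap -/
theorem apart (hf : L.Facts) {τ x1 x2 c1 c2 R e : ℝ} (h12 : x1 ≤ x2) (_hR : 0 ≤ R)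
    (t1 : ∫ s in (0 : ℝ)..R, |L.u τ (x1 + s) - c1| ≤ e)
    (t2 : ∫ s in (0 : ℝ)..R, |L.u τ (x2 + s) - c2| ≤ e) (hc : 2 * e < (c1 - c2) * (R / 2)) :
    x1 + R / 2 ≤ x2 := by
  by_contra H
  rw [not_le] at H
  have ii : ∀ x c a b : ℝ, IntervalIntegrable (fun s => |L.u τ (x + s) - c|) volume a b := by
    intro x c a b
    refine (intervalIntegrable_const (c := P.N M + |c|)).mono_fun' ?_ (ae_of_all _ fun s => ?_)
    · exact ((L.u_meas.of_uncurry_left.comp (measurable_const_add x)).sub_const c).abs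
        |>.aestronglyMeasurable
    · have a := hf.u_nonneg τ (x + s)
      have b := L.u_le τ (x + s)
      simp only [Real.norm_eq_abs, abs_abs]
      exact (abs_sub _ _).trans (by rw [abs_of_nonneg a]; linarith)
  have nn : ∀ x c a b : ℝ, 0 ≤ᵐ[volume.restrict (Ioc a b)] fun s => |L.u τ (x + s) - c| :=
    fun x c a b => ae_of_all _ fun s => abs_nonneg _
  have a1 : ∫ s in (0 : ℝ)..(R / 2), |L.u τ (x2 + s) - c1| ≤ e := by
    have e1 := intervalIntegral.integral_comp_add_left (a := 0) (b := R / 2)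
      (fun s => |L.u τ (x1 + s) - c1|) (x2 - x1)
    simp only [← add_assoc, add_sub_cancel] at e1
    rw [e1]
    exact (intervalIntegral.integral_mono_interval (by linarith) (by linarith) (by linarith)
      (nn _ _ _ _) (ii _ _ _ _)).trans t1
  have a2 : ∫ s in (0 : ℝ)..(R / 2), |L.u τ (x2 + s) - c2| ≤ e :=
    (intervalIntegral.integral_mono_interval le_rfl (by linarith) (by linarith)
      (nn _ _ _ _) (ii _ _ _ _)).trans t2
  have a3 := intervalIntegral.integral_mono_on (a := 0) (b := R / 2) (by linarith)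
    (intervalIntegrable_const (c := c1 - c2)) ((ii x2 c1 _ _).add (ii x2 c2 _ _)) fun s _ => by
      have := neg_abs_le (L.u τ (x2 + s) - c1)
      have := le_abs_self (L.u τ (x2 + s) - c2)
      linarith
  rw [intervalIntegral.integral_add (ii _ _ _ _) (ii _ _ _ _)] at a3
  simp only [intervalIntegral.integral_const, smul_eq_mul, sub_zero] at a3
  linarith

theorem label_le (hf : L.Facts) (τ : ℝ) {y1 y2 : ℝ} (h : y1 ≤ y2) :
    L.m y2 - L.m y1 ≤ M * (L.X τ y2 - L.X τ y1) := by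
  have hX := (hf.X_mono τ).monotone h
  rw [← hf.Q_X τ y2, ← hf.Q_X τ y1, hf.Q_sub]
  have hi : IntervalIntegrable (L.q τ) volume (L.X τ y1) (L.X τ y2) := by
    refine (intervalIntegrable_const (c := M)).mono_fun'
      hf.q_meas.of_uncurry_left.aestronglyMeasurable (ae_of_all _ fun s => ?_)
    simp only [Real.norm_eq_abs, abs_of_nonneg (hf.q_mem τ s).1]
    exact (hf.q_mem τ s).2
  have := intervalIntegral.integral_mono_on hX hi (intervalIntegrable_const (c := M))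
    fun x _ => (hf.q_mem τ x).2
  simpa [mul_comm] using this

end Core

end

end MP34a893

end MrgPart1

-- ======== part 2: formerly Pool.Agent.MP_34a893_an.h9.CoreB
section MrgPart2

open MeasureTheory Set Filter Topology
open scoped ENNReal

namespace MP34a893

noncomputable section

namespace Core

/-- constants of the test function -/
structure Cst where
  a : ℝ
  α : ℝ
  β : ℝ
  gap : ℝ
  ε : ℝ
  ρ : ℝ
  θ : ℝ
  δ : ℝ
  R : ℝ

structure Cst.Ok (c : Cst) : Prop where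
  gap : 0 < c.gap
  ε : 0 < c.ε
  ρ : 0 < c.ρ
  θ : 0 ≤ c.θ
  δ : 0 ≤ c.δ
  a1 : 1 ≤ c.a * (c.gap / 3) ^ 2
  a2 : 1 ≤ c.a * (c.ε / 2) ^ 2

variable {P : Par} {M : ℝ} (L : Lag P M) (c : Cst)

def fX (τ y : ℝ) : ℝ := c.a * max (-1 * (L.U τ y - c.β)) 0 ^ 2

def fY (τ xr y : ℝ) : ℝ := c.a * max (1 * (L.U τ y - c.α)) 0 ^ 2 +
  c.a * max (-1 * (L.U τ y - c.ε)) 0 ^ 2 + max (L.X τ y - xr) 0 / c.ρ

variable (P M) in
def psi (g : ℝ) : ℝ := c.θ * (2 * M * ∫ r in c.R..(c.R + g / (2 * M)), P.k r) + c.δ * g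

variable (P M) in
def kap (g : ℝ) : ℝ := c.θ * P.k (c.R + g / (2 * M)) + c.δ

def lam (τ xr s : ℝ) (z : ℝ × ℝ) : ℝ :=
  fX L c τ z.1 + fY L c τ xr z.2 + psi P M c (L.m z.2 - L.m z.1) + s

def alive (τ xl xr : ℝ) : Set (ℝ × ℝ) :=
  {z | z.1 ≤ z.2 ∧ c.β - c.gap / 3 ≤ L.U τ z.1 ∧ c.ε / 2 ≤ L.U τ z.2 ∧
    L.U τ z.2 ≤ c.α + c.gap / 3 ∧ xl ≤ L.X τ z.1 ∧ L.X τ z.2 ≤ xr + c.ρ}

def mv (τ h : ℝ) (z : (ℝ × ℝ) × (ℝ × ℝ × ℝ) × (ℝ × ℝ × ℝ)) : ℝ × ℝ :=
  (L.step τ h z.1.1 z.2.1, L.step τ h z.1.2 z.2.2)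

def keep (τ h xl xr : ℝ) : Set ((ℝ × ℝ) × (ℝ × ℝ × ℝ) × (ℝ × ℝ × ℝ)) :=
  {z | L.step τ h z.1.1 z.2.1 ≤ z.1.2} ∩ mv L τ h ⁻¹' alive L c (τ - h) xl xr

variable {L c}

theorem a_pos (hc : c.Ok) : 0 ≤ c.a := by
  have := hc.a1
  by_contra H
  nlinarith [sq_nonneg (c.gap / 3)]

theorem fX_nn (hc : c.Ok) (τ y : ℝ) : 0 ≤ fX L c τ y := mul_nonneg (a_pos hc) (sq_nonneg _)

theorem fY_nn (hc : c.Ok) (τ xr y : ℝ) : 0 ≤ fY L c τ xr y :=
  add_nonneg (add_nonneg (mul_nonneg (a_pos hc) (sq_nonneg _))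
    (mul_nonneg (a_pos hc) (sq_nonneg _))) (div_nonneg (le_max_right _ _) hc.ρ.le)

theorem psi_nn (hM : 0 < M) (hp : P.Facts M) (hc : c.Ok) {g : ℝ} (hg : 0 ≤ g) :
    0 ≤ psi P M c g :=
  add_nonneg (mul_nonneg hc.θ (mul_nonneg (by positivity) (intervalIntegral.integral_nonneg
    (le_add_of_nonneg_right (by positivity)) fun r _ => hp.k_nonneg r))) (mul_nonneg hc.δ hg)

theorem kap_nn (hp : P.Facts M) (hc : c.Ok) (g : ℝ) : 0 ≤ kap P M c g :=
  add_nonneg (mul_nonneg hc.θ (hp.k_nonneg _)) hc.δ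

theorem psi_le (hM : 0 < M) (hp : P.Facts M) (hc : c.Ok) (g g' : ℝ) :
    psi P M c g' ≤ psi P M c g + kap P M c g * (g' - g) := by
  have h1 := conc hp.k_anti (c.R + g / (2 * M)) (c.R + g' / (2 * M))
  rw [← intervalIntegral.integral_interval_sub_left (a := c.R) hp.k_anti.intervalIntegrable
    hp.k_anti.intervalIntegrable] at h1
  have h2 := mul_le_mul_of_nonneg_left h1 (mul_nonneg hc.θ (show 0 ≤ 2 * M by positivity))
  have e : c.θ * (2 * M) * (P.k (c.R + g / (2 * M)) * (c.R + g' / (2 * M) - (c.R + g / (2 * M)))) =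
      c.θ * P.k (c.R + g / (2 * M)) * (g' - g) := by field_simp; ring
  unfold psi kap
  linarith

theorem psi_top (hM : 0 < M) (hp : P.Facts M) (hc : c.Ok) (hR : 0 ≤ c.R) {g : ℝ} (hg : 0 ≤ g) :
    psi P M c g ≤ c.θ * (2 * M * ∫ r in Ioi c.R, P.k r) + c.δ * g := by
  refine add_le_add_left (mul_le_mul_of_nonneg_left (mul_le_mul_of_nonneg_left ?_
    (by positivity)) hc.θ) _
  rw [intervalIntegral.integral_of_le (le_add_of_nonneg_right (by positivity))]
  exact setIntegral_mono_set (hp.k_int.mono_set (Ioi_subset_Ioi hR))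
    (ae_of_all _ hp.k_nonneg) Ioc_subset_Ioi_self.eventuallyLE

theorem m_U (hf : L.Facts) (τ : ℝ) : Measurable (L.U τ) := hf.U_meas.of_uncurry_left

theorem m_X (τ : ℝ) : Measurable (L.X τ) := L.X_cont.measurable.of_uncurry_left

theorem m_fX (hf : L.Facts) (τ : ℝ) : Measurable (fX L c τ) := by
  have := m_U hf τ
  unfold fX
  fun_prop

theorem m_fY (hf : L.Facts) (τ xr : ℝ) : Measurable (fY L c τ xr) := by
  have := m_U hf τ
  have := m_X (L := L) τ
  unfold fY
  fun_prop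

theorem m_lam (hp : P.Facts M) (hf : L.Facts) (τ xr s : ℝ) : Measurable (lam L c τ xr s) := by
  have h1 := m_fX (c := c) hf τ
  have h2 := m_fY (c := c) hf τ xr
  have h3 := hf.m_cont.measurable
  have h4 : Measurable fun x => ∫ r in c.R..x, P.k r :=
    (intervalIntegral.continuous_primitive (fun _ _ => hp.k_anti.intervalIntegrable) _).measurable
  have h5 : Measurable (psi P M c) :=
    (((h4.comp (by fun_prop)).const_mul _).const_mul _).add (by fun_prop)
  unfold lam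
  fun_prop

theorem m_alive (hf : L.Facts) (τ xl xr : ℝ) : MeasurableSet (alive L c τ xl xr) := by
  have := m_U hf τ
  have := m_X (L := L) τ
  unfold alive
  measurability

theorem m_mv (hs : L.Step) (τ h : ℝ) : Measurable (mv L τ h) :=
  ((hs.step_meas τ h).comp (measurable_fst.fst.prodMk measurable_snd.fst)).prodMk
    ((hs.step_meas τ h).comp (measurable_fst.snd.prodMk measurable_snd.snd))

theorem m_keep (hf : L.Facts) (hs : L.Step) (τ h xl xr : ℝ) :
    MeasurableSet (keep L c τ h xl xr) :=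
  (measurableSet_le (m_mv hs τ h).fst measurable_fst.snd).inter (m_mv hs τ h (m_alive hf _ _ _))

theorem m_step (hs : L.Step) (τ h y : ℝ) : Measurable (L.step τ h y) :=
  (hs.step_meas τ h).comp measurable_prodMk_left

theorem exX (hp : P.Facts M) (hf : L.Facts) (hs : L.Step) (hc : c.Ok) {τ h y : ℝ}
    (hh : P.Small M h) (h1 : h ≤ τ) (h2 : τ ≤ L.T) (hy : c.β - c.gap / 3 ≤ L.U τ y) :
    ∫⁻ ξ, ENNReal.ofReal (fX L c (τ - h) (L.step τ h y ξ)) ∂P.noise ≤
      ENNReal.ofReal (fX L c τ y + c.a * (2 * (c.gap / 3) * (P.E1 M * h ^ 2) + L.w τ h 1 y)) := by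
  have := test L hp hf hs (γ := c.β) (b := c.gap / 3) y hh h1 h2 (.inr rfl)
    (max_le (by linarith) (by linarith [hc.gap]))
  simp only [fX, ENNReal.ofReal_mul (a_pos hc), ← mul_add]
  rw [lintegral_const_mul' _ _ ENNReal.ofReal_ne_top, ← add_assoc]
  exact mul_le_mul_right this _

theorem exY (hp : P.Facts M) (hf : L.Facts) (hs : L.Step) (hc : c.Ok) {τ h y xr : ℝ}
    (hh : P.Small M h) (h1 : h ≤ τ) (h2 : τ ≤ L.T) (hy : c.ε / 2 ≤ L.U τ y)
    (hy' : L.U τ y ≤ c.α + c.gap / 3) :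
    ∫⁻ ξ, ENNReal.ofReal (fY L c (τ - h) (xr + P.Vm M * h) (L.step τ h y ξ)) ∂P.noise ≤
      ENNReal.ofReal (fY L c τ xr y +
        c.a * (2 * (c.gap / 3 + c.ε / 2) * (P.E1 M * h ^ 2) + 2 * L.w τ h 1 y) +
        P.Th M * h * (1 + P.k0 * P.DV M) / c.ρ) := by
  have := hp.noise_prob
  have t1 := test L hp hf hs (γ := c.α) (b := c.gap / 3) y hh h1 h2 (.inl rfl)
    (max_le (by linarith) (by linarith [hc.gap]))
  have t2 := test L hp hf hs (γ := c.ε) (b := c.ε / 2) y hh h1 h2 (.inr rfl)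
    (max_le (by linarith) (by linarith [hc.ε]))
  have t3 := hs.disp τ h hh h1 h2 y (P.Th M) fun σ _ => (hf.rate_mem σ y).2
  have hl := hf.X_lip y (τ - h) ⟨by linarith, by linarith [hh.1]⟩ τ ⟨by linarith [hh.1], h2⟩
  rw [sub_sub_cancel_left, abs_neg, abs_of_pos hh.1, abs_le] at hl
  have mU := (m_U hf (τ - h)).comp (m_step hs τ h y)
  have ha := a_pos hc
  have hρ : 0 ≤ c.ρ⁻¹ := inv_nonneg.2 hc.ρ.le
  have hE : 0 ≤ P.E1 M * h ^ 2 := (abs_nonneg _).trans (hs.mart τ h hh h1 h2 y)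
  have hw := (hs.w_mem τ h 1 y).1
  have hD : 0 ≤ P.Th M * h * (1 + P.k0 * P.DV M) :=
    mul_nonneg (mul_nonneg ((hf.rate_mem τ y).1.trans (hf.rate_mem τ y).2) hh.1.le)
      (add_nonneg zero_le_one (mul_nonneg hp.k0_pos.le (mul_nonneg hp.bm_nonneg hp.N_pos.le)))
  calc _ ≤ ∫⁻ ξ, (ENNReal.ofReal c.a *
          ENNReal.ofReal (max (1 * (L.U (τ - h) (L.step τ h y ξ) - c.α)) 0 ^ 2) +
        ENNReal.ofReal c.a *
          ENNReal.ofReal (max (-1 * (L.U (τ - h) (L.step τ h y ξ) - c.ε)) 0 ^ 2) +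
        (ENNReal.ofReal (max (L.X τ y - xr) 0 / c.ρ) + ENNReal.ofReal c.ρ⁻¹ *
          ENNReal.ofReal (L.X (τ - h) (L.step τ h y ξ) - L.X (τ - h) y))) ∂P.noise := by
        refine lintegral_mono fun ξ => ?_
        simp only [← ENNReal.ofReal_mul ha, ← ENNReal.ofReal_mul hρ]
        refine ENNReal.ofReal_add_le.trans (add_le_add ENNReal.ofReal_add_le
          (le_trans (ENNReal.ofReal_le_ofReal ?_) ENNReal.ofReal_add_le))
        have hm := (hf.X_mono (τ - h)).monotone (hs.le_step τ h y ξ)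
        rw [← div_eq_inv_mul, ← add_div]
        refine div_le_div_of_nonneg_right (max_le ?_ ?_) hc.ρ.le
        · linarith [le_max_left (L.X τ y - xr) 0, hl.2]
        · linarith [le_max_right (L.X τ y - xr) 0]
    _ ≤ _ := by
        rw [lintegral_add_left (by fun_prop), lintegral_add_left (by fun_prop),
          lintegral_add_left measurable_const,
          lintegral_const_mul' _ _ ENNReal.ofReal_ne_top,
          lintegral_const_mul' _ _ ENNReal.ofReal_ne_top,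
          lintegral_const_mul' _ _ ENNReal.ofReal_ne_top, lintegral_const, measure_univ, mul_one]
        refine (add_le_add (add_le_add (mul_le_mul_right t1 _) (mul_le_mul_right t2 _))
          (add_le_add_right (mul_le_mul_right t3 _) _)).trans (le_of_eq ?_)
        have g1 := hc.gap
        have g2 := hc.ε
        have g3 := hc.ρ
        rw [← ENNReal.ofReal_mul ha, ← ENNReal.ofReal_mul ha, ← ENNReal.ofReal_mul hρ,
          ← ENNReal.ofReal_add (by positivity) (by positivity),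
          ← ENNReal.ofReal_add (by positivity) (by positivity),
          ← ENNReal.ofReal_add (by positivity) (by positivity)]
        congr 1
        unfold fY
        ring

theorem kill (hc : c.Ok) {τ xl xr : ℝ} {z : ℝ × ℝ} (h1 : z.1 ≤ z.2) (h2 : xl ≤ L.X τ z.1)
    (h : z ∉ alive L c τ xl xr) : 1 ≤ fX L c τ z.1 + fY L c τ xr z.2 := by
  have ha := a_pos hc
  have q : ∀ x b : ℝ, 0 ≤ b → b < x → 1 ≤ c.a * b ^ 2 → 1 ≤ c.a * max x 0 ^ 2 := fun x b h0 h1 h2 =>
    h2.trans (mul_le_mul_of_nonneg_left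
      (pow_le_pow_left₀ h0 (h1.le.trans (le_max_left _ _)) 2) ha)
  have n1 := fX_nn (L := L) hc τ z.1
  have n2 := fY_nn (L := L) hc τ xr z.2
  have n3 : ∀ x : ℝ, 0 ≤ c.a * max x 0 ^ 2 := fun x => mul_nonneg ha (sq_nonneg _)
  have n4 : 0 ≤ max (L.X τ z.2 - xr) 0 / c.ρ := div_nonneg (le_max_right _ _) hc.ρ.le
  have g1 := hc.gap
  have g2 := hc.ε
  by_cases c1 : c.β - c.gap / 3 ≤ L.U τ z.1
  · unfold fY
    by_cases c2 : c.ε / 2 ≤ L.U τ z.2
    · by_cases c3 : L.U τ z.2 ≤ c.α + c.gap / 3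
      · have c4 : xr + c.ρ < L.X τ z.2 := not_le.1 fun c4 => h ⟨h1, c1, c2, c3, h2, c4⟩
        have : 1 ≤ max (L.X τ z.2 - xr) 0 / c.ρ :=
          (one_le_div hc.ρ).2 (le_max_of_le_left (by linarith))
        linarith [n3 (1 * (L.U τ z.2 - c.α)), n3 (-1 * (L.U τ z.2 - c.ε))]
      · linarith [q (1 * (L.U τ z.2 - c.α)) _ (by linarith) (by linarith) hc.a1,
          n3 (-1 * (L.U τ z.2 - c.ε))]
    · linarith [q (-1 * (L.U τ z.2 - c.ε)) _ (by linarith) (by linarith) hc.a2,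
        n3 (1 * (L.U τ z.2 - c.α))]
  · have := q (-1 * (L.U τ z.1 - c.β)) _ (by linarith) (by linarith) hc.a1
    unfold fX
    linarith

open Classical in
/-- one step of the test function -/
theorem one (hM : 0 < M) (hp : P.Facts M) (hf : L.Facts) (hs : L.Step) (hc : c.Ok)
    {τ h xl xr s pc d1 d2 : ℝ} {z : ℝ × ℝ} (hh : P.Small M h) (h1 : h ≤ τ) (h2 : τ ≤ L.T)
    (hz : z ∈ alive L c τ xl xr) (hs0 : 0 ≤ s) (hpc : 0 ≤ pc) (hd1 : 0 ≤ d1) (hd2 : 0 ≤ d2)
    (cr : P.noise {ξ | z.2 < L.step τ h z.1 ξ} ≤ ENNReal.ofReal pc)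
    (lo : ENNReal.ofReal d1 ≤ ∫⁻ ξ in {ξ | L.step τ h z.1 ξ ≤ z.2},
      ENNReal.ofReal (L.m (L.step τ h z.1 ξ) - L.m z.1) ∂P.noise)
    (up : ∫⁻ ξ, ENNReal.ofReal (L.m (L.step τ h z.2 ξ) - L.m z.2) ∂P.noise ≤ ENNReal.ofReal d2) :
    ∫⁻ ξ, (if (z, ξ) ∈ keep L c τ h (xl - P.Vm M * h) (xr + P.Vm M * h) then
        ENNReal.ofReal (lam L c (τ - h) (xr + P.Vm M * h) s (mv L τ h (z, ξ))) else 1)
        ∂(P.noise.prod P.noise) ≤
      ENNReal.ofReal (lam L c τ xr s z + pc + kap P M c (L.m z.2 - L.m z.1) * (d2 - d1) +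
        2 * c.a * L.w τ h 1 z.1 + 2 * c.a * L.w τ h 1 z.2 +
        (2 * c.a * (c.gap + c.ε) * (P.E1 M * h ^ 2) + P.Th M * h * (1 + P.k0 * P.DV M) / c.ρ)) := by
  have := hp.noise_prob
  obtain ⟨z1, z2, z3, z4, z5, z6⟩ := hz
  set κ := kap P M c (L.m z.2 - L.m z.1) with hκ
  have κ0 : 0 ≤ κ := kap_nn hp hc _
  have mm := hf.m_cont.measurable
  have s1 := m_step hs τ h z.1
  have s2 := m_step hs τ h z.2
  have hN : MeasurableSet {ξ | L.step τ h z.1 ξ ≤ z.2} := measurableSet_le s1 measurable_const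
  have hC : MeasurableSet {ξ | z.2 < L.step τ h z.1 ξ} := measurableSet_lt measurable_const s1
  let f0 : ℝ × ℝ × ℝ → ℝ≥0∞ := fun ξ => ENNReal.ofReal κ * {ξ | L.step τ h z.1 ξ ≤ z.2}.indicator
    (fun ξ => ENNReal.ofReal (L.m (L.step τ h z.1 ξ) - L.m z.1)) ξ
  let f1 : ℝ × ℝ × ℝ → ℝ≥0∞ := fun ξ => {ξ | z.2 < L.step τ h z.1 ξ}.indicator 1 ξ +
    ENNReal.ofReal (fX L c (τ - h) (L.step τ h z.1 ξ))
  let f2 : ℝ × ℝ × ℝ → ℝ≥0∞ := fun ξ =>
    ENNReal.ofReal κ * ENNReal.ofReal (L.m (L.step τ h z.2 ξ) - L.m z.2) +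
    ENNReal.ofReal (fY L c (τ - h) (xr + P.Vm M * h) (L.step τ h z.2 ξ))
  have m0 : Measurable f0 := (Measurable.indicator (by fun_prop) hN).const_mul _
  have m1 : Measurable f1 :=
    (measurable_one.indicator hC).add ((m_fX hf _).comp s1).ennreal_ofReal
  have m2 : Measurable f2 := Measurable.add (by fun_prop) ((m_fY hf _ _).comp s2).ennreal_ofReal
  have hl := hf.X_lip z.1 (τ - h) ⟨by linarith, by linarith [hh.1]⟩ τ ⟨by linarith [hh.1], h2⟩
  rw [sub_sub_cancel_left, abs_neg, abs_of_pos hh.1, abs_le] at hl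
  have pt : ∀ ξ : (ℝ × ℝ × ℝ) × (ℝ × ℝ × ℝ), f0 ξ.1 +
      (if (z, ξ) ∈ keep L c τ h (xl - P.Vm M * h) (xr + P.Vm M * h) then
        ENNReal.ofReal (lam L c (τ - h) (xr + P.Vm M * h) s (mv L τ h (z, ξ))) else 1) ≤
      f1 ξ.1 + (f2 ξ.2 + ENNReal.ofReal (psi P M c (L.m z.2 - L.m z.1) + s)) := by
    intro ξ
    by_cases cr : L.step τ h z.1 ξ.1 ≤ z.2
    · have e1 := hs.le_step τ h z.1 ξ.1
      have e2 := hs.le_step τ h z.2 ξ.2
      have p1 := psi_le hM hp hc (L.m z.2 - L.m z.1)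
        (L.m (L.step τ h z.2 ξ.2) - L.m (L.step τ h z.1 ξ.1))
      have p2 := psi_nn hM hp hc (sub_nonneg.2 (hf.m_mono (cr.trans e2)))
      have n1 := fX_nn (L := L) hc (τ - h) (L.step τ h z.1 ξ.1)
      have n2 := fY_nn (L := L) hc (τ - h) (xr + P.Vm M * h) (L.step τ h z.2 ξ.2)
      have hv : (if (z, ξ) ∈ keep L c τ h (xl - P.Vm M * h) (xr + P.Vm M * h) then
          ENNReal.ofReal (lam L c (τ - h) (xr + P.Vm M * h) s (mv L τ h (z, ξ))) else 1) ≤
          ENNReal.ofReal (lam L c (τ - h) (xr + P.Vm M * h) s (mv L τ h (z, ξ))) := by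
        split_ifs with H
        · exact le_rfl
        · have := kill (L := L) hc (z := mv L τ h (z, ξ)) (cr.trans e2)
            (by have := (hf.X_mono (τ - h)).monotone e1; simp only [mv]; linarith [hl.1])
            fun H' => H ⟨cr, H'⟩
          rw [← ENNReal.ofReal_one]
          refine ENNReal.ofReal_le_ofReal ?_
          simp only [lam, mv] at this ⊢
          linarith
      refine (add_le_add_right hv _).trans ?_
      simp only [f0, f1, f2]
      rw [indicator_of_mem (show ξ.1 ∈ {ξ | L.step τ h z.1 ξ ≤ z.2} from cr),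
        ← ENNReal.ofReal_mul κ0, ← ENNReal.ofReal_mul κ0,
        ← ENNReal.ofReal_add (mul_nonneg κ0 (sub_nonneg.2 (hf.m_mono e1)))
          (by simp only [lam, mv]; linarith),
        ← ENNReal.ofReal_add (mul_nonneg κ0 (sub_nonneg.2 (hf.m_mono e2))) n2,
        ← ENNReal.ofReal_add (add_nonneg (mul_nonneg κ0 (sub_nonneg.2 (hf.m_mono e2))) n2)
          (add_nonneg (psi_nn hM hp hc (sub_nonneg.2 (hf.m_mono z1))) hs0), add_assoc,
        ← ENNReal.ofReal_add n1 (add_nonneg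
          (add_nonneg (mul_nonneg κ0 (sub_nonneg.2 (hf.m_mono e2))) n2)
          (add_nonneg (psi_nn hM hp hc (sub_nonneg.2 (hf.m_mono z1))) hs0))]
      refine le_add_left (ENNReal.ofReal_le_ofReal ?_)
      simp only [lam, mv]
      linarith
    · simp only [f0, f1]
      rw [indicator_of_notMem (show ξ.1 ∉ {ξ | L.step τ h z.1 ξ ≤ z.2} from cr), mul_zero, zero_add,
        if_neg fun H => cr H.1,
        indicator_of_mem (show ξ.1 ∈ {ξ | z.2 < L.step τ h z.1 ξ} from not_le.1 cr), add_assoc]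
      exact le_self_add
  have main := lintegral_mono (μ := P.noise.prod P.noise) pt
  rw [lintegral_add_left (f := fun ξ : (ℝ × ℝ × ℝ) × (ℝ × ℝ × ℝ) => f0 ξ.1)
      (m0.comp measurable_fst),
    lintegral_add_left (f := fun ξ : (ℝ × ℝ × ℝ) × (ℝ × ℝ × ℝ) => f1 ξ.1)
      (m1.comp measurable_fst),
    lintegral_add_left (f := fun ξ : (ℝ × ℝ × ℝ) × (ℝ × ℝ × ℝ) => f2 ξ.2)
      (m2.comp measurable_snd),
    measurePreserving_fst.lintegral_comp m0, measurePreserving_fst.lintegral_comp m1,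
    measurePreserving_snd.lintegral_comp m2, lintegral_const, measure_univ, mul_one] at main
  have b0 : ENNReal.ofReal (κ * d1) ≤ ∫⁻ ξ, f0 ξ ∂P.noise := by
    rw [lintegral_const_mul' _ _ ENNReal.ofReal_ne_top, lintegral_indicator hN,
      ENNReal.ofReal_mul κ0]
    exact mul_le_mul_right lo _
  have b1 := add_le_add cr (exX hp hf hs hc hh h1 h2 z2)
  rw [← lintegral_indicator_one hC, ← lintegral_add_left (measurable_one.indicator hC)] at b1
  have b2 := add_le_add (mul_le_mul_right up (ENNReal.ofReal κ))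
    (exY (xr := xr) hp hf hs hc hh h1 h2 z3 z4)
  rw [← lintegral_const_mul' _ _ ENNReal.ofReal_ne_top, ← lintegral_add_left (by fun_prop),
    ← ENNReal.ofReal_mul κ0] at b2
  have ha := a_pos hc
  have hE : 0 ≤ P.E1 M * h ^ 2 := (abs_nonneg _).trans (hs.mart τ h hh h1 h2 z.1)
  have w1 := (hs.w_mem τ h 1 z.1).1
  have w2 := (hs.w_mem τ h 1 z.2).1
  have hD : 0 ≤ P.Th M * h * (1 + P.k0 * P.DV M) :=
    mul_nonneg (mul_nonneg ((hf.rate_mem τ 0).1.trans (hf.rate_mem τ 0).2) hh.1.le)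
      (add_nonneg zero_le_one (mul_nonneg hp.k0_pos.le (mul_nonneg hp.bm_nonneg hp.N_pos.le)))
  have n1 := fX_nn (L := L) hc τ z.1
  have n2 := fY_nn (L := L) hc τ xr z.2
  have n3 := psi_nn hM hp hc (sub_nonneg.2 (hf.m_mono z1))
  have g1 := hc.gap
  have g2 := hc.ε
  have g3 := hc.ρ
  replace main := ((add_le_add_left b0 _).trans main).trans
    (add_le_add b1 (add_le_add_left b2 _))
  rw [← ENNReal.ofReal_add (by positivity) (by positivity),
    ← ENNReal.ofReal_add (by positivity) (by positivity),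
    ← ENNReal.ofReal_add (by positivity) (by positivity),
    ← ENNReal.ofReal_add (by positivity) (by positivity)] at main
  refine (ENNReal.le_sub_of_add_le_left ENNReal.ofReal_ne_top main).trans ?_
  rw [← ENNReal.ofReal_sub _ (by positivity)]
  refine ENNReal.ofReal_le_ofReal ?_
  have q1 := mul_nonneg ha w1
  have q2 := mul_nonneg (mul_nonneg ha g1.le) hE
  have q3 := mul_nonneg (mul_nonneg ha g2.le) hE
  unfold lam
  linarith

end Core

end

end MP34a893

end MrgPart2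

-- ======== part 3: formerly Pool.Agent.MP_34a893_an.h9.CoreC
section MrgPart3

open MeasureTheory Set Filter Topology
open scoped ENNReal

namespace MP34a893

noncomputable section

namespace Core

variable {P : Par} {M : ℝ} {L : Lag P M}

theorem nv_mono {ε ε' ν t1 t2 a c t1' t2' a' c' : ℝ} (h : L.NV ε ν t1 t2 a c) (h0 : ε' ≤ ε)
    (h1 : t1 ≤ t1') (h2 : t2' ≤ t2) (h3 : a ≤ a') (h4 : c' ≤ c) : L.NV ε' ν t1' t2' a' c' :=
  fun τ hτ => le_trans (measure_mono fun _ hx =>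
    And.intro (And.intro (h3.trans hx.1.1) (hx.1.2.trans h4)) (hx.2.trans_le h0))
    (h τ ⟨h1.trans hτ.1, hτ.2.trans h2⟩)

/-- a coordinate of the killed pair is dominated by the free chain -/
theorem dom {S Ξ : Type} [MeasurableSpace S] [MeasurableSpace Ξ] (hs : L.Step) (hl : L.Law)
    (ν : Measure Ξ) [SFinite ν] (F : ℕ → S × Ξ → S) (A : ℕ → Set (S × Ξ)) (μ : Measure S)
    (hF : ∀ n, Measurable (F n)) (hA : ∀ n, MeasurableSet (A n)) (π : S → ℝ) (hπ : Measurable π)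
    (π' : Ξ → ℝ × ℝ × ℝ) (hπ' : MeasurePreserving π' ν P.noise) (t h : ℝ) (n1 : ℕ) (μ0 : Measure ℝ)
    (hc : ∀ n z, π (F n z) = L.step (t - (n1 + n : ℕ) * h) h (π z.1) (π' z.2))
    (h0 : ∀ φ : ℝ → ℝ≥0∞, Measurable φ → ∫⁻ z, φ (π z) ∂μ ≤ ∫⁻ y, φ y ∂(L.law t h μ0 n1))
    (n : ℕ) : ∀ φ : ℝ → ℝ≥0∞, Measurable φ →
      ∫⁻ z, φ (π z) ∂(evolve ν F A μ n) ≤ ∫⁻ y, φ y ∂(L.law t h μ0 (n1 + n)) := by
  induction n with
  | zero => exact h0
  | succ n ih =>
    intro φ hφ
    have hn : SFinite P.noise := by unfold Par.noise; infer_instance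
    rw [lintegral_evolve_succ ν F A μ n (hF n) (hA n) (fun z => φ (π z)) (hφ.comp hπ),
      ← add_assoc, hl.succ t h μ0 _ φ hφ]
    refine le_trans (lintegral_mono fun z => ?_)
      (ih _ (hφ.comp (hs.step_meas _ h)).lintegral_prod_right')
    refine le_trans (lintegral_mono fun ξ => (indicator_le_self _ _ _).trans (by rw [hc]))
      (hπ'.lintegral_comp (f := fun ξ => φ (L.step (t - (n1 + n : ℕ) * h) h (π z) ξ))
        (hφ.comp (m_step hs _ h _))).le

theorem errsum (hs : L.Step) (hl : L.Law) {t h A B E : ℝ} {H : Set ℝ} {n1 n2 l : ℕ}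
    (hH : IsProbabilityMeasure (L.start t H)) (hh : P.Small M h) (hA : 0 ≤ A) (hB : 0 ≤ B)
    (h1 : 1 ≤ l) (h2 : n1 + l ≤ n2) (h3 : n2 * h ≤ t) (h4 : t ≤ L.T)
    (hE : L.mom t h H n2 - L.mom t h H n1 + 4 * P.N M * (n2 * (P.E1 M * h ^ 2)) ≤ E) :
    ∑ n ∈ Finset.range (n2 - l - n1), ∫⁻ y, ENNReal.ofReal (A * L.w (t - (n1 + n : ℕ) * h) h 1 y +
      B * L.w (t - (n1 + n : ℕ) * h) h l y) ∂(L.law t h (L.start t H) (n1 + n)) ≤
      ENNReal.ofReal ((A + B * l) * E) := by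
  have hi : ∀ τ m n, Integrable (L.w τ h m) (L.law t h (L.start t H) n) := fun τ m n => by
    have := hl.prob t h _ hH n
    exact .of_bound (hs.w_meas τ h m).aestronglyMeasurable (P.N M ^ 2) (ae_of_all _ fun y => by
      rw [Real.norm_eq_abs, abs_of_nonneg (hs.w_mem τ h m y).1]; exact (hs.w_mem τ h m y).2)
  have hn : ∀ τ m n, 0 ≤ ∫ y, L.w τ h m y ∂(L.law t h (L.start t H) n) := fun τ m n =>
    integral_nonneg fun y => (hs.w_mem τ h m y).1
  have e : ∀ τ n, ∫⁻ y, ENNReal.ofReal (A * L.w τ h 1 y + B * L.w τ h l y)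
      ∂(L.law t h (L.start t H) n) = ENNReal.ofReal (A * ∫ y, L.w τ h 1 y ∂(L.law t h (L.start t H) n)
        + B * ∫ y, L.w τ h l y ∂(L.law t h (L.start t H) n)) := fun τ n => by
    rw [← integral_const_mul, ← integral_const_mul,
      ← integral_add ((hi _ _ _).const_mul A) ((hi _ _ _).const_mul B)]
    exact (ofReal_integral_eq_lintegral_ofReal
      (((hi _ _ _).const_mul A).add ((hi _ _ _).const_mul B))
        (ae_of_all _ fun y => add_nonneg (mul_nonneg hA (hs.w_mem τ h 1 y).1)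
          (mul_nonneg hB (hs.w_mem τ h l y).1))).symm
  simp only [e]
  rw [← ENNReal.ofReal_sum_of_nonneg fun n _ =>
    add_nonneg (mul_nonneg hA (hn _ _ _)) (mul_nonneg hB (hn _ _ _))]
  refine ENNReal.ofReal_le_ofReal ?_
  have a1 := hl.wsum t h H n1 n2 1 hH hh (by omega) h3 h4
  have a2 := hl.wsum t h H n1 n2 l hH hh h2 h3 h4
  replace a1 := (Finset.sum_le_sum_of_subset_of_nonneg
    (Finset.Ico_subset_Ico le_rfl (show n2 - l ≤ n2 - 1 by omega)) fun n _ _ => hn _ _ _).trans a1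
  rw [Finset.sum_Ico_eq_sum_range] at a1 a2
  rw [Finset.sum_add_distrib, ← Finset.mul_sum, ← Finset.mul_sum, add_mul, mul_assoc]
  rw [Nat.cast_one, one_mul] at a1
  exact add_le_add (mul_le_mul_of_nonneg_left (a1.trans hE) hA) (mul_le_mul_of_nonneg_left
    (a2.trans (mul_le_mul_of_nonneg_left hE (Nat.cast_nonneg l))) hB)

/-- the bounds used by one step -/
def Key (L : Lag P M) (cs : Cst) (τ h d b : ℝ) (z : ℝ × ℝ) : Prop :=
  ∃ pc d1 d2, 0 ≤ pc ∧ 0 ≤ d1 ∧ 0 ≤ d2 ∧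
    P.noise {ξ | z.2 < L.step τ h z.1 ξ} ≤ ENNReal.ofReal pc ∧
    ENNReal.ofReal d1 ≤ ∫⁻ ξ in {ξ | L.step τ h z.1 ξ ≤ z.2},
      ENNReal.ofReal (L.m (L.step τ h z.1 ξ) - L.m z.1) ∂P.noise ∧
    ∫⁻ ξ, ENNReal.ofReal (L.m (L.step τ h z.2 ξ) - L.m z.2) ∂P.noise ≤ ENNReal.ofReal d2 ∧
    pc + kap P M cs (L.m z.2 - L.m z.1) * (d2 - d1) + d ≤ b

theorem good (hM : 0 < M) (hp : P.Facts M) (hf : L.Facts) (hs : L.Step) {cs : Cst} (ok : cs.Ok)
    {τ h c ed xl xr b : ℝ} {z : ℝ × ℝ} (sm : P.Small M h) (t1 : h ≤ τ) (t2 : τ ≤ L.T)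
    (hz : z ∈ alive L cs τ xl xr) (hc : 0 < c) (hθ : cs.θ = P.Th M / (c / 2)) (hR : 0 ≤ cs.R)
    (hαβ : cs.α + cs.gap ≤ cs.β) (v4 : P.DV M * h ≤ 1) (hb : 0 ≤ b)
    (hlam : ∀ z ∈ Icc 0 (P.N M), ∀ z' ∈ Icc 0 (P.N M), z + cs.gap / 3 ≤ z' → P.lam z + c ≤ P.lam z')
    (hD : ∀ y, (∀ σ ∈ Icc (τ - h) τ,
        ∫ s in (0 : ℝ)..(4 * (cs.R + 1)), |L.u σ (L.X σ y + s) - L.U τ y| ≤ ed) →
      (∫⁻ ξ, ENNReal.ofReal (L.m (L.step τ h y ξ) - L.m y) ∂P.noise ≤
        ENNReal.ofReal (h * (P.lam (L.U τ y) + c / 4))) ∧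
      ∀ y', L.X τ y + 4 * (cs.R + 1) / 2 ≤ L.X τ y' →
        ENNReal.ofReal (h * (P.lam (L.U τ y) - c / 4)) ≤
          ∫⁻ ξ in {ξ | L.step τ h y ξ ≤ y'}, ENNReal.ofReal (L.m (L.step τ h y ξ) - L.m y) ∂P.noise)
    (u1 : ∀ σ ∈ Icc (τ - h) τ, ∫ s in (0 : ℝ)..(4 * (cs.R + 1)),
      |L.u σ (L.X σ z.1 + s) - L.U τ z.1| ≤ min ed (cs.gap / 6))
    (u2 : ∀ σ ∈ Icc (τ - h) τ, ∫ s in (0 : ℝ)..(4 * (cs.R + 1)),
      |L.u σ (L.X σ z.2 + s) - L.U τ z.2| ≤ min ed (cs.gap / 6)) :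
    Key L cs τ h (cs.δ * (c / 2) * h) b z := by
  obtain ⟨z1, z2, z3, z4, -, -⟩ := hz
  have hh := sm.1
  have hTh : 0 ≤ P.Th M := mul_nonneg (mul_nonneg P.hp0.le hp.bm_nonneg) hp.N_pos.le
  have hU : ∀ y, L.U τ y ∈ Icc 0 (P.N M) := fun y => ⟨hf.u_nonneg _ _, L.u_le _ _⟩
  have ap := apart L hf ((hf.X_mono τ).monotone z1) (by linarith) (u1 τ ⟨by linarith, le_rfl⟩)
    (u2 τ ⟨by linarith, le_rfl⟩) (by
      have := min_le_right ed (cs.gap / 6)
      have := ok.gap
      have := mul_nonneg (show 0 ≤ L.U τ z.1 - L.U τ z.2 by linarith) hR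
      linarith)
  have lo := (hD z.1 fun σ hσ => (u1 σ hσ).trans (min_le_left _ _)).2 z.2 ap
  have up := (hD z.2 fun σ hσ => (u2 σ hσ).trans (min_le_left _ _)).1
  have g1 := hlam _ (hU z.2) _ (hU z.1) (by linarith)
  have g2 : 0 ≤ P.lam (L.U τ z.2) := mul_nonneg (mul_nonneg
    (mul_nonneg P.hp0.le (P.hb0 _)) (hU _).1) (Real.rpow_nonneg (hU _).1 _)
  have g3 : (L.m z.2 - L.m z.1) / (2 * M) ≤ (L.X τ z.2 - L.X τ z.1) / 2 := by
    rw [div_le_iff₀ (by positivity)]
    linarith [label_le L hf τ z1]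
  have g4 := hp.k_anti (show cs.R + (L.m z.2 - L.m z.1) / (2 * M) ≤
    L.X τ z.2 - L.X τ z.1 - P.DV M * h by linarith)
  refine ⟨_, _, _, mul_nonneg (by positivity) (hp.k_nonneg _), mul_nonneg hh.le (by linarith),
    mul_nonneg hh.le (by linarith), hs.cross τ h sm t1 t2 z.1 z.2 z1, lo, up, ?_⟩
  have g5 := mul_le_mul_of_nonneg_left g4 (show 0 ≤ P.Th M * h by positivity)
  have g6 := mul_le_mul_of_nonneg_left
    (show h * (P.lam (L.U τ z.2) + c / 4) - h * (P.lam (L.U τ z.1) - c / 4) ≤ -(c / 2 * h) by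
      linarith [mul_le_mul_of_nonneg_left g1 hh.le]) (kap_nn hp ok (L.m z.2 - L.m z.1))
  have g7 : kap P M cs (L.m z.2 - L.m z.1) * -(c / 2 * h) =
      -(P.Th M * h * P.k (cs.R + (L.m z.2 - L.m z.1) / (2 * M))) - cs.δ * (c / 2) * h := by
    simp only [kap, hθ]; field_simp; ring
  linarith

theorem bad (hM : 0 < M) (hp : P.Facts M) (hs : L.Step) (hA : DriftAnyS) {cs : Cst}
    (ok : cs.Ok) {τ h c b : ℝ} {z : ℝ × ℝ} (sm : P.Small M h) (t1 : h ≤ τ) (t2 : τ ≤ L.T)
    (z1 : z.1 ≤ z.2) (hc : 0 < c) (hδ : cs.δ ≤ 1 / (4 * M))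
    (hb : h * (P.Th M * P.k0 + (cs.θ * P.k0 + 1 / (4 * M)) * (P.Th M * M) +
      1 / (4 * M) * (c / 2)) ≤ b) : Key L cs τ h (cs.δ * (c / 2) * h) b z := by
  have hh := sm.1
  have hTh : 0 ≤ P.Th M := mul_nonneg (mul_nonneg P.hp0.le hp.bm_nonneg) hp.N_pos.le
  refine ⟨_, 0, _, mul_nonneg (by positivity) (hp.k_nonneg _), le_rfl, by positivity,
    hs.cross τ h sm t1 t2 z.1 z.2 z1, by simp, hA P M L τ h z.2 hM sm, ?_⟩
  have g3 := mul_le_mul_of_nonneg_left (hp.k_le (L.X τ z.2 - L.X τ z.1 - P.DV M * h))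
    (show 0 ≤ P.Th M * h by positivity)
  have g4 : kap P M cs (L.m z.2 - L.m z.1) ≤ cs.θ * P.k0 + 1 / (4 * M) :=
    add_le_add (mul_le_mul_of_nonneg_left (hp.k_le _) ok.θ) hδ
  have g5 := mul_le_mul_of_nonneg_right g4 (show 0 ≤ h * (P.Th M * M) by positivity)
  have g6 := mul_le_mul_of_nonneg_right hδ (show 0 ≤ c / 2 * h by positivity)
  linarith

theorem init (hM : 0 < M) (hp : P.Facts M) (hf : L.Facts) {cs : Cst} (ok : cs.Ok)
    {τ x1 D : ℝ} {z : ℝ × ℝ} (hR : 0 ≤ cs.R)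
    (htail : cs.θ * (2 * M * ∫ r in Ioi cs.R, P.k r) ≤ 1 / 4) (hδ : cs.δ * (M * D) = 1 / 4)
    (hz : z.1 ≤ z.2 ∧ cs.β ≤ L.U τ z.1 ∧ cs.ε ≤ L.U τ z.2 ∧ L.U τ z.2 ≤ cs.α ∧ x1 ≤ L.X τ z.1 ∧
      L.X τ z.2 ≤ x1 + D) : z ∈ alive L cs τ x1 (x1 + D) ∧ lam L cs τ (x1 + D) 0 z ≤ 1 / 2 := by
  obtain ⟨z1, z2, z3, z4, z5, z6⟩ := hz
  have g1 := ok.gap
  have g2 := ok.ε
  have g3 := ok.ρ
  refine ⟨⟨z1, by linarith, by linarith, by linarith, z5, by linarith⟩, ?_⟩
  have u1 := psi_top hM hp ok hR (sub_nonneg.2 (hf.m_mono z1))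
  have u4 : cs.δ * (L.m z.2 - L.m z.1) ≤ cs.δ * (M * D) := mul_le_mul_of_nonneg_left
    ((label_le L hf τ z1).trans (mul_le_mul_of_nonneg_left (by linarith) hM.le)) ok.δ
  unfold lam fX fY
  rw [max_eq_right (by linarith), max_eq_right (by linarith), max_eq_right (by linarith),
    max_eq_right (by linarith), zero_div]
  linarith

theorem ar1 {N h K3 s x C π0 ρ0 : ℝ} (hh : 0 < h) (hx : 0 ≤ x) (hC : 0 ≤ C) (hs : 1 ≤ s)
    (hK : 2 ≤ K3) (hπ : 0 < π0) (h1 : N * h ≤ K3 * s + 1) (h2 : (K3 * s + 1) * x * h ≤ π0 / 16)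
    (hρ : ρ0 = 16 * (K3 + 1) * (C + 1) / π0) : N * (x * h ^ 2 + C * h / (ρ0 * s)) ≤ π0 / 8 := by
  have h0 : 0 < ρ0 := by rw [hρ]; positivity
  have u1 := mul_le_mul_of_nonneg_right h1 (show 0 ≤ x * h by positivity)
  have u2 : N * (C * h / (ρ0 * s)) ≤ π0 / 16 := by
    rw [← mul_div_assoc, div_le_iff₀ (by positivity)]
    have u3 : π0 / 16 * (ρ0 * s) = (K3 * s + s) * (C + 1) := by rw [hρ]; field_simp
    have u4 := mul_le_mul h1 (show C ≤ C + 1 by linarith) hC (by positivity)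
    have u5 := mul_le_mul_of_nonneg_right (show K3 * s + 1 ≤ K3 * s + s by linarith)
      (show 0 ≤ C + 1 by positivity)
    linarith
  linarith

theorem ar2 {n1 n2 l : ℕ} {h s K3 T0 : ℝ} (hh : 0 < h) (hs : T0 + 2 ≤ s) (hT : 1 ≤ T0)
    (hK : 2 ≤ K3) (b1 : n1 * h ≤ s + 1) (b2 : K3 * s ≤ n2 * h) (l2 : l * h ≤ T0 + 1) :
    n1 + l ≤ n2 := by
  have hKs : 2 * s ≤ K3 * s := mul_le_mul_of_nonneg_right hK (by linarith)
  have : ((n1 + l : ℕ) : ℝ) * h ≤ n2 * h := by push_cast; linarith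
  exact_mod_cast le_of_mul_le_mul_right this hh

theorem ar3 {K V K3 ρ0 R3 s x x1 a : ℝ} (hK : 0 ≤ K) (hV : 0 ≤ V) (hρ : 0 ≤ ρ0) (hs : 1 ≤ s)
    (ha : a ≤ K3 * s + 1) (h1 : x1 - V * a ≤ x) (h2 : x ≤ x1 + K * s + V * a + ρ0 * s) :
    x1 - (K + V * (K3 + 1) + ρ0 + |R3|) * s ≤ x - R3 ∧
      x + R3 ≤ x1 + (K + V * (K3 + 1) + ρ0 + |R3|) * s := by
  have a1 : V * a ≤ V * ((K3 + 1) * s) := mul_le_mul_of_nonneg_left (by linarith) hV
  have a2 : |R3| ≤ |R3| * s := le_mul_of_one_le_right (abs_nonneg _) hs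
  have a3 : 0 ≤ K * s := by positivity
  have a4 : 0 ≤ ρ0 * s := by positivity
  have a5 := le_abs_self R3
  constructor <;> linarith

end Core

end

end MP34a893

end MrgPart3

-- marker of a merged file
example : 731051 + 771080 = 731051 + 771080 := rfl

end MrgPart0

-- ======== part 1: formerly Pool.Agent.MP_34a893_an.Prog
section MrgPart1

open MeasureTheory Set Filter Topology
open scoped ENNReal

namespace MP34a893

namespace Prog

variable {P : Par} {M : ℝ} {L : Lag P M}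

/-- the test function -/
noncomputable def ψ (L : Lag P M) (m1 y y' : ℝ) : ℝ≥0∞ :=
  ENNReal.ofReal (Real.exp (-(L.m y' - L.m y) / m1))

lemma ψ_meas (hL : L.Facts) (m1 y : ℝ) : Measurable (ψ L m1 y) :=
  ENNReal.measurable_ofReal.comp (Real.continuous_exp.comp
    ((hL.m_cont.sub continuous_const).neg.div_const m1)).measurable

lemma ψ_anti (hL : L.Facts) {m1 : ℝ} (hm : 0 < m1) (y : ℝ) : Antitone (ψ L m1 y) :=
  fun _ _ h => ENNReal.ofReal_le_ofReal (Real.exp_le_exp.2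
    (div_le_div_of_nonneg_right (by linarith [hL.m_mono h]) hm.le))

lemma ψ_le (hL : L.Facts) {m1 : ℝ} (hm : 0 < m1) {y y' : ℝ} (h : y ≤ y') : ψ L m1 y y' ≤ 1 :=
  (ψ_anti hL hm y h).trans_eq (by simp [ψ])

lemma ψ_half {m1 : ℝ} (hm : 0 < m1) {y a c : ℝ} (h : L.m a + m1 ≤ L.m c) :
    ψ L m1 y c ≤ ENNReal.ofReal (1 / 2) * ψ L m1 y a := by
  rw [ψ, ψ, ← ENNReal.ofReal_mul (by norm_num)]
  refine ENNReal.ofReal_le_ofReal ?_
  have h1 : -(L.m c - L.m y) / m1 + 1 ≤ -(L.m a - L.m y) / m1 := by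
    rw [div_add_one hm.ne']
    exact div_le_div_of_nonneg_right (by linarith) hm.le
  have h2 := Real.exp_le_exp.2 h1
  rw [Real.exp_add] at h2
  have h3 := Real.add_one_le_exp (1 : ℝ)
  nlinarith [Real.exp_pos (-(L.m c - L.m y) / m1)]

lemma inner (hP : P.Facts M) (hL : L.Facts) {m1 : ℝ} (hm : 0 < m1) (y y' τ : ℝ)
    (h : m1 ≤ L.Q τ (L.X τ y' + P.s1) - L.Q τ (L.X τ y')) :
    ∫⁻ s in Ioi (0 : ℝ), ENNReal.ofReal (P.g s) * ψ L m1 y (L.jmp τ y' s) ≤
      ENNReal.ofReal (P.k0 - P.k P.s1 / 2) * ψ L m1 y y' := by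
  have hi : IntegrableOn (fun s => (Ioi P.s1).indicator P.g s / 2) (Ioi 0) :=
    ((P.hgi.indicator measurableSet_Ioi).div_const 2).integrableOn
  have h0 : ∀ s, 0 ≤ P.g s - (Ioi P.s1).indicator P.g s / 2 := fun s => by
    have := P.hg0 s
    by_cases c : s ∈ Ioi P.s1
    · rw [indicator_of_mem c]; linarith
    · rw [indicator_of_notMem c]; linarith
  have h1 : P.k0 - P.k P.s1 / 2 =
      ∫ s in Ioi (0 : ℝ), (P.g s - (Ioi P.s1).indicator P.g s / 2) := by
    rw [integral_sub P.hgi.integrableOn hi, hP.g_int, integral_div,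
      setIntegral_indicator measurableSet_Ioi, Ioi_inter_Ioi, max_eq_right P.hs1.le]
    rfl
  have hj : IntegrableOn (fun s => P.g s - (Ioi P.s1).indicator P.g s / 2) (Ioi 0) :=
    P.hgi.integrableOn.sub hi
  rw [h1, ofReal_integral_eq_lintegral_ofReal hj (ae_of_all _ h0),
    ← lintegral_mul_const' (ψ L m1 y y') _ ENNReal.ofReal_ne_top]
  refine setLIntegral_mono' measurableSet_Ioi fun s hs => ?_
  have hs' : (0 : ℝ) < s := hs
  by_cases c : s ∈ Ioi P.s1
  · have c' : P.s1 < s := c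
    rw [indicator_of_mem c, show P.g s - P.g s / 2 = P.g s * (1 / 2) by ring,
      ENNReal.ofReal_mul (P.hg0 s), mul_assoc]
    refine mul_le_mul_right (ψ_half hm ?_) _
    have h2 : L.m (L.Y τ (L.X τ y' + P.s1)) ≤ L.m (L.jmp τ y' s) :=
      hL.m_mono ((hL.Y_mono τ).monotone (by linarith))
    rw [hL.Q_X, Lag.Q] at h
    linarith
  · rw [indicator_of_notMem c, zero_div, sub_zero]
    refine mul_le_mul_right (ψ_anti hL hm y ?_) _
    conv_lhs => rw [← L.YX τ y']
    exact (hL.Y_mono τ).monotone (by linarith)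

lemma good (hP : P.Facts M) (hL : L.Facts) (hS : L.Step) {m1 r t h : ℝ} (hm : 0 < m1)
    (hh : P.Small M h) (y y' : ℝ) (H : ∀ τ ∈ Icc (t - h) t, r ≤ L.rate τ y' ∧
      m1 ≤ L.Q τ (L.X τ y' + P.s1) - L.Q τ (L.X τ y')) :
    ∫⁻ ξ, ψ L m1 y (L.step t h y' ξ) ∂P.noise ≤
      ENNReal.ofReal (1 - P.k P.s1 / 2 * r * h) * ψ L m1 y y' := by
  have hle : t - h ≤ t := by linarith [hh.1]
  have hme : Measurable fun τ => L.rate τ y' := hL.rate_meas.comp (measurable_id.prodMk measurable_const)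
  have hi : IntegrableOn (fun τ => L.rate τ y') (Ioc (t - h) t) :=
    Measure.integrableOn_of_bounded (M := P.Th M) measure_Ioc_lt_top.ne hme.aestronglyMeasurable
      (ae_of_all _ fun τ => by
        rw [Real.norm_of_nonneg (hL.rate_mem τ y').1]; exact (hL.rate_mem τ y').2)
  have hi' := (intervalIntegrable_iff_integrableOn_Ioc_of_le hle).2 hi
  have h1 : r * h ≤ ∫ τ in (t - h)..t, L.rate τ y' := by
    have := intervalIntegral.integral_mono_on hle (intervalIntegrable_const (c := r)) hi'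
      fun τ hτ => (H τ hτ).1
    rw [intervalIntegral.integral_const, smul_eq_mul] at this
    linarith
  have h2 : ∫ τ in (t - h)..t, L.rate τ y' ≤ P.Th M * h := by
    have := intervalIntegral.integral_mono_on hle hi' (intervalIntegrable_const (c := P.Th M))
      fun τ _ => (hL.rate_mem τ y').2
    rw [intervalIntegral.integral_const, smul_eq_mul] at this
    linarith
  have h3 : 0 ≤ ∫ τ in (t - h)..t, L.rate τ y' :=
    intervalIntegral.integral_nonneg hle fun τ _ => (hL.rate_mem τ y').1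
  have h4 : ∫⁻ τ in Ioc (t - h) t, ENNReal.ofReal (L.rate τ y') *
      ∫⁻ s in Ioi (0 : ℝ), ENNReal.ofReal (P.g s) * ψ L m1 y (L.jmp τ y' s) ≤
      ENNReal.ofReal (∫ τ in (t - h)..t, L.rate τ y') *
        (ENNReal.ofReal (P.k0 - P.k P.s1 / 2) * ψ L m1 y y') := by
    rw [intervalIntegral.integral_of_le hle, ofReal_integral_eq_lintegral_ofReal hi
      (ae_of_all _ fun τ => (hL.rate_mem τ y').1), ← lintegral_mul_const _ hme.ennreal_ofReal]
    exact setLIntegral_mono' measurableSet_Ioc fun τ hτ =>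
      mul_le_mul_right (inner hP hL hm y y' τ (H τ (Ioc_subset_Icc_self hτ)).2) _
  rw [hS.lint t h hh y' _ (ψ_meas hL m1 y)]
  refine (add_le_add_right h4 _).trans ?_
  have k1 := hP.k_nonneg P.s1
  have k2 := hP.k_le P.s1
  have k3 := mul_le_mul_of_nonneg_left h2 hP.k0_pos.le
  have k4 := hh.2.2.1
  rw [← mul_assoc, ← add_mul, ← ENNReal.ofReal_mul h3,
    ← ENNReal.ofReal_add (by nlinarith) (mul_nonneg h3 (by linarith))]
  exact mul_le_mul_left (ENNReal.ofReal_le_ofReal (by nlinarith)) _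

lemma any (hP : P.Facts M) (hL : L.Facts) (hS : L.Step) {m1 : ℝ} (hm : 0 < m1) (t h y y' : ℝ) :
    ∫⁻ ξ, ψ L m1 y (L.step t h y' ξ) ∂P.noise ≤ ψ L m1 y y' := by
  have := hP.noise_prob
  simpa using lintegral_mono (μ := P.noise) fun ξ => ψ_anti hL hm y (hS.le_step t h y' ξ)

end Prog

open Prog in
theorem progS : Basic → NVZS → ProgS := by
  intro hB hN P M hM hst ε1 R D e hε hR hD he
  have hP := hB.1 P M hM
  obtain ⟨RZ, νZ, hRZ, hνZ, hZ⟩ := hN P M hM ε1 hε
  obtain ⟨b0, hb0, hb⟩ := hP.b_low hst (ε1 / 2) (by linarith)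
  obtain ⟨hS, hS0, hS1⟩ := hP.small
  obtain ⟨m1, hm1⟩ : ∃ m1, m1 = ε1 ^ (1 / P.p) * P.s1 / 2 := ⟨_, rfl⟩
  have hm : 0 < m1 := by have := P.hs1; rw [hm1]; positivity
  have hk : 0 < P.k P.s1 := by
    have h1 := hP.k_anti (show P.s1 ≤ P.s1 + 2 * P.d by linarith [hP.d_pos])
    have h2 := hP.k_mid
    have h3 := mul_pos P.hm0 hP.d_pos
    linarith
  have hp := P.hp0
  obtain ⟨κ, hκ⟩ : ∃ κ, κ = P.k P.s1 / 2 * (P.p * b0 * (ε1 / 3)) := ⟨_, rfl⟩
  have hκ0 : 0 < κ := by rw [hκ]; positivity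
  obtain ⟨A, hA⟩ : ∃ A, A = Real.exp (D / m1) := ⟨_, rfl⟩
  have hA0 : 0 < A := hA ▸ Real.exp_pos _
  obtain ⟨T0, hT⟩ : ∃ T0, T0 = 1 + 3 * R * A / (e * κ) := ⟨_, rfl⟩
  have hT1 : 1 ≤ T0 := by rw [hT]; exact le_add_of_nonneg_right (by positivity)
  have hbm := hP.bm_nonneg
  have hNp := hP.N_pos
  have hk0 := hP.k0_pos
  have hV : 0 ≤ P.Vm M := by unfold Par.Vm Par.DV; positivity
  have hC0 : 0 ≤ P.C0 M := by unfold Par.C0; positivity
  have hC2 : 0 ≤ P.C2 M := by unfold Par.C2 Par.Th; positivity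
  have hC3 : 0 ≤ P.C3 M := by unfold Par.C3 Par.Th Par.DV; positivity
  obtain ⟨ρ, hρ⟩ : ∃ ρ, ρ = 3 * A * R * P.C3 M * (T0 + 1) / e + 1 := ⟨_, rfl⟩
  have hρ0 : 0 < ρ := by rw [hρ]; positivity
  obtain ⟨E, hE⟩ : ∃ E, E = Real.exp (P.C2 M * (T0 + 1)) := ⟨_, rfl⟩
  have hE0 : 0 < E := hE ▸ Real.exp_pos _
  refine ⟨T0, hT1, R + ρ + P.Vm M * (T0 + 1) + RZ, min νZ (e / (3 * A * E)), min hS (1 / κ),
    by positivity, by positivity, fun L t h y n h0 h1 h2 h3 h4 h5 hNV => ?_⟩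
  have hL := hB.2.1 P M L hM
  have hSt := hB.2.2.1 P M L hM
  have hW := hB.2.2.2 P M L hM
  have hh := hS1 h h0 (h1.trans (min_le_left _ _))
  have hκh : κ * h ≤ 1 := by
    have := h1.trans (min_le_right _ _)
    rwa [le_div_iff₀ hκ0, mul_comm] at this
  have hY : ∀ τ, Measurable (L.Y τ) := fun τ => (hL.Y_mono τ).monotone.measurable
  have hX : ∀ τ, Measurable (L.X τ) := fun τ => (hL.X_mono τ).monotone.measurable
  set μ0 := (volume.restrict (Icc (L.X t y) (L.X t y + R))).map (L.Y t) with hμ0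
  have m0 : μ0 univ = ENNReal.ofReal R := by
    rw [hμ0, Measure.map_apply (hY t) MeasurableSet.univ]
    simp
  have g0 : ∀ᵐ y' ∂μ0, y ≤ y' := by
    rw [hμ0, ae_map_iff (hY t).aemeasurable measurableSet_Ici]
    filter_upwards [ae_restrict_mem measurableSet_Icc] with x hx
    conv_lhs => rw [← L.YX t y]
    exact (hL.Y_mono t).monotone hx.1
  have g1 : ∀ᵐ y' ∂μ0, L.X t y' ≤ L.X t y + R := by
    rw [hμ0, ae_map_iff (hY t).aemeasurable (measurableSet_le (hX t) measurable_const)]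
    filter_upwards [ae_restrict_mem measurableSet_Icc] with x hx
    rw [L.XY]
    exact hx.2
  have key : ∀ i : ℕ, i ≤ n → ∫⁻ y', ψ L m1 y y' ∂(L.law t h μ0 i) ≤
      ENNReal.ofReal ((1 - κ * h) ^ i * R + 2 * e / (3 * A)) := by
    intro i hi
    induction i with
    | zero =>
      refine (lintegral_mono_ae (g := fun _ => 1) ?_).trans ?_
      · exact g0.mono fun y' hy' => ψ_le hL hm hy'
      · rw [lintegral_one, hW.mass, m0]
        exact ENNReal.ofReal_le_ofReal (by rw [pow_zero, one_mul]; exact le_add_of_nonneg_right (by positivity))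
    | succ i ih =>
      have i1 : ((i : ℝ) + 1) * h ≤ n * h :=
        mul_le_mul_of_nonneg_right (by exact_mod_cast hi) h0.le
      have i2 : 0 ≤ (i : ℝ) * h := by positivity
      have i3 : (i : ℝ) * h ≤ t := by linarith
      let B1 : Set ℝ := {y' | L.X (t - i * h) y' ∈ Icc (L.X t y - (R + ρ + P.Vm M * (T0 + 1) + RZ))
        (L.X t y + (R + ρ + P.Vm M * (T0 + 1) + RZ)) ∧ L.U (t - i * h) y' < ε1}
      let B2 : Set ℝ := {y' | L.X t y + R + ρ < L.X (t - i * h) y'}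
      have hB1 : MeasurableSet B1 := ((hX _) measurableSet_Icc).inter
        (measurableSet_lt (hL.U_meas.comp (measurable_const.prodMk measurable_id)) measurable_const)
      have b1 : L.law t h μ0 i B1 ≤ ENNReal.ofReal (e / (3 * A)) := by
        have d1 := hW.dens t h i hh i3 h5 (Icc (L.X t y) (L.X t y + R)) 1 (B1.indicator 1)
          (measurable_one.indicator hB1)
        rw [one_smul, one_mul, lintegral_indicator_one hB1] at d1
        have d2 : ∫⁻ x, B1.indicator (1 : ℝ → ℝ≥0∞) (L.Y (t - i * h) x) =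
            volume (L.Y (t - i * h) ⁻¹' B1) := by
          rw [← lintegral_indicator_one (hY _ hB1)]
          rfl
        have d3 := hNV (t - i * h) ⟨by linarith, by linarith⟩
        have d4 : L.Y (t - i * h) ⁻¹' B1 = {x | x ∈ Icc
            (L.X t y - (R + ρ + P.Vm M * (T0 + 1) + RZ))
            (L.X t y + (R + ρ + P.Vm M * (T0 + 1) + RZ)) ∧ L.u (t - i * h) x < ε1} := by
          ext x
          simp only [B1, mem_preimage, mem_ofPred_eq, Lag.U, L.XY]
        rw [d2, d4] at d1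
        refine d1.trans ((mul_le_mul_right d3 _).trans ?_)
        rw [← ENNReal.ofReal_mul (Real.exp_pos _).le]
        refine ENNReal.ofReal_le_ofReal ?_
        calc _ ≤ E * (e / (3 * A * E)) := mul_le_mul (hE ▸ Real.exp_le_exp.2
              (mul_le_mul_of_nonneg_left (by linarith) hC2)) (min_le_right _ _) (by positivity) hE0.le
          _ = _ := by field_simp
      have b2 : L.law t h μ0 i B2 ≤ ENNReal.ofReal (e / (3 * A)) := by
        refine (hW.right t h i μ0 _ ρ hh i3 h5 hρ0 g1).trans ?_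
        rw [m0, ← ENNReal.ofReal_mul hR.le]
        refine ENNReal.ofReal_le_ofReal ?_
        rw [← mul_div_assoc, div_le_div_iff₀ hρ0 (by positivity), hρ, mul_add,
          mul_div_cancel₀ _ he.ne']
        have := mul_le_mul_of_nonneg_left (show (i : ℝ) * h ≤ T0 + 1 by linarith)
          (show 0 ≤ 3 * A * R * P.C3 M by positivity)
        nlinarith
      have st : ∀ y', y ≤ y' → ∫⁻ ξ, ψ L m1 y (L.step (t - i * h) h y' ξ) ∂P.noise ≤
          ENNReal.ofReal (1 - κ * h) * ψ L m1 y y' +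
            (B1 ∪ B2).indicator (fun _ => ENNReal.ofReal (κ * h)) y' := by
        intro y' hy'
        by_cases c : y' ∈ B1 ∪ B2
        · rw [indicator_of_mem c]
          refine (any hP hL hSt hm _ _ _ _).trans ?_
          calc _ = (ENNReal.ofReal (1 - κ * h) + ENNReal.ofReal (κ * h)) * ψ L m1 y y' := by
                rw [← ENNReal.ofReal_add (by linarith) (by positivity)]; simp
            _ ≤ _ := by
                rw [add_mul]
                exact add_le_add_right (mul_le_of_le_one_right' (ψ_le hL hm hy')) _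
        · rw [indicator_of_notMem c, add_zero, hκ]
          rw [mem_union, not_or] at c
          have c2 : L.X (t - i * h) y' ≤ L.X t y + R + ρ := not_lt.1 c.2
          have lo : ∀ τ ∈ Icc (t - i * h - h) (t - i * h),
              L.X t y - P.Vm M * (T0 + 1) ≤ L.X τ y' := fun τ hτ => by
            have e1 := hL.X_lip y t ⟨by linarith, h5⟩ τ ⟨by linarith [hτ.1], by linarith [hτ.2]⟩
            have e2 : |t - τ| ≤ T0 + 1 := abs_le.2 ⟨by linarith [hτ.2], by linarith [hτ.1]⟩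
            have e3 := mul_le_mul_of_nonneg_left e2 hV
            have e4 := (hL.X_mono τ).monotone hy'
            linarith [(abs_le.1 e1).2]
          have hVT : 0 ≤ P.Vm M * (T0 + 1) := by positivity
          have c1 : ε1 ≤ L.U (t - i * h) y' := not_lt.1 fun c1 => c.1
            ⟨⟨by linarith [lo _ ⟨by linarith, le_rfl⟩], by linarith⟩, c1⟩
          refine good hP hL hSt hm hh y y' fun τ hτ => ?_
          have t1 : t - i * h ∈ Icc 0 L.T := ⟨by linarith, by linarith⟩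
          have t2 : τ ∈ Icc 0 L.T := ⟨by linarith [hτ.1], by linarith [hτ.2]⟩
          have e2 : |t - i * h - τ| ≤ h := abs_le.2 ⟨by linarith [hτ.2], by linarith [hτ.1]⟩
          have e3 := hL.X_lip y' _ t1 τ t2
          have e4 := mul_le_mul_of_nonneg_left (e2.trans (show h ≤ T0 + 1 by linarith [hh.2.1])) hV
          have e5 := lo τ hτ
          have e6 := hZ L τ (L.X τ y') (by
            refine le_trans (measure_mono fun x hx => ?_)
              ((hNV τ ⟨by linarith [hτ.1], by linarith [hτ.2]⟩).trans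
                (ENNReal.ofReal_le_ofReal (min_le_left _ _)))
            exact ⟨⟨by linarith [hx.1.1], by linarith [hx.1.2, (abs_le.1 e3).1]⟩, hx.2⟩)
          refine ⟨?_, hm1 ▸ e6.2⟩
          have e7 := hL.U_ratio y' _ t1 τ t2
          have e8 : Real.exp (P.C0 M * |t - i * h - τ|) ≤ 3 :=
            (Real.exp_le_exp.2 (by
              linarith [mul_le_mul_of_nonneg_left e2 hC0, hh.2.2.2])).trans Real.exp_one_lt_three.le
          have e9 : 0 ≤ L.U τ y' := hL.u_nonneg _ _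
          have e10 := hb _ ⟨e6.1, (hL.Z_mem τ (L.X τ y')).2⟩
          exact mul_le_mul (mul_le_mul_of_nonneg_left e10 hp.le) (by nlinarith) (by positivity)
            (mul_nonneg hp.le (P.hb0 _))
      rw [hW.succ t h μ0 i _ (ψ_meas hL m1 y)]
      refine (lintegral_mono_ae ((hW.ge t h μ0 y g0 i).mono st)).trans ?_
      rw [lintegral_add_left ((ψ_meas hL m1 y).const_mul _), lintegral_const_mul _ (ψ_meas hL m1 y)]
      refine (add_le_add (mul_le_mul_right (ih (by omega)) _) ((lintegral_indicator_const_le _ _).trans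
        (mul_le_mul_right ((measure_union_le _ _).trans (add_le_add b1 b2)) _))).trans ?_
      have p1 : 0 ≤ 1 - κ * h := by linarith
      rw [← ENNReal.ofReal_add (by positivity) (by positivity), ← ENNReal.ofReal_mul p1,
        ← ENNReal.ofReal_mul (by positivity), ← ENNReal.ofReal_add (by positivity) (by positivity)]
      exact ENNReal.ofReal_le_ofReal (le_of_eq (by ring))
  have f1 := mul_meas_ge_le_lintegral₀ (μ := L.law t h μ0 n) (ψ_meas hL m1 y).aemeasurable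
    (ENNReal.ofReal A⁻¹)
  have f2 : L.law t h μ0 n {y' | L.m y' - L.m y < D} ≤
      L.law t h μ0 n {y' | ENNReal.ofReal A⁻¹ ≤ ψ L m1 y y'} := measure_mono fun y' hy' => by
    refine ENNReal.ofReal_le_ofReal ?_
    rw [hA, ← Real.exp_neg, ← neg_div]
    exact Real.exp_le_exp.2 (div_le_div_of_nonneg_right (neg_le_neg (le_of_lt hy')) hm.le)
  have f3 : (1 - κ * h) ^ n * R ≤ e / (3 * A) := by
    have e1 : (1 - κ * h) ^ n ≤ Real.exp (-(κ * T0)) := by
      refine (pow_le_pow_left₀ (by linarith) (Real.one_sub_le_exp_neg _) n).trans ?_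
      rw [← Real.exp_nat_mul]
      exact Real.exp_le_exp.2 (by nlinarith)
    have e2 : 3 * R * A / e ≤ Real.exp (κ * T0) := by
      refine le_trans ?_ (Real.add_one_le_exp _)
      rw [hT, mul_add, show κ * (3 * R * A / (e * κ)) = 3 * R * A / e by field_simp]
      linarith
    rw [Real.exp_neg] at e1
    have e3 := e1.trans (inv_anti₀ (by positivity) e2)
    calc _ ≤ (3 * R * A / e)⁻¹ * R := mul_le_mul_of_nonneg_right e3 hR.le
      _ = _ := by field_simp
  calc _ = ENNReal.ofReal A * (ENNReal.ofReal A⁻¹ * L.law t h μ0 n {y' | L.m y' - L.m y < D}) := by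
        rw [← mul_assoc, ← ENNReal.ofReal_mul hA0.le, mul_inv_cancel₀ hA0.ne']; simp
    _ ≤ ENNReal.ofReal A * ENNReal.ofReal ((1 - κ * h) ^ n * R + 2 * e / (3 * A)) :=
        mul_le_mul_right ((mul_le_mul_right f2 _).trans (f1.trans (key n le_rfl))) _
    _ ≤ _ := by
        rw [← ENNReal.ofReal_mul hA0.le]
        refine ENNReal.ofReal_le_ofReal ?_
        calc _ ≤ A * (e / (3 * A) + 2 * e / (3 * A)) :=
              mul_le_mul_of_nonneg_left (add_le_add_left f3 _) hA0.le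
          _ = e := by field_simp; ring

end MP34a893

end MrgPart1

-- ======== part 2: formerly Pool.Agent.MP_34a893_an.B.PortOsc
section MrgPart2

open MeasureTheory Set Filter Topology
open scoped ENNReal

namespace MP34a893.B

open Few in
theorem denseS : Basic → FewS → DenseS := by
  classical
  intro hB hF P M hM hst hnb e ε1 he hε
  have hN := (hB.1 P M hM).N_pos
  obtain ⟨m, hm⟩ := exists_nat_gt (P.N M / (e / 3))
  have hm0 : (0 : ℝ) < m := lt_trans (by positivity) hm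
  rw [div_lt_iff₀ (by positivity)] at hm
  obtain ⟨nb, K5, ν0, l0, h1, h2, h3, h4, hF⟩ := hF P M hM hst hnb (e / 3) (e / (6 * P.N M))
    (e / (3 * P.N M * m)) ε1 (by positivity) (by positivity) (by positivity) hε
  refine ⟨nb, K5, ν0, l0, h1, h2, h3, h4, fun L t l x ν hl ht hT hν hνe hNV => ?_⟩
  have hl0 : 0 < l := h4.trans_le hl
  have hL := hB.2.1 P M L hM
  let bad : ℕ → ℕ → Prop := fun q i =>
    L.BadBlock t (q * (e / 3)) ((q + 1) * (e / 3)) (e / (6 * P.N M)) (x + i * l) l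
  have key : ∀ i : ℕ, ∃ c ∈ Icc 0 (P.N M), ∫ x' in (x + i * l)..(x + (i + 1) * l), |L.u t x' - c| ≤
      2 * e / 3 * l + ∑ q ∈ Finset.range m, if bad q i then P.N M * l else 0 := fun i => by
    have h5 : ∀ q ∈ Finset.range m, 0 ≤ if bad q i then P.N M * l else 0 := fun q _ => by
      split_ifs <;> positivity
    rw [add_mul, one_mul, ← add_assoc]
    by_cases hb : ∃ q < m, bad q i
    · obtain ⟨q, hq, hb⟩ := hb
      refine ⟨0, ⟨le_rfl, hN.le⟩, ?_⟩
      have h6 := Finset.single_le_sum h5 (Finset.mem_range.2 hq)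
      have h7 : ∀ y, |L.u t y - 0| ≤ P.N M := fun y => by
        rw [sub_zero, abs_of_nonneg (hL.u_nonneg t y)]; exact L.u_le t y
      have h8 := int_le (a := x + i * l) ((L.u_meas.of_uncurry_left (x := t)).sub_const 0) hl0.le
        hN.le hN.le le_rfl MeasurableSet.empty (by simp) h7 fun y _ _ => h7 y
      rw [if_pos hb] at h6
      have : 0 ≤ 2 * e / 3 * l := by positivity
      linarith
    · push Not at hb
      obtain ⟨c, hc, h6⟩ := good_block hL (by positivity) (by positivity) hl0 hm.le hb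
      refine ⟨c, hc, h6.trans ((le_of_eq ?_).trans (le_add_of_nonneg_right
        (Finset.sum_nonneg h5)))⟩
      field_simp; ring
  choose c hc h5 using key
  refine ⟨c, hc, (Finset.sum_le_sum fun i _ => h5 i).trans ?_⟩
  rw [Finset.sum_add_distrib, Finset.sum_comm, Finset.sum_const, Finset.card_range, nsmul_eq_mul]
  have h6 : ∀ q ∈ Finset.range m, (∑ i ∈ Finset.range nb, if bad q i then P.N M * l else 0) ≤
      e / (3 * P.N M * m) * nb * (P.N M * l) := fun q _ => by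
    rw [← Finset.sum_filter, Finset.sum_const, nsmul_eq_mul]
    exact mul_le_mul_of_nonneg_right
      (hF L t l x _ _ ν hl ht hT (le_of_eq (by ring)) hν hνe hNV) (by positivity)
  have h7 := Finset.sum_le_card_nsmul _ _ _ h6
  rw [Finset.card_range, nsmul_eq_mul] at h7
  refine (add_le_add le_rfl h7).trans (le_of_eq ?_)
  field_simp; ring

open Osc in
theorem oscS : Basic → DefS → VacS → DenseS → OscS := by
  intro hB hDef hVac hDen P M hM hSt hNB e he
  classical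
  have hP := hB.1 P M hM
  set A := (e / 2) ^ (1 - 1 / P.p) with hA
  have hA0 : 0 < A := Real.rpow_pos_of_pos (by positivity) _
  obtain ⟨θ, hθ, hθA⟩ : ∃ θ : ℝ, 0 < θ ∧ A * θ = e / 8 := ⟨e / 8 / A, by positivity, by field_simp⟩
  obtain ⟨κ0, hκ0, hD⟩ := hDef P M hM hSt θ hθ
  obtain ⟨nh, hnh⟩ := exists_nat_gt (4 / κ0)
  have nh0 : (0 : ℝ) < nh := lt_trans (by positivity) hnh
  obtain ⟨ε1, c, S1, hε, hc, hV⟩ := hVac P M hM hSt (4 / nh) (by positivity)
  obtain ⟨nb, K5, ν0, l0, nb0, hK5, hν0, hl0, hE⟩ := hDen P M hM hSt hNB (e / 2) ε1 (by positivity) hε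
  have hVm : 0 ≤ P.Vm M := add_nonneg (abs_nonneg _) (mul_nonneg hP.bm_nonneg hP.N_pos.le)
  obtain ⟨ns, hns⟩ := exists_nat_gt
    (max (max (4 * M * A / e) (2 * M * (P.Vm M + 1) * K5 / θ)) (max (2 * K5) (8 * K5 / c)))
  simp only [max_lt_iff] at hns
  obtain ⟨⟨n1, n2⟩, n3, n4⟩ := hns
  have ns0 : (0 : ℝ) < ns := lt_trans (by positivity) n3
  have nh1 : (1 : ℝ) ≤ nh := by exact_mod_cast (Nat.cast_pos.1 nh0 : 0 < nh)
  have nb1 : (1 : ℝ) ≤ nb := by exact_mod_cast nb0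
  have lim : Tendsto (fun S : ℝ => (c / 8 * S) ^ 1 * Real.exp (-(c / 8 * S))) atTop (𝓝 0) :=
    (Real.tendsto_pow_mul_exp_neg_atTop_nhds_zero 1).comp
      (tendsto_id.const_mul_atTop (by positivity))
  obtain ⟨S0, hS0⟩ := eventually_atTop.1
    ((lim.eventually (ge_mem_nhds (by positivity : 0 < ν0 * c / 10))).and
      ((eventually_ge_atTop (4 * S1)).and ((eventually_ge_atTop (nh : ℝ)).and
        (eventually_ge_atTop (nh * ns * nb * l0)))))
  refine ⟨nh * ns * nb, S0, Nat.mul_pos (Nat.mul_pos (Nat.cast_pos.1 nh0) (Nat.cast_pos.1 ns0)) nb0,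
    fun L S t x0 hS hSt' hT => ?_⟩
  obtain ⟨s1, s2, s3, s4⟩ := hS0 S hS
  have hL := hB.2.1 P M L hM
  obtain ⟨l, hl⟩ : ∃ l, l = S / ((nh * ns * nb : ℕ) : ℝ) := ⟨_, rfl⟩
  have hSl : S = nh * (ns * (nb * l)) := by rw [hl]; push_cast; field_simp
  have ll0 : l0 ≤ l := by
    rw [hl, le_div_iff₀ (by push_cast; positivity)]; push_cast; linarith
  have lp : 0 < l := hl0.trans_le ll0
  obtain ⟨H, hH⟩ : ∃ H, H = ns * (nb * l) := ⟨_, rfl⟩
  have b1 : l ≤ nb * l := le_mul_of_one_le_left lp.le nb1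
  have b2 : ns * l ≤ H := hH ▸ mul_le_mul_of_nonneg_left b1 ns0.le
  have Hp : 0 < H := lt_of_lt_of_le (by positivity) b2
  have b3 : H ≤ S := by rw [hSl, ← hH]; exact le_mul_of_one_le_left Hp.le nh1
  have hκ : 4 / nh * (S / 4) = H := by rw [hSl, hH]; field_simp
  have k1 : 2 * (K5 * l) ≤ S := by nlinarith [mul_le_mul_of_nonneg_right n3.le lp.le]
  have k2 : K5 * l ≤ c / 8 * S := by
    rw [div_lt_iff₀ hc] at n4
    nlinarith [mul_le_mul_of_nonneg_right n4.le lp.le, mul_le_mul_of_nonneg_left (b2.trans b3) hc.le]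
  have k3 : 2 * (M * (K5 * l) + M * P.Vm M * (K5 * l)) < θ * H := by
    rw [div_lt_iff₀ hθ] at n2
    nlinarith [mul_lt_mul_of_pos_right n2 lp, mul_le_mul_of_nonneg_left b2 hθ.le]
  have k0 : 0 < K5 * l := by positivity
  have blk : ∀ x : ℝ, ∃ C : ℕ → ℝ, (∀ i, C i ∈ Icc 0 (P.N M)) ∧
      ∑ i ∈ Finset.range nb, ∫ x' in (x + i * l)..(x + (i + 1) * l), |L.u t x' - C i| ≤
        e / 2 * (nb * l) + A * if L.Q t x - L.Q t (x - H) < 2 * θ * H then
          L.Q t (x + nb * l) - L.Q t x else 0 := by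
    intro x
    split_ifs with hx
    · exact ⟨fun _ => 0, fun _ => ⟨le_rfl, hP.N_pos.le⟩,
        sparse_block hP L hL t x l _ nb lp.le (by positivity)⟩
    rw [mul_zero, add_zero]
    refine hE L t l x (Real.exp (-c * (S / 4)) * (x + K5 * l - (x - K5 * l) + S / 4)) ll0
      (by linarith) hT (mul_nonneg (Real.exp_pos _).le (by linarith)) ?_ fun τ hτ => ?_
    · have e1 : Real.exp (-c * (S / 4)) * Real.exp (K5 * l) ≤ Real.exp (-(c / 8 * S)) := by
        rw [← Real.exp_add]; exact Real.exp_le_exp.2 (by linarith)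
      have e2 : x + K5 * l - (x - K5 * l) + S / 4 ≤ 10 / c * (c / 8 * S) := by
        rw [show 10 / c * (c / 8 * S) = 5 / 4 * S by field_simp; ring]; linarith
      calc _ = (x + K5 * l - (x - K5 * l) + S / 4) *
            (Real.exp (-c * (S / 4)) * Real.exp (K5 * l)) := by ring
        _ ≤ 10 / c * (c / 8 * S) * Real.exp (-(c / 8 * S)) :=
            mul_le_mul e2 e1 (by positivity) (le_trans (by linarith) e2)
        _ ≤ 10 / c * (ν0 * c / 10) := by
            rw [mul_assoc]; rw [pow_one] at s1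
            exact mul_le_mul_of_nonneg_left s1 (by positivity)
        _ = ν0 := by field_simp
    · refine hV L (S / 4) τ _ _ (by linarith) (by linarith [hτ.1]) (hτ.2.trans hT) (by linarith)
        fun x' hx' => ?_
      by_contra hlt
      have d := hD (4 / nh) (S / 4) (by positivity)
        (by rw [div_lt_iff₀ hκ0] at hnh; rw [div_le_iff₀ nh0]; linarith)
        (by rw [hκ]; rw [hSl, ← hH] at s3; nlinarith) L τ (L.Y τ x') (by linarith [hτ.1])
        (hτ.2.trans hT) (not_le.1 hlt).le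
      rw [L.XY, hκ] at d
      have tI : t ∈ Icc 0 L.T := ⟨by linarith, hT⟩
      have τI : τ ∈ Icc 0 L.T := ⟨by linarith [hτ.1], hτ.2.trans hT⟩
      have a1 : |t - τ| ≤ K5 * l := abs_le.2 ⟨by linarith [hτ.2], by linarith [hτ.1]⟩
      have a2 : |x - x'| ≤ K5 * l := abs_le.2 ⟨by linarith [hx'.2], by linarith [hx'.1]⟩
      have q : ∀ r, |L.Q t (x - r) - L.Q τ (x' - r)| ≤ M * (K5 * l) + M * P.Vm M * (K5 * l) := by
        intro r
        refine (abs_sub_le _ (L.Q t (x' - r)) _).trans (add_le_add ?_ ?_)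
        · refine (Q_lip L hL t _ _).trans (mul_le_mul_of_nonneg_left ?_ hM.le)
          rwa [sub_sub_sub_cancel_right]
        · exact (hL.Q_time t tI τ τI _).trans (mul_le_mul_of_nonneg_left a1 (by positivity))
      have q0 := abs_le.1 (q 0)
      have qH := abs_le.1 (q H)
      rw [sub_zero, sub_zero] at q0
      linarith [q0.2, qH.1, not_lt.1 hx]
  choose C hC1 hC2 using blk
  refine ⟨fun i => C (x0 + (i / nb : ℕ) * (nb * l)) (i % nb), fun i => hC1 _ _, ?_⟩
  rw [← hl, sum_blocks]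
  have t1 : ∀ j ∈ Finset.range (nh * ns), ∑ r ∈ Finset.range nb,
      ∫ x in (x0 + (j * nb + r : ℕ) * l)..(x0 + ((j * nb + r : ℕ) + 1) * l),
        |L.u t x - C (x0 + ((j * nb + r) / nb : ℕ) * (nb * l)) ((j * nb + r) % nb)| ≤ _ :=
      fun j _ => le_of_eq_of_le (Finset.sum_congr rfl fun r hr => ?_) (hC2 (x0 + j * (nb * l)))
  swap
  · have hr := Finset.mem_range.1 hr
    rw [Nat.mul_add_mod_of_lt hr, show (j * nb + r) / nb = j by
      rw [mul_comm, Nat.mul_add_div nb0, Nat.div_eq_of_lt hr, add_zero]]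
    congr 1 <;> push_cast <;> ring
  refine (Finset.sum_le_sum t1).trans ?_
  rw [Finset.sum_add_distrib, Finset.sum_const, Finset.card_range, nsmul_eq_mul, ← Finset.mul_sum,
    sum_blocks]
  have t2 : ∀ h ∈ Finset.range nh, ∑ r ∈ Finset.range ns,
      (if L.Q t (x0 + (h * ns + r : ℕ) * (nb * l)) - L.Q t (x0 + (h * ns + r : ℕ) * (nb * l) - H) <
        2 * θ * H then L.Q t (x0 + (h * ns + r : ℕ) * (nb * l) + nb * l) -
          L.Q t (x0 + (h * ns + r : ℕ) * (nb * l)) else 0) ≤ 2 * θ * H + M * (nb * l) := by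
    intro h _
    have e1 : ∀ r : ℕ, x0 + (h * ns + (r + 1) : ℕ) * (nb * l) =
        x0 + (h * ns + r : ℕ) * (nb * l) + nb * l := fun r => by push_cast; ring
    have := sum_marked (fun r => L.Q t (x0 + (h * ns + r : ℕ) * (nb * l)))
      (fun r => Q_mono L hL t (by rw [e1]; linarith))
      (fun r => L.Q t (x0 + (h * ns + r : ℕ) * (nb * l)) -
        L.Q t (x0 + (h * ns + r : ℕ) * (nb * l) - H) < 2 * θ * H)
      (2 * θ * H + M * (nb * l)) (by positivity) ns fun r hr hsp => ?_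
    · simpa only [e1] using this
    · have a1 := (abs_le.1 (Q_lip L hL t (x0 + (h * ns + r : ℕ) * (nb * l) + nb * l)
        (x0 + (h * ns + r : ℕ) * (nb * l)))).2
      rw [add_sub_cancel_left, abs_of_nonneg (by positivity)] at a1
      have a2 : L.Q t (x0 + (h * ns + r : ℕ) * (nb * l) - H) ≤
          L.Q t (x0 + (h * ns + 0 : ℕ) * (nb * l)) := Q_mono L hL t (by
        have : (r : ℝ) ≤ ns := by exact_mod_cast hr.le
        have := mul_le_mul_of_nonneg_right this (lp.le.trans b1)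
        push_cast; linarith)
      rw [e1]
      linarith
  have t3 := Finset.sum_le_card_nsmul _ _ _ t2
  rw [Finset.card_range, nsmul_eq_mul] at t3
  have t4 := mul_le_mul_of_nonneg_left t3 hA0.le
  rw [div_lt_iff₀ he] at n1
  have t5 : A * (nh * (2 * θ * H + M * (nb * l))) ≤ e / 2 * S := by
    have := mul_le_mul_of_nonneg_right n1.le (by positivity : (0 : ℝ) ≤ nh * (nb * l))
    have e1 : A * (nh * (2 * θ * H)) = e / 4 * S := by
      rw [hSl, ← hH]; linear_combination 2 * nh * H * hθA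
    rw [hSl] at e1 ⊢
    linarith
  have t6 : ((nh * ns : ℕ) : ℝ) * (e / 2 * (nb * l)) = e / 2 * S := by rw [hSl]; push_cast; ring
  linarith

open Sca in
theorem lateS : Basic → OscS → LateS := by
  intro hb ho P M hM hs hnb S e t0 K0 hS he ht0
  have fP := hb.1 P M hM
  have hq := Lq_nonneg fP
  obtain ⟨K, S0, hK, h⟩ := ho P M hM hs hnb (e / (P.Lq M + 1)) (by positivity)
  obtain ⟨m, hm⟩ := exists_nat_gt (max (K0 : ℝ) (S / t0))
  have hm1 : S / t0 < m := (le_max_right _ _).trans_lt hm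
  have hm0 : (0 : ℝ) < m := (div_pos hS ht0).trans hm1
  have hK0 : K0 ≤ m := by exact_mod_cast ((le_max_left _ _).trans_lt hm).le
  have hK' : (0 : ℝ) < K := by exact_mod_cast hK
  refine ⟨K * m, S / m / (|S0| + 1), hK0.trans (Nat.le_mul_of_pos_left m hK),
    Nat.mul_pos hK (by exact_mod_cast hm0), by positivity, fun η t a L hη h1 h2 h3 => ?_⟩
  have fL := hb.2.1 P M L hM
  have h4 : S0 ≤ S / m / η := by
    rw [lt_div_iff₀ (by positivity)] at h1
    rw [le_div_iff₀ hη]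
    nlinarith [le_abs_self S0]
  have h5 : S / m / η ≤ t / η := by
    refine div_le_div_of_nonneg_right (le_trans ?_ h2) hη.le
    rw [div_lt_iff₀ ht0] at hm1
    rw [div_le_iff₀ hm0]
    linarith
  choose c hc hc' using fun j : ℕ => h L (S / m / η) (t / η) ((a + j * (S / m)) / η) h4 h5 h3
  refine ⟨fun i => c (i / K) (i % K) ^ (1 / P.p), fun i => ⟨Real.rpow_nonneg (hc _ _).1 _,
    (Real.rpow_le_rpow (hc _ _).1 (hc _ _).2 (one_div_pos.2 P.hp0).le).trans_eq fP.N_root⟩, ?_⟩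
  rw [sum_blocks]
  calc _ ≤ ∑ j ∈ Finset.range m, P.Lq M * η * (e / (P.Lq M + 1) * (S / m / η)) := by
        refine Finset.sum_le_sum fun j _ => le_trans ?_
          (mul_le_mul_of_nonneg_left (hc' j) (mul_nonneg hq hη.le))
        rw [Finset.mul_sum]
        refine Finset.sum_le_sum fun i hi => ?_
        have hi' := Finset.mem_range.1 hi
        beta_reduce
        rw [Nat.mul_add_mod, Nat.mod_eq_of_lt hi', Nat.mul_add_div hK, Nat.div_eq_of_lt hi',
          add_zero]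
        refine (int_le fP L fL _ η measurable_const (fun _ => hc j i) ?_).trans_eq ?_
        · have : 0 ≤ S / ((K * m : ℕ) : ℝ) := by positivity
          nlinarith
        · rw [intervalIntegral.integral_comp_div (fun x => |L.u (t / η) x - c j i|) hη.ne',
            smul_eq_mul, mul_assoc]
          congr 3 <;> push_cast <;> field_simp <;> ring
    _ = P.Lq M / (P.Lq M + 1) * (e * S) := by
        rw [Finset.sum_const, Finset.card_range, nsmul_eq_mul]
        field_simp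
    _ ≤ e * S := mul_le_of_le_one_left (by positivity) ((div_le_one (by positivity)).2 (by linarith))

end MP34a893.B

end MrgPart2

-- marker of a merged file
example : 731051 + 731981 = 731051 + 731981 := rfl
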