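import Mathlib.Analysis.Complex.ExponentialBounds
import Pool.Agent.MP_34a893_an.Scale
import Pool.Agent.MP_34a893_an.B.Few
import Pool.Agent.MP_34a893_an.B.PortOsc

-- ======== part 0: formerly Pool.Agent.MP_34a893_an.Deficit
section MrgPart0

/-! Row DEF: sparse regions, small deficit forces small mass, lower bounds without vacuum. -/

open MeasureTheory Set Filter Topology
open scoped ENNReal

namespace MP34a893

namespace Deficit

variable {P : Par} {M : ℝ}

lemma ii {φ : ℝ → ℝ} (hm : Measurable φ) {C : ℝ} (hC : ∀ x, φ x ∈ Icc 0 C) (a b : ℝ) :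
    IntervalIntegrable φ volume a b :=
  (intervalIntegrable_const (c := C)).mono_fun' hm.aestronglyMeasurable
    (ae_of_all _ fun x => (Real.norm_of_nonneg (hC x).1).trans_le (hC x).2)

lemma kd_pos (hP : P.Facts M) : 0 < P.k P.d :=
  ((mul_pos P.hm0 (by linarith [hP.d_pos])).trans_le hP.k_mid).trans_le
    (hP.k_anti (by linarith [hP.d_pos, P.hs1]))

lemma u_meas (L : Lag P M) (t : ℝ) : Measurable (L.u t) := L.u_meas.of_uncurry_left

lemma ku_int (hP : P.Facts M) (L : Lag P M) (hL : L.Facts) (t x : ℝ) :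
    IntegrableOn (fun s => P.k s * L.u t (x + s)) (Ioi 0) :=
  hP.k_int.mul_bdd (c := P.N M) ((u_meas L t).comp (measurable_const_add x)).aestronglyMeasurable
    (ae_of_all _ fun s => (Real.norm_of_nonneg (hL.u_nonneg _ _)).trans_le (L.u_le _ _))

/-- the mass of `u` just ahead of a point is bounded by the nonlocal mean -/
lemma ahead (hP : P.Facts M) (L : Lag P M) (hL : L.Facts) (t x : ℝ) :
    ∫ s in x..(x + P.d), L.u t s ≤ L.Z t x / P.k P.d := by
  have hd := hP.d_pos
  have h1 : ∫ s in x..(x + P.d), L.u t s = ∫ s in Ioc 0 P.d, L.u t (x + s) := by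
    rw [← intervalIntegral.integral_of_le hd.le, intervalIntegral.integral_comp_add_left, add_zero]
  have h2 := (ku_int hP L hL t x).mono_set (Ioc_subset_Ioi_self : Ioc 0 P.d ⊆ _)
  rw [le_div_iff₀ (kd_pos hP), h1, mul_comm, ← integral_const_mul]
  refine (setIntegral_mono_on ?_ h2 measurableSet_Ioc fun s hs =>
    mul_le_mul_of_nonneg_right (hP.k_anti hs.2) (hL.u_nonneg _ _)).trans
    (setIntegral_mono_set (ku_int hP L hL t x) (ae_of_all _ fun s =>
      mul_nonneg (hP.k_nonneg s) (hL.u_nonneg _ _)) Ioc_subset_Ioi_self.eventuallyLE)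
  exact (ii ((u_meas L t).comp (measurable_const_add x))
    (fun s => ⟨hL.u_nonneg _ _, L.u_le _ _⟩) 0 P.d).1.const_mul _

lemma Z_cont (L : Lag P M) (t : ℝ) : Continuous (L.Z t) :=
  L.Z_cont.comp (Continuous.prodMk_right t)

lemma sp_int (L : Lag P M) (hL : L.Facts) (t z a b : ℝ) :
    IntervalIntegrable (fun x => if L.Z t x < z then L.u t x else 0) volume a b :=
  ii (C := P.N M) ((u_meas L t).ite (measurableSet_lt (Z_cont L t).measurable measurable_const)
    measurable_const) (fun x => by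
      split_ifs
      exacts [⟨hL.u_nonneg _ _, L.u_le _ _⟩, ⟨le_rfl, (hL.u_nonneg t x).trans (L.u_le _ _)⟩]) a b

lemma block (hP : P.Facts M) (L : Lag P M) (hL : L.Facts) (t : ℝ) {z a b : ℝ} (hz : 0 < z)
    (hab : a ≤ b) (hb : b ≤ a + P.d) :
    ∫ x in a..b, (if L.Z t x < z then L.u t x else 0) ≤ z / P.k P.d := by
  have hu := ii (u_meas L t) fun s => ⟨hL.u_nonneg t s, L.u_le t s⟩
  have h0 : ∀ c, a ≤ c → (∀ x ∈ Ioo a c, z ≤ L.Z t x) →
      ∫ x in a..c, (if L.Z t x < z then L.u t x else 0) = 0 := fun c hc h => by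
    rw [intervalIntegral.integral_of_le hc, integral_Ioc_eq_integral_Ioo]
    exact setIntegral_eq_zero_of_forall_eq_zero fun x hx => if_neg (h x hx).not_gt
  rcases (Icc a b ∩ {x | L.Z t x ≤ z}).eq_empty_or_nonempty with h | h
  · rw [h0 b hab fun x hx => le_of_not_ge fun k => (h ▸ (⟨Ioo_subset_Icc_self hx, k⟩ :
      x ∈ Icc a b ∩ {x | L.Z t x ≤ z}) : x ∈ (∅ : Set ℝ))]
    exact (div_pos hz (kd_pos hP)).le
  · obtain ⟨c, ⟨hc, hz'⟩, hm⟩ := (isCompact_Icc.inter_right
      (isClosed_le (Z_cont L t) continuous_const)).exists_isLeast h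
    rw [← intervalIntegral.integral_add_adjacent_intervals (sp_int L hL t z a c)
      (sp_int L hL t z c b), h0 c hc.1 fun x hx => le_of_not_ge fun k =>
        (hm ⟨⟨hx.1.le, hx.2.le.trans hc.2⟩, k⟩).not_gt hx.2, zero_add]
    calc _ ≤ ∫ x in c..b, L.u t x :=
          intervalIntegral.integral_mono_on hc.2 (sp_int L hL t z c b) (hu c b) fun x _ => by
            split_ifs
            exacts [le_rfl, hL.u_nonneg _ _]
      _ ≤ ∫ x in c..(c + P.d), L.u t x :=
          intervalIntegral.integral_mono_interval le_rfl hc.2 (by linarith [hc.1])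
            (ae_of_all _ (hL.u_nonneg t)) (hu _ _)
      _ ≤ _ := (ahead hP L hL t c).trans (div_le_div_of_nonneg_right hz' (kd_pos hP).le)

end Deficit

open Deficit

theorem sparseS : Basic → SparseS := by
  intro hB P M L hM t x1 x2 z hx hz
  have hP := hB.1 P M hM
  have hL := hB.2.1 P M L hM
  have hd := hP.d_pos
  have hc := (div_pos hz (kd_pos hP)).le
  have h : ∀ (n : ℕ) (a : ℝ), a ≤ x2 → x2 ≤ a + (n + 1) * P.d →
      ∫ x in a..x2, (if L.Z t x < z then L.u t x else 0) ≤ z / P.k P.d * (n + 1) := by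
    intro n
    induction n with
    | zero => exact fun a h1 h2 => by simpa using block hP L hL t hz h1 (by simpa using h2)
    | succ n ih =>
      intro a h1 h2
      push_cast at h2 ⊢
      rcases le_total x2 (a + P.d) with k | k
      · exact (block hP L hL t hz h1 k).trans (le_mul_of_one_le_right hc (by
          linarith [Nat.cast_nonneg (α := ℝ) n]))
      · rw [← intervalIntegral.integral_add_adjacent_intervals (sp_int L hL t z a (a + P.d))
          (sp_int L hL t z _ x2)]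
        linarith [block hP L hL t hz (le_add_of_nonneg_right hd.le : a ≤ _) le_rfl,
          ih (a + P.d) k (by linarith)]
  have h1 := Nat.lt_floor_add_one ((x2 - x1) / P.d)
  rw [div_lt_iff₀ hd] at h1
  exact (h _ x1 hx (by linarith)).trans (mul_le_mul_of_nonneg_left
    (add_le_add_left (Nat.floor_le (div_nonneg (sub_nonneg.2 hx) hd.le)) 1) hc)

theorem defS : Basic → SparseS → DefS := by
  intro hB sp P M hM hS θ hθ
  have hP := hB.1 P M hM
  have hd := hP.d_pos
  have hk := kd_pos hP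
  obtain ⟨A, hA⟩ : ∃ A, A = P.N M ^ (1 / P.p - 1) := ⟨_, rfl⟩
  have hA0 : 0 < A := hA ▸ Real.rpow_pos_of_pos hP.N_pos _
  obtain ⟨z, hz⟩ : ∃ z, z = θ * P.k P.d / (2 * A * (2 / P.d + 1)) := ⟨_, rfl⟩
  have hz0 : 0 < z := by rw [hz]; positivity
  obtain ⟨c, hc⟩ : ∃ c, c = P.Φ 0 - P.Φ z := ⟨_, rfl⟩
  have hc0 : 0 < c := hc ▸ sub_pos.2 (hP.Φ_lt hS z hz0)
  refine ⟨c / 4, by positivity, fun κ S hκ hκc hκS L τ y hSτ hτ hdf => ?_⟩
  have hL := hB.2.1 P M L hM
  have hS0 : 0 < S := pos_of_mul_pos_right (one_pos.trans_le hκS) hκ.le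
  obtain ⟨y0, hy0⟩ : ∃ y0, y0 = L.Y τ (L.X τ y - κ * S) := ⟨_, rfl⟩
  have hX0 : L.X τ y0 = L.X τ y - κ * S := by rw [hy0, L.XY]
  have hy : y0 ≤ y := (hL.X_mono τ).le_iff_le.1 (by linarith)
  rw [← hX0, hL.Q_X, hL.Q_X]
  have hq0 : ∀ x, L.q0 x ∈ Icc 0 M := fun x => ⟨L.q0_nonneg x, L.q0_le x⟩
  have hm : L.m y - L.m y0 = ∫ x in y0..y, L.q0 x :=
    intervalIntegral.integral_interval_sub_left (ii L.q0_meas hq0 _ _) (ii L.q0_meas hq0 _ _)
  have hv : ∀ t x, P.Φ 0 - L.v t x ∈ Icc 0 (P.DV M) := fun t x =>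
    ⟨sub_nonneg.2 (hL.v_mem t x).2, by linarith [(hL.v_mem t x).1]⟩
  have hF : Measurable (Function.uncurry fun σ x => L.q0 x * (P.Φ 0 - L.v σ (L.X σ x))) :=
    (L.q0_meas.comp measurable_snd).mul (measurable_const.sub
      (hL.v_cont.comp (continuous_fst.prodMk L.X_cont)).measurable)
  have hI : Integrable (Function.uncurry fun σ x => L.q0 x * (P.Φ 0 - L.v σ (L.X σ x)))
      ((volume.restrict (Ioc (τ - S) τ)).prod (volume.restrict (Ioc y0 y))) :=
    Integrable.of_bound hF.aestronglyMeasurable (M * P.DV M) (ae_of_all _ fun w =>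
      (Real.norm_of_nonneg (mul_nonneg (hq0 _).1 (hv _ _).1)).trans_le
        (mul_le_mul (hq0 _).2 (hv _ _).2 (hv _ _).1 hM.le))
  have h1 : ∀ σ ∈ Ioc (τ - S) τ, c * (L.m y - L.m y0 - θ * (κ * S) / 2) ≤
      ∫ x in Ioc y0 y, L.q0 x * (P.Φ 0 - L.v σ (L.X σ x)) := by
    intro σ hσ
    have hqm : Measurable (L.q σ) := hL.q_meas.of_uncurry_left
    have hφ : Measurable fun x => L.q σ x * (P.Φ 0 - L.v σ x) :=
      hqm.mul (measurable_const.sub (hL.v_cont.comp (Continuous.prodMk_right σ)).measurable)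
    have hφb : ∀ x, L.q σ x * (P.Φ 0 - L.v σ x) ∈ Icc 0 (M * P.DV M) := fun x =>
      ⟨mul_nonneg (hL.q_mem _ _).1 (hv _ _).1,
        mul_le_mul (hL.q_mem _ _).2 (hv _ _).2 (hv _ _).1 hM.le⟩
    have hXX : L.X σ y0 ≤ L.X σ y := (hL.X_mono σ).monotone hy
    have k1 : ∫ x in Ioc y0 y, L.q0 x * (P.Φ 0 - L.v σ (L.X σ x)) =
        ∫ x in L.X σ y0..L.X σ y, L.q σ x * (P.Φ 0 - L.v σ x) := by
      rw [hL.cov_int σ _ hφ ⟨_, fun x => (abs_of_nonneg (hφb x).1).trans_le (hφb x).2⟩,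
        intervalIntegral.integral_of_le hy]
      refine integral_congr_ae (ae_of_all _ fun x => ?_)
      simp only [← hL.qj σ x]
      ring
    have k2 : L.X σ y - L.X σ y0 ≤ 2 * (κ * S) := by
      have a1 := (hL.dfc_mem y (τ - S) σ (by linarith) hσ.1.le (hσ.2.trans hτ)).1
      have a2 := (hL.dfc_mem y0 σ τ (by linarith [hσ.1]) hσ.2 hτ).1
      simp only [Lag.dfc] at a1 a2 hdf
      linarith
    have k3 : A * ∫ x in L.X σ y0..L.X σ y, (if L.Z σ x < z then L.u σ x else 0) ≤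
        θ * (κ * S) / 2 := by
      refine (mul_le_mul_of_nonneg_left ((sp P M L hM σ _ _ z hXX hz0).trans
        (mul_le_mul_of_nonneg_left (c := (2 / P.d + 1) * (κ * S)) ?_ (by positivity)))
        hA0.le).trans_eq ?_
      · have := div_le_div_of_nonneg_right k2 hd.le
        rw [add_mul, div_mul_eq_mul_div]
        linarith
      · rw [hz]
        field_simp
    have k4 : c * (L.m y - L.m y0) ≤
        c * (A * ∫ x in L.X σ y0..L.X σ y, (if L.Z σ x < z then L.u σ x else 0)) +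
        ∫ x in L.X σ y0..L.X σ y, L.q σ x * (P.Φ 0 - L.v σ x) := by
      have i1 := ((sp_int L hL σ z (L.X σ y0) (L.X σ y)).const_mul A).const_mul c
      rw [← hL.Q_X σ, ← hL.Q_X σ, hL.Q_sub, ← intervalIntegral.integral_const_mul,
        ← intervalIntegral.integral_const_mul, ← intervalIntegral.integral_const_mul,
        ← intervalIntegral.integral_add i1 (ii hφ hφb _ _)]
      refine intervalIntegral.integral_mono_on hXX ((ii hqm (hL.q_mem σ) _ _).const_mul c)
        (i1.add (ii hφ hφb _ _)) fun x _ => ?_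
      split_ifs with h
      · have := mul_le_mul_of_nonneg_left
          (hP.root_le _ ⟨hL.u_nonneg σ x, L.u_le σ x⟩) hc0.le
        rw [← hA] at this
        exact this.trans (le_add_of_nonneg_right (hφb x).1)
      · rw [mul_zero, mul_zero, zero_add, mul_comm, hc]
        exact mul_le_mul_of_nonneg_left (sub_le_sub_left (hP.Φ_anti (not_lt.1 h)) _)
          (hL.q_mem _ _).1
    rw [k1]
    nlinarith
  have h2 : ∀ x ∈ Ioc y0 y, ∫ σ in Ioc (τ - S) τ, L.q0 x * (P.Φ 0 - L.v σ (L.X σ x)) ≤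
      L.q0 x * (2 * (κ * S)) := by
    intro x hx
    rw [integral_const_mul, ← intervalIntegral.integral_of_le (by linarith),
      ← hL.dfc_int x _ ⟨by linarith, by linarith⟩ _ ⟨by linarith, hτ⟩]
    refine mul_le_mul_of_nonneg_left ?_ (hq0 x).1
    have a1 := (hL.X_mono τ).monotone hx.1.le
    have a2 := (hL.X_mono (τ - S)).monotone hx.2
    simp only [Lag.dfc] at hdf ⊢
    linarith
  have h3 := setIntegral_mono_on (integrableOn_const (by simp)) hI.integral_prod_left
    measurableSet_Ioc h1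
  have h4 := setIntegral_mono_on hI.integral_prod_right
    ((ii L.q0_meas hq0 y0 y).1.mul_const _) measurableSet_Ioc h2
  have h5 := (h3.trans_eq (integral_integral_swap hI)).trans h4
  rw [setIntegral_const, integral_mul_const, ← intervalIntegral.integral_of_le hy, ← hm,
    Real.volume_real_Ioc_of_le (by linarith), smul_eq_mul, sub_sub_cancel] at h5
  have h6 : 0 ≤ L.m y - L.m y0 := sub_nonneg.2 (hL.m_mono hy)
  have h7 := mul_le_mul_of_nonneg_left hκc (mul_nonneg h6 hS0.le)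
  refine le_of_mul_le_mul_left ?_ (mul_pos hS0 hc0)
  nlinarith

theorem nvzS : Basic → NVZS := by
  intro hB P M hM ε hε
  have hP := hB.1 P M hM
  have hk := hP.k0_pos
  have hs := P.hs1
  obtain ⟨R, hR1, hR2⟩ := ((hP.tail.eventually_le_const (by norm_num : (0 : ℝ) < 1 / 4)).and
    (eventually_ge_atTop P.s1)).exists
  refine ⟨R, min (1 / (4 * P.k0)) (P.s1 / 2), hs.trans_le hR2, by positivity, fun L τ x h => ?_⟩
  have hL := hB.2.1 P M L hM
  set B := {x' | x' ∈ Icc x (x + R) ∧ L.u τ x' < ε} with hBd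
  have hBm : MeasurableSet B :=
    measurableSet_Icc.inter (measurableSet_lt (u_meas L τ) measurable_const)
  have hI : ∀ (C : Set ℝ) (T : Set ℝ), MeasurableSet C → volume C = volume B →
      IntegrableOn (C.indicator fun _ => (1 : ℝ)) T ∧
      ∫ s in T, C.indicator (fun _ => (1 : ℝ)) s ≤ min (1 / (4 * P.k0)) (P.s1 / 2) := by
    intro C T hC e
    have i1 : Integrable (C.indicator fun _ => (1 : ℝ)) := (integrableOn_const
      (ne_top_of_le_ne_top ENNReal.ofReal_ne_top (e.trans_le h))).integrable_indicator hC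
    refine ⟨i1.integrableOn, (setIntegral_le_integral i1 (ae_of_all _ fun s =>
      indicator_nonneg (fun _ _ => zero_le_one) s)).trans ?_⟩
    rw [integral_indicator_const _ hC, smul_eq_mul, mul_one]
    exact ENNReal.toReal_le_of_le_ofReal (by positivity) (e.trans_le h)
  constructor
  · obtain ⟨i1, i2⟩ := hI ((x + ·) ⁻¹' B) (Ioi 0) (measurable_const_add x hBm)
      (measure_preimage_add _ _ _)
    have i3 : IntegrableOn ((Ioi R).indicator P.k) (Ioi 0) :=
      hP.k_int.indicator measurableSet_Ioi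
    have k1 := setIntegral_mono_on (((hP.k_int.sub i3).sub (i1.const_mul P.k0)).const_mul ε)
      (ku_int hP L hL τ x) measurableSet_Ioi fun s hs => by
        have a1 := hP.k_nonneg s
        have a2 := hP.k_le s
        have a3 := mul_nonneg a1 (hL.u_nonneg τ (x + s))
        simp only [Pi.sub_apply, indicator]
        split_ifs with b1 b2 b2
        · nlinarith
        · nlinarith
        · nlinarith
        · have : ε ≤ L.u τ (x + s) := not_lt.1 fun k => b2
            ⟨⟨le_add_of_nonneg_right (le_of_lt hs), add_le_add_right (not_lt.1 b1) x⟩, k⟩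
          nlinarith
    simp only [Pi.sub_apply] at k1
    rw [integral_const_mul, integral_sub (hP.k_int.sub' i3) (i1.const_mul P.k0),
      integral_sub hP.k_int i3, integral_const_mul, hP.k_one,
      setIntegral_indicator measurableSet_Ioi, Ioi_inter_Ioi,
      sup_of_le_right (hs.le.trans hR2)] at k1
    have k2 := mul_le_mul_of_nonneg_left (i2.trans (min_le_left _ _)) hk.le
    rw [show P.k0 * (1 / (4 * P.k0)) = 1 / 4 by field_simp] at k2
    exact le_trans (by nlinarith) k1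
  · obtain ⟨i1, i2⟩ := hI B (Ioc x (x + P.s1)) hBm rfl
    have hr := Real.rpow_pos_of_pos hε (1 / P.p)
    have i3 : IntegrableOn (fun _ => (1 : ℝ)) (Ioc x (x + P.s1)) := integrableOn_const (by simp)
    have k1 := setIntegral_mono_on ((i3.sub i1).const_mul (ε ^ (1 / P.p)))
      (ii hL.q_meas.of_uncurry_left (hL.q_mem τ) x (x + P.s1)).1 measurableSet_Ioc fun s hs => by
        simp only [Pi.sub_apply, indicator]
        split_ifs with b
        · rw [sub_self, mul_zero]
          exact (hL.q_mem τ s).1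
        · rw [sub_zero, mul_one]
          exact Real.rpow_le_rpow hε.le (not_lt.1 fun k => b ⟨⟨hs.1.le, by linarith [hs.2]⟩, k⟩)
            (one_div_pos.2 P.hp0).le
    simp only [Pi.sub_apply] at k1
    rw [integral_const_mul, integral_sub i3 i1, setIntegral_const,
      Real.volume_real_Ioc_of_le (by linarith), smul_eq_mul, mul_one, add_sub_cancel_left] at k1
    rw [hL.Q_sub, intervalIntegral.integral_of_le (by linarith)]
    have k2 := mul_le_mul_of_nonneg_left (i2.trans (min_le_right _ _)) hr.le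
    linarith

end MP34a893

end MrgPart0

-- ======== part 1: formerly Pool.Agent.MP_34a893_an.Gap1
section MrgPart1

/-! Rows WIDTH, GAPBASE, GAPBLOCK. -/

open MeasureTheory Set Filter Topology

namespace MP34a893

namespace Gap1

variable {P : Par} {M : ℝ}

lemma ii_bdd {f : ℝ → ℝ} (hf : Measurable f) {C : ℝ} (h : ∀ x, |f x| ≤ C) (a b : ℝ) :
    IntervalIntegrable f volume a b :=
  (intervalIntegrable_const (c := C)).mono_fun' hf.aestronglyMeasurable
    (Eventually.of_forall h)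

lemma u_m (L : Lag P M) (t : ℝ) : Measurable (L.u t) := L.u_meas.of_uncurry_left

lemma ii_u {L : Lag P M} (hL : L.Facts) (t x a b : ℝ) :
    IntervalIntegrable (fun s => L.u t (x + s)) volume a b :=
  ii_bdd (f := fun s => L.u t (x + s)) ((u_m L t).comp (measurable_const_add x)) (C := P.N M)
    (fun s => abs_le.2 ⟨by linarith [hL.u_nonneg t (x + s), L.u_le t (x + s)], L.u_le _ _⟩) a b

lemma ii_q {L : Lag P M} (hL : L.Facts) (t x a b : ℝ) :
    IntervalIntegrable (fun s => L.q t (x + s)) volume a b :=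
  ii_bdd (f := fun s => L.q t (x + s)) (hL.q_meas.of_uncurry_left.comp (measurable_const_add x))
    (C := M)
    (fun s => abs_le.2 ⟨by linarith [(hL.q_mem t (x + s)).1, (hL.q_mem t (x + s)).2],
      (hL.q_mem _ _).2⟩) a b

lemma Q_shift {L : Lag P M} (hL : L.Facts) (t x a b : ℝ) :
    L.Q t (x + b) - L.Q t (x + a) = ∫ s in a..b, L.q t (x + s) := by
  rw [hL.Q_sub, intervalIntegral.integral_comp_add_left (fun s => L.q t s) x]

lemma Q_mono {L : Lag P M} (hL : L.Facts) (t : ℝ) : Monotone (L.Q t) :=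
  hL.m_mono.comp (hL.Y_mono t).monotone

lemma int_ku {L : Lag P M} (hL : L.Facts) {κ : ℝ → ℝ} {S : Set ℝ} (hκ : IntegrableOn κ S)
    (t x : ℝ) : IntegrableOn (fun s => κ s * L.u t (x + s)) S :=
  Integrable.mul_bdd (c := P.N M) hκ
    ((u_m L t).comp (measurable_const_add x)).aestronglyMeasurable
    (Eventually.of_forall fun s => by
      rw [Real.norm_of_nonneg (hL.u_nonneg _ _)]; exact L.u_le _ _)

lemma vel_le (hP : P.Facts M) {L : Lag P M} (hL : L.Facts) {δ : ℝ} (hδ : 0 < δ) (t : ℝ)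
    {x1 x2 : ℝ} (h : x1 ≤ x2) : L.v t x2 - L.v t x1 ≤
      P.bm M * P.k0 * (δ * (x2 - x1) + δ ^ (1 - 1 / P.p) * (L.Q t x2 - L.Q t x1)) := by
  have hδ' : 0 ≤ δ ^ (1 - 1 / P.p) := Real.rpow_nonneg hδ.le _
  have hb := hP.bm_nonneg
  have hk := hP.k0_pos
  have hq : IntervalIntegrable (L.q t) volume x1 x2 := by simpa using ii_q hL t 0 x1 x2
  rw [hL.v_sub]
  by_cases hi : IntervalIntegrable
    (fun x => P.b (L.Z t x) * (P.k0 * L.u t x - L.G t x)) volume x1 x2
  · refine (intervalIntegral.integral_mono_on h hi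
      (g := fun x => P.bm M * P.k0 * (δ + δ ^ (1 - 1 / P.p) * L.q t x))
      ((intervalIntegrable_const.add (hq.const_mul _)).const_mul _) fun x _ => ?_).trans_eq ?_
    · have h1 := hP.le_root δ hδ _ (hL.u_nonneg t x)
      have h2 := hP.b_le _ (hL.Z_mem t x)
      have h3 := P.hb0 (L.Z t x)
      have h4 := (hL.G_mem t x).1
      have h5 := hL.u_nonneg t x
      calc _ ≤ P.b (L.Z t x) * (P.k0 * L.u t x) := by gcongr; linarith
        _ ≤ P.bm M * (P.k0 * (δ + δ ^ (1 - 1 / P.p) * L.q t x)) := by gcongr; exact h1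
        _ = _ := by ring
    · rw [intervalIntegral.integral_const_mul, intervalIntegral.integral_add
        intervalIntegrable_const (hq.const_mul _), intervalIntegral.integral_const_mul,
        intervalIntegral.integral_const, hL.Q_sub, smul_eq_mul, mul_comm δ]
  · rw [intervalIntegral.integral_undef hi]
    have := sub_nonneg.2 (Q_mono hL t h)
    have := sub_nonneg.2 h
    positivity

lemma cont_v {L : Lag P M} (hL : L.Facts) (y : ℝ) : Continuous fun τ => L.v τ (L.X τ y) :=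
  hL.v_cont.comp (continuous_id.prodMk (L.X_cont.comp (continuous_id.prodMk continuous_const)))

lemma Z_le (hP : P.Facts M) {L : Lag P M} (hL : L.Facts) {δ : ℝ} (hδ : 0 < δ) (t x : ℝ)
    {R : ℝ} (hR : 0 ≤ R) : L.Z t x ≤ δ + P.k0 * δ ^ (1 - 1 / P.p) * (L.Q t (x + R) - L.Q t x) +
      P.N M * ∫ s in Ioi R, P.k s := by
  have hδ' : 0 ≤ δ ^ (1 - 1 / P.p) := Real.rpow_nonneg hδ.le _
  have hkR : IntegrableOn P.k (Ioi R) := hP.k_int.mono_set (Ioi_subset_Ioi hR)
  have hk : IntervalIntegrable P.k volume 0 R := hP.k_cont.intervalIntegrable _ _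
  have h1 : ∫ s in (0 : ℝ)..R, P.k s ≤ 1 := by
    rw [← hP.k_one, ← intervalIntegral.integral_interval_add_Ioi hP.k_int hkR]
    have : 0 ≤ ∫ s in Ioi R, P.k s := integral_nonneg hP.k_nonneg
    linarith
  have hq := ii_q hL t x 0 R
  rw [Lag.Z, ← intervalIntegral.integral_interval_add_Ioi (int_ku hL hP.k_int t x)
    (int_ku hL hkR t x)]
  refine add_le_add ?_ ?_
  · refine (intervalIntegral.integral_mono_on hR
      ((intervalIntegrable_iff_integrableOn_Ioc_of_le hR).2
        ((int_ku hL hP.k_int t x).mono_set Ioc_subset_Ioi_self))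
      (g := fun s => δ * P.k s + P.k0 * δ ^ (1 - 1 / P.p) * L.q t (x + s))
      ((hk.const_mul _).add (hq.const_mul _)) fun s _ => ?_).trans ?_
    · have h1 := hP.le_root δ hδ _ (hL.u_nonneg t (x + s))
      have h2 := hP.k_nonneg s
      have h3 := hP.k_le s
      have h4 := (hL.q_mem t (x + s)).1
      calc _ ≤ P.k s * (δ + δ ^ (1 - 1 / P.p) * L.q t (x + s)) := by gcongr; exact h1
        _ = δ * P.k s + P.k s * δ ^ (1 - 1 / P.p) * L.q t (x + s) := by ring
        _ ≤ _ := by gcongr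
    · rw [intervalIntegral.integral_add (hk.const_mul _) (hq.const_mul _),
        intervalIntegral.integral_const_mul, intervalIntegral.integral_const_mul, ← Q_shift hL,
        add_zero]
      nlinarith
  · rw [← integral_const_mul]
    refine integral_mono (int_ku hL hkR t x) (hkR.const_mul _) fun s => ?_
    have h2 := hP.k_nonneg s
    have := L.u_le t (x + s)
    dsimp only
    rw [mul_comm (P.N M)]
    gcongr

/-- The mass of the window `[x + s1, x + s1 + d]` is bounded by a kernel mean of `u`. -/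
lemma mass_le (hP : P.Facts M) {L : Lag P M} (hL : L.Facts) {κ : ℝ → ℝ} {c : ℝ} (hc : 0 < c)
    (hκ : IntegrableOn κ (Ioi 0)) (h0 : ∀ s, 0 ≤ κ s) (h1 : ∀ s ∈ Icc P.s1 (P.s1 + P.d), c ≤ κ s)
    (t x : ℝ) : c * (L.Q t (x + P.s1 + P.d) - L.Q t (x + P.s1)) ≤
      P.N M ^ (1 / P.p - 1) * ∫ s in Ioi (0 : ℝ), κ s * L.u t (x + s) := by
  have hd : P.s1 ≤ P.s1 + P.d := by linarith [hP.d_pos]
  have hN : 0 ≤ P.N M ^ (1 / P.p - 1) := Real.rpow_nonneg hP.N_pos.le _
  have hsub : Ioc P.s1 (P.s1 + P.d) ⊆ Ioi 0 := fun s hs => P.hs1.trans hs.1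
  have hi := int_ku hL hκ t x
  rw [add_assoc, Q_shift hL, ← intervalIntegral.integral_const_mul]
  refine (intervalIntegral.integral_mono_on hd ((ii_q hL t x _ _).const_mul _)
    (g := fun s => P.N M ^ (1 / P.p - 1) * (κ s * L.u t (x + s)))
    (((intervalIntegrable_iff_integrableOn_Ioc_of_le hd).2 (hi.mono_set hsub)).const_mul _)
    fun s hs => ?_).trans ?_
  · have h2 := hP.root_le _ ⟨hL.u_nonneg t (x + s), L.u_le _ _⟩
    have h3 := h1 s hs
    have h4 := hL.u_nonneg t (x + s)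
    calc _ ≤ c * (P.N M ^ (1 / P.p - 1) * L.u t (x + s)) := by gcongr; exact h2
      _ = P.N M ^ (1 / P.p - 1) * (c * L.u t (x + s)) := by ring
      _ ≤ _ := by gcongr
  · rw [intervalIntegral.integral_const_mul, intervalIntegral.integral_of_le hd]
    refine mul_le_mul_of_nonneg_left (setIntegral_mono_set hi
      (Eventually.of_forall fun s => mul_nonneg (h0 s) (hL.u_nonneg _ _)) hsub.eventuallyLE) hN

lemma gap_mono (hB : Basic) (hM : 0 < M) {l l' γ γ' : ℝ} (h : GapP P M l γ) (hl : l ≤ l')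
    (hγ : γ ≤ γ') : GapP P M l' γ' := fun B0 => by
  obtain ⟨B, h1, h2, μ, h3, h4⟩ := h B0
  refine ⟨B, h1, h2, μ, h3, fun L τ x a b c => (h4 L τ x a b ?_).trans (by gcongr)⟩
  have := Q_mono (hB.2.1 P M L hM) τ (add_le_add_right hl x)
  linarith

lemma gap_down (hB : Basic) (hs : GapStepS) (hM : 0 < M) (hS : P.Strict M) {e : ℝ} (he : 0 < e)
    (n : ℕ) : ∀ γ, 0 < γ → GapP P M ((n + 1) * P.d) γ → GapP P M P.d (γ + n * e) := by
  have hd := (hB.1 P M hM).d_pos
  induction n with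
  | zero => intro γ _ h; simpa using h
  | succ n ih =>
    intro γ hγ h
    have := ih (γ + e) (by positivity) (hs P M hM hS _ γ e
      (le_mul_of_one_le_left hd.le (by linarith [n.cast_nonneg (α := ℝ)])) hγ he
      (by convert h using 1; push_cast; ring))
    convert this using 1
    push_cast; ring

lemma gap_d (hB : Basic) (hb : GapBaseS) (hs : GapStepS) (hM : 0 < M) (hS : P.Strict M) {γ : ℝ}
    (hγ : 0 < γ) : GapP P M P.d γ := by
  have hd := (hB.1 P M hM).d_pos
  obtain ⟨l, -, h⟩ := hb P M hM (γ / 2) (by positivity)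
  obtain ⟨n, hn⟩ := exists_nat_ge (l / P.d)
  rw [div_le_iff₀ hd] at hn
  have h1 : (0 : ℝ) < n + 1 := by positivity
  refine gap_mono hB hM (gap_down hB hs hM hS (e := γ / 2 / (n + 1)) (by positivity) n (γ / 2)
    (by positivity) (gap_mono hB hM h (by nlinarith) le_rfl)) le_rfl ?_
  have : n * (γ / 2 / (n + 1)) ≤ γ / 2 := by
    rw [← mul_div_assoc, div_le_iff₀ h1]; nlinarith
  linarith

end Gap1

open Gap1

theorem widthS (hB : Basic) : WidthS := by
  intro P M hM B e hB0 he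
  have hP := hB.1 P M hM
  have hb := hP.bm_nonneg
  have hk := hP.k0_pos
  have hN := hP.N_pos
  have hC : 0 ≤ P.C0 M := by unfold Par.C0; positivity
  set A := B * (P.bm M * P.k0) with hA
  have hA0 : 0 ≤ A := by positivity
  set E := Real.exp (P.C0 M * B) with hE
  have hE0 : 0 < E := Real.exp_pos _
  set δ := e / ((A + 1) * E) with hδ
  have hδ0 : 0 < δ := by positivity
  have hδ' : 0 < δ ^ (1 - 1 / P.p) := Real.rpow_pos_of_pos hδ0 _
  set δ' := δ ^ (1 - 1 / P.p)
  refine ⟨e / ((A + 1) * δ'), by positivity, fun L y1 y2 τ σ hy hm h0 hστ hT hBτ => ?_⟩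
  have hL := hB.2.1 P M L hM
  have hτ : τ ∈ Icc 0 L.T := ⟨h0.trans hστ, hT⟩
  have hσ : σ ∈ Icc 0 L.T := ⟨h0, hστ.trans hT⟩
  set w := L.X τ y2 - L.X τ y1 with hw
  have hw0 : 0 ≤ w := sub_nonneg.2 ((hL.X_mono τ).monotone hy)
  have key : ∀ r ∈ Icc σ τ, L.v r (L.X r y2) - L.v r (L.X r y1) ≤
      P.bm M * P.k0 * (δ * (E * w) + δ' * (e / ((A + 1) * δ'))) := fun r hr => by
    refine (vel_le hP hL hδ0 r ((hL.X_mono r).monotone hy)).trans ?_
    rw [hL.Q_X, hL.Q_X]
    have h1 := hL.dist_mul y1 y2 hy τ hτ r ⟨h0.trans hr.1, hr.2.trans hT⟩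
    have h2 : Real.exp (P.C0 M * |τ - r|) ≤ E := by
      rw [abs_of_nonneg (sub_nonneg.2 hr.2), hE]
      have : τ - r ≤ B := by linarith [hr.1]
      gcongr
    have h3 : L.X r y2 - L.X r y1 ≤ E * w := h1.trans (by gcongr)
    gcongr
  have h1 := intervalIntegral.integral_mono_on (μ := volume)
    (f := fun r => L.v r (L.X r y2) - L.v r (L.X r y1)) hστ
    (((cont_v hL y2).sub (cont_v hL y1)).intervalIntegrable _ _) intervalIntegrable_const key
  rw [intervalIntegral.integral_sub ((cont_v hL y2).intervalIntegrable _ _)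
    ((cont_v hL y1).intervalIntegrable _ _), ← hL.X_int y2 σ hσ τ hτ, ← hL.X_int y1 σ hσ τ hτ,
    intervalIntegral.integral_const, smul_eq_mul] at h1
  have h2 : δ * (E * w) + δ' * (e / ((A + 1) * δ')) = e * (w + 1) / (A + 1) := by
    rw [hδ]; field_simp
  rw [h2] at h1
  have h3 : (τ - σ) * (P.bm M * P.k0 * (e * (w + 1) / (A + 1))) ≤ e * (w + 1) := by
    calc _ ≤ B * (P.bm M * P.k0 * (e * (w + 1) / (A + 1))) := by gcongr
      _ = A / (A + 1) * (e * (w + 1)) := by rw [hA]; ring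
      _ ≤ 1 * (e * (w + 1)) := by gcongr; rw [div_le_one (by positivity)]; linarith
      _ = _ := one_mul _
  linarith

theorem gapBaseS (hB : Basic) (hw : WidthS) : GapBaseS := by
  intro P M hM γ hγ
  have hP := hB.1 P M hM
  have hb := hP.bm_nonneg
  have hk := hP.k0_pos
  have hN := hP.N_pos
  set δ := γ / (3 * (P.bm M + 1)) with hδ
  have hδ0 : 0 < δ := by positivity
  have hδ' : 0 < δ ^ (1 - 1 / P.p) := Real.rpow_pos_of_pos hδ0 _
  obtain ⟨R, hR1, hR2, hR3⟩ := ((hP.tail.eventually (ge_mem_nhds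
    (show 0 < δ / P.N M by positivity))).and ((eventually_ge_atTop 1).and (eventually_ge_atTop P.d))).exists
  refine ⟨2 * R, by linarith, fun B0 => ⟨max B0 1, le_max_left _ _, by positivity, ?_⟩⟩
  set B := max B0 1
  have hB0 : 0 < B := by positivity
  obtain ⟨μ, hμ, hW⟩ := hw P M hM B (1 / 4) hB0 (by norm_num)
  refine ⟨min μ (δ / (P.k0 * δ ^ (1 - 1 / P.p))), by positivity, fun L τ x h1 h2 h3 => ?_⟩
  have hL := hB.2.1 P M L hM
  have hy : L.Y τ x ≤ L.Y τ (x + 2 * R) := (hL.Y_mono τ).monotone (by linarith)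
  have key : ∀ r ∈ Icc (τ - B) τ, P.Φ 0 - L.v r (L.X r (L.Y τ x)) ≤ γ := fun r hr => by
    have h4 := hW L _ _ τ r hy (h3.trans (min_le_left _ _)) (by linarith [hr.1]) hr.2 h2
      (by linarith [hr.1])
    rw [L.XY, L.XY] at h4
    set x1 := L.X r (L.Y τ x) with hx1
    have h5 := Z_le hP hL hδ0 r x1 (R := R) (by linarith)
    have h6 : L.Q r (x1 + R) - L.Q r x1 ≤ δ / (P.k0 * δ ^ (1 - 1 / P.p)) := by
      have := Q_mono hL r (a := x1 + R) (b := L.X r (L.Y τ (x + 2 * R))) (by linarith)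
      rw [hL.Q_X] at this
      have h7 := h3.trans (min_le_right _ _)
      rw [hx1, hL.Q_X, ← hx1]
      unfold Lag.Q at h7
      linarith
    rw [le_div_iff₀' (by positivity)] at h6
    rw [le_div_iff₀' hN] at hR1
    have h7 : L.Z r x1 ≤ 3 * δ := by linarith
    have h8 := hP.Φ_lip 0 ⟨le_rfl, hN.le⟩ _ (hL.Z_mem r x1)
    rw [zero_sub, abs_neg, abs_of_nonneg (hL.Z_mem r x1).1] at h8
    calc _ ≤ P.bm M * L.Z r x1 := (le_abs_self _).trans h8
      _ ≤ (P.bm M + 1) * (3 * δ) := by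
        have := (hL.Z_mem r x1).1
        gcongr; linarith
      _ = γ := by rw [hδ]; field_simp
  rw [hL.dfc_int _ _ ⟨by linarith, by linarith⟩ _ ⟨by linarith, h2⟩]
  refine (intervalIntegral.integral_mono_on (by linarith)
    ((continuous_const.sub (cont_v hL _)).intervalIntegrable _ _) intervalIntegrable_const
    key).trans_eq ?_
  rw [intervalIntegral.integral_const, smul_eq_mul]; ring

theorem gapBlockS (hB : Basic) (hb : GapBaseS) (hs : GapStepS) : GapBlockS := by
  intro P M hM hS γ hγ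
  have hP := hB.1 P M hM
  have hN := hP.N_pos
  have hd := hP.d_pos
  have hm := P.hm0
  have hs1 := P.hs1
  have hD : 0 ≤ P.DV M := mul_nonneg hP.bm_nonneg hN.le
  obtain ⟨B, hB1, hB0, μ, hμ, hG⟩ := gap_d hB hb hs hM hS (γ := γ / 6) (by positivity)
    (max 2 (6 * P.s1 / γ))
  have hB2 : 2 ≤ B := (le_max_left _ _).trans hB1
  have hB3 : 6 * P.s1 ≤ B * γ := (div_le_iff₀ hγ).1 ((le_max_right _ _).trans hB1)
  have hA : 0 < P.N M ^ (1 / P.p - 1) := Real.rpow_pos_of_pos hN _
  set A := P.N M ^ (1 / P.p - 1) with hAe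
  obtain ⟨b0, hb0, hbl⟩ := hP.b_low hS (P.m0 * (2 * P.d) * μ / A) (by positivity)
  set θ := min (1 / 2) (γ / (6 * (P.DV M + 1))) with hθ
  have hθ0 : 0 < θ := by positivity
  have hθ1 : θ ≤ 1 / 2 := min_le_left _ _
  have hθ2 : θ * (6 * (P.DV M + 1)) ≤ γ := (le_div_iff₀ (by positivity)).1 (min_le_right _ _)
  set c := b0 * (P.m0 * μ / A) with hc
  have hc0 : 0 < c := by positivity
  refine ⟨B, (P.DV M + 1) / (c * θ), hB2, by positivity, fun L y t1 t2 h1 h2 h3 h4 => ?_⟩
  have hL := hB.2.1 P M L hM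
  have hcont : Continuous fun τ => L.bG τ y :=
    hL.bG_cont.comp (continuous_id.prodMk continuous_const)
  have hθB : θ * B ≤ B / 2 := by nlinarith
  have hθB0 : 0 < θ * B := by positivity
  have hI : ∀ a b, a ≤ b → 0 ≤ ∫ τ in a..b, L.bG τ y := fun a b h =>
    intervalIntegral.integral_nonneg h fun τ _ => (hL.bG_mem τ y).1
  by_cases H : ∀ τ ∈ Icc (t2 - θ * B) t2, c ≤ L.bG τ y
  · have h5 := intervalIntegral.integral_mono_on (μ := volume) (by linarith) intervalIntegrable_const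
      (hcont.intervalIntegrable _ _) H
    rw [intervalIntegral.integral_const, smul_eq_mul] at h5
    have h6 := hI t1 (t2 - θ * B) (by linarith)
    have h7 := intervalIntegral.integral_add_adjacent_intervals
      (hcont.intervalIntegrable (μ := volume) t1 (t2 - θ * B)) (hcont.intervalIntegrable _ t2)
    have h8 := (hL.dfc_mem y t1 t2 (by linarith) (by linarith) h2).2
    have h9 : (P.DV M + 1) / (c * θ) * (θ * B * c) ≤
        (P.DV M + 1) / (c * θ) * ∫ τ in t1..t2, L.bG τ y := by gcongr; linarith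
    have h10 : (P.DV M + 1) / (c * θ) * (θ * B * c) = (P.DV M + 1) * B := by field_simp
    nlinarith
  · push Not at H
    obtain ⟨τ, hτ, H⟩ := H
    have hμ' : L.Q τ (L.X τ y + P.s1 + P.d) - L.Q τ (L.X τ y + P.s1) ≤ μ := by
      by_cases hz : P.m0 * (2 * P.d) * μ / A ≤ L.Z τ (L.X τ y)
      · have h5 := hbl _ ⟨hz, (hL.Z_mem _ _).2⟩
        have h6 := (hL.G_mem τ (L.X τ y)).1
        have h7 : L.G τ (L.X τ y) ≤ P.m0 * μ / A := by
          refine le_of_not_gt fun h => H.not_ge ?_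
          rw [hc, Lag.bG]
          have := h.le
          gcongr
          exact P.hb0 _
        have h8 := mass_le hP hL hm P.hgi.integrableOn P.hg0 (fun s hs => P.hgm s
          ⟨hs.1, hs.2.trans (by unfold Par.d; linarith [P.hs12])⟩) τ (L.X τ y)
        rw [le_div_iff₀' hA] at h7
        exact le_of_mul_le_mul_left (h8.trans h7) hm
      · have h8 := mass_le hP hL (c := P.m0 * (2 * P.d)) (by positivity) hP.k_int hP.k_nonneg
          (fun s hs => hP.k_mid.trans (hP.k_anti (by linarith [hs.2]))) τ (L.X τ y)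
        have h7 := (not_le.1 hz).le
        rw [le_div_iff₀' hA] at h7
        exact le_of_mul_le_mul_left (h8.trans h7) (by positivity)
    have h5 := hG L τ _ (by linarith [hτ.1]) (hτ.2.trans h2) hμ'
    set y' := L.Y τ (L.X τ y + P.s1) with hy'
    have hy : y ≤ y' := by
      rw [hy', ← L.YX τ y, L.XY]
      exact (hL.Y_mono τ).monotone (by linarith)
    have h6 := (hL.dfc_mem y' (τ - B) t1 (by linarith [hτ.1]) (by linarith [hτ.2])
      (by linarith)).1
    have h7 := (hL.dfc_mem y τ t2 (by linarith [hτ.1]) hτ.2 h2).2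
    have h8 := (hL.X_mono t1).monotone hy
    have h9 : L.X τ y' = L.X τ y + P.s1 := L.XY _ _
    have h10 : P.DV M * (t2 - τ) ≤ P.DV M * (θ * B) := by gcongr; linarith [hτ.1]
    have h11 : 0 ≤ (P.DV M + 1) / (c * θ) * ∫ τ in t1..t2, L.bG τ y :=
      mul_nonneg (by positivity) (hI _ _ (by linarith))
    have h12 : 6 * (P.DV M * (θ * B)) ≤ γ * B := by nlinarith
    have h13 : γ * (B / 2) ≤ γ * (t2 - t1) := by gcongr
    unfold Lag.dfc at h5 h6 h7 ⊢
    linarith

end MP34a893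

end MrgPart1

-- ======== part 2: formerly Pool.Agent.MP_34a893_an.VacA
section MrgPart2

open MeasureTheory Set Filter Topology
open scoped ENNReal

namespace MP34a893

noncomputable section

namespace Vac

variable {P : Par} {M : ℝ} (L : Lag P M)

/-- one killed and weighted step of the chain, acting on functions -/
def op (t h ε : ℝ) (w : ℝ → ℝ≥0∞) : ℝ → ℝ≥0∞ :=
  {y | L.U t y < ε}.indicator (fun y => ENNReal.ofReal (L.j (t - h) y / L.j t y) *
    ∫⁻ ξ, w (L.step t h y ξ) ∂P.noise)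

lemma op_meas (hP : P.Facts M) (hF : L.Facts) (hS : L.Step) (t h ε : ℝ) (w : ℝ → ℝ≥0∞)
    (hw : Measurable w) : Measurable (op L t h ε w) := by
  have := hP.noise_prob
  have hU : Measurable (L.U t) := hF.U_meas.of_uncurry_left
  have hj : ∀ s, Measurable (L.j s) := fun s => L.j_meas.of_uncurry_left
  refine Measurable.indicator ?_ (measurableSet_lt hU measurable_const)
  refine Measurable.mul (((hj _).div (hj _)).ennreal_ofReal) ?_
  exact Measurable.lintegral_prod_right' (f := fun z : ℝ × (ℝ × ℝ × ℝ) => w (L.step t h z.1 z.2))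
    (hw.comp (hS.step_meas t h))

lemma C0_nonneg (hP : P.Facts M) : 0 ≤ P.C0 M :=
  mul_nonneg (mul_nonneg hP.bm_nonneg hP.k0_pos.le) hP.N_pos.le

lemma DV_nonneg (hP : P.Facts M) : 0 ≤ P.DV M := mul_nonneg hP.bm_nonneg hP.N_pos.le

lemma U_nonneg (hF : L.Facts) (t y : ℝ) : 0 ≤ L.U t y := hF.u_nonneg _ _

lemma U_le (hP : P.Facts M) (hF : L.Facts) {t h ε y τ : ℝ} (hh : P.Small M h) (ht : h ≤ t)
    (hT : t ≤ L.T) (hy : L.U t y < ε) (hτ : τ ∈ Icc (t - h) t) : L.U τ y ≤ 2 * ε := by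
  obtain ⟨h0, -, -, h3⟩ := hh
  have h1 := hF.U_ratio y τ ⟨by linarith [hτ.1], by linarith [hτ.2]⟩ t ⟨by linarith, hT⟩
  have h2 : |τ - t| ≤ h := abs_le.2 ⟨by linarith [hτ.1], by linarith [hτ.2]⟩
  have h4 : P.C0 M * |τ - t| ≤ Real.log 2 := by
    have := mul_le_mul_of_nonneg_left h2 (C0_nonneg hP)
    have := Real.log_two_gt_d9
    linarith
  have h5 : Real.exp (P.C0 M * |τ - t|) ≤ 2 := by
    have := Real.exp_le_exp.2 h4
    rwa [Real.exp_log (by norm_num)] at this
  have h6 := U_nonneg L hF t y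
  calc L.U τ y ≤ _ := h1
    _ ≤ 2 * L.U t y := mul_le_mul_of_nonneg_right h5 h6
    _ ≤ 2 * ε := by linarith

lemma rate_le (hP : P.Facts M) (hF : L.Facts) {t h ε y τ : ℝ} (hh : P.Small M h) (ht : h ≤ t)
    (hT : t ≤ L.T) (hy : L.U t y < ε) (hτ : τ ∈ Icc (t - h) t) :
    L.rate τ y ≤ P.bm M * (2 * ε) := by
  have h1 := U_le L hP hF hh ht hT hy hτ
  have h2 := hP.b_le _ (hF.Z_mem τ (L.X τ y))
  have h3 := P.hb0 (L.Z τ (L.X τ y))
  have h4 := U_nonneg L hF τ y
  have h5 : P.p * P.b (L.Z τ (L.X τ y)) ≤ P.bm M := by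
    have := mul_le_mul_of_nonneg_right P.hp1.le h3
    linarith
  exact mul_le_mul h5 h1 h4 hP.bm_nonneg

lemma op_leb (hP : P.Facts M) (hF : L.Facts) (hS : L.Step) {t h ε : ℝ} (hε : 0 < ε)
    (hh : P.Small M h) (ht : h ≤ t) (hT : t ≤ L.T) (w : ℝ → ℝ≥0∞) (hw : Measurable w) :
    ∫⁻ y, op L t h ε w y * ENNReal.ofReal (L.j t y) ≤
      ENNReal.ofReal (1 + 2 * (P.bm M * (2 * ε)) * P.k0 * h) *
        ∫⁻ y, w y * ENNReal.ofReal (L.j (t - h) y) := by
  have hU : Measurable (L.U t) := hF.U_meas.of_uncurry_left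
  have hA : MeasurableSet {y | L.U t y < ε} := measurableSet_lt hU measurable_const
  refine le_trans (le_of_eq ?_) (hS.leb t h hh ht hT _ hA (P.bm M * (2 * ε))
    (mul_nonneg hP.bm_nonneg (by linarith)) (fun y hy τ hτ => rate_le L hP hF hh ht hT hy hτ) w hw)
  rw [← lintegral_indicator hA]
  refine lintegral_congr fun y => ?_
  by_cases hy : y ∈ {y | L.U t y < ε}
  · rw [op, indicator_of_mem hy, indicator_of_mem hy, mul_right_comm,
      ← ENNReal.ofReal_mul (div_pos (L.j_pos _ _) (L.j_pos _ _)).le,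
      div_mul_cancel₀ _ (L.j_pos _ _).ne', mul_comm]
  · rw [op, indicator_of_notMem hy, indicator_of_notMem hy, zero_mul]

lemma bG_ii (hF : L.Facts) (y t1 t2 : ℝ) :
    IntervalIntegrable (fun τ => L.bG τ y) volume t1 t2 :=
  (hF.bG_cont.comp (continuous_id.prodMk continuous_const)).intervalIntegrable _ _

lemma logj_ge (hP : P.Facts M) (hF : L.Facts) {t h ε y : ℝ} (hh : P.Small M h) (ht : h ≤ t)
    (hT : t ≤ L.T) (hy : L.U t y < ε) :
    (∫ τ in (t - h)..t, L.bG τ y) - P.bm M * (2 * ε) * P.k0 * h ≤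
      Real.log (L.j (t - h) y) - Real.log (L.j t y) := by
  have h0 := hh.1
  have e := hF.logj y (t - h) ⟨by linarith, by linarith⟩ t ⟨by linarith, hT⟩
  have hb : Continuous (fun τ => P.b (L.Z τ (L.X τ y))) :=
    P.hb.comp (L.Z_cont.comp (continuous_id.prodMk
      (L.X_cont.comp (continuous_id.prodMk continuous_const))))
  have hsub : uIcc (t - h) t ⊆ Icc 0 L.T := by
    rw [uIcc_of_le (by linarith)]
    exact Icc_subset_Icc (by linarith) hT
  have hi : IntervalIntegrable (fun τ => P.b (L.Z τ (L.X τ y)) * (P.k0 * L.U τ y)) volume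
      (t - h) t :=
    (hb.continuousOn.mul (continuousOn_const.mul ((hF.U_cont y).mono hsub))).intervalIntegrable
  rw [intervalIntegral.integral_sub hi (bG_ii L hF y _ _)] at e
  have hm : ∫ τ in (t - h)..t, P.b (L.Z τ (L.X τ y)) * (P.k0 * L.U τ y) ≤
      ∫ τ in (t - h)..t, P.bm M * (P.k0 * (2 * ε)) := by
    refine intervalIntegral.integral_mono_on (by linarith) hi intervalIntegrable_const ?_
    intro τ hτ
    exact mul_le_mul (hP.b_le _ (hF.Z_mem _ _))
      (mul_le_mul_of_nonneg_left (U_le L hP hF hh ht hT hy hτ) hP.k0_pos.le)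
      (mul_nonneg hP.k0_pos.le (U_nonneg L hF _ _)) hP.bm_nonneg
  rw [intervalIntegral.integral_const, smul_eq_mul] at hm
  have : (t - (t - h)) * (P.bm M * (P.k0 * (2 * ε))) = P.bm M * (2 * ε) * P.k0 * h := by ring
  linarith

/-- cost of a move from `y` to `y'` -/
def cost (B t y y' : ℝ) : ℝ := L.X t y' - L.X t y + if y' = y then 0 else P.DV M * B

/-- the claim carried by the backward induction -/
def Cl (θ ε : ℝ) (w : ℝ → ℝ≥0∞) (t R y lam c : ℝ) : Prop :=
  1 ≤ ENNReal.ofReal (Real.exp lam) * w y + ENNReal.ofReal (θ * c + L.U t y / ε + R)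

lemma lint_U (hP : P.Facts M) (hF : L.Facts) (hS : L.Step) {t h : ℝ} (hh : P.Small M h)
    (ht : h ≤ t) (hT : t ≤ L.T) (y : ℝ) :
    ∫⁻ ξ, ENNReal.ofReal (L.U (t - h) (L.step t h y ξ)) ∂P.noise ≤
      ENNReal.ofReal (L.U t y + P.E1 M * h ^ 2) := by
  have := hP.noise_prob
  have hU : Measurable (L.U (t - h)) := hF.U_meas.of_uncurry_left
  have hst : Measurable (fun ξ => L.step t h y ξ) :=
    (hS.step_meas t h).comp (measurable_const.prodMk measurable_id)
  have hi : Integrable (fun ξ => L.U (t - h) (L.step t h y ξ)) P.noise := by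
    refine Integrable.of_bound (hU.comp hst).aestronglyMeasurable (P.N M) (ae_of_all _ fun ξ => ?_)
    rw [Real.norm_eq_abs, abs_of_nonneg (U_nonneg L hF _ _)]
    exact L.u_le _ _
  rw [← ofReal_integral_eq_lintegral_ofReal hi (ae_of_all _ fun ξ => U_nonneg L hF _ _)]
  refine ENNReal.ofReal_le_ofReal ?_
  have := (abs_le.1 (hS.mart t h hh ht hT y)).2
  unfold Lag.Pop at this
  linarith

lemma lint_cost (hP : P.Facts M) (hF : L.Facts) (hS : L.Step) {t h ε y B : ℝ} (hε : 0 < ε)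
    (hB : 0 ≤ B) (hh : P.Small M h) (ht : h ≤ t) (hT : t ≤ L.T) (hy : L.U t y < ε) :
    ∫⁻ ξ, ENNReal.ofReal (cost L B (t - h) y (L.step t h y ξ)) ∂P.noise ≤
      ENNReal.ofReal (P.bm M * (2 * ε) * (1 + P.k0 * P.DV M * (1 + B)) * h) := by
  have hst : Measurable (fun ξ => L.step t h y ξ) :=
    (hS.step_meas t h).comp (measurable_const.prodMk measurable_id)
  have hA : MeasurableSet {ξ | L.step t h y ξ ≠ y} :=
    (measurableSet_eq_fun hst measurable_const).compl
  have hr : ∀ τ ∈ Icc (t - h) t, L.rate τ y ≤ P.bm M * (2 * ε) :=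
    fun τ hτ => rate_le L hP hF hh ht hT hy hτ
  have h1 := hS.disp t h hh ht hT y _ hr
  have h2 := hS.jump_prob t h hh y _ hr
  have hD := DV_nonneg hP
  have hk := hP.k0_pos.le
  have hr0 : 0 ≤ P.bm M * (2 * ε) := mul_nonneg hP.bm_nonneg (by linarith)
  have h0 := hh.1.le
  calc _ ≤ ∫⁻ ξ, (ENNReal.ofReal (L.X (t - h) (L.step t h y ξ) - L.X (t - h) y) +
        {ξ | L.step t h y ξ ≠ y}.indicator (fun _ => ENNReal.ofReal (P.DV M * B)) ξ) ∂P.noise := by
        refine lintegral_mono fun ξ => ?_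
        refine ENNReal.ofReal_add_le.trans (add_le_add le_rfl ?_)
        by_cases e : L.step t h y ξ = y
        · simp [e]
        · rw [if_neg e, indicator_of_mem (by exact e)]
    _ = ∫⁻ ξ, ENNReal.ofReal (L.X (t - h) (L.step t h y ξ) - L.X (t - h) y) ∂P.noise +
        ENNReal.ofReal (P.DV M * B) * P.noise {ξ | L.step t h y ξ ≠ y} := by
        rw [lintegral_add_right _ (measurable_const.indicator hA), lintegral_indicator_const hA]
    _ ≤ ENNReal.ofReal (P.bm M * (2 * ε) * h * (1 + P.k0 * P.DV M)) +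
        ENNReal.ofReal (P.DV M * B) * ENNReal.ofReal (P.bm M * (2 * ε) * P.k0 * h) :=
        add_le_add h1 (mul_le_mul_right h2 _)
    _ = _ := by
        rw [← ENNReal.ofReal_mul (by positivity), ← ENNReal.ofReal_add (by positivity)
          (by positivity)]
        congr 1
        ring

lemma cost_nonneg (hP : P.Facts M) (hF : L.Facts) {B t y y' : ℝ} (hB : 0 ≤ B) (hy : y ≤ y') :
    L.X t y' - L.X t y ≤ cost L B t y y' ∧ 0 ≤ cost L B t y y' := by
  have h1 := (hF.X_mono t).monotone hy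
  have h2 := mul_nonneg (DV_nonneg hP) hB
  unfold cost
  split_ifs <;> constructor <;> linarith

lemma cl_step (hP : P.Facts M) (hF : L.Facts) (hS : L.Step) {t h ε θ y B R lam c : ℝ} (hε : 0 < ε)
    (hθ : 0 ≤ θ) (hB : 0 ≤ B) (hR : 0 ≤ R) (hc : 0 ≤ c) (hh : P.Small M h) (ht : h ≤ t)
    (hT : t ≤ L.T) (w : ℝ → ℝ≥0∞) (hw : Measurable w)
    (H : L.U t y < ε → ∀ y', y ≤ y' → Cl L θ ε w (t - h) R y'
      (lam + (Real.log (L.j (t - h) y) - Real.log (L.j t y))) (c + cost L B (t - h) y y')) :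
    Cl L θ ε (op L t h ε w) t
      (R + (θ * (P.bm M * (2 * ε) * (1 + P.k0 * P.DV M * (1 + B)) * h) + P.E1 M * h ^ 2 / ε))
      y lam c := by
  have := hP.noise_prob
  have hD := DV_nonneg hP
  have hk := hP.k0_pos.le
  have hbm := hP.bm_nonneg
  have h0 := hh.1.le
  have hE : 0 ≤ P.E1 M := mul_nonneg (by positivity) hP.N_pos.le
  have hU0 := U_nonneg L hF t y
  by_cases hy : L.U t y < ε
  swap
  · unfold Cl
    refine le_trans ?_ le_add_self
    rw [ENNReal.one_le_ofReal]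
    have h1 : 1 ≤ L.U t y / ε := (one_le_div hε).2 (not_lt.1 hy)
    have h2 : 0 ≤ θ * c := mul_nonneg hθ hc
    have h3 : 0 ≤ θ * (P.bm M * (2 * ε) * (1 + P.k0 * P.DV M * (1 + B)) * h) := by positivity
    have h4 : 0 ≤ P.E1 M * h ^ 2 / ε := by positivity
    linarith
  have hst : Measurable (fun ξ => L.step t h y ξ) :=
    (hS.step_meas t h).comp (measurable_const.prodMk measurable_id)
  have hU : Measurable (L.U (t - h)) := hF.U_meas.of_uncurry_left
  have hexp : Real.exp (lam + (Real.log (L.j (t - h) y) - Real.log (L.j t y))) =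
      Real.exp lam * (L.j (t - h) y / L.j t y) := by
    rw [Real.exp_add, Real.exp_sub, Real.exp_log (L.j_pos _ _), Real.exp_log (L.j_pos _ _)]
  have key : ∀ ξ, (1 : ℝ≥0∞) ≤
      ENNReal.ofReal (Real.exp lam * (L.j (t - h) y / L.j t y)) * w (L.step t h y ξ) +
      (ENNReal.ofReal (θ * c + R) + (ENNReal.ofReal ε⁻¹ *
        ENNReal.ofReal (L.U (t - h) (L.step t h y ξ)) +
        ENNReal.ofReal θ * ENNReal.ofReal (cost L B (t - h) y (L.step t h y ξ)))) := by
    intro ξ
    have h1 := H hy _ (hS.le_step t h y ξ)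
    unfold Cl at h1
    rw [hexp] at h1
    refine h1.trans (add_le_add le_rfl ?_)
    rw [← ENNReal.ofReal_mul (by positivity), ← ENNReal.ofReal_mul hθ]
    refine le_trans (le_of_eq ?_) (ENNReal.ofReal_add_le.trans
      (add_le_add le_rfl ENNReal.ofReal_add_le))
    congr 1
    rw [div_eq_mul_inv]
    ring
  have h2 := lintegral_mono (μ := P.noise) key
  have m1 : Measurable (fun ξ => w (L.step t h y ξ)) := hw.comp hst
  have m2 : Measurable (fun ξ => ENNReal.ofReal (L.U (t - h) (L.step t h y ξ))) :=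
    (hU.comp hst).ennreal_ofReal
  rw [lintegral_one, measure_univ, lintegral_add_left (m1.const_mul _),
    lintegral_add_left measurable_const,
    lintegral_add_left (m2.const_mul _), lintegral_const,
    measure_univ, mul_one, lintegral_const_mul' _ _ ENNReal.ofReal_ne_top,
    lintegral_const_mul' _ _ ENNReal.ofReal_ne_top,
    lintegral_const_mul' _ _ ENNReal.ofReal_ne_top] at h2
  unfold Cl
  refine h2.trans (add_le_add (le_of_eq ?_) ?_)
  · rw [op, indicator_of_mem (by exact hy), ENNReal.ofReal_mul (Real.exp_pos _).le, mul_assoc]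
  · refine (add_le_add le_rfl (add_le_add (mul_le_mul_right (lint_U L hP hF hS hh ht hT y) _)
      (mul_le_mul_right (lint_cost L hP hF hS hε hB hh ht hT hy) _))).trans (le_of_eq ?_)
    rw [← ENNReal.ofReal_mul (by positivity), ← ENNReal.ofReal_mul hθ,
      ← ENNReal.ofReal_add (by positivity) (by positivity),
      ← ENNReal.ofReal_add (by positivity) (by positivity)]
    congr 1
    rw [div_eq_mul_inv, div_eq_mul_inv]
    ring

end Vac

end

end MP34a893

end MrgPart2

-- ======== part 3: formerly Pool.Agent.MP_34a893_an.Vac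
section MrgPart3

open MeasureTheory Set Filter Topology
open scoped ENNReal

namespace MP34a893

noncomputable section

namespace Vac

variable {P : Par} {M : ℝ} (L : Lag P M)

/-- excess of expansion over deficit of particle `y` on `[t1,t2]` -/
def EE (K γ y t1 t2 : ℝ) : ℝ :=
  K * (∫ τ in t1..t2, L.bG τ y) + γ * (t2 - t1) - L.dfc y t1 t2

lemma EE_add (hF : L.Facts) (K γ y t1 t2 t3 : ℝ) :
    EE L K γ y t1 t3 = EE L K γ y t1 t2 + EE L K γ y t2 t3 := by
  unfold EE Lag.dfc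
  rw [← intervalIntegral.integral_add_adjacent_intervals (bG_ii L hF y t1 t2)
    (bG_ii L hF y t2 t3)]
  ring

lemma EE_ge (hF : L.Facts) {K γ y t1 t2 : ℝ} (hK : 0 ≤ K) (hγ : 0 ≤ γ) (h1 : 0 ≤ t1)
    (h2 : t1 ≤ t2) (h3 : t2 ≤ L.T) : -(P.DV M * (t2 - t1)) ≤ EE L K γ y t1 t2 := by
  have a1 := (hF.dfc_mem y t1 t2 h1 h2 h3).2
  have a2 : 0 ≤ ∫ τ in t1..t2, L.bG τ y :=
    intervalIntegral.integral_nonneg h2 fun τ _ => (hF.bG_mem τ y).1
  have a3 := mul_nonneg hK a2
  have a4 : 0 ≤ γ * (t2 - t1) := mul_nonneg hγ (by linarith)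
  unfold EE
  linarith

/-- score of a state -/
def DD (K γ ε x0 t y lam c : ℝ) : ℝ :=
  K * lam + c - L.X t y - (K * (P.bm M * (2 * ε) * P.k0) + γ - P.Φ 0) * t + x0

/-- invariant of a state at time `t` in the block with lower end `tb` -/
def Inv (K γ ε B y0 x0 x1 tb t y lam c : ℝ) : Prop :=
  0 ≤ c ∧ y0 ≤ y ∧ L.X t y ≤ x1 - P.Vm M * t + c ∧
    0 ≤ DD L K γ ε x0 t y lam c + EE L K γ y tb t ∧
    -(P.DV M * (B - (t - tb))) ≤ DD L K γ ε x0 t y lam c

lemma inv_step (hP : P.Facts M) (hF : L.Facts) {K γ ε B y0 x0 x1 tb t h y y' lam c : ℝ}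
    (hK : 0 ≤ K) (hγ : 0 ≤ γ) (hh : P.Small M h) (h0 : 0 ≤ tb) (h1 : tb ≤ t - h) (hT : t ≤ L.T)
    (hB : t - tb ≤ B) (hy : L.U t y < ε) (hyy : y ≤ y')
    (H : Inv L K γ ε B y0 x0 x1 tb t y lam c) :
    Inv L K γ ε B y0 x0 x1 tb (t - h) y'
      (lam + (Real.log (L.j (t - h) y) - Real.log (L.j t y))) (c + cost L B (t - h) y y') := by
  obtain ⟨i0, i1, i2, i3, i4⟩ := H
  have hpos := hh.1
  have hD := DV_nonneg hP
  have hB0 : 0 ≤ B := by linarith
  obtain ⟨c1, c2⟩ := cost_nonneg L hP hF (t := t - h) hB0 hyy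
  have hl := mul_le_mul_of_nonneg_left (logj_ge L hP hF hh (by linarith) hT hy) hK
  have hX := hF.X_lip y (t - h) ⟨by linarith, by linarith⟩ t ⟨by linarith, hT⟩
  rw [show t - h - t = -h by ring, abs_neg, abs_of_pos hpos] at hX
  have hX2 := (abs_le.1 hX).2
  have hE := EE_ge L hF (y := y) hK hγ (by linarith : 0 ≤ t - h) (by linarith : t - h ≤ t) hT
  have key : DD L K γ ε x0 t y lam c + EE L K γ y (t - h) t +
      (if y' = y then 0 else P.DV M * B) ≤ DD L K γ ε x0 (t - h) y'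
      (lam + (Real.log (L.j (t - h) y) - Real.log (L.j t y))) (c + cost L B (t - h) y y') := by
    unfold DD EE cost Lag.dfc
    linarith
  refine ⟨by linarith, by linarith, by linarith, ?_, ?_⟩
  · by_cases e : y' = y
    · rw [if_pos e] at key
      have := EE_add L hF K γ y tb (t - h) t
      rw [e] at key ⊢
      linarith
    · rw [if_neg e] at key
      have := EE_ge L hF (y := y') hK hγ h0 h1 (by linarith)
      linarith
  · by_cases e : y' = y
    · rw [if_pos e] at key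
      linarith
    · rw [if_neg e] at key
      have a1 : 0 ≤ P.DV M * (t - h - tb) := mul_nonneg hD (by linarith)
      have a2 : 0 ≤ P.DV M * (B - (t - h - tb)) := mul_nonneg hD (by linarith)
      linarith

/-- weight functions of the killed chain, `k` steps above the final time `T0` -/
def wt (T0 h ε : ℝ) (φ : ℝ → ℝ≥0∞) : ℕ → ℝ → ℝ≥0∞
  | 0 => φ
  | k + 1 => op L (T0 + (k + 1 : ℕ) * h) h ε (wt T0 h ε φ k)

lemma wt_meas (hP : P.Facts M) (hF : L.Facts) (hS : L.Step) (T0 h ε : ℝ) (φ : ℝ → ℝ≥0∞)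
    (hφ : Measurable φ) (k : ℕ) : Measurable (wt L T0 h ε φ k) := by
  induction k with
  | zero => exact hφ
  | succ k ih => exact op_meas L hP hF hS _ _ _ _ ih

lemma wt_leb (hP : P.Facts M) (hF : L.Facts) (hS : L.Step) {T0 h ε : ℝ} (hε : 0 < ε)
    (hh : P.Small M h) (hT0 : 0 ≤ T0) (φ : ℝ → ℝ≥0∞) (hφ : Measurable φ) (k : ℕ)
    (hk : T0 + k * h ≤ L.T) :
    ∫⁻ y, wt L T0 h ε φ k y * ENNReal.ofReal (L.j (T0 + k * h) y) ≤
      ENNReal.ofReal (Real.exp (2 * (P.bm M * (2 * ε)) * P.k0 * (k * h))) *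
        ∫⁻ y, φ y * ENNReal.ofReal (L.j T0 y) := by
  have hpos := hh.1
  induction k with
  | zero => simp [wt]
  | succ k ih =>
    have hk0 : 0 ≤ (k : ℝ) * h := by positivity
    have e : T0 + ((k + 1 : ℕ) : ℝ) * h - h = T0 + k * h := by push_cast; ring
    have a1 := op_leb L hP hF hS hε hh (t := T0 + ((k + 1 : ℕ) : ℝ) * h) (by linarith) hk _
      (wt_meas L hP hF hS T0 h ε φ hφ k)
    rw [e] at a1
    refine a1.trans ((mul_le_mul (ENNReal.ofReal_le_ofReal
      (q := Real.exp (2 * (P.bm M * (2 * ε)) * P.k0 * h)) ?_) (ih (by linarith)) bot_le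
      bot_le).trans (le_of_eq ?_))
    · have := Real.add_one_le_exp (2 * (P.bm M * (2 * ε)) * P.k0 * h)
      linarith
    · rw [← mul_assoc, ← ENNReal.ofReal_mul (Real.exp_pos _).le, ← Real.exp_add]
      congr 3
      push_cast
      ring

lemma cl_all (hP : P.Facts M) (hF : L.Facts) (hS : L.Step)
    {K γ ε B θ y0 x0 x1 T0 h : ℝ} {l : ℕ} (hK : 0 ≤ K) (hγ : 0 ≤ γ) (hε : 0 < ε) (hθ : 0 ≤ θ)
    (hh : P.Small M h) (hT0 : 0 ≤ T0) (hl : l * h ≤ B) (φ : ℝ → ℝ≥0∞) (hφ : Measurable φ)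
    (hgap : ∀ y t1, T0 ≤ t1 → t1 + l * h ≤ L.T → 0 ≤ EE L K γ y t1 (t1 + l * h))
    (hend : ∀ y lam c, Inv L K γ ε B y0 x0 x1 T0 T0 y lam c → Cl L θ ε φ T0 0 y lam c)
    (i : ℕ) (hi : T0 + (i * l : ℕ) * h ≤ L.T) (y lam c : ℝ)
    (H0 : 0 ≤ c) (H1 : y0 ≤ y) (H2 : L.X (T0 + (i * l : ℕ) * h) y ≤
      x1 - P.Vm M * (T0 + (i * l : ℕ) * h) + c)
    (H3 : 0 ≤ DD L K γ ε x0 (T0 + (i * l : ℕ) * h) y lam c) :
    Cl L θ ε (wt L T0 h ε φ (i * l)) (T0 + (i * l : ℕ) * h)
      ((i * l : ℕ) * (θ * (P.bm M * (2 * ε) * (1 + P.k0 * P.DV M * (1 + B)) * h) +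
        P.E1 M * h ^ 2 / ε)) y lam c := by
  have hpos := hh.1
  have hD := DV_nonneg hP
  have hk := hP.k0_pos.le
  have hbm := hP.bm_nonneg
  have hE : 0 ≤ P.E1 M := mul_nonneg (by positivity) hP.N_pos.le
  have hB0 : 0 ≤ B := le_trans (by positivity) hl
  set δ := θ * (P.bm M * (2 * ε) * (1 + P.k0 * P.DV M * (1 + B)) * h) + P.E1 M * h ^ 2 / ε
    with hδ
  have hδ0 : 0 ≤ δ := by positivity
  have EE0 : ∀ y t, EE L K γ y t t = 0 := by
    intro y t
    simp [EE, Lag.dfc]
  induction i generalizing y lam c with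
  | zero =>
    simp only [zero_mul, Nat.cast_zero, add_zero] at H2 H3 ⊢
    refine hend y lam c ⟨H0, H1, H2, by rw [EE0]; linarith, ?_⟩
    have : 0 ≤ P.DV M * (B - (T0 - T0)) := mul_nonneg hD (by linarith)
    linarith
  | succ i ih =>
    have hlh : 0 ≤ (l : ℝ) * h := by positivity
    have hih : 0 ≤ ((i * l : ℕ) : ℝ) * h := by positivity
    have e1 : T0 + (((i + 1) * l : ℕ) : ℝ) * h = T0 + ((i * l : ℕ) : ℝ) * h + l * h := by
      push_cast; ring
    have inner : ∀ r : ℕ, r ≤ l → ∀ y lam c,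
        Inv L K γ ε B y0 x0 x1 (T0 + (i * l : ℕ) * h) (T0 + (i * l + r : ℕ) * h) y lam c →
        Cl L θ ε (wt L T0 h ε φ (i * l + r)) (T0 + (i * l + r : ℕ) * h)
          ((i * l + r : ℕ) * δ) y lam c := by
      intro r
      induction r with
      | zero =>
        intro _ y lam c H
        obtain ⟨i0, i1, i2, i3, -⟩ := H
        rw [add_zero] at i2 i3 ⊢
        rw [EE0, add_zero] at i3
        exact ih (by linarith) y lam c i0 i1 i2 i3
      | succ r ihr =>
        intro hr y lam c H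
        have hrl : ((r : ℝ) + 1) * h ≤ l * h := by
          refine mul_le_mul_of_nonneg_right ?_ hpos.le
          exact_mod_cast hr
        have hr0 : 0 ≤ (r : ℝ) * h := by positivity
        have e2 : T0 + ((i * l + (r + 1) : ℕ) : ℝ) * h - h = T0 + ((i * l + r : ℕ) : ℝ) * h := by
          push_cast; ring
        have e3 : T0 + ((i * l + (r + 1) : ℕ) : ℝ) * h =
            T0 + ((i * l : ℕ) : ℝ) * h + (r + 1) * h := by
          push_cast; ring
        have e4 : ((i * l + (r + 1) : ℕ) : ℝ) * δ = ((i * l + r : ℕ) : ℝ) * δ + δ := by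
          push_cast; ring
        rw [e4]
        refine cl_step L hP hF hS (t := T0 + ((i * l + (r + 1) : ℕ) : ℝ) * h) hε hθ hB0
          (by positivity) H.1 hh (by linarith) (by linarith) _
          (wt_meas L hP hF hS T0 h ε φ hφ (i * l + r)) ?_
        intro hy y' hyy
        have := inv_step L hP hF hK hγ hh (by linarith) (by linarith) (by linarith)
          (by linarith) hy hyy H
        rw [e2] at this ⊢
        exact ihr (by omega) _ _ _ this
    have e5 : (i + 1) * l = i * l + l := by ring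
    rw [e5] at H2 H3 ⊢
    refine inner l le_rfl y lam c ⟨H0, H1, H2, ?_, ?_⟩
    · have := hgap y (T0 + ((i * l : ℕ) : ℝ) * h) (by linarith) (by linarith)
      rw [← e1, e5] at this
      linarith
    · rw [← e5] at H3 ⊢
      have : 0 ≤ P.DV M * (B - (T0 + (((i + 1) * l : ℕ) : ℝ) * h -
          (T0 + ((i * l : ℕ) : ℝ) * h))) := mul_nonneg hD (by linarith)
      linarith

lemma lint_Y (hF : L.Facts) (t : ℝ) (f : ℝ → ℝ≥0∞) (hf : Measurable f) :
    ∫⁻ x, f (L.Y t x) = ∫⁻ y, f y * ENNReal.ofReal (L.j t y) := by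
  have hY : Measurable (L.Y t) :=
    (L.Y_cont.comp (continuous_const.prodMk continuous_id)).measurable
  have hj : Measurable (fun y => ENNReal.ofReal (L.j t y)) :=
    (L.j_meas.of_uncurry_left).ennreal_ofReal
  rw [← lintegral_map hf hY, hF.cov t, lintegral_withDensity_eq_lintegral_mul _ hj hf]
  exact lintegral_congr fun y => mul_comm _ _

lemma blocks {B S h0 : ℝ} (hB : 0 < B) (hS : B ≤ S) (hh0 : 0 < h0) :
    ∃ (n l : ℕ) (h : ℝ), 0 < h ∧ h ≤ h0 ∧ B / 2 ≤ l * h ∧ l * h ≤ B ∧ ((n * l : ℕ) : ℝ) * h = S := by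
  have hS0 : 0 < S := by linarith
  have h1 : 1 ≤ S / B := (one_le_div hB).2 hS
  have h2 : S / B ≤ (⌈S / B⌉₊ : ℝ) := Nat.le_ceil _
  have h3 : (⌈S / B⌉₊ : ℝ) < S / B + 1 := Nat.ceil_lt_add_one (by linarith)
  set n := ⌈S / B⌉₊ with hn
  have hn0 : (0 : ℝ) < n := by linarith
  obtain ⟨l, hl⟩ := exists_nat_gt (S / n / h0)
  have hl0 : (0 : ℝ) < l := lt_trans (by positivity) hl
  have e : (l : ℝ) * (S / n / l) = S / n := by field_simp
  refine ⟨n, l, S / n / l, by positivity, ?_, ?_, ?_, ?_⟩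
  · rw [div_lt_iff₀ hh0] at hl
    rw [div_le_iff₀ hl0]
    linarith
  · rw [e, le_div_iff₀ hn0]
    have h4 : (n : ℝ) ≤ 2 * (S / B) := by linarith
    have h5 := mul_le_mul_of_nonneg_left h4 (by linarith : 0 ≤ B / 2)
    have h6 : B / 2 * (2 * (S / B)) = S := by field_simp
    linarith
  · rw [e, div_le_iff₀ hn0]
    rw [div_le_iff₀ hB] at h2
    linarith
  · push_cast
    field_simp

lemma core (hP : P.Facts M) (hF : L.Facts) (hS : L.Step) {K γ0 ε B S τ a a' h : ℝ} {n l : ℕ}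
    (hK : 0 < K) (hγ : 0 < γ0) (hε : 0 < ε) (hS0 : 0 < S) (hh : P.Small M h) (hτ : S ≤ τ)
    (hT : τ ≤ L.T) (hl : l * h ≤ B) (hn : ((n * l : ℕ) : ℝ) * h = S)
    (hgap : ∀ y t1, τ - S ≤ t1 → t1 + l * h ≤ L.T → 0 ≤ EE L K (γ0 / 4) y t1 (t1 + l * h))
    (h1 : P.bm M * (2 * ε) * (1 + P.k0 * P.DV M * (1 + B)) ≤ γ0 / 16)
    (h2 : P.E1 M * S * h ≤ ε / 4)
    (hd : ∀ x ∈ Icc a a', γ0 * S ≤ L.dfc (L.Y τ x) (τ - S) τ) :
    volume {x | x ∈ Icc a a' ∧ L.u τ x < ε / 4} ≤
      ENNReal.ofReal (4 * Real.exp (-(γ0 / (2 * K) - 3 * (P.bm M * (2 * ε) * P.k0)) * S) *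
        (a' - a + (2 * P.Vm M + γ0 / 4) * S)) := by
  set η := P.bm M * (2 * ε) * P.k0 with hη
  set lo := a - P.Vm M * S with hlo
  set hi := a' + P.Vm M * S + γ0 / 4 * S with hhi
  have hXm : Measurable (L.X (τ - S)) :=
    (L.X_cont.comp (continuous_const.prodMk continuous_id)).measurable
  have hA : MeasurableSet {y | L.X (τ - S) y ∈ Icc lo hi} := hXm measurableSet_Icc
  set φ : ℝ → ℝ≥0∞ := {y | L.X (τ - S) y ∈ Icc lo hi}.indicator 1 with hφd
  have hφ : Measurable φ := measurable_const.indicator hA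
  have et : τ - S + ((n * l : ℕ) : ℝ) * h = τ := by rw [hn]; ring
  have hθ : 0 < 4 / (γ0 * S) := by positivity
  have hw := wt_meas L hP hF hS (τ - S) h ε φ hφ (n * l)
  have hY : Measurable (L.Y τ) :=
    (L.Y_cont.comp (continuous_const.prodMk continuous_id)).measurable
  have key : ∀ x ∈ {x | x ∈ Icc a a' ∧ L.u τ x < ε / 4},
      1 ≤ ENNReal.ofReal (4 * Real.exp (-(γ0 / (2 * K) - η) * S)) *
        wt L (τ - S) h ε φ (n * l) (L.Y τ x) := by
    rintro x ⟨hx, hu⟩
    have hdx := hd x hx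
    have hXx := L.XY τ x
    have c1 := cl_all L hP hF hS (K := K) (γ := γ0 / 4) (ε := ε) (B := B) (θ := 4 / (γ0 * S))
      (y0 := L.Y τ x) (x0 := K * ((γ0 / (2 * K) - η) * S) + x + (K * η + γ0 / 4 - P.Φ 0) * τ)
      (x1 := a' + P.Vm M * τ) (T0 := τ - S) (h := h) (l := l) hK.le (by linarith) hε hθ.le hh
      (by linarith) hl φ hφ hgap ?_ n (by linarith) (L.Y τ x) (-(γ0 / (2 * K) - η) * S) 0 le_rfl
      le_rfl (by rw [et, hXx]; linarith [hx.2]) (by rw [et]; unfold DD; rw [hXx, ← hη]; linarith)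
    · unfold Cl at c1
      rw [et] at c1
      have hU : L.U τ (L.Y τ x) = L.u τ x := by unfold Lag.U; rw [hXx]
      have b1 : L.u τ x / ε ≤ 1 / 4 := by rw [div_le_iff₀ hε]; linarith
      have b2 : ((n * l : ℕ) : ℝ) * (4 / (γ0 * S) *
          (P.bm M * (2 * ε) * (1 + P.k0 * P.DV M * (1 + B)) * h) + P.E1 M * h ^ 2 / ε) =
          4 / γ0 * (P.bm M * (2 * ε) * (1 + P.k0 * P.DV M * (1 + B))) + P.E1 M * S * h / ε := by
        have : ((n * l : ℕ) : ℝ) = S / h := by rw [eq_div_iff hh.1.ne', hn]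
        have := hh.1.ne'
        rw [‹((n * l : ℕ) : ℝ) = S / h›]
        field_simp
      have b3 : 4 / γ0 * (P.bm M * (2 * ε) * (1 + P.k0 * P.DV M * (1 + B))) ≤ 1 / 4 := by
        have := mul_le_mul_of_nonneg_left h1 (by positivity : 0 ≤ 4 / γ0)
        have e : 4 / γ0 * (γ0 / 16) = 1 / 4 := by field_simp; norm_num
        linarith
      have b4 : P.E1 M * S * h / ε ≤ 1 / 4 := by rw [div_le_iff₀ hε]; linarith
      rw [hU, b2] at c1
      have c2 := c1.trans (add_le_add le_rfl (ENNReal.ofReal_le_ofReal (q := 3 / 4) (by linarith)))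
      have e1 : (1 : ℝ≥0∞) = ENNReal.ofReal (1 / 4) + ENNReal.ofReal (3 / 4) := by
        rw [← ENNReal.ofReal_add (by norm_num) (by norm_num)]
        norm_num
      rw [e1, ENNReal.add_le_add_iff_right ENNReal.ofReal_ne_top] at c2
      have e2 : (1 : ℝ≥0∞) = ENNReal.ofReal 4 * ENNReal.ofReal (1 / 4) := by
        rw [← ENNReal.ofReal_mul (by norm_num)]
        norm_num
      rw [e2, ENNReal.ofReal_mul (by norm_num), mul_assoc]
      exact mul_le_mul_right c2 _
    · rintro y lam c ⟨i0, i1, i2, i3, -⟩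
      unfold Cl
      have hU0 : 0 ≤ L.U (τ - S) y / ε := div_nonneg (U_nonneg L hF _ _) hε.le
      by_cases hc : γ0 / 4 * S ≤ c
      · refine le_trans ?_ le_add_self
        rw [ENNReal.one_le_ofReal]
        have := mul_le_mul_of_nonneg_left hc hθ.le
        have e : 4 / (γ0 * S) * (γ0 / 4 * S) = 1 := by field_simp
        linarith
      · refine le_trans ?_ le_self_add
        have hc' := not_le.1 hc
        have m1 := (hF.X_mono (τ - S)).monotone i1
        have m2 := hF.X_lip (L.Y τ x) τ ⟨by linarith, hT⟩ (τ - S) ⟨by linarith, by linarith⟩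
        rw [show τ - (τ - S) = S by ring, abs_of_pos hS0, hXx] at m2
        have m3 := (abs_le.1 m2).2
        have hmem : y ∈ {y | L.X (τ - S) y ∈ Icc lo hi} :=
          ⟨by linarith [hx.1], by linarith⟩
        rw [hφd, indicator_of_mem hmem, Pi.one_apply, mul_one, ENNReal.one_le_ofReal]
        refine Real.one_le_exp ?_
        have e0 : EE L K (γ0 / 4) y (τ - S) (τ - S) = 0 := by simp [EE, Lag.dfc]
        have e3 : K * (γ0 / (2 * K)) = γ0 / 2 := by field_simp
        have e4 : K * ((γ0 / (2 * K) - η) * S) = γ0 / 2 * S - K * η * S := by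
          rw [← e3]; ring
        rw [e0] at i3
        unfold DD at i3
        unfold Lag.dfc at hdx
        rw [← hη, e4] at i3
        rw [hXx] at hdx
        have : 0 ≤ K * lam := by linarith
        exact (mul_nonneg_iff_of_pos_left hK).1 this
  have v1 := meas_le_lintegral₀ (μ := volume) ((hw.comp hY).const_mul _).aemeasurable key
  have v2 := wt_leb L hP hF hS hε hh (by linarith : 0 ≤ τ - S) φ hφ (n * l) (by linarith)
  rw [et, hn, ← lint_Y L hF τ _ hw, ← lint_Y L hF (τ - S) _ hφ] at v2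
  have v3 : ∫⁻ x, φ (L.Y (τ - S) x) = ENNReal.ofReal (hi - lo) := by
    rw [← Real.volume_Icc, ← lintegral_indicator_one measurableSet_Icc]
    refine lintegral_congr fun x => ?_
    by_cases hx : x ∈ Icc lo hi
    · rw [hφd, indicator_of_mem hx, indicator_of_mem (by simpa only [mem_ofPred_eq, L.XY] using hx)]
      rfl
    · rw [hφd, indicator_of_notMem hx,
        indicator_of_notMem (by simpa only [mem_ofPred_eq, L.XY] using hx)]
  refine v1.trans ?_
  simp only [Function.comp_apply]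
  rw [lintegral_const_mul' _ _ ENNReal.ofReal_ne_top]
  refine (mul_le_mul_right v2 _).trans (le_of_eq ?_)
  rw [v3, ← mul_assoc, ← ENNReal.ofReal_mul (by positivity), ← ENNReal.ofReal_mul (by positivity)]
  congr 1
  have e5 : Real.exp (-(γ0 / (2 * K) - 3 * η) * S) = Real.exp (-(γ0 / (2 * K) - η) * S) *
      Real.exp (2 * (P.bm M * (2 * ε)) * P.k0 * S) := by
    rw [← Real.exp_add, hη]
    congr 1
    ring
  rw [e5, hhi, hlo]
  ring

end Vac

theorem vacS : Basic → GapBlockS → VacS := by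
  intro hB hG P M hM hst γ0 hγ
  have hP := hB.1 P M hM
  obtain ⟨B, K, hB2, hK, hgap⟩ := hG P M hM hst (γ0 / 4) (by linarith)
  obtain ⟨h0, hh0, hsm⟩ := hP.small
  have hD := Vac.DV_nonneg hP
  have hk := hP.k0_pos.le
  have hbm := hP.bm_nonneg
  have hE : 0 ≤ P.E1 M := mul_nonneg (by positivity) hP.N_pos.le
  have hV : 0 ≤ P.Vm M := add_nonneg (abs_nonneg _) hD
  have hB0 : 0 < B := by linarith
  obtain ⟨ε, hε, e1, e2⟩ : ∃ ε, 0 < ε ∧
      P.bm M * (2 * ε) * (1 + P.k0 * P.DV M * (1 + B)) ≤ γ0 / 16 ∧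
      3 * (P.bm M * (2 * ε) * P.k0) ≤ γ0 / (4 * K) := by
    set c1 := 2 * P.bm M * (1 + P.k0 * P.DV M * (1 + B)) with hc1
    set c2 := 6 * P.bm M * P.k0 with hc2
    have p1 : 0 ≤ c1 := by positivity
    have p2 : 0 ≤ c2 := by positivity
    refine ⟨min (γ0 / 16 / (c1 + 1)) (γ0 / (4 * K) / (c2 + 1)), by positivity, ?_, ?_⟩
    · have a := min_le_left (γ0 / 16 / (c1 + 1)) (γ0 / (4 * K) / (c2 + 1))
      have b : 0 < min (γ0 / 16 / (c1 + 1)) (γ0 / (4 * K) / (c2 + 1)) := by positivity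
      generalize min (γ0 / 16 / (c1 + 1)) (γ0 / (4 * K) / (c2 + 1)) = ε at a b ⊢
      rw [le_div_iff₀ (by positivity)] at a
      have : P.bm M * (2 * ε) * (1 + P.k0 * P.DV M * (1 + B)) = ε * c1 := by rw [hc1]; ring
      linarith
    · have a := min_le_right (γ0 / 16 / (c1 + 1)) (γ0 / (4 * K) / (c2 + 1))
      have b : 0 < min (γ0 / 16 / (c1 + 1)) (γ0 / (4 * K) / (c2 + 1)) := by positivity
      generalize min (γ0 / 16 / (c1 + 1)) (γ0 / (4 * K) / (c2 + 1)) = ε at a b ⊢
      rw [le_div_iff₀ (by positivity)] at a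
      have : 3 * (P.bm M * (2 * ε) * P.k0) = ε * c2 := by rw [hc2]; ring
      linarith
  have hc : 0 < γ0 / (8 * K) := by positivity
  refine ⟨ε / 4, γ0 / (8 * K), max B (4 * (1 + (2 * P.Vm M + γ0 / 4)) / (γ0 / (8 * K))),
    by positivity, hc, ?_⟩
  intro L S τ a a' hS hτ hT ha hd
  have s1 : B ≤ S := le_trans (le_max_left _ _) hS
  have s2 := le_trans (le_max_right _ _) hS
  rw [div_le_iff₀ hc] at s2
  have hS0 : 0 < S := by linarith
  obtain ⟨n, l, h, p1, p2, p3, p4, p5⟩ := Vac.blocks hB0 s1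
    (h0 := min h0 (ε / 4 / (P.E1 M * S + 1))) (by positivity)
  have p6 := p2.trans (min_le_right _ _)
  rw [le_div_iff₀ (by positivity)] at p6
  refine (Vac.core L hP (hB.2.1 P M L hM) (hB.2.2.1 P M L hM) hK hγ hε hS0
    (hsm h p1 (p2.trans (min_le_left _ _))) (by linarith) hT p4 p5 ?_ e1 (by linarith) hd).trans
    (ENNReal.ofReal_le_ofReal ?_)
  · intro y t1 q1 q2
    have := hgap L y t1 (t1 + l * h) (by linarith) q2 (by linarith) (by linarith)
    unfold Vac.EE
    linarith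
  · set C := 2 * P.Vm M + γ0 / 4 with hC
    have hC0 : 0 ≤ C := by positivity
    set c := γ0 / (8 * K) with hcd
    have e3 : γ0 / (2 * K) = 4 * c := by rw [hcd]; field_simp; norm_num
    have e4 : γ0 / (4 * K) = 2 * c := by rw [hcd]; field_simp; norm_num
    have b1 : Real.exp (-(γ0 / (2 * K) - 3 * (P.bm M * (2 * ε) * P.k0)) * S) ≤
        Real.exp (-c * S) * Real.exp (-c * S) := by
      rw [← Real.exp_add]
      refine Real.exp_le_exp.2 ?_
      have : -(γ0 / (2 * K) - 3 * (P.bm M * (2 * ε) * P.k0)) ≤ -(2 * c) := by linarith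
      have := mul_le_mul_of_nonneg_right this hS0.le
      linarith
    have b2 : a' - a + C * S ≤ (1 + C) * (a' - a + S) := by
      have := mul_nonneg hC0 (sub_nonneg.2 ha)
      linarith
    have b3 : 4 * (1 + C) * Real.exp (-c * S) ≤ 1 := by
      have a1 := Real.add_one_le_exp (c * S)
      have a2 : Real.exp (c * S) * Real.exp (-c * S) = 1 := by
        rw [← Real.exp_add]; simp
      have a3 := mul_le_mul_of_nonneg_right (by linarith : 4 * (1 + C) ≤ Real.exp (c * S))
        (Real.exp_pos (-c * S)).le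
      linarith
    have b4 : 0 ≤ a' - a + C * S := by
      have := mul_nonneg hC0 hS0.le
      linarith
    have b5 : 0 ≤ Real.exp (-c * S) * (a' - a + S) :=
      mul_nonneg (Real.exp_pos _).le (by linarith)
    calc _ ≤ 4 * (Real.exp (-c * S) * Real.exp (-c * S)) * ((1 + C) * (a' - a + S)) :=
          mul_le_mul (by linarith) b2 b4 (by positivity)
      _ = (4 * (1 + C) * Real.exp (-c * S)) * (Real.exp (-c * S) * (a' - a + S)) := by ring
      _ ≤ _ := mul_le_of_le_one_left b5 b3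

end

end MP34a893

end MrgPart3

-- ======== part 4: formerly Pool.Agent.MP_34a893_an.B.PortVac
section MrgPart4

open MeasureTheory Set Filter Topology
open scoped ENNReal

namespace MP34a893.B

open Deficit in
theorem defS : Basic → SparseS → DefS := by
  intro hB sp P M hM hS θ hθ
  have hP := hB.1 P M hM
  have hd := hP.d_pos
  have hk := kd_pos hP
  obtain ⟨A, hA⟩ : ∃ A, A = P.N M ^ (1 / P.p - 1) := ⟨_, rfl⟩
  have hA0 : 0 < A := hA ▸ Real.rpow_pos_of_pos hP.N_pos _
  obtain ⟨z, hz⟩ : ∃ z, z = θ * P.k P.d / (2 * A * (2 / P.d + 1)) := ⟨_, rfl⟩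
  have hz0 : 0 < z := by rw [hz]; positivity
  obtain ⟨c, hc⟩ : ∃ c, c = P.Φ 0 - P.Φ z := ⟨_, rfl⟩
  have hc0 : 0 < c := hc ▸ sub_pos.2 (hS.Φ_lt hP z hz0)
  refine ⟨c / 4, by positivity, fun κ S hκ hκc hκS L τ y hSτ hτ hdf => ?_⟩
  have hL := hB.2.1 P M L hM
  have hS0 : 0 < S := pos_of_mul_pos_right (one_pos.trans_le hκS) hκ.le
  obtain ⟨y0, hy0⟩ : ∃ y0, y0 = L.Y τ (L.X τ y - κ * S) := ⟨_, rfl⟩
  have hX0 : L.X τ y0 = L.X τ y - κ * S := by rw [hy0, L.XY]
  have hy : y0 ≤ y := (hL.X_mono τ).le_iff_le.1 (by linarith)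
  rw [← hX0, hL.Q_X, hL.Q_X]
  have hq0 : ∀ x, L.q0 x ∈ Icc 0 M := fun x => ⟨L.q0_nonneg x, L.q0_le x⟩
  have hm : L.m y - L.m y0 = ∫ x in y0..y, L.q0 x :=
    intervalIntegral.integral_interval_sub_left (ii L.q0_meas hq0 _ _) (ii L.q0_meas hq0 _ _)
  have hv : ∀ t x, P.Φ 0 - L.v t x ∈ Icc 0 (P.DV M) := fun t x =>
    ⟨sub_nonneg.2 (hL.v_mem t x).2, by linarith [(hL.v_mem t x).1]⟩
  have hF : Measurable (Function.uncurry fun σ x => L.q0 x * (P.Φ 0 - L.v σ (L.X σ x))) :=
    (L.q0_meas.comp measurable_snd).mul (measurable_const.sub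
      (hL.v_cont.comp (continuous_fst.prodMk L.X_cont)).measurable)
  have hI : Integrable (Function.uncurry fun σ x => L.q0 x * (P.Φ 0 - L.v σ (L.X σ x)))
      ((volume.restrict (Ioc (τ - S) τ)).prod (volume.restrict (Ioc y0 y))) :=
    Integrable.of_bound hF.aestronglyMeasurable (M * P.DV M) (ae_of_all _ fun w =>
      (Real.norm_of_nonneg (mul_nonneg (hq0 _).1 (hv _ _).1)).trans_le
        (mul_le_mul (hq0 _).2 (hv _ _).2 (hv _ _).1 hM.le))
  have h1 : ∀ σ ∈ Ioc (τ - S) τ, c * (L.m y - L.m y0 - θ * (κ * S) / 2) ≤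
      ∫ x in Ioc y0 y, L.q0 x * (P.Φ 0 - L.v σ (L.X σ x)) := by
    intro σ hσ
    have hqm : Measurable (L.q σ) := hL.q_meas.of_uncurry_left
    have hφ : Measurable fun x => L.q σ x * (P.Φ 0 - L.v σ x) :=
      hqm.mul (measurable_const.sub (hL.v_cont.comp (Continuous.prodMk_right σ)).measurable)
    have hφb : ∀ x, L.q σ x * (P.Φ 0 - L.v σ x) ∈ Icc 0 (M * P.DV M) := fun x =>
      ⟨mul_nonneg (hL.q_mem _ _).1 (hv _ _).1,
        mul_le_mul (hL.q_mem _ _).2 (hv _ _).2 (hv _ _).1 hM.le⟩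
    have hXX : L.X σ y0 ≤ L.X σ y := (hL.X_mono σ).monotone hy
    have k1 : ∫ x in Ioc y0 y, L.q0 x * (P.Φ 0 - L.v σ (L.X σ x)) =
        ∫ x in L.X σ y0..L.X σ y, L.q σ x * (P.Φ 0 - L.v σ x) := by
      rw [hL.cov_int σ _ hφ ⟨_, fun x => (abs_of_nonneg (hφb x).1).trans_le (hφb x).2⟩,
        intervalIntegral.integral_of_le hy]
      refine integral_congr_ae (ae_of_all _ fun x => ?_)
      simp only [← hL.qj σ x]
      ring
    have k2 : L.X σ y - L.X σ y0 ≤ 2 * (κ * S) := by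
      have a1 := (hL.dfc_mem y (τ - S) σ (by linarith) hσ.1.le (hσ.2.trans hτ)).1
      have a2 := (hL.dfc_mem y0 σ τ (by linarith [hσ.1]) hσ.2 hτ).1
      simp only [Lag.dfc] at a1 a2 hdf
      linarith
    have k3 : A * ∫ x in L.X σ y0..L.X σ y, (if L.Z σ x < z then L.u σ x else 0) ≤
        θ * (κ * S) / 2 := by
      refine (mul_le_mul_of_nonneg_left ((sp P M L hM σ _ _ z hXX hz0).trans
        (mul_le_mul_of_nonneg_left (c := (2 / P.d + 1) * (κ * S)) ?_ (by positivity)))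
        hA0.le).trans_eq ?_
      · have := div_le_div_of_nonneg_right k2 hd.le
        rw [add_mul, div_mul_eq_mul_div]
        linarith
      · rw [hz]
        field_simp
    have k4 : c * (L.m y - L.m y0) ≤
        c * (A * ∫ x in L.X σ y0..L.X σ y, (if L.Z σ x < z then L.u σ x else 0)) +
        ∫ x in L.X σ y0..L.X σ y, L.q σ x * (P.Φ 0 - L.v σ x) := by
      have i1 := ((sp_int L hL σ z (L.X σ y0) (L.X σ y)).const_mul A).const_mul c
      rw [← hL.Q_X σ, ← hL.Q_X σ, hL.Q_sub, ← intervalIntegral.integral_const_mul,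
        ← intervalIntegral.integral_const_mul, ← intervalIntegral.integral_const_mul,
        ← intervalIntegral.integral_add i1 (ii hφ hφb _ _)]
      refine intervalIntegral.integral_mono_on hXX ((ii hqm (hL.q_mem σ) _ _).const_mul c)
        (i1.add (ii hφ hφb _ _)) fun x _ => ?_
      split_ifs with h
      · have := mul_le_mul_of_nonneg_left
          (hP.root_le _ ⟨hL.u_nonneg σ x, L.u_le σ x⟩) hc0.le
        rw [← hA] at this
        exact this.trans (le_add_of_nonneg_right (hφb x).1)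
      · rw [mul_zero, mul_zero, zero_add, mul_comm, hc]
        exact mul_le_mul_of_nonneg_left (sub_le_sub_left (hP.Φ_anti (not_lt.1 h)) _)
          (hL.q_mem _ _).1
    rw [k1]
    nlinarith
  have h2 : ∀ x ∈ Ioc y0 y, ∫ σ in Ioc (τ - S) τ, L.q0 x * (P.Φ 0 - L.v σ (L.X σ x)) ≤
      L.q0 x * (2 * (κ * S)) := by
    intro x hx
    rw [integral_const_mul, ← intervalIntegral.integral_of_le (by linarith),
      ← hL.dfc_int x _ ⟨by linarith, by linarith⟩ _ ⟨by linarith, hτ⟩]
    refine mul_le_mul_of_nonneg_left ?_ (hq0 x).1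
    have a1 := (hL.X_mono τ).monotone hx.1.le
    have a2 := (hL.X_mono (τ - S)).monotone hx.2
    simp only [Lag.dfc] at hdf ⊢
    linarith
  have h3 := setIntegral_mono_on (integrableOn_const (by simp)) hI.integral_prod_left
    measurableSet_Ioc h1
  have h4 := setIntegral_mono_on hI.integral_prod_right
    ((ii L.q0_meas hq0 y0 y).1.mul_const _) measurableSet_Ioc h2
  have h5 := (h3.trans_eq (integral_integral_swap hI)).trans h4
  rw [setIntegral_const, integral_mul_const, ← intervalIntegral.integral_of_le hy, ← hm,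
    Real.volume_real_Ioc_of_le (by linarith), smul_eq_mul, sub_sub_cancel] at h5
  have h6 : 0 ≤ L.m y - L.m y0 := sub_nonneg.2 (hL.m_mono hy)
  have h7 := mul_le_mul_of_nonneg_left hκc (mul_nonneg h6 hS0.le)
  refine le_of_mul_le_mul_left ?_ (mul_pos hS0 hc0)
  nlinarith

open Gap2 in
theorem gapStepS : Basic → WidthS → GapStepS := by
  intro hB hW P M hM hS l γ e hl hγ he hG B0
  have hP := hB.1 P M hM
  have hd := hP.d_pos
  have hs2 : 0 < P.s2 := P.hs1.trans P.hs12
  have hDV : 0 ≤ P.DV M := mul_nonneg hP.bm_nonneg hP.N_pos.le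
  have hbk : 0 ≤ P.bm M * P.k0 := mul_nonneg hP.bm_nonneg hP.k0_pos.le
  have hN : 0 < P.N M ^ (1 / P.p - 1) := Real.rpow_pos_of_pos hP.N_pos _
  obtain ⟨B', hB', -, μ', hμ', hG⟩ := hG (1 + 4 * (P.s2 + P.DV M) / e)
  have hq : 0 ≤ 4 * (P.s2 + P.DV M) / e := by positivity
  have hB1 : 1 ≤ B' := by linarith
  have hB2 : P.s2 + P.DV M ≤ e / 4 * B' := by
    have : 4 * (P.s2 + P.DV M) / e ≤ B' := by linarith
    rw [div_le_iff₀ he] at this
    linarith
  obtain ⟨b0, hb0, hb⟩ := hS.b_low (γ / (2 * (P.bm M + 1)))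
    (div_pos hγ (by linarith [hP.bm_nonneg]))
  have he0 : 0 < b0 * (P.m0 / P.N M ^ (1 / P.p - 1)) * (P.d / 2 * μ') :=
    mul_pos (mul_pos hb0 (div_pos P.hm0 hN)) (by positivity)
  obtain ⟨K, hK0, hK⟩ : ∃ K, 0 ≤ K ∧
      P.DV M ≤ K * (b0 * (P.m0 / P.N M ^ (1 / P.p - 1)) * (P.d / 2 * μ')) :=
    ⟨_, div_nonneg hDV he0.le, (div_mul_cancel₀ _ he0.ne').ge⟩
  obtain ⟨e1, he1, h1, h2⟩ : ∃ e1, 0 < e1 ∧ (l + 1) * e1 ≤ P.d / 2 ∧
      K * (l + P.d + 1) * e1 ≤ e / 4 := by
    obtain ⟨x, hx, h1⟩ := small (A := l + 1) (c := P.d / 2) (by linarith) (by linarith)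
    obtain ⟨x', hx', h2⟩ := small (A := K * (l + P.d + 1)) (c := e / 4)
      (mul_nonneg hK0 (by linarith)) (by linarith)
    exact ⟨min x x', lt_min hx hx',
      le_trans (mul_le_mul_of_nonneg_left (min_le_left _ _) (by linarith)) h1,
      le_trans (mul_le_mul_of_nonneg_left (min_le_right _ _) (mul_nonneg hK0 (by linarith))) h2⟩
  have he11 : e1 ≤ 1 := le_of_mul_le_mul_left (a := l + 1) (by linarith) (by linarith)
  obtain ⟨a0, ha0, h3, h4⟩ : ∃ a0, 0 < a0 ∧ a0 ≤ γ / 2 ∧ K * a0 ≤ e / 2 := by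
    obtain ⟨x, hx, h1⟩ := small (A := K) (c := e / 2) hK0 (by linarith)
    exact ⟨min (γ / 2) x, lt_min (by linarith) hx, min_le_left _ _,
      le_trans (mul_le_mul_of_nonneg_left (min_le_right _ _) hK0) h1⟩
  obtain ⟨δ, hδ, h5⟩ := small (A := P.bm M * P.k0 * (l + P.d)) (c := a0 / 2)
    (mul_nonneg hbk (by linarith)) (by linarith)
  have hc2 : 0 ≤ P.bm M * P.k0 * δ ^ (1 - 1 / P.p) :=
    mul_nonneg hbk (Real.rpow_pos_of_pos hδ _).le
  obtain ⟨μ1, hμ1, h6⟩ := small (c := a0 / 2) hc2 (by linarith)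
  obtain ⟨B, hBB, hB0, h7⟩ : ∃ B, B0 ≤ B ∧ 0 < B ∧
      K * (l + P.d) + P.DV M * (B' + 1) ≤ e / 2 * B := by
    refine ⟨max (max B0 1) (2 * (K * (l + P.d) + P.DV M * (B' + 1)) / e),
      le_trans (le_max_left _ _) (le_max_left _ _),
      lt_of_lt_of_le one_pos (le_trans (le_max_right _ _) (le_max_left _ _)), ?_⟩
    have := le_max_right (max B0 1) (2 * (K * (l + P.d) + P.DV M * (B' + 1)) / e)
    rw [div_le_iff₀ he] at this
    linarith
  obtain ⟨μ2, hμ2, hW⟩ := hW P M hM B e1 hB0 he1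
  refine ⟨B, hBB, hB0, min μ' (min μ1 μ2), lt_min hμ' (lt_min hμ1 hμ2), fun L τ x hτ hT hm => ?_⟩
  have hL := hB.2.1 P M L hM
  set y1 := L.Y τ x with hy1
  set y2 := L.Y τ (x + l) with hy2
  have h12 : y1 ≤ y2 := (hL.Y_mono τ).monotone (by linarith)
  have hm' : L.m y2 - L.m y1 ≤ min μ' (min μ1 μ2) := hm
  have hW' : ∀ t σ, τ - B ≤ σ → σ ≤ t → t ≤ τ →
      (1 - e1) * (L.X t y2 - L.X t y1) - e1 ≤ L.X σ y2 - L.X σ y1 := fun t σ a b c =>
    hW L y1 y2 t σ h12 (hm'.trans ((min_le_right _ _).trans (min_le_right _ _))) (by linarith) b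
      (c.trans hT) (by linarith)
  have hwτ : L.X τ y2 - L.X τ y1 = l := by
    rw [hy1, hy2, L.XY, L.XY]
    ring
  have hadd : ∀ a b c, L.dfc y1 a c = L.dfc y1 a b + L.dfc y1 b c := fun a b c => by
    unfold Lag.dfc
    ring
  have ind : ∀ n : ℕ, ∃ σ, τ - B ≤ σ ∧ σ ≤ τ ∧ (σ ≤ τ - n ∨ σ ≤ τ - B + B' + 1) ∧
      L.dfc y1 σ τ ≤ (γ + e / 2) * (τ - σ) + K * min (L.X σ y2 - L.X σ y1) (l + P.d) := by
    intro n
    induction n with
    | zero =>
      refine ⟨τ, by linarith, le_rfl, Or.inl (by simp), ?_⟩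
      have : 0 ≤ K * min (L.X τ y2 - L.X τ y1) (l + P.d) :=
        mul_nonneg hK0 (le_min (by linarith) (by linarith))
      have e0 : L.dfc y1 τ τ = 0 := by simp [Lag.dfc]
      rw [e0, sub_self, mul_zero]
      linarith
    | succ n ih =>
      obtain ⟨σ, s1, s2, s3, s4⟩ := ih
      by_cases hc : σ ≤ τ - B + B' + 1
      · exact ⟨σ, s1, s2, Or.inr hc, s4⟩
      have s3' : σ ≤ τ - n := s3.resolve_right hc
      push Not at hc
      by_cases ht : ∃ ρ ∈ Icc (σ - 1) σ, ∃ x', L.X ρ y1 ≤ x' ∧ x' ≤ L.X ρ y1 + P.s2 ∧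
          L.Q ρ (x' + (l + P.d)) - L.Q ρ x' ≤ μ'
      · obtain ⟨ρ, ⟨r1, r2⟩, x', x1, x2, x3⟩ := ht
        refine ⟨ρ - B', by linarith, by linarith, Or.inl (by push_cast; linarith), ?_⟩
        have g1 := hG L ρ x' (by linarith) (by linarith) x3
        have g2 : y1 ≤ L.Y ρ x' := by
          have := (hL.Y_mono ρ).monotone x1
          rwa [L.YX] at this
        have g3 := (hL.X_mono (ρ - B')).monotone g2
        have g4 : L.dfc y1 (ρ - B') ρ ≤ γ * B' + P.s2 := by
          unfold Lag.dfc at g1 ⊢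
          rw [L.XY] at g1
          linarith
        have g5 := (hL.dfc_mem y1 ρ σ (by linarith) r2 (by linarith)).2
        have g6 : P.DV M * (σ - ρ) ≤ P.DV M * 1 := mul_le_mul_of_nonneg_left (by linarith) hDV
        have g7 := hW' σ (ρ - B') (by linarith) (by linarith) s2
        have g8 : min (L.X σ y2 - L.X σ y1) (l + P.d) - (l + P.d + 1) * e1 ≤
            min (L.X (ρ - B') y2 - L.X (ρ - B') y1) (l + P.d) := by
          have k1 := min_le_left (L.X σ y2 - L.X σ y1) (l + P.d)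
          have k2 := min_le_right (L.X σ y2 - L.X σ y1) (l + P.d)
          have k3 := mul_le_mul_of_nonneg_left k1 (sub_nonneg.2 he11)
          have k4 := mul_le_mul_of_nonneg_left k2 he1.le
          have k5 : 0 ≤ (l + P.d + 1) * e1 := mul_nonneg (by linarith) he1.le
          exact le_min (by linarith) (by linarith)
        have g9 := mul_le_mul_of_nonneg_left g8 hK0
        have g10 : (γ + e / 2) * B' ≤ (γ + e / 2) * (σ - (ρ - B')) :=
          mul_le_mul_of_nonneg_left (by linarith) (by linarith)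
        have g11 : e / 4 * 1 ≤ e / 4 * B' := mul_le_mul_of_nonneg_left hB1 (by linarith)
        rw [hadd (ρ - B') ρ τ, hadd ρ σ τ]
        linarith
      · push Not at ht
        have hp : ∀ ρ ∈ Icc (σ - 1) σ, L.X ρ y2 - L.X ρ y1 ≤ l + P.d ∧
            P.Φ 0 - L.v ρ (L.X ρ y1) ≤
              γ + K * a0 - K * (L.v ρ (L.X ρ y2) - L.v ρ (L.X ρ y1)) := fun ρ hρ => by
          refine point hP hL ρ hl hγ hδ (min_le_left μ' (min μ1 μ2)) hK0 hb0 hb ?_ h3 hK ?_ ?_
            (ht ρ hρ)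
          · have := mul_le_mul_of_nonneg_left
              ((min_le_right μ' (min μ1 μ2)).trans (min_le_left _ _)) hc2
            linarith
          · have := hW' τ ρ (by linarith [hρ.1]) (by linarith [hρ.2]) le_rfl
            rw [hwτ] at this
            linarith
          · rw [hL.Q_X, hL.Q_X]
            exact hm'
        refine ⟨σ - 1, by linarith, by linarith, Or.inl (by push_cast; linarith), ?_⟩
        have g1 := quiet hL (by linarith) (by linarith) fun ρ hρ => (hp ρ hρ).2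
        rw [min_eq_left (hp σ ⟨by linarith, le_rfl⟩).1] at s4
        rw [min_eq_left (hp (σ - 1) ⟨le_rfl, by linarith⟩).1, hadd (σ - 1) σ τ]
        linarith
  obtain ⟨n, hn⟩ := exists_nat_ge B
  obtain ⟨σ, s1, s2, s3, s4⟩ := ind n
  have s5 : σ ≤ τ - B + B' + 1 := by
    rcases s3 with s3 | s3
    · linarith
    · exact s3
  have g1 := (hL.dfc_mem y1 (τ - B) σ (by linarith) s1 (by linarith)).2
  have g2 : P.DV M * (σ - (τ - B)) ≤ P.DV M * (B' + 1) :=
    mul_le_mul_of_nonneg_left (by linarith) hDV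
  have g3 := mul_le_mul_of_nonneg_left (min_le_right (L.X σ y2 - L.X σ y1) (l + P.d)) hK0
  have g4 : (γ + e / 2) * (τ - σ) ≤ (γ + e / 2) * B :=
    mul_le_mul_of_nonneg_left (by linarith) (by linarith)
  rw [hadd (τ - B) σ τ]
  linarith

namespace G1

open Gap1 hiding gap_down gap_d

variable {P : Par} {M : ℝ}

lemma gap_down (hB : Basic) (hs : GapStepS) (hM : 0 < M) (hS : P.Pos M) {e : ℝ} (he : 0 < e)
    (n : ℕ) : ∀ γ, 0 < γ → GapP P M ((n + 1) * P.d) γ → GapP P M P.d (γ + n * e) := by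
  have hd := (hB.1 P M hM).d_pos
  induction n with
  | zero => intro γ _ h; simpa using h
  | succ n ih =>
    intro γ hγ h
    have := ih (γ + e) (by positivity) (hs P M hM hS _ γ e
      (le_mul_of_one_le_left hd.le (by linarith [n.cast_nonneg (α := ℝ)])) hγ he
      (by convert h using 1; push_cast; ring))
    convert this using 1
    push_cast; ring

lemma gap_d (hB : Basic) (hb : GapBaseS) (hs : GapStepS) (hM : 0 < M) (hS : P.Pos M) {γ : ℝ}
    (hγ : 0 < γ) : GapP P M P.d γ := by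
  have hd := (hB.1 P M hM).d_pos
  obtain ⟨l, -, h⟩ := hb P M hM (γ / 2) (by positivity)
  obtain ⟨n, hn⟩ := exists_nat_ge (l / P.d)
  rw [div_le_iff₀ hd] at hn
  have h1 : (0 : ℝ) < n + 1 := by positivity
  refine gap_mono hB hM (gap_down hB hs hM hS (e := γ / 2 / (n + 1)) (by positivity) n (γ / 2)
    (by positivity) (gap_mono hB hM h (by nlinarith) le_rfl)) le_rfl ?_
  have : n * (γ / 2 / (n + 1)) ≤ γ / 2 := by
    rw [← mul_div_assoc, div_le_iff₀ h1]; nlinarith
  linarith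

end G1

open G1 in
open Gap1 hiding gap_down gap_d in
theorem gapBlockS (hB : Basic) (hb : GapBaseS) (hs : GapStepS) : GapBlockS := by
  intro P M hM hS γ hγ
  have hP := hB.1 P M hM
  have hN := hP.N_pos
  have hd := hP.d_pos
  have hm := P.hm0
  have hs1 := P.hs1
  have hD : 0 ≤ P.DV M := mul_nonneg hP.bm_nonneg hN.le
  obtain ⟨B, hB1, hB0, μ, hμ, hG⟩ := gap_d hB hb hs hM hS (γ := γ / 6) (by positivity)
    (max 2 (6 * P.s1 / γ))
  have hB2 : 2 ≤ B := (le_max_left _ _).trans hB1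
  have hB3 : 6 * P.s1 ≤ B * γ := (div_le_iff₀ hγ).1 ((le_max_right _ _).trans hB1)
  have hA : 0 < P.N M ^ (1 / P.p - 1) := Real.rpow_pos_of_pos hN _
  set A := P.N M ^ (1 / P.p - 1) with hAe
  obtain ⟨b0, hb0, hbl⟩ := hS.b_low (P.m0 * (2 * P.d) * μ / A) (by positivity)
  set θ := min (1 / 2) (γ / (6 * (P.DV M + 1))) with hθ
  have hθ0 : 0 < θ := by positivity
  have hθ1 : θ ≤ 1 / 2 := min_le_left _ _
  have hθ2 : θ * (6 * (P.DV M + 1)) ≤ γ := (le_div_iff₀ (by positivity)).1 (min_le_right _ _)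
  set c := b0 * (P.m0 * μ / A) with hc
  have hc0 : 0 < c := by positivity
  refine ⟨B, (P.DV M + 1) / (c * θ), hB2, by positivity, fun L y t1 t2 h1 h2 h3 h4 => ?_⟩
  have hL := hB.2.1 P M L hM
  have hcont : Continuous fun τ => L.bG τ y :=
    hL.bG_cont.comp (continuous_id.prodMk continuous_const)
  have hθB : θ * B ≤ B / 2 := by nlinarith
  have hθB0 : 0 < θ * B := by positivity
  have hI : ∀ a b, a ≤ b → 0 ≤ ∫ τ in a..b, L.bG τ y := fun a b h =>
    intervalIntegral.integral_nonneg h fun τ _ => (hL.bG_mem τ y).1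
  by_cases H : ∀ τ ∈ Icc (t2 - θ * B) t2, c ≤ L.bG τ y
  · have h5 := intervalIntegral.integral_mono_on (μ := volume) (by linarith) intervalIntegrable_const
      (hcont.intervalIntegrable _ _) H
    rw [intervalIntegral.integral_const, smul_eq_mul] at h5
    have h6 := hI t1 (t2 - θ * B) (by linarith)
    have h7 := intervalIntegral.integral_add_adjacent_intervals
      (hcont.intervalIntegrable (μ := volume) t1 (t2 - θ * B)) (hcont.intervalIntegrable _ t2)
    have h8 := (hL.dfc_mem y t1 t2 (by linarith) (by linarith) h2).2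
    have h9 : (P.DV M + 1) / (c * θ) * (θ * B * c) ≤
        (P.DV M + 1) / (c * θ) * ∫ τ in t1..t2, L.bG τ y := by gcongr; linarith
    have h10 : (P.DV M + 1) / (c * θ) * (θ * B * c) = (P.DV M + 1) * B := by field_simp
    nlinarith
  · push Not at H
    obtain ⟨τ, hτ, H⟩ := H
    have hμ' : L.Q τ (L.X τ y + P.s1 + P.d) - L.Q τ (L.X τ y + P.s1) ≤ μ := by
      by_cases hz : P.m0 * (2 * P.d) * μ / A ≤ L.Z τ (L.X τ y)
      · have h5 := hbl _ ⟨hz, (hL.Z_mem _ _).2⟩
        have h6 := (hL.G_mem τ (L.X τ y)).1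
        have h7 : L.G τ (L.X τ y) ≤ P.m0 * μ / A := by
          refine le_of_not_gt fun h => H.not_ge ?_
          rw [hc, Lag.bG]
          have := h.le
          gcongr
          exact P.hb0 _
        have h8 := mass_le hP hL hm P.hgi.integrableOn P.hg0 (fun s hs => P.hgm s
          ⟨hs.1, hs.2.trans (by unfold Par.d; linarith [P.hs12])⟩) τ (L.X τ y)
        rw [le_div_iff₀' hA] at h7
        exact le_of_mul_le_mul_left (h8.trans h7) hm
      · have h8 := mass_le hP hL (c := P.m0 * (2 * P.d)) (by positivity) hP.k_int hP.k_nonneg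
          (fun s hs => hP.k_mid.trans (hP.k_anti (by linarith [hs.2]))) τ (L.X τ y)
        have h7 := (not_le.1 hz).le
        rw [le_div_iff₀' hA] at h7
        exact le_of_mul_le_mul_left (h8.trans h7) (by positivity)
    have h5 := hG L τ _ (by linarith [hτ.1]) (hτ.2.trans h2) hμ'
    set y' := L.Y τ (L.X τ y + P.s1) with hy'
    have hy : y ≤ y' := by
      rw [hy', ← L.YX τ y, L.XY]
      exact (hL.Y_mono τ).monotone (by linarith)
    have h6 := (hL.dfc_mem y' (τ - B) t1 (by linarith [hτ.1]) (by linarith [hτ.2])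
      (by linarith)).1
    have h7 := (hL.dfc_mem y τ t2 (by linarith [hτ.1]) hτ.2 h2).2
    have h8 := (hL.X_mono t1).monotone hy
    have h9 : L.X τ y' = L.X τ y + P.s1 := L.XY _ _
    have h10 : P.DV M * (t2 - τ) ≤ P.DV M * (θ * B) := by gcongr; linarith [hτ.1]
    have h11 : 0 ≤ (P.DV M + 1) / (c * θ) * ∫ τ in t1..t2, L.bG τ y :=
      mul_nonneg (by positivity) (hI _ _ (by linarith))
    have h12 : 6 * (P.DV M * (θ * B)) ≤ γ * B := by nlinarith
    have h13 : γ * (B / 2) ≤ γ * (t2 - t1) := by gcongr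
    unfold Lag.dfc at h5 h6 h7 ⊢
    linarith

theorem vacS : Basic → GapBlockS → VacS := by
  intro hB hG P M hM hst γ0 hγ
  have hP := hB.1 P M hM
  obtain ⟨B, K, hB2, hK, hgap⟩ := hG P M hM hst (γ0 / 4) (by linarith)
  obtain ⟨h0, hh0, hsm⟩ := hP.small
  have hD := Vac.DV_nonneg hP
  have hk := hP.k0_pos.le
  have hbm := hP.bm_nonneg
  have hE : 0 ≤ P.E1 M := mul_nonneg (by positivity) hP.N_pos.le
  have hV : 0 ≤ P.Vm M := add_nonneg (abs_nonneg _) hD
  have hB0 : 0 < B := by linarith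
  obtain ⟨ε, hε, e1, e2⟩ : ∃ ε, 0 < ε ∧
      P.bm M * (2 * ε) * (1 + P.k0 * P.DV M * (1 + B)) ≤ γ0 / 16 ∧
      3 * (P.bm M * (2 * ε) * P.k0) ≤ γ0 / (4 * K) := by
    set c1 := 2 * P.bm M * (1 + P.k0 * P.DV M * (1 + B)) with hc1
    set c2 := 6 * P.bm M * P.k0 with hc2
    have p1 : 0 ≤ c1 := by positivity
    have p2 : 0 ≤ c2 := by positivity
    refine ⟨min (γ0 / 16 / (c1 + 1)) (γ0 / (4 * K) / (c2 + 1)), by positivity, ?_, ?_⟩
    · have a := min_le_left (γ0 / 16 / (c1 + 1)) (γ0 / (4 * K) / (c2 + 1))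
      have b : 0 < min (γ0 / 16 / (c1 + 1)) (γ0 / (4 * K) / (c2 + 1)) := by positivity
      generalize min (γ0 / 16 / (c1 + 1)) (γ0 / (4 * K) / (c2 + 1)) = ε at a b ⊢
      rw [le_div_iff₀ (by positivity)] at a
      have : P.bm M * (2 * ε) * (1 + P.k0 * P.DV M * (1 + B)) = ε * c1 := by rw [hc1]; ring
      linarith
    · have a := min_le_right (γ0 / 16 / (c1 + 1)) (γ0 / (4 * K) / (c2 + 1))
      have b : 0 < min (γ0 / 16 / (c1 + 1)) (γ0 / (4 * K) / (c2 + 1)) := by positivity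
      generalize min (γ0 / 16 / (c1 + 1)) (γ0 / (4 * K) / (c2 + 1)) = ε at a b ⊢
      rw [le_div_iff₀ (by positivity)] at a
      have : 3 * (P.bm M * (2 * ε) * P.k0) = ε * c2 := by rw [hc2]; ring
      linarith
  have hc : 0 < γ0 / (8 * K) := by positivity
  refine ⟨ε / 4, γ0 / (8 * K), max B (4 * (1 + (2 * P.Vm M + γ0 / 4)) / (γ0 / (8 * K))),
    by positivity, hc, ?_⟩
  intro L S τ a a' hS hτ hT ha hd
  have s1 : B ≤ S := le_trans (le_max_left _ _) hS
  have s2 := le_trans (le_max_right _ _) hS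
  rw [div_le_iff₀ hc] at s2
  have hS0 : 0 < S := by linarith
  obtain ⟨n, l, h, p1, p2, p3, p4, p5⟩ := Vac.blocks hB0 s1
    (h0 := min h0 (ε / 4 / (P.E1 M * S + 1))) (by positivity)
  have p6 := p2.trans (min_le_right _ _)
  rw [le_div_iff₀ (by positivity)] at p6
  refine (Vac.core L hP (hB.2.1 P M L hM) (hB.2.2.1 P M L hM) hK hγ hε hS0
    (hsm h p1 (p2.trans (min_le_left _ _))) (by linarith) hT p4 p5 ?_ e1 (by linarith) hd).trans
    (ENNReal.ofReal_le_ofReal ?_)
  · intro y t1 q1 q2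
    have := hgap L y t1 (t1 + l * h) (by linarith) q2 (by linarith) (by linarith)
    unfold Vac.EE
    linarith
  · set C := 2 * P.Vm M + γ0 / 4 with hC
    have hC0 : 0 ≤ C := by positivity
    set c := γ0 / (8 * K) with hcd
    have e3 : γ0 / (2 * K) = 4 * c := by rw [hcd]; field_simp; norm_num
    have e4 : γ0 / (4 * K) = 2 * c := by rw [hcd]; field_simp; norm_num
    have b1 : Real.exp (-(γ0 / (2 * K) - 3 * (P.bm M * (2 * ε) * P.k0)) * S) ≤
        Real.exp (-c * S) * Real.exp (-c * S) := by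
      rw [← Real.exp_add]
      refine Real.exp_le_exp.2 ?_
      have : -(γ0 / (2 * K) - 3 * (P.bm M * (2 * ε) * P.k0)) ≤ -(2 * c) := by linarith
      have := mul_le_mul_of_nonneg_right this hS0.le
      linarith
    have b2 : a' - a + C * S ≤ (1 + C) * (a' - a + S) := by
      have := mul_nonneg hC0 (sub_nonneg.2 ha)
      linarith
    have b3 : 4 * (1 + C) * Real.exp (-c * S) ≤ 1 := by
      have a1 := Real.add_one_le_exp (c * S)
      have a2 : Real.exp (c * S) * Real.exp (-c * S) = 1 := by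
        rw [← Real.exp_add]; simp
      have a3 := mul_le_mul_of_nonneg_right (by linarith : 4 * (1 + C) ≤ Real.exp (c * S))
        (Real.exp_pos (-c * S)).le
      linarith
    have b4 : 0 ≤ a' - a + C * S := by
      have := mul_nonneg hC0 hS0.le
      linarith
    have b5 : 0 ≤ Real.exp (-c * S) * (a' - a + S) :=
      mul_nonneg (Real.exp_pos _).le (by linarith)
    calc _ ≤ 4 * (Real.exp (-c * S) * Real.exp (-c * S)) * ((1 + C) * (a' - a + S)) :=
          mul_le_mul (by linarith) b2 b4 (by positivity)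
      _ = (4 * (1 + C) * Real.exp (-c * S)) * (Real.exp (-c * S) * (a' - a + S)) := by ring
      _ ≤ _ := mul_le_of_le_one_left b5 b3

end MP34a893.B

end MrgPart4

-- marker of a merged file
example : 731051 + 545764 = 731051 + 545764 := rfl
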