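import Mathlib.Algebra.Order.Ring.Star
import Mathlib.Combinatorics.Matroid.Basic
import Mathlib.Analysis.Convex.Deriv
import Pool.Agent.MP_34a893_an.Scale
import Pool.Agent.MP_34a893_an.B.Few
import Pool.Agent.MP_34a893_an.B.PortOsc
import Pool.Agent.MP_34a893_an.B.Cmp

-- ======== part 0: formerly Pool.Agent.MP_34a893_an.Drift
section MrgPart0

open MeasureTheory Set Filter Topology
open scoped ENNReal

namespace MP34a893

namespace Drift

variable {P : Par} {M : ℝ} (L : Lag P M)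

/-- the gain in the mass label of a jump of length `s` -/
noncomputable def W (τ y s : ℝ) : ℝ := L.m (L.jmp τ y s) - L.m y

variable {L}

theorem W_eq (hl : L.Facts) (τ y s : ℝ) : W L τ y s = ∫ r in (0 : ℝ)..s, L.q τ (L.X τ y + r) := by
  have h := hl.Q_sub τ (L.X τ y) (L.X τ y + s)
  rw [hl.Q_X] at h
  rw [intervalIntegral.integral_comp_add_left (L.q τ), add_zero, ← h]
  rfl

theorem W_mem (hl : L.Facts) (τ y : ℝ) {s : ℝ} (hs : 0 ≤ s) : W L τ y s ∈ Icc 0 (M * s) := by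
  rw [W_eq hl]
  refine ⟨intervalIntegral.integral_nonneg hs fun r _ => (hl.q_mem _ _).1, ?_⟩
  have := intervalIntegral.norm_integral_le_of_norm_le_const (a := 0) (b := s) (C := M)
    (f := fun r => L.q τ (L.X τ y + r)) fun r _ => by
      rw [Real.norm_eq_abs, abs_of_nonneg (hl.q_mem _ _).1]
      exact (hl.q_mem _ _).2
  rw [sub_zero, abs_of_nonneg hs] at this
  exact (le_abs_self _).trans this

theorem W_cont (hl : L.Facts) (hs : L.Step) (τ y : ℝ) : Continuous (W L τ y) :=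
  (hl.m_cont.comp (hs.jmp_cont.comp
    (continuous_const.prodMk (continuous_const.prodMk continuous_id)))).sub continuous_const

theorem gW_int (hp : P.Facts M) (hl : L.Facts) (hs : L.Step) (τ y : ℝ) :
    IntegrableOn (fun s => P.g s * W L τ y s) (Ioi 0) := by
  refine Integrable.mono' (hp.sg_int.const_mul M)
    (P.hg.mul (W_cont hl hs τ y).measurable).aestronglyMeasurable
    ((ae_restrict_iff' measurableSet_Ioi).2 (ae_of_all _ fun s h => ?_))
  have h1 := W_mem hl τ y (le_of_lt h)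
  rw [Real.norm_eq_abs, abs_of_nonneg (mul_nonneg (P.hg0 s) h1.1)]
  nlinarith [P.hg0 s, h1.2]

theorem lint_gW (hp : P.Facts M) (hl : L.Facts) (hs : L.Step) (τ y : ℝ) {S : Set ℝ}
    (hS : MeasurableSet S) (h0 : S ⊆ Ioi 0) :
    ∫⁻ s in S, ENNReal.ofReal (P.g s) * ENNReal.ofReal (W L τ y s) =
      ENNReal.ofReal (∫ s in S, P.g s * W L τ y s) := by
  rw [ofReal_integral_eq_lintegral_ofReal ((gW_int hp hl hs τ y).mono_set h0)
    ((ae_restrict_iff' hS).2 (ae_of_all _ fun s h =>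
      mul_nonneg (P.hg0 s) (W_mem hl τ y (le_of_lt (h0 h))).1))]
  simp only [ENNReal.ofReal_mul (P.hg0 _)]

/-- the mean gain of a jump -/
noncomputable def A (L : Lag P M) (τ y : ℝ) : ℝ := ∫ s in Ioi (0 : ℝ), P.g s * W L τ y s

theorem cut (hp : P.Facts M) (hl : L.Facts) (hs : L.Step) (τ y : ℝ) {S : Set ℝ}
    (h0 : S ⊆ Ioi 0) :
    M * (∫ s in S, s * P.g s) - ∫ s in S, P.g s * W L τ y s ≤ M - A L τ y := by
  have i1 := hp.sg_int.const_mul M
  have i2 := gW_int hp hl hs τ y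
  have h := setIntegral_mono_set (i1.sub i2)
    ((ae_restrict_iff' measurableSet_Ioi).2 (ae_of_all _ fun s h => by
      have h1 := (W_mem hl τ y (le_of_lt h)).2
      show 0 ≤ M * (s * P.g s) - P.g s * W L τ y s
      nlinarith [P.hg0 s])) h0.eventuallyLE
  simp only [Pi.sub_apply] at h
  rwa [integral_sub i1 i2, integral_sub (IntegrableOn.mono_set i1 h0) (i2.mono_set h0),
    integral_const_mul, integral_const_mul, hp.sg_one, mul_one] at h

theorem A_mem (hp : P.Facts M) (hl : L.Facts) (hs : L.Step) (τ y : ℝ) : A L τ y ∈ Icc 0 M := by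
  refine ⟨setIntegral_nonneg measurableSet_Ioi fun s h =>
    mul_nonneg (P.hg0 s) (W_mem hl τ y (le_of_lt h)).1, ?_⟩
  simpa using cut hp hl hs τ y (empty_subset _)

theorem upper (hp : P.Facts M) (hl : L.Facts) (hs : L.Step) {t h y c : ℝ} (hh : P.Small M h)
    (hc : ∀ τ ∈ Ioc (t - h) t, L.rate τ y * A L τ y ≤ c) :
    ∫⁻ ξ, ENNReal.ofReal (L.m (L.step t h y ξ) - L.m y) ∂P.noise ≤ ENNReal.ofReal (h * c) := by
  rw [hs.lint t h hh y (fun z => ENNReal.ofReal (L.m z - L.m y))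
    (hl.m_cont.measurable.sub_const _).ennreal_ofReal, sub_self, ENNReal.ofReal_zero, mul_zero,
    zero_add]
  refine (setLIntegral_mono' (g := fun _ => ENNReal.ofReal c) measurableSet_Ioc
    fun τ hτ => ?_).trans_eq ?_
  · refine le_trans (le_of_eq ?_) (ENNReal.ofReal_le_ofReal (hc τ hτ))
    rw [ENNReal.ofReal_mul (hl.rate_mem τ y).1]
    exact congrArg _ (lint_gW hp hl hs τ y measurableSet_Ioi Subset.rfl)
  · rw [setLIntegral_const, Real.volume_Ioc, sub_sub_cancel, ENNReal.ofReal_mul hh.1.le, mul_comm]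

theorem lower (hp : P.Facts M) (hl : L.Facts) (hs : L.Step) {t h y y' c R : ℝ} (hh : P.Small M h)
    (hy : ∀ τ ∈ Ioc (t - h) t, L.X τ y + R ≤ L.X τ y')
    (hc : ∀ τ ∈ Ioc (t - h) t, c ≤ L.rate τ y * ∫ s in Ioc 0 R, P.g s * W L τ y s) :
    ENNReal.ofReal (h * c) ≤ ∫⁻ ξ in {ξ | L.step t h y ξ ≤ y'},
      ENNReal.ofReal (L.m (L.step t h y ξ) - L.m y) ∂P.noise := by
  have hm : MeasurableSet {ξ | L.step t h y ξ ≤ y'} :=
    measurableSet_le ((hs.step_meas t h).comp measurable_prodMk_left) measurable_const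
  have h1 := hs.lint t h hh y ((Iic y').indicator fun z => ENNReal.ofReal (L.m z - L.m y))
    ((hl.m_cont.measurable.sub_const _).ennreal_ofReal.indicator measurableSet_Iic)
  rw [← lintegral_indicator hm]
  refine le_trans ?_ (le_of_eq h1.symm)
  refine le_trans ?_ le_add_self
  refine le_trans (le_of_eq ?_) (setLIntegral_mono' (f := fun _ => ENNReal.ofReal c)
    measurableSet_Ioc fun τ hτ => ?_)
  · rw [setLIntegral_const, Real.volume_Ioc, sub_sub_cancel, ENNReal.ofReal_mul hh.1.le, mul_comm]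
  · refine (ENNReal.ofReal_le_ofReal (hc τ hτ)).trans ?_
    rw [ENNReal.ofReal_mul (hl.rate_mem τ y).1,
      ← lint_gW hp hl hs τ y measurableSet_Ioc Ioc_subset_Ioi_self]
    refine mul_le_mul_right (le_trans (setLIntegral_mono' measurableSet_Ioc fun s h => ?_)
      (lintegral_mono_set Ioc_subset_Ioi_self)) _
    have h2 : L.jmp τ y s ∈ Iic y' := by
      have := (hl.Y_mono τ).monotone ((add_le_add_right h.2 _).trans (hy τ hτ))
      rwa [L.YX] at this
    rw [indicator_of_mem h2]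
    rfl

theorem k_int (hp : P.Facts M) {w : ℝ → ℝ} (hw : Measurable w) {C : ℝ} (hC : ∀ s, |w s| ≤ C) :
    IntegrableOn (fun s => P.k s * w s) (Ioi 0) :=
  hp.k_int.mul_bdd hw.aestronglyMeasurable (ae_of_all _ hC)

/-- a weighted mean of a profile that is close to a constant -/
theorem close (hp : P.Facts M) {w a : ℝ → ℝ} (hw : Measurable w) (ha : Measurable a)
    {C N K c D : ℝ} (hC : ∀ s, |w s| ≤ C) (hN : ∀ s, |a s| ≤ N) (hK : 0 ≤ K)
    (h : ∀ s, |w s - c| ≤ K * a s) (hD : ∫ s in Ioi (0 : ℝ), P.k s * a s ≤ D) :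
    |(∫ s in Ioi (0 : ℝ), P.k s * w s) - c| ≤ K * D := by
  have i1 := k_int hp hw hC
  have e : (∫ s in Ioi (0 : ℝ), P.k s * w s) - c = ∫ s in Ioi (0 : ℝ), (P.k s * w s - P.k s * c) := by
    rw [integral_sub i1 (hp.k_int.mul_const c), integral_mul_const, hp.k_one, one_mul]
  rw [e, ← Real.norm_eq_abs]
  refine le_trans (norm_integral_le_of_norm_le ((k_int hp ha hN).const_mul K)
    (ae_of_all _ fun s => ?_)) ?_
  · rw [← mul_sub, Real.norm_eq_abs, abs_mul, abs_of_nonneg (hp.k_nonneg s), mul_left_comm]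
    exact mul_le_mul_of_nonneg_left (h s) (hp.k_nonneg s)
  · rw [integral_const_mul]
    exact mul_le_mul_of_nonneg_left hD hK

theorem split (hp : P.Facts M) {a : ℝ → ℝ} (ha : Measurable a) {N R : ℝ} (hR : 0 ≤ R)
    (hN : ∀ s, a s ∈ Icc 0 N) : ∫ s in Ioi (0 : ℝ), P.k s * a s ≤
      P.k0 * (∫ s in (0 : ℝ)..R, a s) + N * ∫ s in Ioi R, P.k s := by
  have hN' : ∀ s, |a s| ≤ N := fun s => (abs_of_nonneg (hN s).1).trans_le (hN s).2
  have i1 := k_int hp ha hN'
  have s2 : Ioi R ⊆ Ioi 0 := Ioi_subset_Ioi hR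
  have i2 : IntegrableOn a (Ioc 0 R) :=
    Measure.integrableOn_of_bounded measure_Ioc_lt_top.ne ha.aestronglyMeasurable (ae_of_all _ hN')
  rw [← Ioc_union_Ioi_eq_Ioi hR, setIntegral_union (Ioc_disjoint_Ioi le_rfl) measurableSet_Ioi
    (i1.mono_set Ioc_subset_Ioi_self) (i1.mono_set s2), intervalIntegral.integral_of_le hR,
    ← integral_const_mul, ← integral_const_mul]
  refine add_le_add (integral_mono (i1.mono_set Ioc_subset_Ioi_self) (i2.const_mul _) fun s =>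
    mul_le_mul_of_nonneg_right (hp.k_le s) (hN s).1)
    (integral_mono (i1.mono_set s2) ((hp.k_int.mono_set s2).const_mul _) fun s => ?_)
  exact (mul_le_mul_of_nonneg_left (hN s).2 (hp.k_nonneg s)).trans_eq (mul_comm _ _)

theorem exists_small {a δ : ℝ} (ha : 0 ≤ a) (hδ : 0 < δ) :
    ∃ x, 0 < x ∧ ∀ x', x' ≤ x → a * x' < δ := by
  refine ⟨δ / (a + 1), by positivity, fun x' h => (mul_le_mul_of_nonneg_left h ha).trans_lt ?_⟩
  rw [← mul_div_assoc, div_lt_iff₀ (by positivity)]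
  linarith

end Drift

open Drift in
theorem driftAnyS : Basic → DriftAnyS := fun ⟨hP, hL, hS, _⟩ P M L _ _ y hM hh =>
  upper (hP P M hM) (hL P M L hM) (hS P M L hM) hh fun τ _ =>
    have h1 := (hL P M L hM).rate_mem τ y
    have h2 := A_mem (hP P M hM) (hL P M L hM) (hS P M L hM) τ y
    mul_le_mul h1.2 h2.2 h2.1 (h1.1.trans h1.2)

open Drift in
theorem driftS : Basic → DriftS := by
  rintro ⟨hP, hL, hS, -⟩ P M hM e he
  have hp := hP P M hM
  have hN := hp.N_pos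
  have hp0 := P.hp0
  have hbm := hp.bm_nonneg
  have hk0 := hp.k0_pos
  have hLq : 0 ≤ P.Lq M := by unfold Par.Lq; positivity
  have hTh : 0 ≤ P.Th M := by unfold Par.Th; positivity
  have hDV : 0 ≤ P.DV M := by unfold Par.DV; positivity
  have hF : Continuous fun z : ℝ × ℝ × ℝ => P.p * P.b z.1 * z.2.1 * z.2.2 := by
    have := P.hb
    fun_prop
  obtain ⟨δ, hδ, hu⟩ := Metric.uniformContinuousOn_iff.1
    ((isCompact_Icc.prod (isCompact_Icc.prod isCompact_Icc) : IsCompact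
      (Icc 0 (P.N M) ×ˢ Icc 0 (P.N M) ×ˢ Icc 0 M)).uniformContinuousOn_of_continuous
      hF.continuousOn) (e / 2) (half_pos he)
  have t1 := (hp.tail.const_mul ((P.Lq M + 1) * P.N M)).eventually
    (gt_mem_nhds (by rw [mul_zero]; exact half_pos hδ))
  have t2 : ∀ᶠ R : ℝ in atTop, P.Th M * (M * (1 - ∫ s in (0 : ℝ)..R / 4, s * P.g s)) < e / 2 := by
    have := intervalIntegral_tendsto_integral_Ioi 0 hp.sg_int
      (tendsto_id.atTop_div_const (four_pos (α := ℝ)))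
    rw [hp.sg_one] at this
    exact (((this.const_sub 1).const_mul M).const_mul (P.Th M)).eventually
      (gt_mem_nhds (by rw [sub_self, mul_zero, mul_zero]; exact half_pos he))
  obtain ⟨R0, hR0⟩ := eventually_atTop.1 (t1.and t2)
  refine ⟨max 4 R0, le_max_left _ _, fun R hR => ?_⟩
  have hR4 : 4 ≤ R := (le_max_left _ _).trans hR
  obtain ⟨r1, r2⟩ := hR0 R ((le_max_right _ _).trans hR)
  obtain ⟨e', he', k1⟩ := exists_small (a := (P.Lq M + 1) * P.k0) (by positivity) (half_pos hδ)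
  obtain ⟨h1, hh1, k2⟩ := hp.small
  obtain ⟨h2, hh2, k3⟩ := exists_small (a := P.Th M * P.k0 * P.N M) (by positivity) hδ
  obtain ⟨h3, hh3, k4⟩ := exists_small hDV one_pos
  refine ⟨e', min h1 (min h2 h3), he', by positivity, fun L t h y h0 hh ht hT htube => ?_⟩
  have hl := hL P M L hM
  have hs := hS P M L hM
  simp only [le_min_iff] at hh
  have hsm := k2 h h0 hh.1
  have hU : ∀ τ, L.U τ y ∈ Icc 0 (P.N M) := fun τ => ⟨hl.u_nonneg _ _, L.u_le _ _⟩
  have tm : t ∈ Icc 0 L.T := ⟨by linarith, hT⟩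
  have τm : ∀ τ ∈ Ioc (t - h) t, τ ∈ Icc 0 L.T ∧ |τ - t| ≤ h := fun τ hτ =>
    ⟨⟨by linarith [hτ.1], hτ.2.trans hT⟩, abs_le.2 ⟨by linarith [hτ.1], by linarith [hτ.2]⟩⟩
  have key : ∀ τ ∈ Ioc (t - h) t, |L.rate τ y * A L τ y - P.lam (L.U t y)| < e / 2 := by
    intro τ hτ
    have mu : Measurable fun s => L.u τ (L.X τ y + s) :=
      L.u_meas.comp (measurable_const.prodMk (measurable_const_add _))
    have mq : Measurable fun s => L.q τ (L.X τ y + s) :=
      hl.q_meas.comp (measurable_const.prodMk (measurable_const_add _))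
    have um : ∀ x, L.u τ x ∈ Icc 0 (P.N M) := fun x => ⟨hl.u_nonneg _ _, L.u_le _ _⟩
    have bq : ∀ s, |L.q τ (L.X τ y + s)| ≤ M := fun s =>
      (abs_of_nonneg (hl.q_mem _ _).1).trans_le (hl.q_mem _ _).2
    have ma := (mu.sub_const (L.U t y)).abs
    have am : ∀ s, |L.u τ (L.X τ y + s) - L.U t y| ∈ Icc 0 (P.N M) := fun s =>
      ⟨abs_nonneg _, abs_le.2 ⟨by linarith [(um (L.X τ y + s)).1, (hU t).2],
        by linarith [(um (L.X τ y + s)).2, (hU t).1]⟩⟩
    have am' := fun s => (abs_abs _).trans_le (am s).2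
    have hD := (split hp ma (by linarith : 0 ≤ R) am).trans (add_le_add_left
      (mul_le_mul_of_nonneg_left (htube τ (Ioc_subset_Icc_self hτ)) hk0.le) _)
    have c1 := close hp mu ma (fun s => (abs_of_nonneg (um _).1).trans_le (um _).2) am'
      zero_le_one (fun s => (one_mul _).ge) hD
    have c2 := close hp mq ma bq am' hLq (fun s => hp.root_lip _ (um _) _ (hU t)) hD
    have eA : A L τ y = ∫ s in Ioi (0 : ℝ), P.k s * L.q τ (L.X τ y + s) := by
      rw [← hp.swap _ mq ⟨M, bq⟩]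
      simp only [A, W_eq hl]
    rw [← eA] at c2
    have d0 := (abs_nonneg _).trans c1
    have d1 := k1 e' le_rfl
    have d2 := (hl.U_lip y τ (τm τ hτ).1 t tm).trans
      (mul_le_mul_of_nonneg_left (τm τ hτ).2 (by positivity))
    have d3 := k3 h hh.2.1
    have d4 := mul_nonneg hLq d0
    refine hu (L.Z τ (L.X τ y), L.U τ y, A L τ y) ⟨hl.Z_mem _ _, hU τ, A_mem hp hl hs τ y⟩
      (L.U t y, L.U t y, L.U t y ^ (1 / P.p)) ⟨hU t, hU t, hl.q_mem t (L.X t y)⟩ ?_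
    rw [Prod.dist_eq, Prod.dist_eq, Real.dist_eq, Real.dist_eq, Real.dist_eq]
    exact max_lt (c1.trans_lt (by linarith)) (max_lt (by linarith) (c2.trans_lt (by linarith)))
  refine ⟨upper hp hl hs hsm fun τ hτ => by linarith [(abs_lt.1 (key τ hτ)).2], fun y' hy' =>
    lower (R := R / 4) hp hl hs hsm (fun τ hτ => ?_) fun τ hτ => ?_⟩
  · have d1 := hl.dist_add y y' τ (τm τ hτ).1 t tm
    have d2 := mul_le_mul_of_nonneg_left (τm τ hτ).2 hDV
    have d3 := k4 h hh.2.2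
    linarith
  · have d1 := cut hp hl hs τ y (Ioc_subset_Ioi_self : Ioc 0 (R / 4) ⊆ _)
    rw [intervalIntegral.integral_of_le (by linarith)] at r2
    have d2 : 0 ≤ 1 - ∫ s in Ioc 0 (R / 4), s * P.g s := by
      rw [sub_nonneg, ← hp.sg_one]
      exact setIntegral_mono_set hp.sg_int ((ae_restrict_iff' measurableSet_Ioi).2
        (ae_of_all _ fun s h => mul_nonneg (le_of_lt h) (P.hg0 s))) Ioc_subset_Ioi_self.eventuallyLE
    have d3 := mul_le_mul_of_nonneg_right (hl.rate_mem τ y).2 (mul_nonneg hM.le d2)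
    have d4 := mul_le_mul_of_nonneg_left d1 (hl.rate_mem τ y).1
    linarith [(abs_lt.1 (key τ hτ)).1]

end MP34a893

end MrgPart0

-- ======== part 1: formerly Pool.Agent.MP_34a893_an.B.Shape
section MrgPart1

/-! Row SHP: tangent lines of a flux that is concave, then convex. -/

open Set Filter Topology

namespace MP34a893.B

namespace Shape

variable (P : Par) {M a : ℝ}

theorem root_pow {q : ℝ} (hq : 0 ≤ q) : (q ^ P.p) ^ (1 / P.p) = q := by
  rw [one_div, Real.rpow_rpow_inv hq P.hp0.ne']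

theorem pow_root {z : ℝ} (hz : 0 ≤ z) : (z ^ (1 / P.p)) ^ P.p = z := by
  rw [one_div, Real.rpow_inv_rpow hz P.hp0.ne']

theorem pow_mem {q : ℝ} (hq : q ∈ Icc 0 M) : q ^ P.p ∈ Icc 0 (P.N M) :=
  ⟨Real.rpow_nonneg hq.1 _, Real.rpow_le_rpow hq.1 hq.2 P.hp0.le⟩

theorem root_mono {x y : ℝ} (hx : 0 ≤ x) (h : x ≤ y) : x ^ (1 / P.p) ≤ y ^ (1 / P.p) :=
  Real.rpow_le_rpow hx h (one_div_pos.2 P.hp0).le

theorem root_lt {x y : ℝ} (hx : 0 ≤ x) (h : x < y) : x ^ (1 / P.p) < y ^ (1 / P.p) :=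
  Real.rpow_lt_rpow hx h (one_div_pos.2 P.hp0)

theorem root_mem (hM : 0 < M) {z : ℝ} (hz : z ∈ Icc 0 (P.N M)) : z ^ (1 / P.p) ∈ Icc 0 M :=
  ⟨Real.rpow_nonneg hz.1 _, (root_mono P hz.1 hz.2).trans_eq (root_pow P hM.le)⟩

theorem b_cont_sp : Continuous P.sp :=
  (continuous_iff_continuousAt.2 fun z => (P.hΦ z).continuousAt).sub
    ((continuous_const.mul P.hb).mul continuous_id)

theorem deriv_f {q : ℝ} (hq : 0 ≤ q) : HasDerivWithinAt P.f (P.sp (q ^ P.p)) (Ici 0) q := by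
  rcases hq.eq_or_lt with rfl | hq
  · rw [hasDerivWithinAt_iff_tendsto_slope]
    have h1 : Continuous fun y : ℝ => P.Φ (y ^ P.p) :=
      (continuous_iff_continuousAt.2 fun z => (P.hΦ z).continuousAt).comp
        (Real.continuous_rpow_const P.hp0.le)
    have e : P.sp ((0 : ℝ) ^ P.p) = P.Φ ((0 : ℝ) ^ P.p) := by
      simp [Par.sp, Par.rt, Real.zero_rpow P.hp0.ne']
    rw [e]
    refine ((h1.tendsto 0).mono_left nhdsWithin_le_nhds).congr' ?_
    filter_upwards [self_mem_nhdsWithin] with y hy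
    have hy0 : y ≠ 0 := hy.2
    rw [slope_def_field, Par.f, Par.f]
    field_simp
    ring
  · have h1 := (hasDerivAt_id q).mul
      ((P.hΦ (q ^ P.p)).comp q (Real.hasDerivAt_rpow_const (p := P.p) (Or.inl hq.ne')))
    refine (h1.congr_deriv ?_).hasDerivWithinAt
    have e : q ^ P.p = q ^ (P.p - 1) * q := by
      rw [← Real.rpow_add_one hq.ne', sub_add_cancel]
    simp only [Function.comp, id, Par.sp, Par.rt]
    linear_combination (P.p * P.b (q ^ P.p)) * e

/-- the tangent line at `q` -/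
theorem tan_eq {q : ℝ} (hq : 0 ≤ q) (t : ℝ) :
    P.lam (q ^ P.p) + t * P.sp (q ^ P.p) = P.f q + P.sp (q ^ P.p) * (t - q) := by
  rw [Par.lam, root_pow P hq, Par.f, Par.sp, Par.rt]
  ring

variable {P}

theorem cc_lt (h : P.Shape M a) {x y : ℝ} (hx : x ∈ Icc 0 a) (hy : y ∈ Icc 0 a) (e : x ≠ y) :
    P.f y < P.f x + P.sp (x ^ P.p) * (y - x) := by
  have d := (deriv_f P hx.1).mono (show Icc 0 a ⊆ Ici 0 from Icc_subset_Ici_self)
  rcases lt_or_gt_of_ne e with k | k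
  · have := h.2.1.slope_lt_of_hasDerivWithinAt hx hy k d
    rw [slope_def_field, div_lt_iff₀ (sub_pos.2 k)] at this
    linarith
  · have := h.2.1.lt_slope_of_hasDerivWithinAt hy hx k d
    rw [slope_def_field, lt_div_iff₀ (sub_pos.2 k)] at this
    linarith

theorem cc_le (h : P.Shape M a) {x y : ℝ} (hx : x ∈ Icc 0 a) (hy : y ∈ Icc 0 a) :
    P.f y ≤ P.f x + P.sp (x ^ P.p) * (y - x) := by
  rcases eq_or_ne x y with rfl | e
  · simp
  · exact (cc_lt h hx hy e).le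

theorem cv_lt (h : P.Shape M a) {x y : ℝ} (hx : x ∈ Icc a M) (hy : y ∈ Icc a M) (e : x ≠ y) :
    P.f x + P.sp (x ^ P.p) * (y - x) < P.f y := by
  have d := (deriv_f P (h.1.1.trans hx.1)).mono
    (show Icc a M ⊆ Ici 0 from fun z hz => h.1.1.trans hz.1)
  rcases lt_or_gt_of_ne e with k | k
  · have := h.2.2.lt_slope_of_hasDerivWithinAt hx hy k d
    rw [slope_def_field, lt_div_iff₀ (sub_pos.2 k)] at this
    linarith
  · have := h.2.2.slope_lt_of_hasDerivWithinAt hy hx k d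
    rw [slope_def_field, div_lt_iff₀ (sub_pos.2 k)] at this
    linarith

theorem cv_le (h : P.Shape M a) {x y : ℝ} (hx : x ∈ Icc a M) (hy : y ∈ Icc a M) :
    P.f x + P.sp (x ^ P.p) * (y - x) ≤ P.f y := by
  rcases eq_or_ne x y with rfl | e
  · simp
  · exact (cv_lt h hx hy e).le

theorem no_bit (hM : 0 < M) (h : P.Shape M a) {x y : ℝ} (hx : x ∈ Icc 0 (P.N M))
    (hy : y ∈ Icc 0 (P.N M)) (k : x < y) : 0 < |P.sp x - P.sp y| + |P.lam x - P.lam y| := by
  by_contra e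
  have e1 : P.sp x = P.sp y := by
    have := abs_nonneg (P.lam x - P.lam y)
    exact sub_eq_zero.1 (abs_nonpos_iff.1 (by linarith))
  have e2 : P.lam x = P.lam y := by
    have := abs_nonneg (P.sp x - P.sp y)
    exact sub_eq_zero.1 (abs_nonpos_iff.1 (by linarith))
  have mx := root_mem P hM hx
  have my := root_mem P hM hy
  have hlt := root_lt P hx.1 k
  have tx := tan_eq P mx.1
  have ty := tan_eq P my.1
  have px := pow_root P hx.1
  have py := pow_root P hy.1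
  generalize x ^ (1 / P.p) = u at *
  generalize y ^ (1 / P.p) = v at *
  have same : ∀ t, P.f u + P.sp (u ^ P.p) * (t - u) = P.f v + P.sp (v ^ P.p) * (t - v) := fun t => by
    rw [← tx, ← ty, px, py, e1, e2]
  rcases le_or_gt v a with h1 | h1
  · have := cc_lt h ⟨mx.1, hlt.le.trans h1⟩ ⟨my.1, h1⟩ hlt.ne
    rw [same] at this
    simp at this
  rcases le_or_gt a u with h2 | h2
  · have := cv_lt h ⟨h2, mx.2⟩ ⟨h1.le, my.2⟩ hlt.ne
    rw [same] at this
    simp at this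
  · have a1 := cc_lt h ⟨mx.1, h2.le⟩ ⟨h.1.1, le_rfl⟩ h2.ne
    have a2 := cv_lt h ⟨h1.le, my.2⟩ ⟨le_rfl, h.1.2⟩ h1.ne'
    rw [same] at a1
    linarith

theorem phi_abs (F : P.Facts M) {z : ℝ} (hz : z ∈ Icc 0 (P.N M)) :
    |P.Φ z - P.Φ 0| ≤ P.DV M := by
  have h1 := F.Φ_lip z hz 0 ⟨le_rfl, F.N_pos.le⟩
  rw [sub_zero, abs_of_nonneg hz.1] at h1
  exact h1.trans (mul_le_mul_of_nonneg_left hz.2 F.bm_nonneg)

theorem phi_le (F : P.Facts M) {z : ℝ} (hz : z ∈ Icc 0 (P.N M)) : |P.Φ z| ≤ P.Vm M := by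
  have := phi_abs F hz
  have := abs_sub_abs_le_abs_sub (P.Φ z) (P.Φ 0)
  unfold Par.Vm
  linarith

theorem th_nonneg (F : P.Facts M) : 0 ≤ P.Th M :=
  mul_nonneg (mul_nonneg P.hp0.le F.bm_nonneg) F.N_pos.le

theorem sp_abs (F : P.Facts M) {z : ℝ} (hz : z ∈ Icc 0 (P.N M)) :
    |P.sp z| ≤ P.Vm M + P.Th M := by
  have h1 : 0 ≤ P.rt z := mul_nonneg (mul_nonneg P.hp0.le (P.hb0 z)) hz.1
  have h2 : P.rt z ≤ P.Th M :=
    mul_le_mul (mul_le_mul_of_nonneg_left (F.b_le z hz) P.hp0.le) hz.2 hz.1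
      (mul_nonneg P.hp0.le F.bm_nonneg)
  have h3 := abs_le.1 (phi_le F hz)
  rw [Par.sp, abs_le]
  constructor <;> linarith [h3.1, h3.2]

theorem f_lip (F : P.Facts M) {x y : ℝ} (hx : x ∈ Icc 0 M) (hy : y ∈ Icc 0 M) :
    |P.f y - P.f x| ≤ (P.Vm M + P.Th M) * |y - x| :=
  (convex_Icc _ _).norm_image_sub_le_of_norm_hasDerivWithin_le
    (fun _ hz => (deriv_f P hz.1).mono Icc_subset_Ici_self)
    (fun _ hz => sp_abs F (pow_mem P hz)) hx hy

theorem near (F : P.Facts M) {x y g : ℝ} (hx : x ∈ Icc 0 M) (hy : y ∈ Icc 0 M) (k : x ≤ y)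
    (h : y ^ P.p ≤ x ^ P.p + g) : y - x ≤ P.Lq M * g := by
  have h1 := F.root_lip _ (pow_mem P hy) _ (pow_mem P hx)
  have h2 : x ^ P.p ≤ y ^ P.p := Real.rpow_le_rpow hx.1 k P.hp0.le
  rw [root_pow P hy.1, root_pow P hx.1, abs_of_nonneg (sub_nonneg.2 k),
    abs_of_nonneg (sub_nonneg.2 h2)] at h1
  refine h1.trans (mul_le_mul_of_nonneg_left (by linarith) ?_)
  exact mul_nonneg (one_div_pos.2 P.hp0).le (Real.rpow_nonneg F.N_pos.le _)

end Shape

open Shape

theorem posS (_ : ParFactsS) : PosS := by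
  intro P M a hM h hb z hz
  have hz' : z ∈ Icc 0 (P.N M) := ⟨hz.1.le, hz.2⟩
  have m := root_mem P hM hz'
  have hq : 0 < z ^ (1 / P.p) := Real.rpow_pos_of_pos hz.1 _
  have t := tan_eq P m.1 0
  have key : 0 < P.lam ((z ^ (1 / P.p)) ^ P.p) := by
    generalize z ^ (1 / P.p) = q at *
    rcases le_or_gt q a with k | k
    · have := cc_lt h ⟨m.1, k⟩ ⟨le_rfl, h.1.1⟩ hq.ne'
      have e : P.f 0 = 0 := zero_mul _
      linarith
    · have h0 := hb (k.trans_le m.2)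
      have hN : 0 < P.N M := Real.rpow_pos_of_pos hM _
      have h1 : 0 < P.lam (M ^ P.p) :=
        mul_pos (mul_pos (mul_pos P.hp0 h0) hN) (Real.rpow_pos_of_pos hN _)
      have t' := tan_eq P hM.le 0
      have a1 := cv_le h ⟨h.1.2, le_rfl⟩ ⟨k.le, m.2⟩
      have a2 := cv_le h ⟨k.le, m.2⟩ ⟨h.1.2, le_rfl⟩
      have a3 : P.sp (q ^ P.p) ≤ P.sp (M ^ P.p) := by
        rcases m.2.eq_or_lt with e | e
        · rw [e]
        · exact le_of_mul_le_mul_right (by linarith) (sub_pos.2 e)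
      have a4 := mul_le_mul_of_nonneg_right a3 m.1
      linarith
  rw [pow_root P hz.1.le] at key
  refine (P.hb0 z).lt_of_ne fun e => ?_
  simp [Par.lam, ← e] at key

theorem noBitS (hF : ParFactsS) : NoBitS := by
  intro P M a hM h δ hδ
  have F := hF P M hM
  have hK : IsCompact ((Icc 0 (P.N M) ×ˢ Icc 0 (P.N M)) ∩ {z : ℝ × ℝ | z.1 + δ / 2 ≤ z.2}) :=
    (isCompact_Icc.prod isCompact_Icc).inter_right
      (isClosed_le (continuous_fst.add continuous_const) continuous_snd)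
  have cs := b_cont_sp P
  obtain ⟨c, hc, H⟩ := hK.exists_forall_le'
    (f := fun z : ℝ × ℝ => |P.sp z.1 - P.sp z.2| + |P.lam z.1 - P.lam z.2|) (a := 0)
    (((cs.comp continuous_fst).sub (cs.comp continuous_snd)).abs.continuousOn.add
      ((F.lam_cont.comp continuousOn_fst fun z hz => hz.1.1).sub
        (F.lam_cont.comp continuousOn_snd fun z hz => hz.1.2)).abs)
    fun z hz => no_bit hM h hz.1.1 hz.1.2 ((lt_add_of_pos_right _ (half_pos hδ)).trans_le hz.2)
  obtain ⟨η1, h1, U1⟩ := Metric.uniformContinuousOn_iff_le.1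
    (isCompact_Icc.uniformContinuousOn_of_continuous (cs.continuousOn (s := Icc 0 (P.N M))))
    (c / 6) (by positivity)
  obtain ⟨η2, h2, U2⟩ := Metric.uniformContinuousOn_iff_le.1
    (isCompact_Icc.uniformContinuousOn_of_continuous F.lam_cont) (c / 6) (by positivity)
  obtain ⟨ω, hω, w1, w2, w3⟩ : ∃ ω, 0 < ω ∧ ω ≤ δ / 4 ∧ 2 * ω ≤ η1 ∧ 2 * ω ≤ η2 :=
    ⟨min (δ / 4) (min η1 η2 / 2), by positivity, min_le_left _ _,
      by linarith [min_le_right (δ / 4) (min η1 η2 / 2), min_le_left η1 η2],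
      by linarith [min_le_right (δ / 4) (min η1 η2 / 2), min_le_right η1 η2]⟩
  refine ⟨c / 6, ω, by positivity, hω, fun z z' hz => ?_⟩
  have mv : ∀ m, ∀ x ∈ Icc 0 (P.N M), ∀ x' ∈ Icc 0 (P.N M), |x - m| ≤ ω → |x' - m| ≤ ω →
      |P.sp x - P.sp x'| ≤ c / 6 ∧ |P.lam x - P.lam x'| ≤ c / 6 := by
    intro m x hx x' hx' k k'
    have d : dist x x' ≤ 2 * ω := by
      rw [Real.dist_eq, abs_le] at *
      constructor <;> linarith [k.1, k.2, k'.1, k'.2]
    exact ⟨U1 x hx x' hx' (d.trans w2), U2 x hx x' hx' (d.trans w3)⟩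
  by_cases e : ∃ x ∈ Icc 0 (P.N M), ∃ y ∈ Icc 0 (P.N M), |x - z| ≤ ω ∧ |y - z'| ≤ ω
  swap
  · exact ⟨1, 0, Or.inl ⟨Or.inl ⟨rfl, rfl⟩, fun x hx y hy k k' => absurd ⟨x, hx, y, hy, k, k'⟩ e⟩⟩
  obtain ⟨x0, hx0, y0, hy0, k0, k0'⟩ := e
  have g : c ≤ |P.sp x0 - P.sp y0| + |P.lam x0 - P.lam y0| := H (x0, y0) ⟨⟨hx0, hy0⟩, by
    have := abs_le.1 k0
    have := abs_le.1 k0'
    show x0 + δ / 2 ≤ y0
    linarith⟩
  rcases le_total (c / 2) |P.sp x0 - P.sp y0| with g1 | g1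
  · rcases le_abs.1 g1 with g2 | g2
    · refine ⟨1, 0, Or.inr ⟨Or.inl ⟨rfl, rfl⟩, fun y hy x hx k' k => ?_⟩⟩
      have a1 := abs_le.1 (mv z x hx x0 hx0 k k0).1
      have a2 := abs_le.1 (mv z' y hy y0 hy0 k' k0').1
      unfold Par.dr
      linarith [a1.1, a2.2]
    · refine ⟨1, 0, Or.inl ⟨Or.inl ⟨rfl, rfl⟩, fun x hx y hy k k' => ?_⟩⟩
      have a1 := abs_le.1 (mv z x hx x0 hx0 k k0).1
      have a2 := abs_le.1 (mv z' y hy y0 hy0 k' k0').1
      unfold Par.dr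
      linarith [a1.2, a2.1]
  · rcases le_abs.1 (show c / 2 ≤ |P.lam x0 - P.lam y0| by linarith) with g2 | g2
    · refine ⟨0, 1, Or.inl ⟨Or.inr ⟨rfl, rfl⟩, fun x hx y hy k k' => ?_⟩⟩
      have a1 := abs_le.1 (mv z x hx x0 hx0 k k0).2
      have a2 := abs_le.1 (mv z' y hy y0 hy0 k' k0').2
      unfold Par.dr
      linarith [a1.1, a2.2]
    · refine ⟨0, 1, Or.inr ⟨Or.inr ⟨rfl, rfl⟩, fun y hy x hx k' k => ?_⟩⟩
      have a1 := abs_le.1 (mv z x hx x0 hx0 k k0).2
      have a2 := abs_le.1 (mv z' y hy y0 hy0 k' k0').2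
      unfold Par.dr
      linarith [a1.2, a2.1]

theorem tanS (hF : ParFactsS) : TanS := by
  intro P M a hM h e he
  have F := hF P M hM
  have hDV : 0 ≤ P.DV M := mul_nonneg F.bm_nonneg F.N_pos.le
  have hVm : 0 ≤ P.Vm M := add_nonneg (abs_nonneg _) hDV
  have hTh := th_nonneg F
  have hLq : 0 ≤ P.Lq M := mul_nonneg (one_div_pos.2 P.hp0).le (Real.rpow_nonneg F.N_pos.le _)
  have lip := fun x y => f_lip F (x := x) (y := y)
  have spa := fun z => sp_abs F (z := z)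
  have hL : P.Vm M ≤ P.Vm M + P.Th M := by linarith
  generalize P.Vm M + P.Th M = Lp at lip spa hL
  have hLp : 0 ≤ Lp := hVm.trans hL
  obtain ⟨gap, hg, g1, g2⟩ : ∃ gap, 0 < gap ∧ gap ≤ (e / (P.DV M + 1)) ^ P.p ∧
      2 * Lp * (P.Lq M * (2 * gap)) ≤ e := by
    refine ⟨min ((e / (P.DV M + 1)) ^ P.p) (e / (4 * (Lp * P.Lq M) + 1)), by positivity,
      min_le_left _ _, ?_⟩
    have a1 := min_le_right ((e / (P.DV M + 1)) ^ P.p) (e / (4 * (Lp * P.Lq M) + 1))
    have a0 : 0 ≤ min ((e / (P.DV M + 1)) ^ P.p) (e / (4 * (Lp * P.Lq M) + 1)) := by positivity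
    rw [le_div_iff₀ (by positivity)] at a1
    linarith
  refine ⟨gap, Lp, hg, hLp, fun κ hκ hk => ?_⟩
  have mκ := pow_mem P hκ
  rcases le_or_gt a κ with ha | ha
  · refine ⟨κ ^ P.p, -Lp, g1.trans (Real.rpow_le_rpow (by positivity) ?_ P.hp0.le), ?_, ?_,
      fun z hz => ?_, fun q hq k => ?_⟩
    · have a1 := mul_le_mul_of_nonneg_left (abs_le.1 (phi_abs F mκ)).1 hκ.1
      rw [div_le_iff₀ (by positivity)]
      unfold Par.f at hk
      linarith [hκ.1]
    · rw [abs_neg, abs_of_nonneg hLp]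
    · exact mul_le_mul_of_nonneg_left (by linarith [(abs_le.1 (phi_le F mκ)).1]) hκ.1
    · have hz' : z ∈ Icc 0 (P.N M) := ⟨mκ.1.trans hz.1, hz.2⟩
      have m := root_mem P hM hz'
      have a1 := root_mono P mκ.1 hz.1
      rw [root_pow P hκ.1] at a1
      have a2 := cv_le h ⟨ha.trans a1, m.2⟩ ⟨ha, hκ.2⟩
      rw [← tan_eq P m.1, pow_root P hz'.1] at a2
      exact a2
    · have a1 := (abs_le.1 (lip κ q hκ hq)).2
      rcases le_total q κ with k1 | k1
      · rw [abs_of_nonpos (sub_nonpos.2 k1)] at a1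
        linarith
      · rw [abs_of_nonneg (sub_nonneg.2 k1)] at a1
        have a2 := near F hκ hq k1 (g := 2 * gap) (by linarith)
        have a3 := mul_le_mul_of_nonneg_left a2 hLp
        linarith
  · have hκa : κ ∈ Icc 0 a := ⟨hκ.1, ha.le⟩
    have hcl : IsCompact (Icc a M ∩ (fun q => P.f q - P.sp (κ ^ P.p) * (q - κ)) ⁻¹' Iic (P.f κ)) :=
      isCompact_Icc.of_isClosed_subset (ContinuousOn.preimage_isClosed_of_isClosed
        ((F.f_cont.mono (Icc_subset_Icc_left h.1.1)).sub (by fun_prop)) isClosed_Icc isClosed_Iic)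
        inter_subset_left
    have hA := cc_le h hκa ⟨h.1.1, le_rfl⟩
    obtain ⟨s, ⟨hs, hs'⟩, hmax⟩ := hcl.exists_isGreatest
      ⟨a, ⟨le_rfl, h.1.2⟩, show P.f a - _ ≤ _ by linarith⟩
    have hs1 : P.f s - P.sp (κ ^ P.p) * (s - κ) ≤ P.f κ := hs'
    have hs0 : s ∈ Icc 0 M := ⟨h.1.1.trans hs.1, hs.2⟩
    have ms := pow_mem P hs0
    have hσ := spa _ mκ
    refine ⟨s ^ P.p + gap, P.sp (κ ^ P.p), by linarith [ms.1], hσ, ?_, fun z hz => ?_,
      fun q hq k => ?_⟩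
    · have a1 := tan_eq P hκ.1 κ
      have a2 : 0 ≤ P.lam (κ ^ P.p) :=
        mul_nonneg (mul_nonneg (mul_nonneg P.hp0.le (P.hb0 _)) mκ.1) (Real.rpow_nonneg mκ.1 _)
      linarith
    · have hz' : z ∈ Icc 0 (P.N M) := ⟨by linarith [ms.1, hz.1], hz.2⟩
      have m := root_mem P hM hz'
      have a1 := root_lt P ms.1 (show s ^ P.p < z by linarith [hz.1])
      rw [root_pow P hs0.1] at a1
      have a0 := tan_eq P m.1 κ
      rw [pow_root P hz'.1] at a0
      have a2 := cv_le h ⟨hs.1.trans a1.le, m.2⟩ hs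
      rw [pow_root P hz'.1] at a2
      generalize z ^ (1 / P.p) = q at *
      have a3 : P.f κ < P.f q - P.sp (κ ^ P.p) * (q - κ) := by
        by_contra k
        exact a1.not_ge (hmax ⟨⟨hs.1.trans a1.le, m.2⟩, not_lt.1 k⟩)
      have a4 : P.sp (κ ^ P.p) ≤ P.sp z := le_of_mul_le_mul_right (by linarith) (sub_pos.2 a1)
      have a5 := mul_le_mul_of_nonneg_right a4 (show 0 ≤ s - κ by linarith [hs.1])
      linarith
    · rcases le_total q a with k1 | k1
      · linarith [cc_le h hκa ⟨hq.1, k1⟩]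
      rcases le_total q s with k2 | k2
      · have a1 := cv_le h ⟨k1, hq.2⟩ ⟨le_rfl, h.1.2⟩
        have a2 := cv_le h ⟨k1, hq.2⟩ hs
        rcases le_total (P.sp (q ^ P.p)) (P.sp (κ ^ P.p)) with k3 | k3
        · have := mul_le_mul_of_nonneg_right k3 (sub_nonneg.2 k1)
          linarith
        · have := mul_le_mul_of_nonneg_right k3 (sub_nonneg.2 k2)
          linarith
      · have a1 := (abs_le.1 (lip s q hs0 hq)).2
        rw [abs_of_nonneg (sub_nonneg.2 k2)] at a1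
        have a2 := near F hs0 hq k2 (g := 2 * gap) (by linarith)
        have a3 := mul_le_mul_of_nonneg_left a2 hLp
        have a4 := mul_le_mul_of_nonneg_right (abs_le.1 hσ).1 (sub_nonneg.2 k2)
        linarith

end MP34a893.B

end MrgPart1

-- ======== part 2: formerly Pool.Agent.MP_34a893_an.B.DriftX
section MrgPart2

/-! The spatial drift of one step of the chain at a state with a tube. -/

open MeasureTheory Set Filter Topology
open scoped ENNReal

namespace MP34a893.B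

namespace DriftX

variable {P : Par} {M : ℝ} {L : Lag P M}

theorem jump (hl : L.Facts) {σ τ : ℝ} (hσ : σ ∈ Icc 0 L.T) (hτ : τ ∈ Icc 0 L.T) (y s : ℝ) :
    L.X σ (L.jmp τ y s) - L.X σ y ≤ s + P.DV M * |τ - σ| ∧
      s - P.DV M * |τ - σ| ≤ L.X σ (L.jmp τ y s) - L.X σ y := by
  have h1 := hl.dist_add y (L.jmp τ y s) τ hτ σ hσ
  have h2 := hl.dist_add y (L.jmp τ y s) σ hσ τ hτ
  have e : L.X τ (L.jmp τ y s) = L.X τ y + s := L.XY _ _
  rw [abs_sub_comm] at h2
  constructor <;> linarith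

theorem lin_int (hp : P.Facts M) (c : ℝ) : IntegrableOn (fun s => P.g s * (s + c)) (Ioi 0) := by
  have := hp.sg_int.add (P.hgi.integrableOn.mul_const c)
  refine this.congr (ae_of_all _ fun s => ?_)
  simp only [Pi.add_apply]
  ring

theorem lin_val (hp : P.Facts M) (c : ℝ) {S : Set ℝ} (h0 : S ⊆ Ioi 0) :
    ∫ s in S, P.g s * (s + c) = (∫ s in S, s * P.g s) + (∫ s in S, P.g s) * c := by
  rw [← integral_mul_const, ← integral_add (hp.sg_int.mono_set h0)
    (P.hgi.integrableOn.mul_const c)]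
  exact integral_congr_ae (ae_of_all _ fun s => by ring)

theorem ofReal_le {f : ℝ → ℝ} {μ : Measure ℝ} (hf : Integrable f μ) :
    ENNReal.ofReal (∫ s, f s ∂μ) ≤ ∫⁻ s, ENNReal.ofReal (f s) ∂μ := by
  rw [integral_eq_lintegral_pos_part_sub_lintegral_neg_part hf]
  exact (ENNReal.ofReal_le_ofReal (sub_le_self _ ENNReal.toReal_nonneg)).trans
    ENNReal.ofReal_toReal_le

theorem mX (L : Lag P M) (σ : ℝ) : Measurable (L.X σ) :=
  (L.X_cont.comp (continuous_const.prodMk continuous_id)).measurable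

theorem upper (hp : P.Facts M) (hl : L.Facts) (hs : L.Step) {t h y c D : ℝ} (hh : P.Small M h)
    (hD : 0 ≤ D) (hW : ∀ τ ∈ Ioc (t - h) t, ∀ s, L.X (t - h) (L.jmp τ y s) - L.X (t - h) y ≤ s + D)
    (hc : ∀ τ ∈ Ioc (t - h) t, L.rate τ y * (1 + P.k0 * D) ≤ c) :
    ∫⁻ ξ, ENNReal.ofReal (L.X (t - h) (L.step t h y ξ) - L.X (t - h) y) ∂P.noise ≤
      ENNReal.ofReal (h * c) := by
  rw [hs.lint t h hh y (fun z => ENNReal.ofReal (L.X (t - h) z - L.X (t - h) y))
    ((mX L _).sub_const _).ennreal_ofReal, sub_self, ENNReal.ofReal_zero, mul_zero, zero_add]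
  refine (setLIntegral_mono' (g := fun _ => ENNReal.ofReal c) measurableSet_Ioc
    fun τ hτ => ?_).trans_eq ?_
  · refine le_trans ?_ (ENNReal.ofReal_le_ofReal (hc τ hτ))
    rw [ENNReal.ofReal_mul (hl.rate_mem τ y).1]
    refine mul_le_mul_right ?_ _
    have e := lin_val hp D (Subset.rfl : Ioi (0 : ℝ) ⊆ _)
    rw [hp.sg_one, hp.g_int] at e
    rw [← e, ofReal_integral_eq_lintegral_ofReal (lin_int hp D)
      ((ae_restrict_iff' measurableSet_Ioi).2 (ae_of_all _ fun s h =>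
        mul_nonneg (P.hg0 s) (add_nonneg (le_of_lt h) hD)))]
    refine lintegral_mono fun s => ?_
    rw [ENNReal.ofReal_mul (P.hg0 _)]
    exact mul_le_mul_right (ENNReal.ofReal_le_ofReal (hW τ hτ s)) _
  · rw [setLIntegral_const, Real.volume_Ioc, sub_sub_cancel, ENNReal.ofReal_mul hh.1.le, mul_comm]

theorem lower (hp : P.Facts M) (hl : L.Facts) (hs : L.Step) {t h y y' c R D : ℝ}
    (hh : P.Small M h) (hy : ∀ τ ∈ Ioc (t - h) t, L.X τ y + R ≤ L.X τ y')
    (hW : ∀ τ ∈ Ioc (t - h) t, ∀ s, s - D ≤ L.X (t - h) (L.jmp τ y s) - L.X (t - h) y)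
    (hc : ∀ τ ∈ Ioc (t - h) t, c ≤ L.rate τ y * ∫ s in Ioc 0 R, P.g s * (s + -D)) :
    ENNReal.ofReal (h * c) ≤ ∫⁻ ξ in {ξ | L.step t h y ξ ≤ y'},
      ENNReal.ofReal (L.X (t - h) (L.step t h y ξ) - L.X (t - h) y) ∂P.noise := by
  have hm : MeasurableSet {ξ | L.step t h y ξ ≤ y'} :=
    measurableSet_le ((hs.step_meas t h).comp measurable_prodMk_left) measurable_const
  have h1 := hs.lint t h hh y
    ((Iic y').indicator fun z => ENNReal.ofReal (L.X (t - h) z - L.X (t - h) y))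
    (((mX L _).sub_const _).ennreal_ofReal.indicator measurableSet_Iic)
  rw [← lintegral_indicator hm]
  refine le_trans ?_ (le_of_eq h1.symm)
  refine le_trans ?_ le_add_self
  refine le_trans (le_of_eq ?_) (setLIntegral_mono' (f := fun _ => ENNReal.ofReal c)
    measurableSet_Ioc fun τ hτ => ?_)
  · rw [setLIntegral_const, Real.volume_Ioc, sub_sub_cancel, ENNReal.ofReal_mul hh.1.le, mul_comm]
  · refine (ENNReal.ofReal_le_ofReal (hc τ hτ)).trans ?_
    rw [ENNReal.ofReal_mul (hl.rate_mem τ y).1]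
    refine mul_le_mul_right ((ofReal_le ((lin_int hp (-D)).mono_set Ioc_subset_Ioi_self)).trans
      (le_trans (setLIntegral_mono' measurableSet_Ioc fun s h => ?_)
        (lintegral_mono_set Ioc_subset_Ioi_self))) _
    have h2 : L.jmp τ y s ∈ Iic y' := by
      have := (hl.Y_mono τ).monotone ((add_le_add_right h.2 _).trans (hy τ hτ))
      rwa [L.YX] at this
    rw [indicator_of_mem h2, ENNReal.ofReal_mul (P.hg0 _)]
    exact mul_le_mul_right (ENNReal.ofReal_le_ofReal (hW τ hτ s)) _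

end DriftX

open DriftX in
theorem driftXS : Basic → DriftXS := by
  rintro ⟨hP, hL, hS, -⟩ P M hM e he
  have hp := hP P M hM
  have hN := hp.N_pos
  have hp0 := P.hp0
  have hbm := hp.bm_nonneg
  have hk0 := hp.k0_pos
  have hTh : 0 ≤ P.Th M := by unfold Par.Th; positivity
  have hDV : 0 ≤ P.DV M := by unfold Par.DV; positivity
  have hF : Continuous fun z : ℝ × ℝ => P.p * P.b z.1 * z.2 := by
    have := P.hb
    fun_prop
  obtain ⟨δ0, hδ0, hu⟩ := Metric.uniformContinuousOn_iff.1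
    ((isCompact_Icc.prod isCompact_Icc : IsCompact
      (Icc 0 (P.N M) ×ˢ Icc 0 (P.N M))).uniformContinuousOn_of_continuous
      hF.continuousOn) (e / 2) (half_pos he)
  obtain ⟨δ1, hδ1, k0⟩ := Drift.exists_small hbm he
  obtain ⟨δ, hδ, l0, l1⟩ : ∃ δ, 0 < δ ∧ δ ≤ δ0 ∧ δ ≤ δ1 :=
    ⟨min δ0 δ1, lt_min hδ0 hδ1, min_le_left _ _, min_le_right _ _⟩
  have t1 := (hp.tail.const_mul (P.N M)).eventually
    (gt_mem_nhds (by rw [mul_zero]; exact half_pos hδ))
  have t2 : ∀ᶠ R : ℝ in atTop, P.Th M * (1 - ∫ s in (0 : ℝ)..R / 4, s * P.g s) < e / 4 := by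
    have := intervalIntegral_tendsto_integral_Ioi 0 hp.sg_int
      (tendsto_id.atTop_div_const (four_pos (α := ℝ)))
    rw [hp.sg_one] at this
    exact ((this.const_sub 1).const_mul (P.Th M)).eventually
      (gt_mem_nhds (by rw [sub_self, mul_zero]; positivity))
  obtain ⟨R0, hR0⟩ := eventually_atTop.1 (t1.and t2)
  refine ⟨max 4 R0, le_max_left _ _, fun R hR => ?_⟩
  have hR4 : 4 ≤ R := (le_max_left _ _).trans hR
  obtain ⟨r1, r2⟩ := hR0 R ((le_max_right _ _).trans hR)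
  obtain ⟨e', he', k1⟩ := Drift.exists_small hk0.le (half_pos hδ)
  obtain ⟨h1, hh1, k2⟩ := hp.small
  obtain ⟨h2, hh2, k3⟩ := Drift.exists_small (a := P.Th M * P.k0 * P.N M) (by positivity) hδ
  obtain ⟨h3, hh3, k4⟩ := Drift.exists_small hDV one_pos
  obtain ⟨h4, hh4, k5⟩ := Drift.exists_small (a := P.Th M * P.k0 * P.DV M) (δ := e / 4)
    (by positivity) (by positivity)
  refine ⟨e', min h1 (min h2 (min h3 h4)), he', by positivity,
    fun L t h y h0 hh ht hT htube => ?_⟩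
  have hl := hL P M L hM
  have hs := hS P M L hM
  simp only [le_min_iff] at hh
  have hsm := k2 h h0 hh.1
  have hU : ∀ τ, L.U τ y ∈ Icc 0 (P.N M) := fun τ => ⟨hl.u_nonneg _ _, L.u_le _ _⟩
  have tm : t ∈ Icc 0 L.T := ⟨by linarith, hT⟩
  have σm : t - h ∈ Icc 0 L.T := ⟨by linarith, by linarith⟩
  have τm : ∀ τ ∈ Ioc (t - h) t, τ ∈ Icc 0 L.T ∧ |τ - t| ≤ h ∧ |τ - (t - h)| ≤ h := fun τ hτ =>
    ⟨⟨by linarith [hτ.1], hτ.2.trans hT⟩, abs_le.2 ⟨by linarith [hτ.1], by linarith [hτ.2]⟩,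
      abs_le.2 ⟨by linarith [hτ.1], by linarith [hτ.2]⟩⟩
  have kZ : ∀ τ ∈ Ioc (t - h) t, |L.Z τ (L.X τ y) - L.U t y| < δ := by
    intro τ hτ
    have mu : Measurable fun s => L.u τ (L.X τ y + s) :=
      L.u_meas.comp (measurable_const.prodMk (measurable_const_add _))
    have um : ∀ x, L.u τ x ∈ Icc 0 (P.N M) := fun x => ⟨hl.u_nonneg _ _, L.u_le _ _⟩
    have ma := (mu.sub_const (L.U t y)).abs
    have am : ∀ s, |L.u τ (L.X τ y + s) - L.U t y| ∈ Icc 0 (P.N M) := fun s =>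
      ⟨abs_nonneg _, abs_le.2 ⟨by linarith [(um (L.X τ y + s)).1, (hU t).2],
        by linarith [(um (L.X τ y + s)).2, (hU t).1]⟩⟩
    have am' := fun s => (abs_abs _).trans_le (am s).2
    have hD := (Drift.split hp ma (by linarith : 0 ≤ R) am).trans (add_le_add_left
      (mul_le_mul_of_nonneg_left (htube τ (Ioc_subset_Icc_self hτ)) hk0.le) _)
    have c1 := Drift.close hp mu ma (fun s => (abs_of_nonneg (um _).1).trans_le (um _).2) am'
      zero_le_one (fun s => (one_mul _).ge) hD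
    have d1 := k1 e' le_rfl
    exact c1.trans_lt (by linarith)
  have key : ∀ τ ∈ Ioc (t - h) t, |L.rate τ y - P.rt (L.U t y)| < e / 2 := by
    intro τ hτ
    have d2 := (hl.U_lip y τ (τm τ hτ).1 t tm).trans
      (mul_le_mul_of_nonneg_left (τm τ hτ).2.1 (by positivity))
    have d3 := k3 h hh.2.1
    refine hu (L.Z τ (L.X τ y), L.U τ y) ⟨hl.Z_mem _ _, hU τ⟩ (L.U t y, L.U t y) ⟨hU t, hU t⟩ ?_
    rw [Prod.dist_eq, Real.dist_eq, Real.dist_eq]
    exact max_lt ((kZ τ hτ).trans_le l0) (by linarith)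
  have hW := fun τ (hτ : τ ∈ Ioc (t - h) t) s => jump hl σm (τm τ hτ).1 y s
  have hD := fun τ (hτ : τ ∈ Ioc (t - h) t) => mul_le_mul_of_nonneg_left (τm τ hτ).2.2 hDV
  have d5 := k5 h hh.2.2.2
  have hDh : 0 ≤ P.DV M * h := by positivity
  refine ⟨?_, upper (D := P.DV M * h) hp hl hs hsm hDh
    (fun τ hτ s => by linarith [(hW τ hτ s).1, hD τ hτ]) fun τ hτ => ?_, fun y' hy' =>
    lower (R := R / 4) (D := P.DV M * h) hp hl hs hsm (fun τ hτ => ?_)
      (fun τ hτ s => by linarith [(hW τ hτ s).2, hD τ hτ]) fun τ hτ => ?_⟩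
  · have hc : Continuous fun τ => L.v τ (L.X τ y) :=
      hl.v_cont.comp (continuous_id.prodMk
        (L.X_cont.comp (continuous_id.prodMk continuous_const)))
    have e1 : L.X t y - L.X (t - h) y - h * P.Φ (L.U t y) =
        ∫ τ in (t - h)..t, (L.v τ (L.X τ y) - P.Φ (L.U t y)) := by
      rw [intervalIntegral.integral_sub (hc.intervalIntegrable _ _) intervalIntegrable_const,
        ← hl.X_int y _ σm t tm, intervalIntegral.integral_const, sub_sub_cancel, smul_eq_mul]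
    have := intervalIntegral.norm_integral_le_of_norm_le_const (a := t - h) (b := t) (C := e)
      (f := fun τ => L.v τ (L.X τ y) - P.Φ (L.U t y)) fun τ hτ => by
        rw [uIoc_of_le (by linarith)] at hτ
        exact (hp.Φ_lip _ (hl.Z_mem _ _) _ (hU t)).trans (k0 _ ((kZ τ hτ).le.trans l1)).le
    rw [sub_sub_cancel, abs_of_pos h0, mul_comm] at this
    rw [e1]
    exact this
  · have d3 := mul_le_mul_of_nonneg_right (hl.rate_mem τ y).2 (mul_nonneg hk0.le hDh)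
    nlinarith [(abs_lt.1 (key τ hτ)).2]
  · have d1 := hl.dist_add y y' τ (τm τ hτ).1 t tm
    have d2 := mul_le_mul_of_nonneg_left (τm τ hτ).2.1 hDV
    have d3 := k4 h hh.2.2.1
    linarith
  · rw [lin_val hp _ Ioc_subset_Ioi_self]
    rw [intervalIntegral.integral_of_le (by linarith)] at r2
    have d2 : 0 ≤ 1 - ∫ s in Ioc 0 (R / 4), s * P.g s := by
      rw [sub_nonneg, ← hp.sg_one]
      exact setIntegral_mono_set hp.sg_int ((ae_restrict_iff' measurableSet_Ioi).2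
        (ae_of_all _ fun s h => mul_nonneg (le_of_lt h) (P.hg0 s))) Ioc_subset_Ioi_self.eventuallyLE
    have d1 : ∫ s in Ioc 0 (R / 4), P.g s ≤ P.k0 := by
      rw [← hp.g_int]
      exact setIntegral_mono_set P.hgi.integrableOn (ae_of_all _ P.hg0)
        Ioc_subset_Ioi_self.eventuallyLE
    have d3 := mul_le_mul_of_nonneg_right (hl.rate_mem τ y).2 d2
    have d4 := mul_le_mul_of_nonneg_right (hl.rate_mem τ y).2 (mul_nonneg hk0.le hDh)
    have d6 := mul_le_mul_of_nonneg_left (mul_le_mul_of_nonneg_right d1 hDh) (hl.rate_mem τ y).1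
    nlinarith [(abs_lt.1 (key τ hτ)).1]

end MP34a893.B

end MrgPart2

-- ======== part 3: formerly Pool.Agent.MP_34a893_an.B.CoreA
section MrgPart3

/-! The pair argument for two cells of values: the test function and one step. -/

open MeasureTheory Set Filter Topology
open scoped ENNReal

namespace MP34a893.B

noncomputable section

namespace CoreX

open MP34a893.Core (Cst psi kap mv test a_pos psi_nn psi_le kap_nn m_U m_X m_mv m_step)

variable {P : Par} {M : ℝ} (L : Lag P M) (c : Cst) (A B : ℝ)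

/-- the coordinate `A * position + B * label` -/
def ell (τ y : ℝ) : ℝ := A * L.X τ y + B * L.m y

def ga (τ : ℝ) (z : ℝ × ℝ) : ℝ := ell L A B τ z.2 - ell L A B τ z.1

def fU (γ τ y : ℝ) : ℝ := c.a * max (1 * (L.U τ y - (γ + c.ε / 2))) 0 ^ 2 +
  c.a * max (-1 * (L.U τ y - (γ - c.ε / 2))) 0 ^ 2

def fY (τ xr y : ℝ) : ℝ := fU L c c.β τ y + max (L.X τ y - xr) 0 / c.ρ

def lam (τ xr s : ℝ) (z : ℝ × ℝ) : ℝ :=
  fU L c c.α τ z.1 + fY L c τ xr z.2 + psi P (1 + M) c (ga L A B τ z) + s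

def alive (τ xl xr : ℝ) : Set (ℝ × ℝ) :=
  {z | z.1 ≤ z.2 ∧ |L.U τ z.1 - c.α| ≤ c.ε ∧ |L.U τ z.2 - c.β| ≤ c.ε ∧ xl ≤ L.X τ z.1 ∧
    L.X τ z.2 ≤ xr + c.ρ}

def keep (τ h xl xr : ℝ) : Set ((ℝ × ℝ) × (ℝ × ℝ × ℝ) × (ℝ × ℝ × ℝ)) :=
  {z | L.step τ h z.1.1 z.2.1 ≤ z.1.2} ∩ mv L τ h ⁻¹' alive L c (τ - h) xl xr

variable {L c A B}

theorem ell_mono (hf : L.Facts) (hA : 0 ≤ A) (hB : 0 ≤ B) (τ : ℝ) : Monotone (ell L A B τ) :=
  fun _ _ h => add_le_add (mul_le_mul_of_nonneg_left ((hf.X_mono τ).monotone h) hA)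
    (mul_le_mul_of_nonneg_left (hf.m_mono h) hB)

theorem fU_nn (hc : c.Ok) (γ τ y : ℝ) : 0 ≤ fU L c γ τ y :=
  add_nonneg (mul_nonneg (a_pos hc) (sq_nonneg _)) (mul_nonneg (a_pos hc) (sq_nonneg _))

theorem fY_nn (hc : c.Ok) (τ xr y : ℝ) : 0 ≤ fY L c τ xr y :=
  add_nonneg (fU_nn hc _ _ _) (div_nonneg (le_max_right _ _) hc.ρ.le)

theorem m_ell (hf : L.Facts) (τ : ℝ) : Measurable (ell L A B τ) :=
  ((m_X τ).const_mul _).add (hf.m_cont.measurable.const_mul _)

theorem m_fU (hf : L.Facts) (γ τ : ℝ) : Measurable (fU L c γ τ) := by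
  have := m_U hf τ
  unfold fU
  fun_prop

theorem m_fY (hf : L.Facts) (τ xr : ℝ) : Measurable (fY L c τ xr) := by
  have := m_fU (c := c) hf c.β τ
  have := m_X (L := L) τ
  unfold fY
  fun_prop

theorem m_lam (hp : P.Facts M) (hf : L.Facts) (τ xr s : ℝ) : Measurable (lam L c A B τ xr s) := by
  have h1 := m_fU (c := c) hf c.α τ
  have h2 := m_fY (c := c) hf τ xr
  have h3 := m_ell (A := A) (B := B) hf τ
  have h4 : Measurable fun x => ∫ r in c.R..x, P.k r :=
    (intervalIntegral.continuous_primitive (fun _ _ => hp.k_anti.intervalIntegrable) _).measurable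
  have h5 : Measurable (psi P (1 + M) c) :=
    (((h4.comp (by fun_prop)).const_mul _).const_mul _).add (by fun_prop)
  unfold lam ga
  fun_prop

theorem m_alive (hf : L.Facts) (τ xl xr : ℝ) : MeasurableSet (alive L c τ xl xr) := by
  have := m_U hf τ
  have := m_X (L := L) τ
  unfold alive
  measurability

theorem m_keep (hf : L.Facts) (hs : L.Step) (τ h xl xr : ℝ) :
    MeasurableSet (keep L c τ h xl xr) :=
  (measurableSet_le (m_mv hs τ h).fst measurable_fst.snd).inter (m_mv hs τ h (m_alive hf _ _ _))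

theorem exU (hp : P.Facts M) (hf : L.Facts) (hs : L.Step) (hc : c.Ok) {γ τ h y : ℝ}
    (hh : P.Small M h) (h1 : h ≤ τ) (h2 : τ ≤ L.T) (hy : |L.U τ y - γ| ≤ c.ε) :
    ∫⁻ ξ, ENNReal.ofReal (fU L c γ (τ - h) (L.step τ h y ξ)) ∂P.noise ≤
      ENNReal.ofReal (fU L c γ τ y + c.a * (2 * c.ε * (P.E1 M * h ^ 2) + 2 * L.w τ h 1 y)) := by
  rw [abs_le] at hy
  have g2 := hc.ε
  have t1 := test L hp hf hs (γ := γ + c.ε / 2) (b := c.ε / 2) y hh h1 h2 (.inl rfl)
    (max_le (by linarith [hy.2]) (by linarith))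
  have t2 := test L hp hf hs (γ := γ - c.ε / 2) (b := c.ε / 2) y hh h1 h2 (.inr rfl)
    (max_le (by linarith [hy.1]) (by linarith))
  have mU := (m_U hf (τ - h)).comp (m_step hs τ h y)
  have ha := a_pos hc
  have hE : 0 ≤ P.E1 M * h ^ 2 := (abs_nonneg _).trans (hs.mart τ h hh h1 h2 y)
  have hw := (hs.w_mem τ h 1 y).1
  calc _ ≤ ∫⁻ ξ, (ENNReal.ofReal c.a *
          ENNReal.ofReal (max (1 * (L.U (τ - h) (L.step τ h y ξ) - (γ + c.ε / 2))) 0 ^ 2) +
        ENNReal.ofReal c.a *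
          ENNReal.ofReal (max (-1 * (L.U (τ - h) (L.step τ h y ξ) - (γ - c.ε / 2))) 0 ^ 2))
          ∂P.noise := by
        refine lintegral_mono fun ξ => ?_
        simp only [← ENNReal.ofReal_mul ha]
        exact ENNReal.ofReal_add_le
    _ ≤ _ := by
        rw [lintegral_add_left (by fun_prop), lintegral_const_mul' _ _ ENNReal.ofReal_ne_top,
          lintegral_const_mul' _ _ ENNReal.ofReal_ne_top]
        refine (add_le_add (mul_le_mul_right t1 _) (mul_le_mul_right t2 _)).trans (le_of_eq ?_)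
        rw [← ENNReal.ofReal_mul ha, ← ENNReal.ofReal_mul ha,
          ← ENNReal.ofReal_add (by positivity) (by positivity)]
        congr 1
        unfold fU
        ring

theorem exY (hp : P.Facts M) (hf : L.Facts) (hs : L.Step) (hc : c.Ok) {τ h y xr : ℝ}
    (hh : P.Small M h) (h1 : h ≤ τ) (h2 : τ ≤ L.T) (hy : |L.U τ y - c.β| ≤ c.ε) :
    ∫⁻ ξ, ENNReal.ofReal (fY L c (τ - h) (xr + P.Vm M * h) (L.step τ h y ξ)) ∂P.noise ≤
      ENNReal.ofReal (fY L c τ xr y + c.a * (2 * c.ε * (P.E1 M * h ^ 2) + 2 * L.w τ h 1 y) +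
        P.Th M * h * (1 + P.k0 * P.DV M) / c.ρ) := by
  have := hp.noise_prob
  have t1 := exU hp hf hs hc hh h1 h2 hy
  have t3 := hs.disp τ h hh h1 h2 y (P.Th M) fun σ _ => (hf.rate_mem σ y).2
  have hl := hf.X_lip y (τ - h) ⟨by linarith, by linarith [hh.1]⟩ τ ⟨by linarith [hh.1], h2⟩
  rw [sub_sub_cancel_left, abs_neg, abs_of_pos hh.1, abs_le] at hl
  have mU := (m_fU (c := c) hf c.β (τ - h)).comp (m_step hs τ h y)
  have ha := a_pos hc
  have hρ : 0 ≤ c.ρ⁻¹ := inv_nonneg.2 hc.ρ.le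
  have hE : 0 ≤ P.E1 M * h ^ 2 := (abs_nonneg _).trans (hs.mart τ h hh h1 h2 y)
  have hw := (hs.w_mem τ h 1 y).1
  have hD : 0 ≤ P.Th M * h * (1 + P.k0 * P.DV M) :=
    mul_nonneg (mul_nonneg ((hf.rate_mem τ y).1.trans (hf.rate_mem τ y).2) hh.1.le)
      (add_nonneg zero_le_one (mul_nonneg hp.k0_pos.le (mul_nonneg hp.bm_nonneg hp.N_pos.le)))
  calc _ ≤ ∫⁻ ξ, (ENNReal.ofReal (fU L c c.β (τ - h) (L.step τ h y ξ)) +
        (ENNReal.ofReal (max (L.X τ y - xr) 0 / c.ρ) + ENNReal.ofReal c.ρ⁻¹ *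
          ENNReal.ofReal (L.X (τ - h) (L.step τ h y ξ) - L.X (τ - h) y))) ∂P.noise := by
        refine lintegral_mono fun ξ => ?_
        simp only [← ENNReal.ofReal_mul hρ]
        refine ENNReal.ofReal_add_le.trans (add_le_add le_rfl
          (le_trans (ENNReal.ofReal_le_ofReal ?_) ENNReal.ofReal_add_le))
        have hm := (hf.X_mono (τ - h)).monotone (hs.le_step τ h y ξ)
        rw [← div_eq_inv_mul, ← add_div]
        refine div_le_div_of_nonneg_right (max_le ?_ ?_) hc.ρ.le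
        · linarith [le_max_left (L.X τ y - xr) 0, hl.2]
        · linarith [le_max_right (L.X τ y - xr) 0]
    _ ≤ _ := by
        rw [lintegral_add_left (f := fun ξ => ENNReal.ofReal (fU L c c.β (τ - h) (L.step τ h y ξ)))
          mU.ennreal_ofReal, lintegral_add_left measurable_const,
          lintegral_const_mul' _ _ ENNReal.ofReal_ne_top, lintegral_const, measure_univ, mul_one]
        refine (add_le_add t1 (add_le_add_right (mul_le_mul_right t3 _) _)).trans (le_of_eq ?_)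
        have g1 := fU_nn (L := L) hc c.β τ y
        have g2 := hc.ε
        have g3 := hc.ρ
        rw [← ENNReal.ofReal_mul hρ, ← ENNReal.ofReal_add (by positivity) (by positivity),
          ← ENNReal.ofReal_add (by positivity) (by positivity)]
        congr 1
        unfold fY
        ring

theorem killU (hc : c.Ok) {γ τ y : ℝ} (h : ¬ |L.U τ y - γ| ≤ c.ε) : 1 ≤ fU L c γ τ y := by
  have ha := a_pos hc
  have g2 := hc.ε
  have q : ∀ x : ℝ, c.ε / 2 < x → 1 ≤ c.a * max x 0 ^ 2 := fun x h1 =>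
    hc.a2.trans (mul_le_mul_of_nonneg_left
      (pow_le_pow_left₀ (by linarith) (h1.le.trans (le_max_left _ _)) 2) ha)
  have n3 : ∀ x : ℝ, 0 ≤ c.a * max x 0 ^ 2 := fun x => mul_nonneg ha (sq_nonneg _)
  rw [not_le, lt_abs] at h
  rcases h with h | h
  · exact le_add_of_le_of_nonneg (q _ (by linarith)) (n3 _)
  · exact le_add_of_nonneg_of_le (n3 _) (q _ (by linarith))

theorem kill (hc : c.Ok) {τ xl xr : ℝ} {z : ℝ × ℝ} (h1 : z.1 ≤ z.2) (h2 : xl ≤ L.X τ z.1)
    (h : z ∉ alive L c τ xl xr) : 1 ≤ fU L c c.α τ z.1 + fY L c τ xr z.2 := by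
  have n1 := fU_nn (L := L) hc c.α τ z.1
  have n2 := fU_nn (L := L) hc c.β τ z.2
  have n4 : 0 ≤ max (L.X τ z.2 - xr) 0 / c.ρ := div_nonneg (le_max_right _ _) hc.ρ.le
  unfold fY
  by_cases c1 : |L.U τ z.1 - c.α| ≤ c.ε
  · by_cases c2 : |L.U τ z.2 - c.β| ≤ c.ε
    · have c4 : xr + c.ρ < L.X τ z.2 := not_le.1 fun c4 => h ⟨h1, c1, c2, h2, c4⟩
      have : 1 ≤ max (L.X τ z.2 - xr) 0 / c.ρ :=
        (one_le_div hc.ρ).2 (le_max_of_le_left (by linarith))
      linarith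
    · linarith [killU hc c2]
  · linarith [killU hc c1]

open Classical in
/-- one step of the test function -/
theorem one (hM : 0 < M) (hp : P.Facts M) (hq : P.Facts (1 + M)) (hf : L.Facts) (hs : L.Step)
    (hc : c.Ok) (hA : 0 ≤ A) (hB : 0 ≤ B)
    {τ h xl xr s pc d1 d2 : ℝ} {z : ℝ × ℝ} (hh : P.Small M h) (h1 : h ≤ τ) (h2 : τ ≤ L.T)
    (hz : z ∈ alive L c τ xl xr) (hs0 : 0 ≤ s) (hpc : 0 ≤ pc) (hd1 : 0 ≤ d1) (hd2 : 0 ≤ d2)
    (cr : P.noise {ξ | z.2 < L.step τ h z.1 ξ} ≤ ENNReal.ofReal pc)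
    (lo : ENNReal.ofReal d1 ≤ ∫⁻ ξ in {ξ | L.step τ h z.1 ξ ≤ z.2},
      ENNReal.ofReal (ell L A B (τ - h) (L.step τ h z.1 ξ) - ell L A B (τ - h) z.1) ∂P.noise)
    (up : ∫⁻ ξ, ENNReal.ofReal (ell L A B (τ - h) (L.step τ h z.2 ξ) - ell L A B (τ - h) z.2)
      ∂P.noise ≤ ENNReal.ofReal d2) :
    ∫⁻ ξ, (if (z, ξ) ∈ keep L c τ h (xl - P.Vm M * h) (xr + P.Vm M * h) then
        ENNReal.ofReal (lam L c A B (τ - h) (xr + P.Vm M * h) s (mv L τ h (z, ξ))) else 1)
        ∂(P.noise.prod P.noise) ≤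
      ENNReal.ofReal (lam L c A B τ xr s z + pc + kap P (1 + M) c (ga L A B τ z) *
          (d2 - d1 + (ga L A B (τ - h) z - ga L A B τ z)) +
        2 * c.a * L.w τ h 1 z.1 + 2 * c.a * L.w τ h 1 z.2 +
        (4 * c.a * c.ε * (P.E1 M * h ^ 2) + P.Th M * h * (1 + P.k0 * P.DV M) / c.ρ)) := by
  have := hp.noise_prob
  have hM1 : 0 < 1 + M := by positivity
  obtain ⟨z1, z2, z3, z5, z6⟩ := hz
  set κ := kap P (1 + M) c (ga L A B τ z) with hκ
  have κ0 : 0 ≤ κ := kap_nn hq hc _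
  have mm := m_ell (A := A) (B := B) hf (τ - h)
  have mo := ell_mono hf hA hB (τ - h)
  have s1 := m_step hs τ h z.1
  have s2 := m_step hs τ h z.2
  have hN : MeasurableSet {ξ | L.step τ h z.1 ξ ≤ z.2} := measurableSet_le s1 measurable_const
  have hC : MeasurableSet {ξ | z.2 < L.step τ h z.1 ξ} := measurableSet_lt measurable_const s1
  obtain ⟨p0, hp0⟩ : ∃ p0, p0 = psi P (1 + M) c (ga L A B τ z) +
    κ * (ga L A B (τ - h) z - ga L A B τ z) := ⟨_, rfl⟩
  have n3 : 0 ≤ p0 := hp0 ▸ (psi_nn hM1 hq hc (sub_nonneg.2 (mo z1))).trans (psi_le hM1 hq hc _ _)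
  let f0 : ℝ × ℝ × ℝ → ℝ≥0∞ := fun ξ => ENNReal.ofReal κ * {ξ | L.step τ h z.1 ξ ≤ z.2}.indicator
    (fun ξ => ENNReal.ofReal (ell L A B (τ - h) (L.step τ h z.1 ξ) - ell L A B (τ - h) z.1)) ξ
  let f1 : ℝ × ℝ × ℝ → ℝ≥0∞ := fun ξ => {ξ | z.2 < L.step τ h z.1 ξ}.indicator 1 ξ +
    ENNReal.ofReal (fU L c c.α (τ - h) (L.step τ h z.1 ξ))
  let f2 : ℝ × ℝ × ℝ → ℝ≥0∞ := fun ξ =>
    ENNReal.ofReal κ * ENNReal.ofReal (ell L A B (τ - h) (L.step τ h z.2 ξ) -
      ell L A B (τ - h) z.2) +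
    ENNReal.ofReal (fY L c (τ - h) (xr + P.Vm M * h) (L.step τ h z.2 ξ))
  have m0 : Measurable f0 := (Measurable.indicator (by fun_prop) hN).const_mul _
  have m1 : Measurable f1 :=
    (measurable_one.indicator hC).add ((m_fU hf _ _).comp s1).ennreal_ofReal
  have m2 : Measurable f2 := Measurable.add (by fun_prop) ((m_fY hf _ _).comp s2).ennreal_ofReal
  have hl := hf.X_lip z.1 (τ - h) ⟨by linarith, by linarith [hh.1]⟩ τ ⟨by linarith [hh.1], h2⟩
  rw [sub_sub_cancel_left, abs_neg, abs_of_pos hh.1, abs_le] at hl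
  have pt : ∀ ξ : (ℝ × ℝ × ℝ) × (ℝ × ℝ × ℝ), f0 ξ.1 +
      (if (z, ξ) ∈ keep L c τ h (xl - P.Vm M * h) (xr + P.Vm M * h) then
        ENNReal.ofReal (lam L c A B (τ - h) (xr + P.Vm M * h) s (mv L τ h (z, ξ))) else 1) ≤
      f1 ξ.1 + (f2 ξ.2 + ENNReal.ofReal (p0 + s)) := by
    intro ξ
    by_cases cr : L.step τ h z.1 ξ.1 ≤ z.2
    · have e1 := hs.le_step τ h z.1 ξ.1
      have e2 := hs.le_step τ h z.2 ξ.2
      have p1 := psi_le hM1 hq hc (ga L A B τ z) (ga L A B (τ - h) (mv L τ h (z, ξ)))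
      have p2 : 0 ≤ psi P (1 + M) c (ga L A B (τ - h) (mv L τ h (z, ξ))) :=
        psi_nn hM1 hq hc (sub_nonneg.2 (mo (cr.trans e2)))
      have n1 := fU_nn (L := L) hc c.α (τ - h) (L.step τ h z.1 ξ.1)
      have n2 := fY_nn (L := L) hc (τ - h) (xr + P.Vm M * h) (L.step τ h z.2 ξ.2)
      have el : lam L c A B (τ - h) (xr + P.Vm M * h) s (mv L τ h (z, ξ)) =
          fU L c c.α (τ - h) (L.step τ h z.1 ξ.1) +
            fY L c (τ - h) (xr + P.Vm M * h) (L.step τ h z.2 ξ.2) +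
            psi P (1 + M) c (ga L A B (τ - h) (mv L τ h (z, ξ))) + s := rfl
      have eg : ga L A B (τ - h) (mv L τ h (z, ξ)) = ga L A B (τ - h) z +
          (ell L A B (τ - h) (L.step τ h z.2 ξ.2) - ell L A B (τ - h) z.2) -
          (ell L A B (τ - h) (L.step τ h z.1 ξ.1) - ell L A B (τ - h) z.1) := by
        simp only [ga, mv]
        ring
      have hv : (if (z, ξ) ∈ keep L c τ h (xl - P.Vm M * h) (xr + P.Vm M * h) then
          ENNReal.ofReal (lam L c A B (τ - h) (xr + P.Vm M * h) s (mv L τ h (z, ξ))) else 1) ≤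
          ENNReal.ofReal (lam L c A B (τ - h) (xr + P.Vm M * h) s (mv L τ h (z, ξ))) := by
        split_ifs with H
        · exact le_rfl
        · have := kill (L := L) hc (z := mv L τ h (z, ξ)) (cr.trans e2)
            (by have := (hf.X_mono (τ - h)).monotone e1; simp only [mv]; linarith [hl.1])
            fun H' => H ⟨cr, H'⟩
          rw [← ENNReal.ofReal_one]
          refine ENNReal.ofReal_le_ofReal ?_
          rw [el]
          simp only [mv] at this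
          linarith
      refine (add_le_add_right hv _).trans ?_
      simp only [f0, f1, f2]
      rw [indicator_of_mem (show ξ.1 ∈ {ξ | L.step τ h z.1 ξ ≤ z.2} from cr),
        ← ENNReal.ofReal_mul κ0, ← ENNReal.ofReal_mul κ0,
        ← ENNReal.ofReal_add (mul_nonneg κ0 (sub_nonneg.2 (mo e1))) (by rw [el]; linarith),
        ← ENNReal.ofReal_add (mul_nonneg κ0 (sub_nonneg.2 (mo e2))) n2,
        ← ENNReal.ofReal_add (add_nonneg (mul_nonneg κ0 (sub_nonneg.2 (mo e2))) n2)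
          (add_nonneg n3 hs0), add_assoc,
        ← ENNReal.ofReal_add n1 (add_nonneg
          (add_nonneg (mul_nonneg κ0 (sub_nonneg.2 (mo e2))) n2) (add_nonneg n3 hs0))]
      refine le_add_left (ENNReal.ofReal_le_ofReal ?_)
      rw [el, hp0]
      rw [← hκ, eg] at p1
      rw [eg]
      linarith
    · simp only [f0, f1]
      rw [indicator_of_notMem (show ξ.1 ∉ {ξ | L.step τ h z.1 ξ ≤ z.2} from cr), mul_zero, zero_add,
        if_neg fun H => cr H.1,
        indicator_of_mem (show ξ.1 ∈ {ξ | z.2 < L.step τ h z.1 ξ} from not_le.1 cr), add_assoc]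
      exact le_self_add
  have main := lintegral_mono (μ := P.noise.prod P.noise) pt
  rw [lintegral_add_left (f := fun ξ : (ℝ × ℝ × ℝ) × (ℝ × ℝ × ℝ) => f0 ξ.1)
      (m0.comp measurable_fst),
    lintegral_add_left (f := fun ξ : (ℝ × ℝ × ℝ) × (ℝ × ℝ × ℝ) => f1 ξ.1)
      (m1.comp measurable_fst),
    lintegral_add_left (f := fun ξ : (ℝ × ℝ × ℝ) × (ℝ × ℝ × ℝ) => f2 ξ.2)
      (m2.comp measurable_snd),
    measurePreserving_fst.lintegral_comp m0, measurePreserving_fst.lintegral_comp m1,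
    measurePreserving_snd.lintegral_comp m2, lintegral_const, measure_univ, mul_one] at main
  have b0 : ENNReal.ofReal (κ * d1) ≤ ∫⁻ ξ, f0 ξ ∂P.noise := by
    rw [lintegral_const_mul' _ _ ENNReal.ofReal_ne_top, lintegral_indicator hN,
      ENNReal.ofReal_mul κ0]
    exact mul_le_mul_right lo _
  have b1 := add_le_add cr (exU hp hf hs hc hh h1 h2 z2)
  rw [← lintegral_indicator_one hC, ← lintegral_add_left (measurable_one.indicator hC)] at b1
  have b2 := add_le_add (mul_le_mul_right up (ENNReal.ofReal κ))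
    (exY (xr := xr) hp hf hs hc hh h1 h2 z3)
  rw [← lintegral_const_mul' _ _ ENNReal.ofReal_ne_top, ← lintegral_add_left (by fun_prop),
    ← ENNReal.ofReal_mul κ0] at b2
  have ha := a_pos hc
  have hE : 0 ≤ P.E1 M * h ^ 2 := (abs_nonneg _).trans (hs.mart τ h hh h1 h2 z.1)
  have w1 := (hs.w_mem τ h 1 z.1).1
  have w2 := (hs.w_mem τ h 1 z.2).1
  have hD : 0 ≤ P.Th M * h * (1 + P.k0 * P.DV M) :=
    mul_nonneg (mul_nonneg ((hf.rate_mem τ 0).1.trans (hf.rate_mem τ 0).2) hh.1.le)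
      (add_nonneg zero_le_one (mul_nonneg hp.k0_pos.le (mul_nonneg hp.bm_nonneg hp.N_pos.le)))
  have n1 := fU_nn (L := L) hc c.α τ z.1
  have n2 := fY_nn (L := L) hc τ xr z.2
  have g2 := hc.ε
  have g3 := hc.ρ
  replace main := ((add_le_add_left b0 _).trans main).trans
    (add_le_add b1 (add_le_add_left b2 _))
  rw [← ENNReal.ofReal_add (by positivity) (by positivity),
    ← ENNReal.ofReal_add (by positivity) (by positivity),
    ← ENNReal.ofReal_add (by positivity) (by positivity),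
    ← ENNReal.ofReal_add (by positivity) (by positivity)] at main
  refine (ENNReal.le_sub_of_add_le_left ENNReal.ofReal_ne_top main).trans ?_
  rw [← ENNReal.ofReal_sub _ (by positivity)]
  refine ENNReal.ofReal_le_ofReal ?_
  unfold lam
  rw [hp0]
  linarith

end CoreX

end

end MP34a893.B

end MrgPart3

-- ======== part 4: formerly Pool.Agent.MP_34a893_an.B.Core
section MrgPart4

/-! The pair argument for two cells of values. -/

open MeasureTheory Set Filter Topology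
open scoped ENNReal

namespace MP34a893.B

noncomputable section

namespace CoreX

open MP34a893.Core (Cst psi kap label_le psi_top kap_nn)

variable {P : Par} {M : ℝ} {L : Lag P M} {A B : ℝ}

/-- two tubes with different values do not overlap -/
theorem apart (hf : L.Facts) {τ x1 x2 c1 c2 R e : ℝ} (h12 : x1 ≤ x2)
    (t1 : ∫ s in (0 : ℝ)..R, |L.u τ (x1 + s) - c1| ≤ e)
    (t2 : ∫ s in (0 : ℝ)..R, |L.u τ (x2 + s) - c2| ≤ e) (hc : 2 * e < |c1 - c2| * (R / 2)) :
    x1 + R / 2 ≤ x2 := by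
  by_contra H
  rw [not_le] at H
  have ii : ∀ x c a b : ℝ, IntervalIntegrable (fun s => |L.u τ (x + s) - c|) volume a b := by
    intro x c a b
    refine (intervalIntegrable_const (c := P.N M + |c|)).mono_fun' ?_ (ae_of_all _ fun s => ?_)
    · exact ((L.u_meas.of_uncurry_left.comp (measurable_const_add x)).sub_const c).abs
        |>.aestronglyMeasurable
    · have a := hf.u_nonneg τ (x + s)
      have b := L.u_le τ (x + s)
      simp only [Real.norm_eq_abs, abs_abs]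
      exact (abs_sub _ _).trans (by rw [abs_of_nonneg a]; linarith)
  have nn : ∀ x c a b : ℝ, 0 ≤ᵐ[volume.restrict (Ioc a b)] fun s => |L.u τ (x + s) - c| :=
    fun x c a b => ae_of_all _ fun s => abs_nonneg _
  have a1 : ∫ s in (0 : ℝ)..(R / 2), |L.u τ (x2 + s) - c1| ≤ e := by
    have e1 := intervalIntegral.integral_comp_add_left (a := 0) (b := R / 2)
      (fun s => |L.u τ (x1 + s) - c1|) (x2 - x1)
    simp only [← add_assoc, add_sub_cancel] at e1
    rw [e1]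
    exact (intervalIntegral.integral_mono_interval (by linarith) (by linarith) (by linarith)
      (nn _ _ _ _) (ii _ _ _ _)).trans t1
  have a2 : ∫ s in (0 : ℝ)..(R / 2), |L.u τ (x2 + s) - c2| ≤ e :=
    (intervalIntegral.integral_mono_interval le_rfl (by linarith) (by linarith)
      (nn _ _ _ _) (ii _ _ _ _)).trans t2
  have a3 := intervalIntegral.integral_mono_on (a := 0) (b := R / 2) (by linarith)
    (intervalIntegrable_const (c := |c1 - c2|)) ((ii x2 c1 _ _).add (ii x2 c2 _ _)) fun s _ => by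
      rw [abs_sub_comm _ c1]
      exact abs_sub_le _ _ _
  rw [intervalIntegral.integral_add (ii _ _ _ _) (ii _ _ _ _)] at a3
  simp only [intervalIntegral.integral_const, smul_eq_mul, sub_zero] at a3
  linarith

theorem ga_le (hM : 0 < M) (hf : L.Facts) (hAB : A = 1 ∧ B = 0 ∨ A = 0 ∧ B = 1) (τ : ℝ)
    {z : ℝ × ℝ} (h : z.1 ≤ z.2) :
    0 ≤ ga L A B τ z ∧ ga L A B τ z ≤ (1 + M) * (L.X τ z.2 - L.X τ z.1) := by
  have a1 := label_le L hf τ h
  have a2 := sub_nonneg.2 ((hf.X_mono τ).monotone h)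
  have a3 := hf.m_mono h
  have a4 := mul_nonneg hM.le a2
  unfold ga ell
  rcases hAB with ⟨rfl, rfl⟩ | ⟨rfl, rfl⟩ <;> constructor <;> linarith

/-- the drift of `ell` in one step at a state with a tube -/
def Dft (L : Lag P M) (A B τ h R e y : ℝ) : Prop := ∃ r φ, 0 ≤ r ∧ P.dr A B (L.U τ y) = r - φ ∧
  |ell L A B τ y - ell L A B (τ - h) y - h * φ| ≤ h * e ∧
  ∫⁻ ξ, ENNReal.ofReal (ell L A B (τ - h) (L.step τ h y ξ) - ell L A B (τ - h) y) ∂P.noise ≤
    ENNReal.ofReal (h * (r + e)) ∧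
  ∀ y', L.X τ y + R / 2 ≤ L.X τ y' → ENNReal.ofReal (h * (r - e)) ≤
    ∫⁻ ξ in {ξ | L.step τ h y ξ ≤ y'},
      ENNReal.ofReal (ell L A B (τ - h) (L.step τ h y ξ) - ell L A B (τ - h) y) ∂P.noise

theorem drift (hB : Basic) (hD : DriftS) (hX : DriftXS) (P : Par) (M : ℝ) (hM : 0 < M) (e : ℝ)
    (he : 0 < e) : ∃ R0, 4 ≤ R0 ∧ ∀ R, R0 ≤ R → ∃ e' h0, 0 < e' ∧ 0 < h0 ∧
      ∀ (L : Lag P M) (A B t h y : ℝ), A = 1 ∧ B = 0 ∨ A = 0 ∧ B = 1 → 0 < h → h ≤ h0 → h ≤ t →
        t ≤ L.T → (∀ τ ∈ Icc (t - h) t, ∫ s in (0 : ℝ)..R, |L.u τ (L.X τ y + s) - L.U t y| ≤ e') →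
        Dft L A B t h R e y := by
  obtain ⟨R1, a1, hD⟩ := hD P M hM e he
  obtain ⟨R2, -, hX⟩ := hX P M hM e he
  refine ⟨max R1 R2, a1.trans (le_max_left _ _), fun R hR => ?_⟩
  obtain ⟨e1, h1, b1, b2, hD⟩ := hD R ((le_max_left _ _).trans hR)
  obtain ⟨e2, h2, b3, b4, hX⟩ := hX R ((le_max_right _ _).trans hR)
  refine ⟨min e1 e2, min h1 h2, lt_min b1 b3, lt_min b2 b4, fun L A B t h y hAB c1 c2 c3 c4 tb => ?_⟩
  have u0 : 0 ≤ L.U t y := (hB.2.1 P M L hM).u_nonneg _ _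
  have r0 : 0 ≤ P.rt (L.U t y) := mul_nonneg (mul_nonneg P.hp0.le (P.hb0 _)) u0
  rcases hAB with ⟨rfl, rfl⟩ | ⟨rfl, rfl⟩
  · have := hX L t h y c1 (c2.trans (min_le_right _ _)) c3 c4
      fun τ hτ => (tb τ hτ).trans (min_le_right _ _)
    refine ⟨P.rt (L.U t y), P.Φ (L.U t y), r0, by simp [Par.dr, Par.sp], ?_⟩
    simpa only [ell, one_mul, zero_mul, add_zero] using this
  · have := hD L t h y c1 (c2.trans (min_le_left _ _)) c3 c4
      fun τ hτ => (tb τ hτ).trans (min_le_left _ _)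
    refine ⟨P.lam (L.U t y), 0, mul_nonneg r0 (Real.rpow_nonneg u0 _), by simp [Par.dr], ?_, ?_⟩
    · simpa [ell] using mul_nonneg c1.le he.le
    · simpa only [ell, one_mul, zero_mul, zero_add] using this

/-- the bounds used by one step -/
def Key (L : Lag P M) (cs : Cst) (A B τ h d b : ℝ) (z : ℝ × ℝ) : Prop :=
  ∃ pc d1 d2, 0 ≤ pc ∧ 0 ≤ d1 ∧ 0 ≤ d2 ∧
    P.noise {ξ | z.2 < L.step τ h z.1 ξ} ≤ ENNReal.ofReal pc ∧
    ENNReal.ofReal d1 ≤ ∫⁻ ξ in {ξ | L.step τ h z.1 ξ ≤ z.2},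
      ENNReal.ofReal (ell L A B (τ - h) (L.step τ h z.1 ξ) - ell L A B (τ - h) z.1) ∂P.noise ∧
    ∫⁻ ξ, ENNReal.ofReal (ell L A B (τ - h) (L.step τ h z.2 ξ) - ell L A B (τ - h) z.2)
      ∂P.noise ≤ ENNReal.ofReal d2 ∧
    pc + kap P (1 + M) cs (ga L A B τ z) * (d2 - d1 + (ga L A B (τ - h) z - ga L A B τ z)) + d ≤ b

theorem good (hM : 0 < M) (hp : P.Facts M) (hq : P.Facts (1 + M)) (hf : L.Facts) (hs : L.Step)
    {cs : Cst} (ok : cs.Ok) {τ h c gap xl xr b : ℝ} {z : ℝ × ℝ} (sm : P.Small M h) (t1 : h ≤ τ)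
    (t2 : τ ≤ L.T) (hz : z ∈ alive L cs τ xl xr) (hc : 0 < c) (hθ : cs.θ = P.Th M / (c / 2))
    (hR : 0 ≤ cs.R) (hαβ : gap ≤ |cs.α - cs.β|) (hg : 4 * cs.ε ≤ gap) (v4 : P.DV M * h ≤ 1)
    (hb : 0 ≤ b) (sep : P.Sep M A B c cs.ε cs.α cs.β)
    (D1 : Dft L A B τ h (4 * (cs.R + 1)) (c / 8) z.1)
    (D2 : Dft L A B τ h (4 * (cs.R + 1)) (c / 8) z.2)
    (u1 : ∫ s in (0 : ℝ)..(4 * (cs.R + 1)), |L.u τ (L.X τ z.1 + s) - L.U τ z.1| ≤ gap / 6)
    (u2 : ∫ s in (0 : ℝ)..(4 * (cs.R + 1)), |L.u τ (L.X τ z.2 + s) - L.U τ z.2| ≤ gap / 6) :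
    Key L cs A B τ h (cs.δ * (c / 2) * h) b z := by
  obtain ⟨z1, z2, z3, -, -⟩ := hz
  have hh := sm.1
  have hTh : 0 ≤ P.Th M := mul_nonneg (mul_nonneg P.hp0.le hp.bm_nonneg) hp.N_pos.le
  have hU : ∀ y, L.U τ y ∈ Icc 0 (P.N M) := fun y => ⟨hf.u_nonneg _ _, L.u_le _ _⟩
  have ap := apart hf ((hf.X_mono τ).monotone z1) u1 u2 (by
    have a1 := abs_sub_le cs.α (L.U τ z.1) cs.β
    have a2 := abs_sub_le (L.U τ z.1) (L.U τ z.2) cs.β
    rw [abs_sub_comm cs.α (L.U τ z.1)] at a1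
    have := ok.ε
    have := mul_nonneg (abs_nonneg (L.U τ z.1 - L.U τ z.2)) hR
    linarith)
  obtain ⟨r1, φ1, -, e1, f1, -, lo⟩ := D1
  obtain ⟨r2, φ2, p2, e2, f2, up, -⟩ := D2
  have g1 := sep.2 _ (hU z.1) _ (hU z.2) z2 z3
  rw [e1, e2] at g1
  rw [abs_le] at f1 f2
  have g3 : ga L A B τ z / (2 * (1 + M)) ≤ (L.X τ z.2 - L.X τ z.1) / 2 := by
    rw [div_le_iff₀ (by positivity)]
    linarith [(ga_le hM hf sep.1 τ z1).2]
  have g4 := hp.k_anti (show cs.R + ga L A B τ z / (2 * (1 + M)) ≤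
    L.X τ z.2 - L.X τ z.1 - P.DV M * h by linarith)
  refine ⟨_, max (h * (r1 - c / 8)) 0, _, mul_nonneg (by positivity) (hp.k_nonneg _),
    le_max_right _ _, by positivity, hs.cross τ h sm t1 t2 z.1 z.2 z1, ?_, up, ?_⟩
  · rw [ENNReal.ofReal_max, ENNReal.ofReal_zero]
    exact max_le (lo _ ap) bot_le
  have g5 := mul_le_mul_of_nonneg_left g4 (show 0 ≤ P.Th M * h by positivity)
  have g6 := mul_le_mul_of_nonneg_left
    (show h * (r2 + c / 8) - max (h * (r1 - c / 8)) 0 + (ga L A B (τ - h) z - ga L A B τ z) ≤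
      -(c / 2 * h) by
      unfold ga
      linarith [mul_le_mul_of_nonneg_left g1 hh.le, le_max_left (h * (r1 - c / 8)) 0, f1.2, f2.1])
    (kap_nn hq ok (ga L A B τ z))
  have g7 : kap P (1 + M) cs (ga L A B τ z) * -(c / 2 * h) =
      -(P.Th M * h * P.k (cs.R + ga L A B τ z / (2 * (1 + M)))) - cs.δ * (c / 2) * h := by
    simp only [kap, hθ]; field_simp; ring
  linarith

theorem bad (hM : 0 < M) (hp : P.Facts M) (hf : L.Facts) (hs : L.Step) (hA : DriftAnyS) {cs : Cst}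
    (ok : cs.Ok) (hAB : A = 1 ∧ B = 0 ∨ A = 0 ∧ B = 1) {τ h c b : ℝ} {z : ℝ × ℝ}
    (sm : P.Small M h) (t1 : h ≤ τ) (t2 : τ ≤ L.T) (z1 : z.1 ≤ z.2) (hc : 0 < c) (hδ : cs.δ ≤ 1)
    (hb : h * (P.Th M * P.k0 + (cs.θ * P.k0 + 1) *
      (P.Th M * M + P.Th M * (1 + P.k0 * P.DV M) + P.DV M) + c / 2) ≤ b) :
    Key L cs A B τ h (cs.δ * (c / 2) * h) b z := by
  have hh := sm.1
  have hTh : 0 ≤ P.Th M := mul_nonneg (mul_nonneg P.hp0.le hp.bm_nonneg) hp.N_pos.le
  have hDV : 0 ≤ P.DV M := mul_nonneg hp.bm_nonneg hp.N_pos.le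
  have hk0 := hp.k0_pos
  have q1 : 0 ≤ h * (P.Th M * M) := by positivity
  have q2 : 0 ≤ h * (P.Th M * (1 + P.k0 * P.DV M)) := by positivity
  have q3 : 0 ≤ h * P.DV M := by positivity
  refine ⟨_, 0, h * (P.Th M * M + P.Th M * (1 + P.k0 * P.DV M)),
    mul_nonneg (by positivity) (hp.k_nonneg _), le_rfl, by positivity,
    hs.cross τ h sm t1 t2 z.1 z.2 z1, by simp, ?_, ?_⟩
  · rcases hAB with ⟨rfl, rfl⟩ | ⟨rfl, rfl⟩
    · simp only [ell, one_mul, zero_mul, add_zero]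
      exact (hs.disp τ h sm t1 t2 z.2 (P.Th M) fun σ _ => (hf.rate_mem σ z.2).2).trans
        (ENNReal.ofReal_le_ofReal (by linarith))
    · simp only [ell, one_mul, zero_mul, zero_add]
      exact (hA P M L τ h z.2 hM sm).trans (ENNReal.ofReal_le_ofReal (by linarith))
  have g2 : ga L A B (τ - h) z - ga L A B τ z ≤ h * P.DV M := by
    have := hf.dist_add z.1 z.2 τ ⟨by linarith, t2⟩ (τ - h) ⟨by linarith, by linarith⟩
    rw [sub_sub_cancel, abs_of_pos hh] at this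
    unfold ga ell
    rcases hAB with ⟨rfl, rfl⟩ | ⟨rfl, rfl⟩ <;> linarith
  have g3 := mul_le_mul_of_nonneg_left (hp.k_le (L.X τ z.2 - L.X τ z.1 - P.DV M * h))
    (show 0 ≤ P.Th M * h by positivity)
  have g4 : kap P (1 + M) cs (ga L A B τ z) ≤ cs.θ * P.k0 + 1 :=
    add_le_add (mul_le_mul_of_nonneg_left (hp.k_le _) ok.θ) hδ
  have g0 : 0 ≤ kap P (1 + M) cs (ga L A B τ z) := add_nonneg (mul_nonneg ok.θ (hp.k_nonneg _)) ok.δ
  have g5 := mul_le_mul_of_nonneg_right g4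
    (show 0 ≤ h * (P.Th M * M + P.Th M * (1 + P.k0 * P.DV M) + P.DV M) by positivity)
  have g6 := mul_le_mul_of_nonneg_right hδ (show 0 ≤ c / 2 * h by positivity)
  have g7 := mul_le_mul_of_nonneg_left g2 g0
  linarith

theorem init (hM : 0 < M) (hq : P.Facts (1 + M)) (hf : L.Facts) {cs : Cst} (ok : cs.Ok)
    (hAB : A = 1 ∧ B = 0 ∨ A = 0 ∧ B = 1) {τ x1 D : ℝ} {z : ℝ × ℝ} (hR : 0 ≤ cs.R)
    (htail : cs.θ * (2 * (1 + M) * ∫ r in Ioi cs.R, P.k r) ≤ 1 / 4)
    (hδ : cs.δ * ((1 + M) * D) = 1 / 4)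
    (hz : z.1 ≤ z.2 ∧ |L.U τ z.1 - cs.α| ≤ cs.ε / 2 ∧ |L.U τ z.2 - cs.β| ≤ cs.ε / 2 ∧
      x1 ≤ L.X τ z.1 ∧ L.X τ z.2 ≤ x1 + D) :
    z ∈ alive L cs τ x1 (x1 + D) ∧ lam L cs A B τ (x1 + D) 0 z ≤ 1 / 2 := by
  obtain ⟨z1, z2, z3, z5, z6⟩ := hz
  have g2 := ok.ε
  have g3 := ok.ρ
  refine ⟨⟨z1, by linarith, by linarith, z5, by linarith⟩, ?_⟩
  have u0 := ga_le hM hf hAB τ z1
  have u1 := psi_top (by positivity) hq ok hR u0.1
  have u4 : cs.δ * ga L A B τ z ≤ cs.δ * ((1 + M) * D) := mul_le_mul_of_nonneg_left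
    (u0.2.trans (mul_le_mul_of_nonneg_left (by linarith) (by positivity))) ok.δ
  rw [abs_le] at z2 z3
  unfold lam fY fU
  rw [max_eq_right (by linarith [z2.2]), max_eq_right (by linarith [z2.1]),
    max_eq_right (by linarith [z3.2]), max_eq_right (by linarith [z3.1]),
    max_eq_right (by linarith), zero_div]
  linarith

end CoreX

open MP34a893.Core (Cst inv lyap mv m_mv dom errsum ar1 ar2 ar3 nv_mono psi_nn) in
open CoreX in
theorem coreS (hB : Basic) (hT : TubeS) (hD : DriftS) (hA : DriftAnyS) (hX : DriftXS) : CoreS := by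
  intro P M hM hS gap c ω ε1 π0 K hgap hc hω hωg hωε hπ hK
  have hp := hB.1 P M hM
  have hq := hB.1 P (1 + M) (by positivity)
  have hnp := hp.noise_prob
  have hε : 0 < ε1 := by linarith
  have hTh : 0 ≤ P.Th M := mul_nonneg (mul_nonneg P.hp0.le hp.bm_nonneg) hp.N_pos.le
  have hDV : 0 ≤ P.DV M := mul_nonneg hp.bm_nonneg hp.N_pos.le
  have hVm : 0 ≤ P.Vm M := add_nonneg (abs_nonneg _) hDV
  have hE1 : 0 ≤ P.E1 M := mul_nonneg (by positivity) hp.N_pos.le
  have hk0 := hp.k0_pos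
  have hN := hp.N_pos
  obtain ⟨R0, hR0, hD⟩ := drift hB hD hX P M hM (c / 8) (by positivity)
  obtain ⟨θ, hθ⟩ : ∃ θ, θ = P.Th M / (c / 2) := ⟨_, rfl⟩
  have hθ0 : 0 ≤ θ := by rw [hθ]; positivity
  obtain ⟨R2, hR2, htail⟩ : ∃ R2, R0 ≤ R2 ∧ θ * (2 * (1 + M) * ∫ r in Ioi R2, P.k r) ≤ 1 / 4 := by
    have := (hp.tail.const_mul (2 * (1 + M))).const_mul θ
    simp only [mul_zero] at this
    exact ((eventually_ge_atTop R0).and (this.eventually_le_const (by norm_num))).exists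
  have hR20 : 0 ≤ R2 := by linarith
  obtain ⟨ed, hd, hed, hhd, hD⟩ := hD (4 * (R2 + 1)) (by linarith)
  obtain ⟨T0, hT0, R3, ν0, e', ht, hν0, he', hht, hT⟩ := hT P M hM hS (ε1 / 2) (4 * (R2 + 1))
    (min ed (gap / 6)) (by positivity) (by linarith) (by positivity)
  obtain ⟨hs0, hhs, hsm⟩ := hp.small
  obtain ⟨a, ha⟩ : ∃ a, a = 1 / ω ^ 2 := ⟨_, rfl⟩
  obtain ⟨K3, hK3⟩ : ∃ K3, K3 = 2 + 4 * (1 + M) * K / (c / 2) := ⟨_, rfl⟩
  obtain ⟨Cb, hCb⟩ : ∃ Cb, Cb = P.Th M * P.k0 + (θ * P.k0 + 1) *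
    (P.Th M * M + P.Th M * (1 + P.k0 * P.DV M) + P.DV M) + c / 2 := ⟨_, rfl⟩
  obtain ⟨C, hC⟩ : ∃ C, C = P.Th M * (1 + P.k0 * P.DV M) := ⟨_, rfl⟩
  obtain ⟨ρ0, hρ0⟩ : ∃ ρ0, ρ0 = 16 * (K3 + 1) * (C + 1) / π0 := ⟨_, rfl⟩
  obtain ⟨eQ, heQ⟩ : ∃ eQ, eQ = π0 / 32 / (2 * a + Cb / e' * (T0 + 1)) := ⟨_, rfl⟩
  have ha0 : 0 < a := by rw [ha]; positivity
  have hK0 : 0 < K := by linarith
  have hK2 : 2 ≤ K3 := by rw [hK3]; exact le_add_of_nonneg_right (by positivity)
  have hCb0 : 0 ≤ Cb := by rw [hCb]; positivity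
  have hC0 : 0 ≤ C := by rw [hC]; positivity
  have hρ : 0 < ρ0 := by rw [hρ0]; positivity
  have hQ : 0 < eQ := by rw [heQ]; positivity
  refine ⟨K3, K + P.Vm M * (K3 + 1) + ρ0 + |R3|, eQ, ν0, T0 + 2, hK2, by positivity, hQ, hν0,
    by linarith, fun s hs => ?_⟩
  have hs1 : 1 ≤ s := by linarith
  obtain ⟨h0, hh0, hev⟩ : ∃ h0, 0 < h0 ∧ ∀ h, 0 < h → h ≤ h0 → h ≤ hs0 ∧ h ≤ hd ∧ h ≤ ht ∧
      P.DV M * h ≤ 1 ∧ 4 * P.N M * ((K3 * s + 1) * P.E1 M) * h ≤ eQ ∧
      (K3 * s + 1) * (4 * a * (2 * ω) * P.E1 M) * h ≤ π0 / 16 := by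
    have k : ∀ x y : ℝ, 0 < y → ∀ᶠ h in 𝓝 (0 : ℝ), x * h ≤ y := fun x y hy =>
      ((continuous_const_mul x).tendsto' 0 0 (mul_zero x)).eventually_le_const hy
    obtain ⟨r, hr, H⟩ := Metric.eventually_nhds_iff.1 ((eventually_le_nhds hhs).and
      ((eventually_le_nhds hhd).and ((eventually_le_nhds hht).and ((k _ _ one_pos).and
        ((k _ _ hQ).and (k _ (π0 / 16) (by positivity)))))))
    refine ⟨r / 2, by positivity, fun h a b => H ?_⟩
    rw [dist_zero_right, Real.norm_eq_abs, abs_of_pos a]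
    linarith
  refine ⟨h0, hh0, ?_⟩
  intro L t h A0 B0 α β x1 n1 n2 H H' μ hh hle b1 b2 b3 b4 b5 hαβ hα hβ sep pH pH' hμ hπ0 hae hNV
    q1 q2
  obtain ⟨v1, v2, v3, v4, v5, v6⟩ := hev h hh hle
  have sm := hsm h hh v1
  have hf := hB.2.1 P M L hM
  have hst := hB.2.2.1 P M L hM
  have hl := hB.2.2.2 P M L hM
  have hAB : 0 ≤ A0 ∧ 0 ≤ B0 := by
    rcases sep.1 with ⟨rfl, rfl⟩ | ⟨rfl, rfl⟩ <;> simp
  obtain ⟨l, l1, l2⟩ : ∃ l : ℕ, T0 ≤ l * h ∧ l * h ≤ T0 + 1 := by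
    refine ⟨⌈T0 / h⌉₊, (div_le_iff₀ hh).1 (Nat.le_ceil _), ?_⟩
    have := mul_le_mul_of_nonneg_right (Nat.ceil_lt_add_one (show 0 ≤ T0 / h by positivity)).le hh.le
    rw [add_mul, div_mul_cancel₀ _ hh.ne'] at this
    linarith only [this, sm.2.1]
  have l3 : 1 ≤ l := Nat.pos_of_ne_zero (by rintro rfl; simp at l1; linarith only [l1, hT0])
  have l4 : n1 + l ≤ n2 := ar2 hh hs hT0 hK2 b1 b2 l2
  obtain ⟨N, hNe⟩ : ∃ N, N = n2 - l - n1 := ⟨_, rfl⟩
  have hN2 : (n2 : ℝ) * h = n1 * h + N * h + l * h := by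
    rw [show n2 = n1 + N + l by omega]; push_cast; ring
  have hn1 : (0 : ℝ) ≤ n1 * h := by positivity
  have hNh : (N : ℝ) * h ≤ K3 * s + 1 := by linarith only [hn1, hN2, b3, l1, hT0]
  obtain ⟨δ, hδ⟩ : ∃ δ, δ = 1 / (4 * (1 + M) * K * s) := ⟨_, rfl⟩
  have hδ0 : 0 < δ := by rw [hδ]; positivity
  have hδ1 : δ ≤ 1 := by
    rw [hδ, div_le_one (by positivity)]
    exact one_le_mul_of_one_le_of_one_le (one_le_mul_of_one_le_of_one_le (by linarith only [hM]) hK)
      hs1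
  let cs : Cst := ⟨a, α, β, 3 * ω, 2 * ω, ρ0 * s, θ, δ, R2⟩
  have ok : cs.Ok := ⟨by simp only [cs]; positivity, by simp only [cs]; positivity,
    by simp only [cs]; positivity, hθ0, hδ0.le,
    by simp only [cs, ha]; field_simp; exact le_rfl, by simp only [cs, ha]; field_simp; exact le_rfl⟩
  let tm : ℕ → ℝ := fun n => t - (n1 + n : ℕ) * h
  let xl : ℕ → ℝ := fun n => x1 - P.Vm M * (n * h)
  let xr : ℕ → ℝ := fun n => x1 + K * s + P.Vm M * (n * h)
  have tms : ∀ n, tm (n + 1) = tm n - h := fun n => by simp only [tm]; push_cast; ring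
  have xls : ∀ n, xl (n + 1) = xl n - P.Vm M * h := fun n => by simp only [xl]; push_cast; ring
  have xrs : ∀ n, xr (n + 1) = xr n + P.Vm M * h := fun n => by simp only [xr]; push_cast; ring
  let F := fun n => mv L (tm n) h
  let A := fun n => keep L cs (tm n) h (xl n - P.Vm M * h) (xr n + P.Vm M * h)
  let I := fun n => alive L cs (tm n) (xl n) (xr n)
  have mF : ∀ n, Measurable (F n) := fun n => m_mv hst _ _
  have mA : ∀ n, MeasurableSet (A n) := fun n => m_keep hf hst _ _ _ _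
  have h00 : ∀ᵐ z ∂μ, z ∈ I 0 ∧
      lam L cs A0 B0 (tm 0) (xr 0) ((0 : ℕ) * (δ * (c / 2) * h)) z ≤ 1 / 2 := by
    simp only [I, tm, xl, xr, add_zero, Nat.cast_zero, zero_mul, mul_zero, sub_zero]
    refine hae.mono fun z hz => init hM hq hf ok sep.1 hR20 htail
      (by simp only [cs, hδ]; field_simp) ?_
    simpa only [cs, mul_div_cancel_left₀ ω (two_ne_zero' ℝ)] using hz
  have hI := inv (P.noise.prod P.noise) F A μ mF mA I (fun n => m_alive hf _ _ _)
    (h00.mono fun z hz => hz.1)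
    fun n z hz => by simp only [I, tms, xls, xrs]; exact hz.2
  let w : ℕ → ℝ → ℝ≥0∞ := fun n y =>
    ENNReal.ofReal (2 * a * L.w (tm n) h 1 y + h * Cb / e' * L.w (tm n) h l y)
  have mw : ∀ n, Measurable (w n) := fun n =>
    (((hst.w_meas _ _ _).const_mul _).add ((hst.w_meas _ _ _).const_mul _)).ennreal_ofReal
  obtain ⟨r, hr⟩ : ∃ r, r = 4 * a * (2 * ω) * (P.E1 M * h ^ 2) +
    P.Th M * h * (1 + P.k0 * P.DV M) / (ρ0 * s) := ⟨_, rfl⟩
  have main := lyap (P.noise.prod P.noise) F A μ mF mA I hI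
    (fun n z => ENNReal.ofReal (lam L cs A0 B0 (tm n) (xr n) (n * (δ * (c / 2) * h)) z))
    (fun n z => w n z.1 + (w n z.2 + ENNReal.ofReal r))
    (fun n => (m_lam hp hf _ _ _).ennreal_ofReal) N ?_ ?_
  · have p1 := hl.prob t h _ pH n1
    have p2 := hl.prob t h _ pH' n1
    have d1 := dom hst hl (P.noise.prod P.noise) F A μ mF mA _ measurable_fst _
      measurePreserving_fst t h n1 (L.start t H) (fun _ _ => rfl) fun φ hφ =>
        (lintegral_mono' hμ le_rfl).trans (measurePreserving_fst.lintegral_comp hφ).le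
    have d2 := dom hst hl (P.noise.prod P.noise) F A μ mF mA _ measurable_snd _
      measurePreserving_snd t h n1 (L.start t H') (fun _ _ => rfl) fun φ hφ =>
        (lintegral_mono' hμ le_rfl).trans (measurePreserving_snd.lintegral_comp hφ).le
    have hE : 4 * P.N M * (n2 * (P.E1 M * h ^ 2)) ≤ eQ := by
      refine le_trans ?_ v5
      have := mul_le_mul_of_nonneg_right b3 (show 0 ≤ 4 * P.N M * P.E1 M * h by positivity)
      linarith only [this]
    have s1 := errsum hst hl (A := 2 * a) (B := h * Cb / e') (E := 2 * eQ) pH sm (by positivity)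
      (by positivity) l3 l4 b4 b5 (by linarith only [q1, hE])
    have s2 := errsum hst hl (A := 2 * a) (B := h * Cb / e') (E := 2 * eQ) pH' sm (by positivity)
      (by positivity) l3 l4 b4 b5 (by linarith only [q2, hE])
    rw [← hNe] at s1 s2
    have s3 : (2 * a + h * Cb / e' * l) * (2 * eQ) ≤ π0 / 16 := by
      have e1 : (2 * a + Cb / e' * (T0 + 1)) * (2 * eQ) = π0 / 16 := by
        rw [heQ]; field_simp; norm_num
      rw [← e1]
      refine mul_le_mul_of_nonneg_right (add_le_add_right ?_ _) (by positivity)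
      have := mul_le_mul_of_nonneg_left l2 (show 0 ≤ Cb / e' by positivity)
      calc _ = Cb / e' * (l * h) := by ring
        _ ≤ _ := this
    have s4 : N * r ≤ π0 / 8 := by
      refine le_trans (le_of_eq ?_) (ar1 hh (by positivity) hC0 hs1 hK2 hπ hNh v6 hρ0)
      rw [hr, hC]
      ring
    have s5 : ∑ n ∈ Finset.range N, ∫⁻ z, (w n z.1 + (w n z.2 + ENNReal.ofReal r))
        ∂(evolve (P.noise.prod P.noise) F A μ n) ≤ ENNReal.ofReal (π0 / 4) := by
      calc _ ≤ ∑ n ∈ Finset.range N, (∫⁻ y, w n y ∂(L.law t h (L.start t H) (n1 + n)) +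
            (∫⁻ y, w n y ∂(L.law t h (L.start t H') (n1 + n)) + ENNReal.ofReal r)) := by
            refine Finset.sum_le_sum fun n _ => ?_
            rw [lintegral_add_left (f := fun z : ℝ × ℝ => w n z.1) ((mw n).comp measurable_fst),
              lintegral_add_left (f := fun z : ℝ × ℝ => w n z.2) ((mw n).comp measurable_snd)]
            refine add_le_add (d1 n _ (mw n)) (add_le_add (d2 n _ (mw n)) ?_)
            have := hl.prob t h _ pH (n1 + n)
            simpa using d1 n (fun _ => ENNReal.ofReal r) measurable_const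
        _ ≤ ENNReal.ofReal (π0 / 16) + (ENNReal.ofReal (π0 / 16) + ENNReal.ofReal (π0 / 8)) := by
            rw [Finset.sum_add_distrib, Finset.sum_add_distrib]
            refine add_le_add (s1.trans (ENNReal.ofReal_le_ofReal s3))
              (add_le_add (s2.trans (ENNReal.ofReal_le_ofReal s3)) ?_)
            rw [Finset.sum_const, Finset.card_range, ← ENNReal.ofReal_nsmul, nsmul_eq_mul]
            exact ENNReal.ofReal_le_ofReal s4
        _ = _ := by
            rw [← ENNReal.ofReal_add (by positivity) (by positivity),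
              ← ENNReal.ofReal_add (by positivity) (by positivity)]
            congr 1
            ring
    have s6 : ∫⁻ z, ENNReal.ofReal
        (lam L cs A0 B0 (tm 0) (xr 0) ((0 : ℕ) * (δ * (c / 2) * h)) z) ∂μ ≤
        ENNReal.ofReal (1 / 2) * μ univ := by
      rw [← lintegral_const]
      exact lintegral_mono_ae (h00.mono fun z hz => ENNReal.ofReal_le_ofReal hz.2)
    have fin := main.trans (add_le_add s6 s5)
    have hfin : μ univ ≠ ∞ := ne_top_of_le_ne_top (measure_ne_top _ _) (hμ univ)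
    rw [← ENNReal.ofReal_toReal hfin] at fin hπ0
    have m0 : 0 ≤ (μ univ).toReal := ENNReal.toReal_nonneg
    rw [← ENNReal.ofReal_mul (by norm_num), ← ENNReal.ofReal_add (by positivity) (by positivity),
      ENNReal.ofReal_le_ofReal_iff (by positivity)] at fin
    rw [ENNReal.ofReal_le_ofReal_iff m0] at hπ0
    linarith only [fin, hπ0, hπ]
  · intro n hn z hz
    have hn' : (n : ℝ) * h + h ≤ N * h := by
      have : (n : ℝ) + 1 ≤ N := by exact_mod_cast hn
      linarith only [mul_le_mul_of_nonneg_right this hh.le]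
    have hn0 : (0 : ℝ) ≤ n * h := by positivity
    have etm : tm n = t - n1 * h - n * h := by simp only [tm]; push_cast; ring
    have t1 : h ≤ tm n := by linarith only [etm, hn', hN2, b4, l1, hT0]
    have t2 : tm n ≤ L.T := by linarith only [etm, hn0, hn1, b5]
    have w1 := (hst.w_mem (tm n) h l z.1).1
    have w2 := (hst.w_mem (tm n) h l z.2).1
    have key : Key L cs A0 B0 (tm n) h (δ * (c / 2) * h)
        (h * Cb / e' * (L.w (tm n) h l z.1 + L.w (tm n) h l z.2)) z := by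
      by_cases gd : L.w (tm n) h l z.1 ≤ e' ∧ L.w (tm n) h l z.2 ≤ e'
      · obtain ⟨z1, z2, z3, z5, z6⟩ := id hz
        simp only [cs, xl, xr, abs_le] at z2 z3 z5 z6
        have tube : ∀ y, z.1 ≤ y → y ≤ z.2 → ε1 / 2 ≤ L.U (tm n) y → L.w (tm n) h l y ≤ e' → _ :=
          fun y a1 a2 a3 a4 =>
            have a5 := ar3 (R3 := R3) hK0.le hVm hρ.le hs1
              (show n * h ≤ K3 * s + 1 by linarith only [hn', hNh, hh])
              (z5.trans ((hf.X_mono (tm n)).monotone a1))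
              (((hf.X_mono (tm n)).monotone a2).trans z6)
            hT L (tm n) h y l hh v3 l1 l2 (by linarith only [etm, hn', hN2, b4, hh]) t2
              (nv_mono hNV (by linarith only [hε]) (by linarith only [etm, hn', hN2, hh])
                (by linarith only [etm, hn0, hn1]) a5.1 a5.2) a3 a4
        have u1 := tube z.1 le_rfl z1 (by linarith only [z2.1, hα, hωε]) gd.1
        have u2 := tube z.2 z1 le_rfl (by linarith only [z3.1, hβ, hωε]) gd.2
        have i0 : tm n ∈ Icc (tm n - h) (tm n) := ⟨by linarith only [hh], le_rfl⟩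
        exact good hM hp hq hf hst ok sm t1 t2 hz hc hθ hR20 hαβ
          (by simp only [cs]; linarith only [hωg]) v4 (by positivity) sep
          (hD L _ _ _ h _ sep.1 hh v2 t1 t2 fun σ hσ => (u1 σ hσ).trans (min_le_left _ _))
          (hD L _ _ _ h _ sep.1 hh v2 t1 t2 fun σ hσ => (u2 σ hσ).trans (min_le_left _ _))
          ((u1 _ i0).trans (min_le_right _ _)) ((u2 _ i0).trans (min_le_right _ _))
      · refine bad hM hp hf hst hA ok sep.1 sm t1 t2 hz.1 hc hδ1 ?_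
        have g1 : e' ≤ L.w (tm n) h l z.1 + L.w (tm n) h l z.2 := by
          rw [not_and_or, not_le, not_le] at gd
          rcases gd with g | g <;> linarith only [g, w1, w2]
        have g2 := mul_le_mul_of_nonneg_left g1 (show 0 ≤ h * Cb / e' by positivity)
        rw [div_mul_cancel₀ _ he'.ne'] at g2
        exact (le_of_eq (by rw [hCb])).trans g2
    obtain ⟨pc, d1, d2, k1, k2, k3, k4, k5, k6, k7⟩ := key
    have := one (s := (n + 1 : ℕ) * (δ * (c / 2) * h)) hM hp hq hf hst ok hAB.1 hAB.2 sm t1 t2 hz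
      (by positivity) k1 k2 k3 k4 k5 k6
    simp only [tms, xrs]
    refine this.trans (le_trans (ENNReal.ofReal_le_ofReal ?_) (ENNReal.ofReal_add_le.trans
      (add_le_add_right (ENNReal.ofReal_add_le.trans
        (add_le_add_right ENNReal.ofReal_add_le _)) _)))
    simp only [lam, hr, cs] at k7 ⊢
    push_cast
    linarith only [k7]
  · intro z hz
    rw [← ENNReal.ofReal_one]
    refine ENNReal.ofReal_le_ofReal ?_
    have n1' := fU_nn (L := L) ok cs.α (tm N) z.1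
    have n2' := fY_nn (L := L) ok (tm N) (xr N) z.2
    have n3 := psi_nn (by positivity) hq ok (ga_le hM hf sep.1 (tm N) hz.1).1
    have u1 : 4 * (1 + M) * K / (c / 2) * s ≤ N * h := by
      rw [hK3] at b2
      linarith only [b2, hN2, b1, l2, hs]
    have u2 := mul_le_mul_of_nonneg_left u1 (show 0 ≤ δ * (c / 2) by positivity)
    have u3 : δ * (c / 2) * (4 * (1 + M) * K / (c / 2) * s) = 1 := by rw [hδ]; field_simp
    unfold lam
    linarith only [n1', n2', n3, u2, u3]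

end

end MP34a893.B

end MrgPart4

-- ======== part 5: formerly Pool.Agent.MP_34a893_an.B.Rec
section MrgPart5

/-! Row OFF+REC: no vacuum behind a label offset, and no point is a record. -/

open MeasureTheory Set Filter Topology

namespace MP34a893.B

namespace Rec

lemma mono {P : Par} {M : ℝ} {L : Lag P M} {κ r C S C' S' t x : ℝ} (h : L.Rec κ r C S t x)
    (hC : C' ≤ C) (hS : S' ≤ S) : L.Rec κ r C' S' t x := fun τ hτ y hy =>
  h τ ⟨by linarith [hτ.1], hτ.2⟩ y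
    (hy.trans (mul_le_mul_of_nonneg_right hC (sub_nonneg.2 hτ.2)))

lemma lim (c b R : ℝ) (hc : 0 < c) (hb : 0 < b) :
    Tendsto (fun s : ℝ => Real.exp (-c * (b * s)) * (R + b * s)) atTop (𝓝 0) := by
  have t : Tendsto (fun s : ℝ => c * (b * s)) atTop atTop :=
    (tendsto_id.const_mul_atTop hb).const_mul_atTop hc
  have l0 := ((Real.tendsto_pow_mul_exp_neg_atTop_nhds_zero 0).comp t).const_mul R
  have l1 := ((Real.tendsto_pow_mul_exp_neg_atTop_nhds_zero 1).comp t).const_mul c⁻¹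
  have := l0.add l1
  rw [mul_zero, mul_zero, add_zero] at this
  refine this.congr fun s => ?_
  simp only [Function.comp, neg_mul]
  field_simp

end Rec

theorem offS : Basic → DefS → VacS → OffS := by
  intro hB hDef hVac P M hM hp a C ha hC
  have hP := hB.1 P M hM
  have hVm : 0 ≤ P.Vm M := add_nonneg (abs_nonneg _) (mul_nonneg hP.bm_nonneg hP.N_pos.le)
  obtain ⟨κ0, hκ0, hD⟩ := hDef P M hM hp (a / (4 * (C + 1))) (by positivity)
  obtain ⟨ε1, c, S0, hε, hc, hV⟩ := hVac P M hM hp κ0 hκ0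
  obtain ⟨b, hb, hκb⟩ : ∃ b : ℝ, 0 < b ∧ κ0 * b = C + 1 :=
    ⟨(C + 1) / κ0, by positivity, by field_simp⟩
  refine ⟨ε1, 2 * b + 1, hε, by positivity, fun T1 R3 ν0 hT1 hν => ?_⟩
  obtain ⟨s1, hs1⟩ := eventually_atTop.1
    (((Rec.lim c b (2 * R3) hc hb).eventually (ge_mem_nhds hν)).and
      (((tendsto_id.const_mul_atTop hb).eventually_ge_atTop S0).and
        (((tendsto_id.const_mul_atTop ha).eventually_ge_atTop
          (2 * (M * (R3 + P.Vm M * T1)))).and ((eventually_ge_atTop (R3 + P.Vm M * T1)).and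
            ((eventually_ge_atTop T1).and (eventually_ge_atTop 1))))))
  refine ⟨s1, fun s hs L τ ya y hτ hT hm hX τ' hτ' => ?_⟩
  obtain ⟨e1, e2, e3, e4, e5, e6⟩ := hs1 s hs
  simp only [id] at e2 e3
  have hL := hB.2.1 P M L hM
  by_cases hR : R3 < 0
  · rw [Icc_eq_empty (by linarith)]
    simp
  have bs : 0 < b * s := by positivity
  have t2 : 2 * (b * s) ≤ τ' := by linarith [hτ'.1]
  have tT : τ' ≤ L.T := hτ'.2.trans hT
  refine (hV L (b * s) τ' _ _ e2 t2 tT (by linarith) fun x hx => ?_).trans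
    (ENNReal.ofReal_le_ofReal (le_of_eq_of_le (by ring) e1))
  by_contra hlt
  have hH : κ0 * (b * s) = (C + 1) * s := by rw [← mul_assoc, hκb]
  have d := hD κ0 (b * s) hκ0 le_rfl (by rw [hH]; nlinarith) L τ' (L.Y τ' x) (by linarith) tT
    (not_le.1 hlt).le
  rw [L.XY, hH, show a / (4 * (C + 1)) * ((C + 1) * s) = a * s / 4 by field_simp] at d
  have lip : ∀ z, |L.X τ z - L.X τ' z| ≤ P.Vm M * T1 := fun z =>
    (hL.X_lip z τ ⟨by linarith [hτ'.2], hT⟩ τ' ⟨by linarith, tT⟩).trans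
      (mul_le_mul_of_nonneg_left (abs_le.2 ⟨by linarith [hτ'.2], by linarith [hτ'.1]⟩) hVm)
  have l1 := abs_le.1 (lip y)
  have l2 := abs_le.1 (lip ya)
  have q1 : L.Q τ' (x - (C + 1) * s) ≤ L.m ya :=
    (Osc.Q_mono L hL τ' (by linarith [hx.2, l2.2])).trans_eq (hL.Q_X τ' ya)
  have q2 := (abs_le.1 ((Osc.Q_lip L hL τ' (L.X τ' y) x).trans (mul_le_mul_of_nonneg_left
    (abs_le.2 ⟨by linarith [hx.2, l1.2], by linarith [hx.1, l1.1]⟩ :
      _ ≤ R3 + P.Vm M * T1) hM.le))).2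
  rw [hL.Q_X] at q2
  have : 0 < a * s := by positivity
  linarith

theorem recS : Basic → OffS → LinS → StripS → RecS := by
  intro hB hOff hLin hStr P M hM hp hnb htan e he
  have hP := hB.1 P M hM
  have hVm : 0 ≤ P.Vm M := add_nonneg (abs_nonneg _) (mul_nonneg hP.bm_nonneg hP.N_pos.le)
  obtain ⟨gap, Sg, hgap, hSg, hTn⟩ := htan (e / 2) (by positivity)
  obtain ⟨D, sa, hD1, hD2, hS⟩ := hStr P M hM hp hnb (e / 2) 1 Sg (by positivity) one_pos hSg
  obtain ⟨K, C0, hK, hC0, hLi⟩ := hLin P M hM hp e gap D he hgap hD1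
  obtain ⟨ε1, Kt, hε, hKt, hO⟩ := hOff P M hM hp (e / 2) ((C0 + P.Vm M) * (K + D))
    (by positivity) (mul_pos (by linarith) (by linarith))
  obtain ⟨T1, R3, ν0, sb, hT1, hν, hLi⟩ := hLi ε1 hε
  obtain ⟨sc, hO⟩ := hO T1 R3 ν0 hT1 hν
  obtain ⟨s, h1, h2, h3, h4⟩ := ((eventually_ge_atTop sa).and ((eventually_ge_atTop sb).and
    ((eventually_ge_atTop sc).and (eventually_ge_atTop (2 / e))))).exists
  have s0 : 0 < s := lt_of_lt_of_le (by positivity) h4
  rw [div_le_iff₀ he] at h4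
  have k1 : 0 < K * s := by positivity
  have k2 : 0 < D * s := by positivity
  have k3 : 0 < Kt * s := by positivity
  refine ⟨C0 + P.Vm M, (K + D + 1 + Kt) * s, by linarith, by linarith,
    fun L κ t x hpot hκ ht hT hR => ?_⟩
  have hL := hB.2.1 P M L hM
  have tI : t ∈ Icc 0 L.T := ⟨by linarith, hT⟩
  have lip : ∀ τ, 0 ≤ τ → τ ≤ t → |L.X τ (L.Y t x) - x| ≤ P.Vm M * (t - τ) := fun τ a b => by
    have := hL.X_lip (L.Y t x) τ ⟨a, b.trans hT⟩ t tI
    rwa [L.XY, abs_sub_comm τ, abs_of_nonneg (sub_nonneg.2 b)] at this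
  by_cases c : e / 2 ≤ κ * P.Φ 0 - P.f κ
  swap
  · have r := hR (t - s) ⟨by linarith, by linarith⟩ (L.X (t - s) (L.Y t x))
      ((lip _ (by linarith) (by linarith)).trans
        (mul_le_mul_of_nonneg_right (by linarith) (by linarith)))
    have d := (hL.dfc_mem (L.Y t x) (t - s) t (by linarith) (by linarith) hT).1
    rw [Lag.dfc, L.XY] at d
    rw [hL.Q_X] at r
    change L.m (L.Y t x) ≤ _ at r
    nlinarith [mul_nonneg hκ.1 d, mul_lt_mul_of_pos_left (not_le.1 c) s0]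
  obtain ⟨cm, σ, hcm, hσ, hκσ, hz, hq⟩ := hTn κ hκ c
  have hσ' := abs_le.1 hσ
  refine hS s h1 L κ σ t x (C0 + P.Vm M) ((K + D + 1 + Kt) * s) hpot hκ hσ (by linarith) hT
    (by linarith) (by linarith) (by rw [show 2 * (e / 2) = e by ring]; exact hR) fun t' a1 a2 => ?_
  have p0 : 0 ≤ t - t' := by linarith
  have z := hLi s h2 L κ cm t x t' (x - σ * (t - t')) (x - σ * (t - t') + 1 * s) hκ hcm hz a1 a2
    (by nlinarith [hσ'.2]) (by nlinarith [hσ'.1]) (by linarith) hT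
    (Rec.mono hR (by linarith) (by linarith)) fun τ hτ y hy hX => ?_
  · filter_upwards [measure_eq_zero_iff_ae_notMem.1 z] with x' h hx'
    refine hq _ (hL.q_mem t' x') ?_
    rw [hL.q_pow]
    exact (not_le.1 fun k => h ⟨hx', k⟩).le
  have τ0 : Kt * s ≤ τ := by linarith [hτ.1]
  have τt : τ ≤ t := by linarith [hτ.2]
  refine hO s h3 L τ (L.Y t x) y τ0 (τt.trans hT) ?_ ?_
  · have r := hR t' ⟨by linarith, by linarith⟩ (x - σ * (t - t')) (by
      rw [sub_sub_cancel_left, abs_neg, abs_mul, abs_of_nonneg p0]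
      exact mul_le_mul_of_nonneg_right (by linarith) p0)
    have m := hL.m_mono hy
    change L.m (L.Y t x) ≤ L.m (L.Y t' _) + _ - _ + _ at r
    nlinarith [mul_le_mul_of_nonneg_left hκσ p0, mul_le_mul_of_nonneg_right a1 he.le]
  · have l := (abs_le.1 (lip τ (by linarith) τt)).1
    have : (C0 + P.Vm M) * (t - τ) ≤ (C0 + P.Vm M) * ((K + D) * s) :=
      mul_le_mul_of_nonneg_left (by linarith [hτ.1]) (by linarith)
    linarith

end MP34a893.B

end MrgPart5

-- marker of a merged file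
example : 731051 + 754919 = 731051 + 754919 := rfl
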