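import Mathlib.Algebra.Order.Ring.Star
import Pool.Agent.MP_34a893_an.Scale
import Pool.Agent.MP_34a893_an.B.Few
import Pool.Agent.MP_34a893_an.B.PortOsc

-- ======== part 0: formerly Pool.Agent.MP_34a893_an.Pair
section MrgPart0

/-! Row PAIR: from two sets of positions to a sub-probability on ordered pairs. -/

open MeasureTheory Set Filter Topology
open scoped ENNReal

namespace MP34a893

namespace Pair

lemma integ {μ : Measure ℝ} [IsProbabilityMeasure μ] {f : ℝ → ℝ} {N : ℝ} (hf : Measurable f)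
    (h : ∀ y, f y ∈ Icc 0 N) : Integrable f μ :=
  Integrable.of_mem_Icc 0 N hf.aemeasurable (Eventually.of_forall h)

/-- A bounded function with a large mean is large with positive probability. -/
lemma large {μ : Measure ℝ} [IsProbabilityMeasure μ] {f : ℝ → ℝ} {N c δ : ℝ} (hf : Measurable f)
    (h : ∀ y, f y ∈ Icc 0 N) (hN : 0 < N) (hc : 0 ≤ c) (hm : c + δ ≤ ∫ y, f y ∂μ) :
    ENNReal.ofReal (δ / N) ≤ μ {y | c ≤ f y} := by
  have hE : MeasurableSet {y | c ≤ f y} := measurableSet_le measurable_const hf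
  have h1 : Integrable ({y | c ≤ f y}.indicator fun _ => N) μ := (integrable_const N).indicator hE
  have h2 : ∫ y, f y ∂μ ≤ ∫ y, (c + {y | c ≤ f y}.indicator (fun _ => N) y) ∂μ := by
    refine integral_mono (integ hf h) ((integrable_const c).add h1) fun y => ?_
    by_cases hy : c ≤ f y
    · have : y ∈ {y | c ≤ f y} := hy
      simp only [indicator_of_mem this]
      linarith [(h y).2]
    · have : y ∉ {y | c ≤ f y} := hy
      simp only [indicator_of_notMem this]
      linarith [not_le.1 hy]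
  rw [integral_add (integrable_const c) h1, integral_const, integral_indicator_const _ hE] at h2
  simp only [probReal_univ, smul_eq_mul, one_mul] at h2
  refine ENNReal.ofReal_le_of_le_toReal ?_
  rw [div_le_iff₀ hN]
  change δ ≤ μ.real {y | c ≤ f y} * N
  linarith

lemma half {μ : Measure ℝ} {E A Z B1 B2 : Set ℝ} {π : ℝ} (hπ : 0 ≤ π)
    (hs : ∀ y ∈ E, y ∉ Z → y ∉ B1 → y ∉ B2 → y ∈ A) (hZ : μ Z = 0)
    (h1 : μ B1 ≤ ENNReal.ofReal (π / 4)) (h2 : μ B2 ≤ ENNReal.ofReal (π / 4))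
    (hE : ENNReal.ofReal π ≤ μ E) : ENNReal.ofReal (π / 2) ≤ μ A := by
  have e : E ⊆ A ∪ (Z ∪ (B1 ∪ B2)) := fun y hy => by
    by_contra H
    simp only [mem_union, not_or] at H
    exact H.1 (hs y hy H.2.1 H.2.2.1 H.2.2.2)
  have h3 : μ E ≤ μ A + ENNReal.ofReal (π / 2) := by
    refine (measure_mono e).trans ((measure_union_le _ _).trans (add_le_add le_rfl ?_))
    refine (measure_union_le _ _).trans ?_
    rw [hZ, zero_add]
    refine (measure_union_le _ _).trans ((add_le_add h1 h2).trans (le_of_eq ?_))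
    rw [← ENNReal.ofReal_add (by positivity) (by positivity)]
    congr 1; ring
  have h4 : ENNReal.ofReal π = ENNReal.ofReal (π / 2) + ENNReal.ofReal (π / 2) := by
    rw [← ENNReal.ofReal_add (by positivity) (by positivity)]
    congr 1; ring
  rw [h4] at hE
  exact (ENNReal.add_le_add_iff_right ENNReal.ofReal_ne_top).1 (hE.trans h3)

end Pair

open Pair in
theorem pairS : Basic → PairCoreS → PairS := by
  intro hB hC P M hM hS gap hgap
  have hP := hB.1 P M hM
  have hN := hP.N_pos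
  have hbm := hP.bm_nonneg
  have hk0 := hP.k0_pos
  have hp := P.hp0
  have hDV : 0 ≤ P.DV M := by unfold Par.DV; positivity
  have hVm : 0 ≤ P.Vm M := by unfold Par.Vm; positivity
  have hTh : 0 ≤ P.Th M := by unfold Par.Th; positivity
  have hC0 : 0 ≤ P.C0 M := by unfold Par.C0; positivity
  have hC2 : 0 ≤ P.C2 M := by unfold Par.C2; positivity
  have hC3 : 0 ≤ P.C3 M := by unfold Par.C3; positivity
  have hE1 : 0 ≤ P.E1 M := by unfold Par.E1; positivity
  obtain ⟨π, hπ, hπe⟩ : ∃ π, 0 < π ∧ π = gap / 12 / P.N M := ⟨_, by positivity, rfl⟩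
  obtain ⟨κ, hκ, hκe⟩ : ∃ κ, 0 < κ ∧ 2 * P.C3 M ≤ π / 4 * κ :=
    ⟨8 * (P.C3 M + 1) / π, by positivity, by
      rw [show π / 4 * (8 * (P.C3 M + 1) / π) = 2 * (P.C3 M + 1) by field_simp; ring]; linarith⟩
  refine ⟨1 + κ + 2 * P.Vm M, by linarith, fun ε1 K2 hε hK2 => ?_⟩
  obtain ⟨K3, K4, eQ, ν0, s0, a1, a2, a3, a4, a5, hcore⟩ :=
    hC P M hM hS (2 * gap / 3) ε1 ((π / 2) * (π / 2)) (1 + κ + 2 * P.Vm M + K2) (by positivity) hε
      (by positivity) (by linarith)
  refine ⟨K3, K4 + (1 + κ + 2 * P.Vm M + K2), eQ, min ν0 (π / 4), s0, a1, by linarith, a3,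
    lt_min a4 (by positivity), a5, fun s hs => ?_⟩
  have hs1 : 1 ≤ s := a5.trans hs
  obtain ⟨h0, b1, hcore⟩ := hcore s hs
  obtain ⟨h1, b2, hsm⟩ := hP.small
  refine ⟨min h0 (min h1 (gap / 12 / ((s + 1) * (P.E1 M + 1)))),
    lt_min b1 (lt_min b2 (by positivity)), ?_⟩
  intro L t h α β x1 x2 ρ ν n1 n2 H H' hh hh0 c1 c2 c3 c4 c5 c6 hαβ mH mH' sH sH' hρ vH vH' uH uH'
    d1 d2 hNV hν hν0 hνρ q1 q2
  have hF := hB.2.1 P M L hM
  have hL := hB.2.2.2 P M L hM
  have hsmall : P.Small M h := hsm h hh (hh0.trans ((min_le_right _ _).trans (min_le_left _ _)))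
  have hh2 : h * ((s + 1) * (P.E1 M + 1)) ≤ gap / 12 :=
    (le_div_iff₀ (by positivity)).1 (hh0.trans ((min_le_right _ _).trans (min_le_right _ _)))
  have hs0 : 0 ≤ s := by linarith
  have e12 : (n1 : ℝ) * h ≤ n2 * h := by linarith [mul_le_mul_of_nonneg_right a1 hs0]
  have e1t : (n1 : ℝ) * h ≤ t := e12.trans c5
  have e0 : 0 ≤ (n1 : ℝ) * h := by positivity
  have e2s : (n1 : ℝ) * h ≤ 2 * s := by linarith
  have herr : (n1 : ℝ) * (P.E1 M * h ^ 2) ≤ gap / 12 := by
    have : (n1 : ℝ) * (P.E1 M * h ^ 2) = (n1 * h) * (P.E1 M * h) := by ring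
    rw [this]
    refine (mul_le_mul_of_nonneg_right c2 (by positivity)).trans (le_trans ?_ hh2)
    linarith [mul_nonneg hh.le hs0]
  have hρ' : ENNReal.ofReal ρ ≠ 0 := by simpa using hρ
  have fin : ∀ (G : Set ℝ) (x : ℝ), G ⊆ Icc x (x + s) → volume G ≠ ∞ := fun G x hG =>
    ((measure_mono hG).trans_lt measure_Icc_lt_top).ne
  have nz : ∀ G : Set ℝ, ENNReal.ofReal ρ ≤ volume G → volume G ≠ 0 := fun G hG e =>
    hρ' (le_zero_iff.1 (e ▸ hG))
  have p1 := hL.start_prob t H mH (nz H vH) (fin H x1 sH)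
  have p2 := hL.start_prob t H' mH' (nz H' vH') (fin H' x2 sH')
  have p3 := hL.prob t h _ p1 n1
  have p4 := hL.prob t h _ p2 n1
  obtain ⟨z1, hz1⟩ := nonempty_of_measure_ne_zero (nz H vH)
  obtain ⟨z2, hz2⟩ := nonempty_of_measure_ne_zero (nz H' vH')
  have hβ : β ≤ P.N M := (uH z1 hz1).trans (L.u_le _ _)
  have hα : 0 ≤ α := (hF.u_nonneg _ _).trans (uH' z2 hz2)
  have mU : ∀ τ, Measurable (L.U τ) := fun τ => hF.U_meas.of_uncurry_left
  have mX : ∀ τ, Measurable (L.X τ) := fun τ => L.X_cont.measurable.of_uncurry_left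
  have bU : ∀ τ y, L.U τ y ∈ Icc 0 (P.N M) := fun τ y => ⟨hF.u_nonneg _ _, L.u_le _ _⟩
  have ae1 := hL.start_ae t H mH
  have ae2 := hL.start_ae t H' mH'
  have m1 : β ≤ ∫ y, L.U t y ∂(L.start t H) := by
    have := integral_mono_ae (integrable_const β) (integ (μ := L.start t H) (mU t) (bU t))
      (ae1.mono fun y hy => uH _ hy)
    simpa using this
  have m2 : ∫ y, L.U t y ∂(L.start t H') ≤ α := by
    have := integral_mono_ae (integ (μ := L.start t H') (mU t) (bU t)) (integrable_const α)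
      (ae2.mono fun y hy => uH' _ hy)
    simpa using this
  have m3 := abs_le.1 (hL.mean t h n1 _ p1 hsmall e1t c6)
  have m4 := abs_le.1 (hL.mean t h n1 _ p2 hsmall e1t c6)
  have l1 := hL.left t h n1 _ x1 hh e1t c6 (ae1.mono fun y hy => (sH hy).1)
  have l2 := hL.left t h n1 _ x2 hh e1t c6 (ae2.mono fun y hy => (sH' hy).1)
  have hκs : 0 < κ * s := by positivity
  have hr : P.C3 M * (n1 * h) / (κ * s) ≤ π / 4 := by
    rw [div_le_iff₀ hκs]
    linarith [mul_le_mul_of_nonneg_left e2s hC3, mul_le_mul_of_nonneg_right hκe hs0]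
  have r1 := hL.right t h n1 _ (x1 + s) (κ * s) hsmall e1t c6 hκs (ae1.mono fun y hy => (sH hy).2)
  have r2 := hL.right t h n1 _ (x2 + s) (κ * s) hsmall e1t c6 hκs (ae2.mono fun y hy => (sH' hy).2)
  rw [measure_univ, one_mul] at r1 r2
  replace r1 := r1.trans (ENNReal.ofReal_le_ofReal hr)
  replace r2 := r2.trans (ENNReal.ofReal_le_ofReal hr)
  have hV : P.Vm M * (n1 * h) ≤ 2 * P.Vm M * s := by
    linarith [mul_le_mul_of_nonneg_left e2s hVm]
  set t1 := t - n1 * h with ht1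
  set a := x1 - (K4 + (1 + κ + 2 * P.Vm M + K2)) * s with ha
  set c := x1 + (K4 + (1 + κ + 2 * P.Vm M + K2)) * s with hc
  have mS : MeasurableSet {y | L.X t1 y ∈ Icc a c ∧ L.U t1 y < ε1} :=
    (mX t1 measurableSet_Icc).inter (measurableSet_lt (mU t1) measurable_const)
  have mT : MeasurableSet {x | x ∈ Icc a c ∧ L.u t1 x < ε1} :=
    measurableSet_Icc.inter (measurableSet_lt L.u_meas.of_uncurry_left measurable_const)
  have vac : L.law t h (L.start t H') n1 {y | L.X t1 y ∈ Icc a c ∧ L.U t1 y < ε1} ≤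
      ENNReal.ofReal (π / 4) := by
    have := hL.dens t h n1 hsmall e1t c6 H' (volume H')⁻¹
      ({y | L.X t1 y ∈ Icc a c ∧ L.U t1 y < ε1}.indicator 1) (measurable_one.indicator mS)
    have e : (fun x => ({y | L.X t1 y ∈ Icc a c ∧ L.U t1 y < ε1}.indicator (1 : ℝ → ℝ≥0∞))
        (L.Y t1 x)) = {x | x ∈ Icc a c ∧ L.u t1 x < ε1}.indicator 1 := by
      funext x
      simp only [indicator, mem_ofPred_eq, Lag.U, L.XY, Pi.one_apply]
    rw [lintegral_indicator_one mS, e, lintegral_indicator_one mT] at this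
    refine this.trans ?_
    have f1 : (volume H')⁻¹ ≤ ENNReal.ofReal ρ⁻¹ := by
      rw [ENNReal.ofReal_inv_of_pos hρ]; exact ENNReal.inv_le_inv.2 vH'
    have f2 := hNV t1 ⟨by linarith, by linarith⟩
    refine (mul_le_mul' (mul_le_mul' f1 le_rfl) f2).trans ?_
    rw [← ENNReal.ofReal_mul (by positivity), ← ENNReal.ofReal_mul (by positivity)]
    refine ENNReal.ofReal_le_ofReal ?_
    have f3 : Real.exp (P.C2 M * (n1 * h)) ≤ Real.exp (P.C2 M * (s + 1)) :=
      Real.exp_le_exp.2 (mul_le_mul_of_nonneg_left c2 hC2)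
    have f4 : min ν0 (π / 4) * ρ ≤ π / 4 * ρ := mul_le_mul_of_nonneg_right (min_le_right _ _) hρ.le
    rw [mul_assoc, inv_mul_le_iff₀ hρ]
    linarith [mul_le_mul_of_nonneg_left f3 hν]
  have g1 := large (μ := L.law t h (L.start t H) n1) (c := β - gap / 6) (δ := gap / 12) (mU t1)
    (bU t1) hN (by linarith) (by linarith [m3.1])
  have g2 := large (μ := L.law t h (L.start t H') n1) (f := fun y => P.N M - L.U t1 y)
    (c := P.N M - (α + gap / 6)) (δ := gap / 12) (measurable_const.sub (mU t1))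
    (fun y => ⟨by linarith [(bU t1 y).2], by linarith [(bU t1 y).1]⟩) hN (by linarith) (by
      rw [integral_sub (integrable_const _) (integ (mU t1) (bU t1))]
      simp only [integral_const, probReal_univ, smul_eq_mul, one_mul]
      linarith [m4.2])
  rw [← hπe] at g1 g2
  let A : Set ℝ := {y | β - gap / 6 ≤ L.U t1 y ∧ x1 - 2 * P.Vm M * s ≤ L.X t1 y ∧
    L.X t1 y ≤ x1 + s + κ * s}
  let B : Set ℝ := {y | ε1 ≤ L.U t1 y ∧ L.U t1 y ≤ α + gap / 6 ∧
    x2 - 2 * P.Vm M * s ≤ L.X t1 y ∧ L.X t1 y ≤ x2 + s + κ * s}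
  have mA : MeasurableSet A := (measurableSet_le measurable_const (mU t1)).inter
    ((measurableSet_le measurable_const (mX t1)).inter (measurableSet_le (mX t1) measurable_const))
  have mB : MeasurableSet B := (measurableSet_le measurable_const (mU t1)).inter
    ((measurableSet_le (mU t1) measurable_const).inter
    ((measurableSet_le measurable_const (mX t1)).inter (measurableSet_le (mX t1) measurable_const)))
  have hK4 : 0 ≤ K4 * s := by positivity
  have hVs : 0 ≤ P.Vm M * s := by positivity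
  have hK2s : 0 ≤ K2 * s := mul_nonneg (by linarith) hs0
  have hA : ENNReal.ofReal (π / 2) ≤ L.law t h (L.start t H) n1 A :=
    half hπ.le (fun y hy z1 z2 _ => ⟨hy, by linarith [not_not.1 z1], not_lt.1 z2⟩) (ae_iff.1 l1)
      r1 r1 g1
  have hBm : ENNReal.ofReal (π / 2) ≤ L.law t h (L.start t H') n1 B :=
    half hπ.le (fun y hy z1 z2 z3 => by
      have w1 : x2 - P.Vm M * (n1 * h) ≤ L.X t1 y := not_not.1 z1
      have w2 : L.X t1 y ≤ x2 + s + κ * s := not_lt.1 z2
      have w3 : P.N M - (α + gap / 6) ≤ P.N M - L.U t1 y := hy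
      refine ⟨not_lt.1 fun w => z3 ⟨⟨?_, ?_⟩, w⟩, by linarith, by linarith, w2⟩
      · rw [ha]; linarith
      · rw [hc]; linarith) (ae_iff.1 l2) r2 vac g2
  refine hcore L t h (α + gap / 6) (β - gap / 6) (x1 - 2 * P.Vm M * s) n1 n2 H H'
    (((L.law t h (L.start t H) n1).prod (L.law t h (L.start t H') n1)).restrict (A ×ˢ B)) hh
    (hh0.trans (min_le_left _ _)) c2 c3 c4 c5 c6 (by linarith) p1 p2 Measure.restrict_le_self
    ?_ ?_ ?_ q1 q2
  · rw [Measure.restrict_apply_univ, Measure.prod_prod, ENNReal.ofReal_mul (by positivity)]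
    exact mul_le_mul' hA hBm
  · refine (ae_restrict_mem (mA.prod mB)).mono fun z hz => ?_
    obtain ⟨⟨u1, u2, u3⟩, u4, u5, u6, u7⟩ := hz
    refine ⟨(hF.X_mono t1).le_iff_le.1 (by linarith), u1, u4, u5, u2, by linarith⟩
  · intro τ hτ
    refine (measure_mono fun x hx => ?_).trans ((hNV τ hτ).trans
      (ENNReal.ofReal_le_ofReal (hν0.trans (min_le_left _ _))))
    refine ⟨⟨?_, ?_⟩, hx.2⟩
    · rw [ha]; linarith [hx.1.1]
    · rw [hc]; linarith [hx.1.2]

end MP34a893

end MrgPart0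

-- ======== part 1: formerly Pool.Agent.MP_34a893_an.HopfLax
section MrgPart1

/-! Row HL: upper and lower comparison with the Hopf-Lax formula. -/

open MeasureTheory Set Filter Topology

namespace MP34a893

namespace HL

/-- the midpoint gap of a strictly concave function -/
lemma gap {M η : ℝ} {f : ℝ → ℝ} (hc : ContinuousOn f (Icc 0 M))
    (hs : StrictConcaveOn ℝ (Icc 0 M) f) (hη : 0 < η) : ∃ g, 0 < g ∧ ∀ a ∈ Icc 0 M,
      ∀ b ∈ Icc 0 M, η ≤ |a - b| → g ≤ f ((a + b) / 2) - (f a + f b) / 2 := by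
  have hK : IsCompact ((Icc 0 M ×ˢ Icc 0 M) ∩ {z : ℝ × ℝ | η ≤ |z.1 - z.2|}) :=
    (isCompact_Icc.prod isCompact_Icc).inter_right (isClosed_le continuous_const (by fun_prop))
  obtain ⟨g, hg, h⟩ := hK.exists_forall_le' (a := 0)
    (f := fun z => f ((z.1 + z.2) / 2) - (f z.1 + f z.2) / 2) (by
      refine ContinuousOn.sub (hc.comp (by fun_prop) fun z hz => ?_)
        (((hc.comp (by fun_prop) fun z hz => hz.1.1).add
          (hc.comp (by fun_prop) fun z hz => hz.1.2)).div_const 2)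
      obtain ⟨⟨⟨a, b⟩, c, d⟩, -⟩ := hz
      exact ⟨by linarith, by linarith⟩) fun z hz => by
      obtain ⟨⟨a, b⟩, c⟩ := hz
      have hne : z.1 ≠ z.2 := fun e => by
        have c' : η ≤ |z.1 - z.2| := c
        rw [e, sub_self, abs_zero] at c'
        linarith
      have := hs.2 a b hne (by norm_num : (0 : ℝ) < 1 / 2) (by norm_num : (0 : ℝ) < 1 / 2)
        (by norm_num)
      simp only [smul_eq_mul] at this
      rw [show (z.1 + z.2) / 2 = 1 / 2 * z.1 + 1 / 2 * z.2 by ring]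
      linarith
  exact ⟨g, hg, fun a ha b hb hab => h (a, b) ⟨⟨ha, hb⟩, hab⟩⟩

/-- increments with quadratic loss add up to no loss -/
lemma quad {φ : ℝ → ℝ} {a b K : ℝ} (hab : a ≤ b)
    (h : ∀ u v, a ≤ u → u ≤ v → v ≤ b → -(K * (v - u) ^ 2) ≤ φ v - φ u) : φ a ≤ φ b := by
  refine le_of_forall_pos_le_add fun ε hε => ?_
  obtain ⟨n, hn⟩ := exists_nat_gt (|K| * (b - a) ^ 2 / ε)
  have hn0 : (0 : ℝ) < n := lt_of_le_of_lt (by positivity) hn
  obtain ⟨d, hd⟩ : ∃ d, d = (b - a) / n := ⟨_, rfl⟩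
  have hd0 : 0 ≤ d := hd ▸ div_nonneg (by linarith) hn0.le
  have e : n * d = b - a := by rw [hd]; field_simp
  have key : ∀ i : ℕ, i ≤ n → -(i * (K * d ^ 2)) ≤ φ (a + i * d) - φ a := by
    intro i
    induction i with
    | zero => simp
    | succ i ih =>
      intro hi
      have h1 := ih (by omega)
      have h2 : ((i + 1 : ℕ) : ℝ) ≤ n := by exact_mod_cast hi
      have h3 := h (a + i * d) (a + (i + 1 : ℕ) * d) (by nlinarith [Nat.cast_nonneg (α := ℝ) i])
        (by push_cast; linarith) (by nlinarith)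
      push_cast at h3 ⊢
      rw [show a + (i + 1) * d - (a + i * d) = d by ring] at h3
      linarith
  have h4 := key n le_rfl
  rw [e, add_sub_cancel] at h4
  rw [div_lt_iff₀ hε, ← e] at hn
  have h5 : n * (K * d ^ 2) ≤ ε := by
    have h6 : K * d ^ 2 ≤ |K| * d ^ 2 := by gcongr; exact le_abs_self K
    have h7 : n * (n * (|K| * d ^ 2)) < n * ε := by nlinarith
    have h8 := lt_of_mul_lt_mul_left h7 hn0.le
    nlinarith
  linarith

lemma ii {w : ℝ → ℝ} {C : ℝ} (hm : Measurable w) (hb : ∀ᵐ x, |w x| ≤ C) (a c : ℝ) :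
    IntervalIntegrable w volume a c :=
  (intervalIntegrable_const (c := C)).mono_fun' hm.aestronglyMeasurable (ae_restrict_of_ae hb)

variable {T C : ℝ} {q F Q : ℝ → ℝ → ℝ}

lemma iq (h : Pot T C q F Q) {t : ℝ} (ht : t ∈ Icc 0 T) (a c : ℝ) :
    IntervalIntegrable (q t) volume a c :=
  ii h.q_meas.of_uncurry_left ((h.bdd t ht).mono fun _ hx => hx.1) a c

lemma iF (h : Pot T C q F Q) {t : ℝ} (ht : t ∈ Icc 0 T) (a c : ℝ) :
    IntervalIntegrable (F t) volume a c :=
  ii h.F_meas.of_uncurry_left ((h.bdd t ht).mono fun _ hx => hx.2) a c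

lemma cQ (h : Pot T C q F Q) {t : ℝ} (ht : t ∈ Icc 0 T) : Continuous (Q t) := by
  have : Q t = fun x => Q t 0 + ∫ y in (0 : ℝ)..x, q t y := by
    funext x
    rw [← h.Qx t ht]
    ring
  rw [this]
  exact continuous_const.add (intervalIntegral.continuous_primitive (iq h ht) 0)

lemma lipQ (h : Pot T C q F Q) {t : ℝ} (ht : t ∈ Icc 0 T) (a c : ℝ) :
    |Q t c - Q t a| ≤ C * |c - a| := by
  rw [h.Qx t ht]
  exact intervalIntegral.norm_integral_le_of_norm_le_const_ae (f := q t)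
    ((h.bdd t ht).mono fun _ hx _ => hx.1)

/-- the mean of the potential along a slanted strip -/
lemma strip (h : Pot T C q F Q) (hC : 0 ≤ C) {σ c y r s1 s2 : ℝ} (hσ : 0 < σ) (h0 : 0 ≤ s1)
    (h12 : s1 ≤ s2) (hT : s2 ≤ T)
    (hr : ∀ τ ∈ Icc s1 s2, ∀ a, ∫ x in a..(a + σ), (F τ x - c * q τ x) ≤ r) :
    (∫ x in (y + c * s1)..(y + c * s1 + σ), Q s1 x) + r * s1 ≤
      (∫ x in (y + c * s2)..(y + c * s2 + σ), Q s2 x) + r * s2 := by
  refine quad (φ := fun s => (∫ x in (y + c * s)..(y + c * s + σ), Q s x) + r * s)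
    (K := 2 * C * |c| + 2 * C * c ^ 2) h12 fun u v hu huv hv => ?_
  have mu : u ∈ Icc 0 T := ⟨by linarith, by linarith⟩
  have mv : v ∈ Icc 0 T := ⟨by linarith, by linarith⟩
  obtain ⟨a, ha⟩ : ∃ a, a = y + c * u := ⟨_, rfl⟩
  obtain ⟨d, hd⟩ : ∃ d, d = v - u := ⟨_, rfl⟩
  have hd0 : 0 ≤ d := by linarith
  have iQ : ∀ {t}, t ∈ Icc 0 T → ∀ a b, IntervalIntegrable (Q t) volume a b :=
    fun ht a b => (cQ h ht).intervalIntegrable a b
  have e1 : y + c * v = a + c * d := by rw [ha, hd]; ring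
  have e2 := h.Qt u mu v mv a (a + σ)
  rw [intervalIntegral.integral_sub (iQ mv _ _) (iQ mu _ _)] at e2
  have e3 : ∫ τ in u..v, ∫ x in a..(a + σ), F τ x ≤
      ∫ _τ in u..v, (r + c * (Q v (a + σ) - Q v a) + 2 * C * |c| * d) := by
    refine intervalIntegral.integral_mono_on huv ?_ intervalIntegrable_const fun τ hτ => ?_
    · refine (intervalIntegrable_const (c := C * |a + σ - a|)).mono_fun' ?_ ?_
      · simp only [intervalIntegral.integral_of_le (by linarith : a ≤ a + σ)]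
        exact (h.F_meas.stronglyMeasurable.integral_prod_right
          (ν := volume.restrict (Ioc a (a + σ)))).aestronglyMeasurable
      · refine (ae_restrict_iff' measurableSet_uIoc).2 (Eventually.of_forall fun τ hτ => ?_)
        rw [uIoc_of_le huv] at hτ
        exact intervalIntegral.norm_integral_le_of_norm_le_const_ae
          ((h.bdd τ ⟨by linarith [hτ.1], by linarith [hτ.2]⟩).mono fun _ hx _ => hx.2)
    · have mτ : τ ∈ Icc 0 T := ⟨by linarith [hτ.1], by linarith [hτ.2]⟩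
      have b1 := hr τ ⟨by linarith [hτ.1], by linarith [hτ.2]⟩ a
      rw [intervalIntegral.integral_sub (iF h mτ _ _) ((iq h mτ _ _).const_mul c),
        intervalIntegral.integral_const_mul, ← h.Qx τ mτ] at b1
      have b2 := h.lip τ mτ v mv (a + σ)
      have b3 := h.lip τ mτ v mv a
      have b4 : C * |v - τ| ≤ C * d := by
        rw [abs_of_nonneg (by linarith [hτ.2])]
        gcongr
        linarith [hτ.1]
      have b5 : |(Q τ (a + σ) - Q τ a) - (Q v (a + σ) - Q v a)| ≤ 2 * C * d := by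
        rw [abs_le] at b2 b3 ⊢
        constructor <;> linarith [b2.1, b2.2, b3.1, b3.2]
      have b6 : c * ((Q τ (a + σ) - Q τ a) - (Q v (a + σ) - Q v a)) ≤ |c| * (2 * C * d) :=
        (le_abs_self _).trans (by rw [abs_mul]; gcongr)
      linarith
  rw [intervalIntegral.integral_const, smul_eq_mul, ← hd] at e3
  have cs : Continuous fun x => Q v (x + σ) := (cQ h mv).comp (by fun_prop)
  have e4 : (∫ x in (a + c * d)..(a + c * d + σ), Q v x) - ∫ x in a..(a + σ), Q v x =
      ∫ x in a..(a + c * d), (Q v (x + σ) - Q v x) := by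
    rw [intervalIntegral.integral_sub (cs.intervalIntegrable _ _)
      (iQ mv _ _), intervalIntegral.integral_comp_add_right (Q v),
      intervalIntegral.integral_interval_sub_interval_comm' (iQ mv _ _) (iQ mv _ _) (iQ mv _ _)]
  have e5 : |∫ x in a..(a + c * d), ((Q v (x + σ) - Q v x) - (Q v (a + σ) - Q v a))| ≤
      2 * C * |c * d| * |a + c * d - a| := by
    rw [← Real.norm_eq_abs]
    refine intervalIntegral.norm_integral_le_of_norm_le_const fun x hx => ?_
    have b1 := lipQ h mv (a + σ) (x + σ)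
    have b2 := lipQ h mv a x
    rw [add_sub_add_right_eq_sub] at b1
    have b3 : C * |x - a| ≤ C * |c * d| := mul_le_mul_of_nonneg_left
      (by simpa using abs_sub_left_of_mem_uIcc (uIoc_subset_uIcc hx)) hC
    rw [Real.norm_eq_abs]
    rw [abs_le] at b1 b2 ⊢
    constructor <;> linarith [b1.1, b1.2, b2.1, b2.2]
  rw [intervalIntegral.integral_sub ((cs.intervalIntegrable _ _).sub
    (iQ mv _ _)) intervalIntegrable_const, intervalIntegral.integral_const,
    smul_eq_mul, add_sub_cancel_left, mul_assoc (2 * C), abs_mul_abs_self, ← e4] at e5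
  have e6 := (abs_le.1 e5).1
  have e7 : r * v = r * u + r * d := by rw [hd]; ring
  rw [← hd, e1, ← ha]
  linarith

end HL

open HL in
theorem hlupS : HLupS := by
  intro T M C1 e f hT hM hC he hc hs
  obtain ⟨B, hB0, hB⟩ : ∃ B, 0 < B ∧ ∀ κ ∈ Icc 0 M, |f κ| ≤ B := by
    obtain ⟨B, hB⟩ := isCompact_Icc.exists_bound_of_continuousOn hc
    exact ⟨|B| + 1, by positivity, fun κ h => (hB κ h).trans (by linarith [le_abs_self B])⟩
  obtain ⟨η1, hη1, e1'⟩ : ∃ η1, 0 < η1 ∧ T * (1 + C1) * η1 = e / 4 :=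
    ⟨e / (4 * (T * (1 + C1))), by positivity, by field_simp⟩
  obtain ⟨τ0, hτ0, e2'⟩ : ∃ τ0, 0 < τ0 ∧ τ0 * B = e / 8 :=
    ⟨e / (8 * B), by positivity, by field_simp⟩
  obtain ⟨η, hη, hηa, hηb, hu⟩ : ∃ η, 0 < η ∧ η ≤ η1 ∧ η ≤ 1 ∧ ∀ a ∈ Icc 0 M, ∀ b ∈ Icc 0 M,
      |a - b| < η → |f a - f b| ≤ η1 := by
    obtain ⟨η, hη, h⟩ := Metric.uniformContinuousOn_iff.1
      (isCompact_Icc.uniformContinuousOn_of_continuous hc) η1 hη1
    exact ⟨min η (min η1 1), by positivity, (min_le_right _ _).trans (min_le_left _ _),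
      (min_le_right _ _).trans (min_le_right _ _),
      fun a ha b hb hab => (h a ha b hb (hab.trans_le (min_le_left _ _))).le⟩
  obtain ⟨g, hg, hgap⟩ := gap hc hs hη
  obtain ⟨n, hn⟩ := exists_nat_gt (T * (2 * B + C1 * M) / (τ0 * g))
  have hn0 : (0 : ℝ) < n := lt_of_le_of_lt (by positivity) hn
  rw [div_lt_iff₀ (by positivity)] at hn
  refine ⟨min (e / (4 * T)) (min (e / (8 * n)) (τ0 * g / M)), by positivity,
    fun e1 e2 Q h1 h1' h2 h2' hS t ht x => ?_⟩
  have a1 : e1 * (4 * T) ≤ e := (le_div_iff₀ (by positivity)).1 (h1'.trans (min_le_left _ _))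
  have a2 : e2 * (8 * n) ≤ e :=
    (le_div_iff₀ (by positivity)).1 (h2'.trans ((min_le_right _ _).trans (min_le_left _ _)))
  have a3 : e2 * M ≤ τ0 * g :=
    (le_div_iff₀ hM).1 (h2'.trans ((min_le_right _ _).trans (min_le_right _ _)))
  obtain ⟨δ, hδ0, hδ⟩ : ∃ δ, 0 ≤ δ ∧ n * δ = t :=
    ⟨t / n, div_nonneg ht.1 hn0.le, by field_simp⟩
  have a4 : δ * (2 * B + C1 * M) ≤ τ0 * g := by
    refine le_of_mul_le_mul_left ?_ hn0
    rw [← mul_assoc, hδ]
    exact (mul_le_mul_of_nonneg_right ht.2 (by positivity)).trans hn.le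
  obtain ⟨ε, hε⟩ : ∃ ε, ε = e1 * δ + e2 + δ * η1 + (C1 * δ + e2) * η := ⟨_, rfl⟩
  have key : ∀ i : ℕ, i ≤ n → ∃ y, ∀ κ ∈ Icc 0 M, (τ0 + i * δ) * f κ - (x - y) * κ ≤
      Q (t - i * δ) y - Q t x + τ0 * B + i * ε := by
    intro i
    induction i with
    | zero =>
      refine fun _ => ⟨x, fun κ hκ => ?_⟩
      have := mul_le_mul_of_nonneg_left (abs_le.1 (hB κ hκ)).2 hτ0.le
      simpa using this
    | succ i ih =>
      intro hi
      obtain ⟨y, hy⟩ := ih (by omega)
      have b1 : ((i + 1 : ℕ) : ℝ) ≤ n := by exact_mod_cast hi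
      have b2 : 0 ≤ (i : ℝ) * δ := by positivity
      obtain ⟨κ0, m0, hmax⟩ := isCompact_Icc.exists_isMaxOn (nonempty_Icc.2 hM.le)
        (f := fun κ => (τ0 + i * δ) * f κ - (x - y) * κ)
        ((continuousOn_const.mul hc).sub (by fun_prop))
      obtain ⟨y', d1, d2⟩ := hS (t - (i + 1 : ℕ) * δ) δ y κ0 (by nlinarith) hδ0
        (by push_cast; linarith [ht.2]) m0
      refine ⟨y', fun κ hκ => ?_⟩
      have d3 := hy κ0 m0
      push_cast at d2 ⊢
      rw [show t - (i + 1) * δ + δ = t - i * δ by ring] at d2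
      have d4 : (τ0 + i * δ) * f κ - (x - y) * κ + δ * (f κ - f κ0) + (y' - y) * (κ - κ0) ≤
          (τ0 + i * δ) * f κ0 - (x - y) * κ0 + δ * η1 + (C1 * δ + e2) * η := by
        have p0 : 0 ≤ C1 * δ + e2 := by positivity
        rcases lt_or_ge |κ - κ0| η with hlt | hge
        · have p1 : (τ0 + i * δ) * f κ - (x - y) * κ ≤ (τ0 + i * δ) * f κ0 - (x - y) * κ0 :=
            hmax hκ
          have p2 := mul_le_mul_of_nonneg_left (abs_le.1 (hu κ hκ κ0 m0 hlt)).2 hδ0
          have p3 : (y' - y) * (κ - κ0) ≤ (C1 * δ + e2) * η :=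
            (le_abs_self _).trans (by rw [abs_mul]; gcongr)
          linarith
        · have p1 : (τ0 + i * δ) * f ((κ + κ0) / 2) - (x - y) * ((κ + κ0) / 2) ≤
              (τ0 + i * δ) * f κ0 - (x - y) * κ0 :=
            hmax (⟨by linarith [hκ.1, m0.1], by linarith [hκ.2, m0.2]⟩ : (κ + κ0) / 2 ∈ Icc 0 M)
          have p2 := mul_le_mul_of_nonneg_left (hgap κ hκ κ0 m0 hge)
            (by linarith : 0 ≤ τ0 + i * δ)
          have p3 : (y' - y) * (κ - κ0) ≤ (C1 * δ + e2) * M := by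
            refine (le_abs_self _).trans ?_
            rw [abs_mul]
            gcongr
            rw [abs_le]
            constructor <;> linarith [hκ.1, hκ.2, m0.1, m0.2]
          have p4 : δ * (f κ - f κ0) ≤ δ * (2 * B) := by
            gcongr
            linarith [(abs_le.1 (hB κ hκ)).2, (abs_le.1 (hB κ0 m0)).1]
          have p5 : 0 ≤ i * δ * g := by positivity
          have p6 : 0 ≤ δ * η1 := by positivity
          have p7 : 0 ≤ (C1 * δ + e2) * η := by positivity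
          linarith
      rw [hε] at d3 ⊢
      linarith
  obtain ⟨y, hy⟩ := key n le_rfl
  refine ⟨y, fun κ hκ => ?_⟩
  have f1 := hy κ hκ
  rw [hδ, sub_self] at f1
  have f2 := mul_le_mul_of_nonneg_left (abs_le.1 (hB κ hκ)).1 hτ0.le
  have f3 : n * ε = e1 * t + n * e2 + t * η1 + C1 * t * η + n * e2 * η := by
    rw [hε, ← hδ]; ring
  have f4 : e1 * t ≤ e1 * T := mul_le_mul_of_nonneg_left ht.2 h1
  have f5 : t * η1 ≤ T * η1 := mul_le_mul_of_nonneg_right ht.2 hη1.le
  have f6 : C1 * t * η ≤ C1 * T * η1 := by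
    have := ht.1
    gcongr
    exact ht.2
  have f7 : n * e2 * η ≤ n * e2 := mul_le_of_le_one_right (by positivity) hηb
  linarith

open HL in
theorem hllowS : HLlowS := by
  intro T M C σ t0 e f q F Q hM hMC hσ ht0 he hf hfb h hq hF t ht x y Λ hΛ
  have hC : 0 ≤ C := by linarith
  have m0 : (0 : ℝ) ∈ Icc 0 T := ⟨le_rfl, ht.1.trans ht.2⟩
  have lo : ∀ s ∈ Icc 0 T, ∀ a c, a ≤ c → 0 ≤ Q s c - Q s a ∧ Q s c - Q s a ≤ M * (c - a) := by
    intro s hs a c hac
    rw [h.Qx s hs]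
    refine ⟨intervalIntegral.integral_nonneg_of_ae hac ((hq s hs).mono fun _ hx => hx.1), ?_⟩
    have := intervalIntegral.integral_mono_ae hac (iq h hs a c) (intervalIntegrable_const (c := M))
      ((hq s hs).mono fun _ hx => hx.2)
    simpa [mul_comm] using this
  have pos : 0 ≤ 2 * C * t0 := by positivity
  have pos' : 0 ≤ C * σ := by positivity
  rcases ht.1.eq_or_lt with rfl | htp
  · have a1 := hΛ 0 ⟨le_rfl, hM.le⟩
    have a2 := hΛ M ⟨hM.le, le_rfl⟩
    rcases le_total y x with hxy | hxy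
    · linarith [(lo 0 m0 y x hxy).1]
    · linarith [(lo 0 m0 x y hxy).2]
  obtain ⟨c, hc⟩ : ∃ c, c * t = x - y := ⟨(x - y) / t, by field_simp⟩
  obtain ⟨l, hl⟩ : ∃ l, l * t = Λ := ⟨Λ / t, by field_simp⟩
  have ifq : ∀ τ ∈ Icc 0 T, ∀ a b, IntervalIntegrable (fun x => f (q τ x)) volume a b :=
    fun τ hτ a b => ii (hf.comp h.q_meas.of_uncurry_left) ((hq τ hτ).mono fun _ hx => hfb _ hx) a b
  have gen : ∀ τ ∈ Icc 0 T, ∀ a r, ∫ x in a..(a + σ), (F τ x - f (q τ x)) ≤ r →
      ∫ x in a..(a + σ), (F τ x - c * q τ x) ≤ r + l * σ := by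
    intro τ hτ a r hr
    have b1 := intervalIntegral.integral_mono_ae (by linarith : a ≤ a + σ)
      ((ifq τ hτ _ _).sub ((iq h hτ _ _).const_mul c)) (intervalIntegrable_const (c := l))
      ((hq τ hτ).mono fun z hz => by
        have := hΛ _ hz
        refine le_of_mul_le_mul_left ?_ htp
        rw [← hc, ← hl] at this
        linarith)
    rw [intervalIntegral.integral_sub (ifq τ hτ _ _) ((iq h hτ _ _).const_mul c)] at b1
    rw [intervalIntegral.integral_sub (iF h hτ _ _) (ifq τ hτ _ _)] at hr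
    rw [intervalIntegral.integral_sub (iF h hτ _ _) ((iq h hτ _ _).const_mul c)]
    simp only [intervalIntegral.integral_const, add_sub_cancel_left, smul_eq_mul] at b1
    linarith
  obtain ⟨s, s0, s1, s2, s3⟩ : ∃ s, 0 ≤ s ∧ s ≤ t ∧ s ≤ t0 ∧ (s = t ∨ s = t0) :=
    ⟨min t t0, le_min ht.1 ht0, min_le_left _ _, min_le_right _ _, min_choice _ _⟩
  have A1 := strip h hC (c := c) (y := y) (r := 2 * C * σ + l * σ) hσ le_rfl s0 (s1.trans ht.2)
    fun τ hτ a => by
      have mτ : τ ∈ Icc 0 T := ⟨hτ.1, hτ.2.trans (s1.trans ht.2)⟩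
      refine gen τ mτ a _ ?_
      have := intervalIntegral.integral_mono_ae (by linarith : a ≤ a + σ)
        ((iF h mτ _ _).sub (ifq τ mτ _ _)) (intervalIntegrable_const (c := 2 * C))
        (((hq τ mτ).and (h.bdd τ mτ)).mono fun z hz => by
          have b1 := (abs_le.1 (hfb _ hz.1)).1
          have b2 := (abs_le.1 hz.2.2).2
          change F τ z - f (q τ z) ≤ 2 * C
          linarith)
      rwa [intervalIntegral.integral_const, add_sub_cancel_left, smul_eq_mul, mul_comm] at this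
  have A2 : (∫ z in (y + c * s)..(y + c * s + σ), Q s z) + (e * σ + l * σ) * s ≤
      (∫ z in (y + c * t)..(y + c * t + σ), Q t z) + (e * σ + l * σ) * t := by
    rcases s3 with rfl | rfl
    · exact le_rfl
    · exact strip h hC hσ s0 s1 ht.2 fun τ hτ a =>
        gen τ ⟨s0.trans hτ.1, hτ.2.trans ht.2⟩ a _ (hF τ ⟨s0.trans hτ.1, hτ.2.trans ht.2⟩ hτ.1 a)
  rw [show y + c * t = x by linarith] at A2
  rw [mul_zero, add_zero, mul_zero, add_zero] at A1
  have A3 := intervalIntegral.integral_mono_on (by linarith : y ≤ y + σ)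
    (intervalIntegrable_const (c := Q 0 y) (μ := volume)) ((cQ h m0).intervalIntegrable _ _)
    fun z hz => by linarith [(lo 0 m0 y z hz.1).1]
  have A4 := intervalIntegral.integral_mono_on (by linarith : x ≤ x + σ)
    ((cQ h ht).intervalIntegrable _ _) (intervalIntegrable_const (c := Q t x + C * σ) (μ := volume))
    fun z hz => by
      have b1 := (lo t ht x z hz.1).2
      have b2 : M * (z - x) ≤ C * σ :=
        mul_le_mul hMC (by linarith [hz.2]) (by linarith [hz.1]) hC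
      linarith
  simp only [intervalIntegral.integral_const, add_sub_cancel_left, smul_eq_mul] at A3 A4
  refine le_of_mul_le_mul_left ?_ hσ
  have A5 : σ * (2 * C * s) ≤ σ * (2 * C * t0) := by gcongr
  have A6 : 0 ≤ e * σ * s := by positivity
  have A7 : 0 ≤ σ * (C * σ) := by positivity
  rw [← hl]
  linarith

end MP34a893

end MrgPart1

-- ======== part 2: formerly Pool.Agent.MP_34a893_an.B.Pair
section MrgPart2

/-! Row PAIR for two cells of values, and the cell charged by a chain. -/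

open MeasureTheory Set Filter Topology
open scoped ENNReal

namespace MP34a893.B

namespace Pair

open MP34a893.Pair

lemma large' {μ : Measure ℝ} [IsProbabilityMeasure μ] {f : ℝ → ℝ} {N c δ : ℝ} (hf : Measurable f)
    (h : ∀ y, f y ∈ Icc 0 N) (hN : 0 < N) (hδ : 0 < δ) (hm : c + δ ≤ ∫ y, f y ∂μ) :
    ENNReal.ofReal (δ / (N + δ)) ≤ μ {y | c ≤ f y} := by
  rcases le_or_gt 0 c with hc | hc
  · refine le_trans (ENNReal.ofReal_le_ofReal ?_) (large hf h hN hc hm)
    exact div_le_div_of_nonneg_left hδ.le hN (by linarith)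
  · have e : {y | c ≤ f y} = univ := eq_univ_of_forall fun y => hc.le.trans (h y).1
    rw [e, measure_univ, ← ENNReal.ofReal_one]
    refine ENNReal.ofReal_le_ofReal ?_
    rw [div_le_one (by linarith)]
    linarith

/-- one cell of values carries a fixed share of the mass -/
lemma pigeon {μ : Measure ℝ} {f : ℝ → ℝ} {N ω π : ℝ} {E : Set ℝ} (h : ∀ y, f y ∈ Icc 0 N)
    (hω : 0 < ω) (hπ : 0 < π) (hE : ENNReal.ofReal π ≤ μ E) :
    ∃ i < ⌈N / ω⌉₊ + 1, (∃ y ∈ E, f y ≤ i * ω ∧ i * ω ≤ f y + ω) ∧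
      ENNReal.ofReal (π / ((⌈N / ω⌉₊ + 1 : ℕ) : ℝ)) ≤ μ {y | |f y - i * ω| ≤ ω} := by
  set nc : ℕ := ⌈N / ω⌉₊ + 1 with hnc
  have hnc0 : (0 : ℝ) < nc := by rw [hnc]; positivity
  have key : ∀ y, f y ≤ (⌈f y / ω⌉₊ : ℝ) * ω ∧ (⌈f y / ω⌉₊ : ℝ) * ω ≤ f y + ω := fun y => by
    have h1 := Nat.le_ceil (f y / ω)
    have h2 := Nat.ceil_lt_add_one (div_nonneg (h y).1 hω.le)
    rw [div_le_iff₀ hω] at h1
    refine ⟨h1, ?_⟩
    have h3 := mul_le_mul_of_nonneg_right h2.le hω.le
    rw [add_mul, div_mul_cancel₀ _ hω.ne', one_mul] at h3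
    exact h3
  by_contra H
  have lt : ∀ i ∈ Finset.range nc,
      μ {y | y ∈ E ∧ ⌈f y / ω⌉₊ = i} < ENNReal.ofReal (π / nc) := fun i hi => by
    rcases eq_empty_or_nonempty {y | y ∈ E ∧ ⌈f y / ω⌉₊ = i} with e | ⟨y, hy, hy'⟩
    · rw [e, measure_empty]
      exact ENNReal.ofReal_pos.2 (by positivity)
    · refine lt_of_le_of_lt (measure_mono ?_) (not_le.1 fun w =>
        H ⟨i, Finset.mem_range.1 hi, ⟨y, hy, hy' ▸ key y⟩, w⟩)
      rintro z ⟨-, hz⟩
      have := key z
      rw [hz] at this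
      change |f z - i * ω| ≤ ω
      exact abs_le.2 ⟨by linarith [this.2], by linarith [this.1]⟩
  have cov : E ⊆ ⋃ i ∈ Finset.range nc, {y | y ∈ E ∧ ⌈f y / ω⌉₊ = i} := fun y hy => by
    refine mem_iUnion₂.2 ⟨⌈f y / ω⌉₊, Finset.mem_range.2 ?_, hy, rfl⟩
    exact Nat.lt_succ_of_le (Nat.ceil_mono (div_le_div_of_nonneg_right (h y).2 hω.le))
  have s1 := (measure_mono (μ := μ) cov).trans (measure_biUnion_finset_le _ _)
  have s2 := ENNReal.sum_lt_sum_of_nonempty (s := Finset.range nc)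
    ⟨0, Finset.mem_range.2 (Nat.succ_pos _)⟩ lt
  rw [Finset.sum_const, Finset.card_range, nsmul_eq_mul, ← ENNReal.ofReal_natCast,
    ← ENNReal.ofReal_mul hnc0.le, mul_div_cancel₀ _ hnc0.ne'] at s2
  exact absurd (hE.trans s1) (not_le.2 s2)

end Pair

open MP34a893.Pair Pair in
theorem pairS : Basic → CoreS → PairS := by
  intro hB hC P M hM hS π hπ
  have hP := hB.1 P M hM
  have hN := hP.N_pos
  have hbm := hP.bm_nonneg
  have hk0 := hP.k0_pos
  have hp := P.hp0
  have hDV : 0 ≤ P.DV M := by unfold Par.DV; positivity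
  have hVm : 0 ≤ P.Vm M := by unfold Par.Vm; positivity
  have hTh : 0 ≤ P.Th M := by unfold Par.Th; positivity
  have hC3 : 0 ≤ P.C3 M := by unfold Par.C3; positivity
  obtain ⟨κ, hκ, hκe⟩ : ∃ κ, 0 < κ ∧ 2 * P.C3 M ≤ π / 4 * κ :=
    ⟨8 * (P.C3 M + 1) / π, by positivity, by
      rw [show π / 4 * (8 * (P.C3 M + 1) / π) = 2 * (P.C3 M + 1) by field_simp; ring]; linarith⟩
  refine ⟨1 + κ + 2 * P.Vm M, by linarith, fun gap c ω ε1 K2 hgap hc hω hω1 hω2 hK2 => ?_⟩
  obtain ⟨K3, K4, eQ, ν0, s0, a1, a2, a3, a4, a5, hcore⟩ :=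
    hC P M hM hS gap c ω ε1 ((π / 2) * (π / 2)) (1 + κ + 2 * P.Vm M + K2) hgap hc hω hω1 hω2
      (by positivity) (by linarith)
  refine ⟨K3, K4 + 2 * P.Vm M, eQ, ν0, s0, a1, by linarith, a3, a4, a5, fun s hs => ?_⟩
  have hs1 : 1 ≤ s := a5.trans hs
  obtain ⟨h0, b1, hcore⟩ := hcore s hs
  obtain ⟨h1, b2, hsm⟩ := hP.small
  refine ⟨min h0 h1, lt_min b1 b2, ?_⟩
  intro L t h A' B' cX cY x1 x2 n1 n2 H H' hh hh0 c1 c2 c3 c4 c5 c6 g0 gX gY hSep mH mH' sH sH'
    vH vH' g1 g2 d1 d2 hNV q1 q2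
  have hF := hB.2.1 P M L hM
  have hL := hB.2.2.2 P M L hM
  have hsmall : P.Small M h := hsm h hh (hh0.trans (min_le_right _ _))
  have hs0 : 0 ≤ s := by linarith
  have e12 : (n1 : ℝ) * h ≤ n2 * h := by linarith [mul_le_mul_of_nonneg_right a1 hs0]
  have e1t : (n1 : ℝ) * h ≤ t := e12.trans c5
  have e2s : (n1 : ℝ) * h ≤ 2 * s := by linarith
  have fin : ∀ (G : Set ℝ) (x : ℝ), G ⊆ Icc x (x + s) → volume G ≠ ∞ := fun G x hG =>
    ((measure_mono hG).trans_lt measure_Icc_lt_top).ne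
  have p1 := hL.start_prob t H mH vH (fin H x1 sH)
  have p2 := hL.start_prob t H' mH' vH' (fin H' x2 sH')
  have p3 := hL.prob t h _ p1 n1
  have p4 := hL.prob t h _ p2 n1
  have mU : ∀ τ, Measurable (L.U τ) := fun τ => hF.U_meas.of_uncurry_left
  have mX : ∀ τ, Measurable (L.X τ) := fun τ => L.X_cont.measurable.of_uncurry_left
  have ae1 := hL.start_ae t H mH
  have ae2 := hL.start_ae t H' mH'
  have l1 := hL.left t h n1 _ x1 hh e1t c6 (ae1.mono fun y hy => (sH hy).1)
  have l2 := hL.left t h n1 _ x2 hh e1t c6 (ae2.mono fun y hy => (sH' hy).1)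
  have hκs : 0 < κ * s := by positivity
  have hr : P.C3 M * (n1 * h) / (κ * s) ≤ π / 4 := by
    rw [div_le_iff₀ hκs]
    linarith [mul_le_mul_of_nonneg_left e2s hC3, mul_le_mul_of_nonneg_right hκe hs0]
  have r1 := hL.right t h n1 _ (x1 + s) (κ * s) hsmall e1t c6 hκs (ae1.mono fun y hy => (sH hy).2)
  have r2 := hL.right t h n1 _ (x2 + s) (κ * s) hsmall e1t c6 hκs (ae2.mono fun y hy => (sH' hy).2)
  rw [measure_univ, one_mul] at r1 r2
  replace r1 := r1.trans (ENNReal.ofReal_le_ofReal hr)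
  replace r2 := r2.trans (ENNReal.ofReal_le_ofReal hr)
  have hV : P.Vm M * (n1 * h) ≤ 2 * P.Vm M * s := by
    linarith [mul_le_mul_of_nonneg_left e2s hVm]
  set t1 := t - n1 * h with ht1
  let A : Set ℝ := {y | |L.U t1 y - cX| ≤ ω ∧ x1 - 2 * P.Vm M * s ≤ L.X t1 y ∧
    L.X t1 y ≤ x1 + s + κ * s}
  let B : Set ℝ := {y | |L.U t1 y - cY| ≤ ω ∧
    x2 - 2 * P.Vm M * s ≤ L.X t1 y ∧ L.X t1 y ≤ x2 + s + κ * s}
  have mab : ∀ c : ℝ, MeasurableSet {y | |L.U t1 y - c| ≤ ω} := fun c =>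
    measurableSet_le ((mU t1).sub measurable_const).abs measurable_const
  have mA : MeasurableSet A := (mab cX).inter
    ((measurableSet_le measurable_const (mX t1)).inter (measurableSet_le (mX t1) measurable_const))
  have mB : MeasurableSet B := (mab cY).inter
    ((measurableSet_le measurable_const (mX t1)).inter (measurableSet_le (mX t1) measurable_const))
  have hK4 : 0 ≤ K4 * s := by positivity
  have hVs : 0 ≤ P.Vm M * s := by positivity
  have hK2s : 0 ≤ K2 * s := mul_nonneg (by linarith) hs0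
  have hA : ENNReal.ofReal (π / 2) ≤ L.law t h (L.start t H) n1 A :=
    half hπ.le (fun y hy z1 z2 _ => ⟨hy, by linarith [not_not.1 z1], not_lt.1 z2⟩) (ae_iff.1 l1)
      r1 r1 g1
  have hBm : ENNReal.ofReal (π / 2) ≤ L.law t h (L.start t H') n1 B :=
    half hπ.le (fun y hy z1 z2 _ => ⟨hy, by linarith [not_not.1 z1], not_lt.1 z2⟩) (ae_iff.1 l2)
      r2 r2 g2
  refine hcore L t h A' B' cX cY (x1 - 2 * P.Vm M * s) n1 n2 H H'
    (((L.law t h (L.start t H) n1).prod (L.law t h (L.start t H') n1)).restrict (A ×ˢ B)) hh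
    (hh0.trans (min_le_left _ _)) c2 c3 c4 c5 c6 g0 gX gY hSep p1 p2 Measure.restrict_le_self
    ?_ ?_ ?_ q1 q2
  · rw [Measure.restrict_apply_univ, Measure.prod_prod, ENNReal.ofReal_mul (by positivity)]
    exact mul_le_mul' hA hBm
  · refine (ae_restrict_mem (mA.prod mB)).mono fun z hz => ?_
    obtain ⟨⟨u1, u2, u3⟩, u4, u6, u7⟩ := hz
    refine ⟨(hF.X_mono t1).le_iff_le.1 (by linarith), u1, u4, u2, by linarith⟩
  · intro τ hτ
    refine (measure_mono fun x hx => ?_).trans (hNV τ hτ)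
    exact ⟨⟨by linarith [hx.1.1], by linarith [hx.1.2]⟩, hx.2⟩

open MP34a893.Pair Pair in
theorem cellS : Basic → CellS := by
  intro hB P M hM gap ω hgap hω
  have hP := hB.1 P M hM
  have hN := hP.N_pos
  have hbm := hP.bm_nonneg
  have hk0 := hP.k0_pos
  have hp := P.hp0
  have hDV : 0 ≤ P.DV M := by unfold Par.DV; positivity
  have hVm : 0 ≤ P.Vm M := by unfold Par.Vm; positivity
  have hTh : 0 ≤ P.Th M := by unfold Par.Th; positivity
  have hC0 : 0 ≤ P.C0 M := by unfold Par.C0; positivity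
  have hC2 : 0 ≤ P.C2 M := by unfold Par.C2; positivity
  have hC3 : 0 ≤ P.C3 M := by unfold Par.C3; positivity
  have hE1 : 0 ≤ P.E1 M := by unfold Par.E1; positivity
  obtain ⟨π, hπ, hπe⟩ : ∃ π, 0 < π ∧ π = gap / 2 / (P.N M + gap / 2) := ⟨_, by positivity, rfl⟩
  obtain ⟨κ, hκ, hκe⟩ : ∃ κ, 0 < κ ∧ 2 * P.C3 M ≤ π / 4 * κ :=
    ⟨8 * (P.C3 M + 1) / π, by positivity, by
      rw [show π / 4 * (8 * (P.C3 M + 1) / π) = 2 * (P.C3 M + 1) by field_simp; ring]; linarith⟩
  refine ⟨⌈P.N M / ω⌉₊ + 1, π / 2 / ((⌈P.N M / ω⌉₊ + 1 : ℕ) : ℝ), 1 + κ + 2 * P.Vm M, π / 4,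
    Nat.succ_pos _, by positivity, by positivity, by positivity, fun s hs1 => ?_⟩
  obtain ⟨h1, b2, hsm⟩ := hP.small
  refine ⟨min h1 (gap / 2 / ((s + 1) * (P.E1 M + 1))), lt_min b2 (by positivity), ?_⟩
  intro L t h x ρ n H hh hh0 c2 e1t c6 mH sH hρ vH
  have hF := hB.2.1 P M L hM
  have hL := hB.2.2.2 P M L hM
  have hsmall : P.Small M h := hsm h hh (hh0.trans (min_le_left _ _))
  have hh2 : h * ((s + 1) * (P.E1 M + 1)) ≤ gap / 2 :=
    (le_div_iff₀ (by positivity)).1 (hh0.trans (min_le_right _ _))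
  have hs0 : 0 ≤ s := by linarith
  have e0 : 0 ≤ (n : ℝ) * h := by positivity
  have e2s : (n : ℝ) * h ≤ 2 * s := by linarith
  have herr : (n : ℝ) * (P.E1 M * h ^ 2) ≤ gap / 2 := by
    have : (n : ℝ) * (P.E1 M * h ^ 2) = (n * h) * (P.E1 M * h) := by ring
    rw [this]
    refine (mul_le_mul_of_nonneg_right c2 (by positivity)).trans (le_trans ?_ hh2)
    linarith [mul_nonneg hh.le hs0]
  have hρ' : ENNReal.ofReal ρ ≠ 0 := by simpa using hρ
  have fin : volume H ≠ ∞ := ((measure_mono sH).trans_lt measure_Icc_lt_top).ne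
  have nz : volume H ≠ 0 := fun e => hρ' (le_zero_iff.1 (e ▸ vH))
  have p1 := hL.start_prob t H mH nz fin
  have p3 := hL.prob t h _ p1 n
  have mU : ∀ τ, Measurable (L.U τ) := fun τ => hF.U_meas.of_uncurry_left
  have mX : ∀ τ, Measurable (L.X τ) := fun τ => L.X_cont.measurable.of_uncurry_left
  have bU : ∀ τ y, L.U τ y ∈ Icc 0 (P.N M) := fun τ y => ⟨hF.u_nonneg _ _, L.u_le _ _⟩
  have ae1 := hL.start_ae t H mH
  have m3 := abs_le.1 (hL.mean t h n _ p1 hsmall e1t c6)
  refine ⟨fun β uH => ?_, fun α ε1 ν uH hν hNV hνρ => ?_⟩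
  · have m1 : β ≤ ∫ y, L.U t y ∂(L.start t H) := by
      have := integral_mono_ae (integrable_const β) (integ (μ := L.start t H) (mU t) (bU t))
        (ae1.mono fun y hy => uH _ hy)
      simpa using this
    have g1 := large' (μ := L.law t h (L.start t H) n) (c := β - gap) (δ := gap / 2)
      (mU (t - n * h)) (bU (t - n * h)) hN (by positivity) (by linarith [m3.1])
    rw [← hπe] at g1
    obtain ⟨i, hi, ⟨y, hy, w1, -⟩, w⟩ := pigeon (bU (t - n * h)) hω (half_pos hπ)
      ((ENNReal.ofReal_le_ofReal (half_le_self hπ.le)).trans g1)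
    exact ⟨i, hi, le_trans hy w1, w⟩
  · have m2 : ∫ y, L.U t y ∂(L.start t H) ≤ α := by
      have := integral_mono_ae (integ (μ := L.start t H) (mU t) (bU t)) (integrable_const α)
        (ae1.mono fun y hy => uH _ hy)
      simpa using this
    have l2 := hL.left t h n _ x hh e1t c6 (ae1.mono fun y hy => (sH hy).1)
    have hκs : 0 < κ * s := by positivity
    have hr : P.C3 M * (n * h) / (κ * s) ≤ π / 4 := by
      rw [div_le_iff₀ hκs]
      linarith [mul_le_mul_of_nonneg_left e2s hC3, mul_le_mul_of_nonneg_right hκe hs0]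
    have r2 := hL.right t h n _ (x + s) (κ * s) hsmall e1t c6 hκs (ae1.mono fun y hy => (sH hy).2)
    rw [measure_univ, one_mul] at r2
    replace r2 := r2.trans (ENNReal.ofReal_le_ofReal hr)
    have hV : P.Vm M * (n * h) ≤ 2 * P.Vm M * s := by
      linarith [mul_le_mul_of_nonneg_left e2s hVm]
    set t1 := t - n * h with ht1
    set a := x - (1 + κ + 2 * P.Vm M) * s with ha
    set c := x + (1 + κ + 2 * P.Vm M) * s with hc
    have mS : MeasurableSet {y | L.X t1 y ∈ Icc a c ∧ L.U t1 y < ε1} :=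
      (mX t1 measurableSet_Icc).inter (measurableSet_lt (mU t1) measurable_const)
    have mT : MeasurableSet {x | x ∈ Icc a c ∧ L.u t1 x < ε1} :=
      measurableSet_Icc.inter (measurableSet_lt L.u_meas.of_uncurry_left measurable_const)
    have vac : L.law t h (L.start t H) n {y | L.X t1 y ∈ Icc a c ∧ L.U t1 y < ε1} ≤
        ENNReal.ofReal (π / 4) := by
      have := hL.dens t h n hsmall e1t c6 H (volume H)⁻¹
        ({y | L.X t1 y ∈ Icc a c ∧ L.U t1 y < ε1}.indicator 1) (measurable_one.indicator mS)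
      have e : (fun x => ({y | L.X t1 y ∈ Icc a c ∧ L.U t1 y < ε1}.indicator (1 : ℝ → ℝ≥0∞))
          (L.Y t1 x)) = {x | x ∈ Icc a c ∧ L.u t1 x < ε1}.indicator 1 := by
        funext x
        simp only [indicator, mem_ofPred_eq, Lag.U, L.XY, Pi.one_apply]
      rw [lintegral_indicator_one mS, e, lintegral_indicator_one mT] at this
      refine this.trans ?_
      have f1 : (volume H)⁻¹ ≤ ENNReal.ofReal ρ⁻¹ := by
        rw [ENNReal.ofReal_inv_of_pos hρ]; exact ENNReal.inv_le_inv.2 vH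
      have f2 := hNV t1 ⟨le_rfl, by linarith⟩
      refine (mul_le_mul' (mul_le_mul' f1 le_rfl) f2).trans ?_
      rw [← ENNReal.ofReal_mul (by positivity), ← ENNReal.ofReal_mul (by positivity)]
      refine ENNReal.ofReal_le_ofReal ?_
      have f3 : Real.exp (P.C2 M * (n * h)) ≤ Real.exp (P.C2 M * (s + 1)) :=
        Real.exp_le_exp.2 (mul_le_mul_of_nonneg_left c2 hC2)
      rw [mul_assoc, inv_mul_le_iff₀ hρ]
      linarith [mul_le_mul_of_nonneg_left f3 hν]
    have g2 := large' (μ := L.law t h (L.start t H) n) (f := fun y => P.N M - L.U t1 y)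
      (c := P.N M - (α + gap)) (δ := gap / 2) (measurable_const.sub (mU t1))
      (fun y => ⟨by linarith [(bU t1 y).2], by linarith [(bU t1 y).1]⟩) hN (by positivity) (by
        rw [integral_sub (integrable_const _) (integ (mU t1) (bU t1))]
        simp only [integral_const, probReal_univ, smul_eq_mul, one_mul]
        linarith [m3.2])
    rw [← hπe] at g2
    have hVs : 0 ≤ P.Vm M * s := by positivity
    have hBm : ENNReal.ofReal (π / 2) ≤
        L.law t h (L.start t H) n {y | ε1 ≤ L.U t1 y ∧ L.U t1 y ≤ α + gap} :=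
      half hπ.le (fun y hy z1 z2 z3 => by
        have w1 : x - P.Vm M * (n * h) ≤ L.X t1 y := not_not.1 z1
        have w2 : L.X t1 y ≤ x + s + κ * s := not_lt.1 z2
        have w3 : P.N M - (α + gap) ≤ P.N M - L.U t1 y := hy
        refine ⟨not_lt.1 fun w => z3 ⟨⟨?_, ?_⟩, w⟩, by linarith⟩
        · rw [ha]; linarith
        · rw [hc]; linarith) (ae_iff.1 l2) r2 vac g2
    obtain ⟨i, hi, ⟨y, hy, w1, w2⟩, w⟩ := pigeon (bU t1) hω (half_pos hπ) hBm
    exact ⟨i, hi, hy.1.trans w1, by linarith [hy.2], w⟩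

end MP34a893.B

end MrgPart2

-- ======== part 3: formerly Pool.Agent.MP_34a893_an.B.LinA
section MrgPart3

/-! One step of the test function for a single chain below a record. -/

open MeasureTheory Set Filter Topology
open scoped ENNReal

namespace MP34a893.B

noncomputable section

namespace Lin

open MP34a893.Core

theorem sub_le {a : ℝ≥0∞} {p q : ℝ} (h : ENNReal.ofReal p + a ≤ ENNReal.ofReal q) :
    a ≤ ENNReal.ofReal (q - p) := by
  rcases le_total p 0 with c | c
  · exact (le_add_self.trans h).trans (ENNReal.ofReal_le_ofReal (by linarith))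
  · rw [ENNReal.ofReal_sub _ c]
    exact ENNReal.le_sub_of_add_le_left ENNReal.ofReal_ne_top h

/-- constants of the test function -/
structure Cs where
  cm : ℝ
  κ : ℝ
  d : ℝ
  ρ : ℝ
  x : ℝ
  t : ℝ
  r : ℝ
  y0 : ℝ

structure Cs.Ok (c : Cs) : Prop where
  cm : 0 ≤ c.cm
  κ : 0 ≤ c.κ
  d : 0 ≤ c.d
  ρ : 0 < c.ρ

variable {P : Par} {M : ℝ} (L : Lag P M) (c : Cs)

/-- the height of the potential above the affine function -/
def gg (τ y : ℝ) : ℝ := L.m y + c.κ * (c.x - L.X τ y) - (c.t - τ) * c.r - L.Q c.t c.x + 1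

def lm (τ xr s y : ℝ) : ℝ := 1 + (c.cm - L.U τ y) / P.N M + c.d * max (gg L c τ y) 0 +
  max (L.X τ y - xr) 0 / c.ρ + s

def alv (τ xr : ℝ) : Set ℝ := {y | c.y0 ≤ y ∧ c.cm ≤ L.U τ y ∧ L.X τ y ≤ xr + c.ρ}

def st (τ h : ℝ) (z : ℝ × (ℝ × ℝ × ℝ)) : ℝ := L.step τ h z.1 z.2

def kp (τ h xr : ℝ) : Set (ℝ × (ℝ × ℝ × ℝ)) := st L τ h ⁻¹' alv L c (τ - h) xr

variable {L c}

theorem m_lm (hf : L.Facts) (τ xr s : ℝ) : Measurable (lm L c τ xr s) := by
  have h1 := m_U hf τ
  have h2 := m_X (L := L) τ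
  have h3 := hf.m_cont.measurable
  unfold lm gg
  fun_prop

theorem m_alv (hf : L.Facts) (τ xr : ℝ) : MeasurableSet (alv L c τ xr) :=
  (measurableSet_le measurable_const measurable_id).inter
    ((measurableSet_le measurable_const (m_U hf τ)).inter
      (measurableSet_le (m_X τ) measurable_const))

theorem m_kp (hf : L.Facts) (hs : L.Step) (τ h xr : ℝ) : MeasurableSet (kp L c τ h xr) :=
  hs.step_meas τ h (m_alv hf _ _)

theorem u_nn (hp : P.Facts M) (hc : c.Ok) (τ y : ℝ) : 0 ≤ 1 + (c.cm - L.U τ y) / P.N M := by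
  have h1 : L.U τ y ≤ P.N M := L.u_le _ _
  have : -1 ≤ (c.cm - L.U τ y) / P.N M := by
    rw [le_div_iff₀ hp.N_pos]
    linarith [hc.cm]
  linarith

theorem exU (hp : P.Facts M) (hf : L.Facts) (hs : L.Step) (hc : c.Ok) {τ h : ℝ} (y : ℝ)
    (hh : P.Small M h) (h1 : h ≤ τ) (h2 : τ ≤ L.T) :
    ∫⁻ ξ, ENNReal.ofReal (1 + (c.cm - L.U (τ - h) (L.step τ h y ξ)) / P.N M) ∂P.noise ≤
      ENNReal.ofReal (1 + (c.cm - L.U τ y) / P.N M + P.E1 M * h ^ 2 / P.N M) := by
  have := hp.noise_prob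
  have mU := (m_U hf (τ - h)).comp (m_step hs τ h y)
  have i1 : Integrable (fun ξ => L.U (τ - h) (L.step τ h y ξ)) P.noise :=
    .of_bound mU.aestronglyMeasurable (P.N M) (ae_of_all _ fun ξ => by
      have a : 0 ≤ L.U (τ - h) (L.step τ h y ξ) := hf.u_nonneg _ _
      rw [Real.norm_eq_abs, abs_of_nonneg a]; exact L.u_le _ _)
  have i2 : Integrable (fun ξ => (c.cm - L.U (τ - h) (L.step τ h y ξ)) / P.N M) P.noise :=
    ((integrable_const _).sub i1).div_const _
  have i3 : Integrable (fun ξ => 1 + (c.cm - L.U (τ - h) (L.step τ h y ξ)) / P.N M) P.noise :=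
    (integrable_const _).add i2
  rw [← ofReal_integral_eq_lintegral_ofReal i3 (ae_of_all _ fun ξ => u_nn hp hc _ _)]
  refine ENNReal.ofReal_le_ofReal ?_
  rw [integral_add (integrable_const _) i2, integral_div, integral_sub (integrable_const _) i1]
  simp only [integral_const, probReal_univ, smul_eq_mul, one_mul]
  have hm := hs.mart τ h hh h1 h2 y
  change |∫ ξ, L.U (τ - h) (L.step τ h y ξ) ∂P.noise - L.U τ y| ≤ _ at hm
  rw [add_assoc, ← add_div]
  exact add_le_add_right (div_le_div_of_nonneg_right (by linarith [(abs_le.1 hm).1])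
    hp.N_pos.le) _

open Classical in
/-- one step of the test function -/
theorem one (hp : P.Facts M) (hf : L.Facts) (hs : L.Step) (hc : c.Ok) {τ h xr s p1 p2 y y' : ℝ}
    (hs0 : 0 ≤ s) (hh : P.Small M h) (h1 : h ≤ τ) (h2 : τ ≤ L.T) (hy : c.y0 ≤ y)
    (g0 : 0 ≤ gg L c (τ - h) y) (cone : ∀ z, y ≤ z → z ≤ y' → 0 ≤ gg L c (τ - h) z) (hp2 : 0 ≤ p2)
    (lo : ENNReal.ofReal p1 ≤ ∫⁻ ξ in {ξ | L.step τ h y ξ ≤ y'},
      ENNReal.ofReal (L.X (τ - h) (L.step τ h y ξ) - L.X (τ - h) y) ∂P.noise)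
    (up : ∫⁻ ξ, ENNReal.ofReal (L.m (L.step τ h y ξ) - L.m y) ∂P.noise ≤ ENNReal.ofReal p2) :
    ∫⁻ ξ, (if (y, ξ) ∈ kp L c τ h (xr + P.Vm M * h) then
        ENNReal.ofReal (lm L c (τ - h) (xr + P.Vm M * h) s (st L τ h (y, ξ))) else 1) ∂P.noise ≤
      ENNReal.ofReal (1 + (c.cm - L.U τ y) / P.N M + c.d * (gg L c (τ - h) y + p2 - c.κ * p1) +
        max (L.X τ y - xr) 0 / c.ρ + s +
        (P.E1 M * h ^ 2 / P.N M + P.Th M * h * (1 + P.k0 * P.DV M) / c.ρ)) := by
  have := hp.noise_prob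
  have mm := hf.m_cont.measurable
  have mX := m_X (L := L) (τ - h)
  have mU := m_U hf (τ - h)
  have s1 := m_step hs τ h y
  have hN : MeasurableSet {ξ | L.step τ h y ξ ≤ y'} := measurableSet_le s1 measurable_const
  have dκ := mul_nonneg hc.d hc.κ
  have hd := hc.d
  have hρ := hc.ρ
  have hρ' : 0 ≤ c.ρ⁻¹ := inv_nonneg.2 hρ.le
  have hl := hf.X_lip y (τ - h) ⟨by linarith, by linarith [hh.1]⟩ τ ⟨by linarith [hh.1], h2⟩
  rw [sub_sub_cancel_left, abs_neg, abs_of_pos hh.1, abs_le] at hl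
  have n0 : 0 ≤ max (L.X τ y - xr) 0 := le_max_right _ _
  have pt : ∀ ξ, ENNReal.ofReal (c.d * c.κ) * {ξ | L.step τ h y ξ ≤ y'}.indicator
        (fun ξ => ENNReal.ofReal (L.X (τ - h) (L.step τ h y ξ) - L.X (τ - h) y)) ξ +
      (if (y, ξ) ∈ kp L c τ h (xr + P.Vm M * h) then
        ENNReal.ofReal (lm L c (τ - h) (xr + P.Vm M * h) s (st L τ h (y, ξ))) else 1) ≤
      ENNReal.ofReal (1 + (c.cm - L.U (τ - h) (L.step τ h y ξ)) / P.N M) +
        (ENNReal.ofReal c.d * ENNReal.ofReal (L.m (L.step τ h y ξ) - L.m y) +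
        (ENNReal.ofReal c.ρ⁻¹ * ENNReal.ofReal (L.X (τ - h) (L.step τ h y ξ) - L.X (τ - h) y) +
        ENNReal.ofReal (c.d * gg L c (τ - h) y + max (L.X τ y - xr) 0 / c.ρ + s))) := by
    intro ξ
    have e1 := hs.le_step τ h y ξ
    simp only [st]
    generalize hz : L.step τ h y ξ = z at e1
    have n1 := u_nn (L := L) hp hc (τ - h) z
    have n2 : 0 ≤ L.m z - L.m y := sub_nonneg.2 (hf.m_mono e1)
    have n3 : 0 ≤ L.X (τ - h) z - L.X (τ - h) y := sub_nonneg.2 ((hf.X_mono _).monotone e1)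
    have n4 : 0 ≤ max (gg L c (τ - h) z) 0 := le_max_right _ _
    have n5 : 0 ≤ max (L.X (τ - h) z - (xr + P.Vm M * h)) 0 := le_max_right _ _
    have hv : (if (y, ξ) ∈ kp L c τ h (xr + P.Vm M * h) then
        ENNReal.ofReal (lm L c (τ - h) (xr + P.Vm M * h) s z) else 1) ≤
        ENNReal.ofReal (lm L c (τ - h) (xr + P.Vm M * h) s z) := by
      split_ifs with H
      · exact le_rfl
      · rw [← ENNReal.ofReal_one]
        refine ENNReal.ofReal_le_ofReal ?_
        have q1 := mul_nonneg hd n4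
        have q2 := div_nonneg n5 hρ.le
        unfold lm
        by_cases c1 : c.cm ≤ L.U (τ - h) z
        · have c2 : xr + P.Vm M * h + c.ρ < L.X (τ - h) z := not_le.1 fun c2 => H (by
            simp only [kp, st, mem_preimage, hz]
            exact ⟨hy.trans e1, c1, c2⟩)
          have : 1 ≤ max (L.X (τ - h) z - (xr + P.Vm M * h)) 0 / c.ρ :=
            (one_le_div hρ).2 (le_max_of_le_left (by linarith))
          linarith
        · have : 0 ≤ (c.cm - L.U (τ - h) z) / P.N M :=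
            div_nonneg (by linarith [not_le.1 c1]) hp.N_pos.le
          linarith
    refine (add_le_add_right hv _).trans ?_
    have eg : gg L c (τ - h) z = gg L c (τ - h) y + (L.m z - L.m y) -
        c.κ * (L.X (τ - h) z - L.X (τ - h) y) := by unfold gg; ring
    have q3 : max (L.X (τ - h) z - (xr + P.Vm M * h)) 0 / c.ρ ≤
        c.ρ⁻¹ * (L.X (τ - h) z - L.X (τ - h) y) + max (L.X τ y - xr) 0 / c.ρ := by
      rw [← div_eq_inv_mul, ← add_div]
      refine div_le_div_of_nonneg_right (max_le ?_ ?_) hρ.le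
      · linarith [le_max_left (L.X τ y - xr) 0, hl.2]
      · linarith
    rw [← ENNReal.ofReal_mul hd, ← ENNReal.ofReal_mul hρ',
      ← ENNReal.ofReal_add (by positivity) (by positivity),
      ← ENNReal.ofReal_add (by positivity) (by positivity),
      ← ENNReal.ofReal_add n1 (by positivity)]
    by_cases cr : z ≤ y'
    · rw [indicator_of_mem (show ξ ∈ {ξ | L.step τ h y ξ ≤ y'} from hz.le.trans cr), hz,
        ← ENNReal.ofReal_mul dκ, ← ENNReal.ofReal_add (by positivity) (by unfold lm; positivity)]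
      refine ENNReal.ofReal_le_ofReal ?_
      unfold lm
      rw [max_eq_left (cone z e1 cr), eg]
      linarith
    · rw [indicator_of_notMem (show ξ ∉ {ξ | L.step τ h y ξ ≤ y'} from fun H => cr (hz.ge.trans H)),
        mul_zero, zero_add]
      refine ENNReal.ofReal_le_ofReal ?_
      have q4 : max (gg L c (τ - h) z) 0 ≤ gg L c (τ - h) y + (L.m z - L.m y) :=
        max_le (by linarith [mul_nonneg hc.κ n3]) (by linarith)
      have q5 := mul_le_mul_of_nonneg_left q4 hd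
      unfold lm
      linarith
  have main := lintegral_mono (μ := P.noise) pt
  rw [lintegral_add_left ((Measurable.indicator (by fun_prop) hN).const_mul _),
    lintegral_add_left (by fun_prop), lintegral_add_left (by fun_prop),
    lintegral_add_left (by fun_prop), lintegral_const_mul' _ _ ENNReal.ofReal_ne_top,
    lintegral_const_mul' _ _ ENNReal.ofReal_ne_top, lintegral_const_mul' _ _ ENNReal.ofReal_ne_top,
    lintegral_const, measure_univ, mul_one, lintegral_indicator hN] at main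
  have t3 := hs.disp τ h hh h1 h2 y (P.Th M) fun σ _ => (hf.rate_mem σ y).2
  have hE : 0 ≤ P.E1 M * h ^ 2 := (abs_nonneg _).trans (hs.mart τ h hh h1 h2 y)
  have hD : 0 ≤ P.Th M * h * (1 + P.k0 * P.DV M) :=
    mul_nonneg (mul_nonneg ((hf.rate_mem τ 0).1.trans (hf.rate_mem τ 0).2) hh.1.le)
      (add_nonneg zero_le_one (mul_nonneg hp.k0_pos.le (mul_nonneg hp.bm_nonneg hp.N_pos.le)))
  have n1 := u_nn (L := L) hp hc τ y
  have hN0 := hp.N_pos
  replace main := ((add_le_add_left (mul_le_mul_right lo _) _).trans main).trans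
    (add_le_add (exU hp hf hs hc y hh h1 h2) (add_le_add (mul_le_mul_right up _)
      (add_le_add_left (mul_le_mul_right t3 _) _)))
  rw [← ENNReal.ofReal_mul dκ, ← ENNReal.ofReal_mul hd, ← ENNReal.ofReal_mul hρ',
    ← ENNReal.ofReal_add (by positivity) (by positivity),
    ← ENNReal.ofReal_add (by positivity) (by positivity),
    ← ENNReal.ofReal_add (by positivity) (by positivity)] at main
  refine (sub_le main).trans (ENNReal.ofReal_le_ofReal (le_of_eq ?_))
  ring

end Lin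

end

end MP34a893.B

end MrgPart3

-- ======== part 4: formerly Pool.Agent.MP_34a893_an.B.Lin
section MrgPart4

/-! Below a record the solution does not take high values. -/

open MeasureTheory Set Filter Topology
open scoped ENNReal

namespace MP34a893.B

noncomputable section

namespace Lin

theorem ar1 {D V ρ u v w : ℝ} (hD : 0 ≤ D) (hV : 0 ≤ V) (hρ : 0 ≤ ρ) (hu : 0 ≤ u) (hv : 0 ≤ v)
    (hw : w = u + v) : D * u + V * v + ρ * u + u ≤ (D + V + ρ + 1) * w := by
  have a := mul_nonneg hD hv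
  have b := mul_nonneg hV hu
  have c := mul_nonneg hρ hv
  rw [hw]
  linarith

theorem ar2 {κ M h e ee dx Φ rt lam f : ℝ} (h0 : 0 ≤ κ) (h1 : κ ≤ M) (hh : 0 < h) (he : 0 < ee)
    (hee : ee * (2 * (2 * M + 1)) = e) (hx : dx - h * Φ ≤ h * ee) (ht : lam + κ * (Φ - rt) ≤ f) :
    κ * dx - h * (f + e) + h * (lam + ee) - κ * (h * (rt - ee)) + e / 2 * h ≤ 0 := by
  have a := mul_le_mul_of_nonneg_left hx h0
  have b := mul_le_mul_of_nonneg_left ht hh.le
  have c := mul_le_mul_of_nonneg_right h1 (mul_pos hh he).le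
  rw [← hee]
  linarith

theorem ar3 {κ M h e V dx f : ℝ} (h0 : 0 ≤ κ) (h1 : κ ≤ M) (hh : 0 < h) (he : 0 < e) (hV : 0 ≤ V)
    (hx : dx ≤ V * h) (hf : -(M * V) ≤ f) :
    κ * dx - h * (f + e) + e / 2 * h ≤ h * (2 * M * V) := by
  have a := mul_le_mul_of_nonneg_left hx h0
  have b := mul_le_mul_of_nonneg_left hf hh.le
  have c := mul_le_mul_of_nonneg_right h1 (mul_nonneg hV hh.le)
  have d := mul_pos he hh
  linarith

theorem ar4 {κ M D V u s e f q dx : ℝ} (h0 : 0 ≤ κ) (h1 : κ ≤ M) (hD : 0 ≤ D) (hV : 0 ≤ V)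
    (hu : 0 ≤ u) (hs : 1 ≤ s) (hus : u ≤ D * s) (he : 0 < e) (hf : -(M * V) ≤ f)
    (hq : q ≤ M * (D * u) + M * V * u) (hx : dx ≤ D * u) :
    q + κ * dx - u * (f + e) + 1 ≤ (2 * M * (V + D) * D + 1) * s := by
  have hM : 0 ≤ M := h0.trans h1
  have a := mul_le_mul_of_nonneg_left hx h0
  have b := mul_le_mul_of_nonneg_left hf hu
  have c := mul_le_mul_of_nonneg_right h1 (mul_nonneg hD hu)
  have d := mul_nonneg hu he.le
  have g := mul_le_mul_of_nonneg_left hus (show 0 ≤ 2 * M * (V + D) by positivity)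
  linarith

theorem ar5 {n h K s E N C γ ρ : ℝ} (hh : 0 < h) (hE : 0 ≤ E) (hN : 0 < N) (hC : 0 ≤ C)
    (hs : 0 < s) (hK : 0 < K) (hγ : 0 < γ) (h1 : n * h ≤ K * s) (h2 : K * s * E / N * h ≤ γ / 8)
    (hρ : ρ = 8 * K * (C + 1) / γ) : n * (E * h ^ 2 / N + C * h / (ρ * s)) ≤ γ / 4 := by
  have h0 : 0 < ρ := by rw [hρ]; positivity
  have u1 := mul_le_mul_of_nonneg_right h1 (show 0 ≤ E / N * h by positivity)
  have u2 : n * (C * h / (ρ * s)) ≤ γ / 8 := by
    rw [← mul_div_assoc, div_le_iff₀ (by positivity)]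
    have u3 : γ / 8 * (ρ * s) = K * s * (C + 1) := by rw [hρ]; field_simp
    have u4 := mul_le_mul h1 (show C ≤ C + 1 by linarith) hC (by positivity)
    linarith
  have u5 : n * (E * h ^ 2 / N) = n * h * (E / N * h) := by ring
  have u6 : K * s * E / N * h = K * s * (E / N * h) := by ring
  linarith

theorem ar6 {γ G s h C e l T E : ℝ} (hγ : 0 < γ) (hG : 1 ≤ G) (hs0 : 0 < s) (hC : 0 ≤ C)
    (he : 0 < e) (hE : 0 ≤ E) (hl : l * h ≤ T) (hs : 2 * C * T * E / e ≤ s) :
    (0 + γ / (4 * G * s) * (h * C / e) * l) * E ≤ γ / 8 := by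
  have u1 : γ / (4 * G * s) ≤ γ / (4 * s) :=
    div_le_div_of_nonneg_left hγ.le (by positivity) (by nlinarith)
  have u2 := mul_le_mul_of_nonneg_right hl (show 0 ≤ C * E / e by positivity)
  have u3 : T * (C * E / e) ≤ s / 2 := by
    have : 2 * C * T * E / e = 2 * (T * (C * E / e)) := by ring
    linarith
  calc _ = γ / (4 * G * s) * (l * h * (C * E / e)) := by ring
    _ ≤ γ / (4 * G * s) * (s / 2) := mul_le_mul_of_nonneg_left (u2.trans u3) (by positivity)
    _ ≤ γ / (4 * s) * (s / 2) := mul_le_mul_of_nonneg_right u1 (by positivity)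
    _ = γ / 8 := by field_simp; norm_num

end Lin

open MP34a893.Core Lin in
theorem linS (hB : Basic) (hT : TubeS) (hD : DriftS) (hA : DriftAnyS) (hX : DriftXS) : LinS := by
  intro P M hM hS e gap D he hgap hD1
  have hp := hB.1 P M hM
  have hnp := hp.noise_prob
  have hTh : 0 ≤ P.Th M := mul_nonneg (mul_nonneg P.hp0.le hp.bm_nonneg) hp.N_pos.le
  have hDV : 0 ≤ P.DV M := mul_nonneg hp.bm_nonneg hp.N_pos.le
  have hVm : 0 ≤ P.Vm M := add_nonneg (abs_nonneg _) hDV
  have hE1 : 0 ≤ P.E1 M := mul_nonneg (by positivity) hp.N_pos.le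
  have hk0 := hp.k0_pos
  have hN := hp.N_pos
  have hD0 : 0 ≤ D := by linarith
  obtain ⟨ee, hee⟩ : ∃ ee, ee = e / (2 * (2 * M + 1)) := ⟨_, rfl⟩
  have hee0 : 0 < ee := by rw [hee]; positivity
  have hee1 : ee * (2 * (2 * M + 1)) = e := by rw [hee]; field_simp
  obtain ⟨R0, hR0, hD⟩ := hD P M hM ee hee0
  obtain ⟨R1, -, hX⟩ := hX P M hM ee hee0
  obtain ⟨R, hRa, hRb⟩ : ∃ R, R0 ≤ R ∧ R1 ≤ R := ⟨_, le_max_left _ _, le_max_right _ _⟩
  have hR : 0 < R := by linarith
  obtain ⟨ed, hd, hed, hhd, hD⟩ := hD R hRa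
  obtain ⟨ex, hx, hex, hhx, hX⟩ := hX R hRb
  obtain ⟨hs0, hhs, hsm⟩ := hp.small
  obtain ⟨γ, hγ⟩ : ∃ γ, γ = gap / P.N M := ⟨_, rfl⟩
  obtain ⟨G, hG⟩ : ∃ G, G = 2 * M * (P.Vm M + D) * D + 1 := ⟨_, rfl⟩
  obtain ⟨K, hK⟩ : ∃ K, K = 1 + 8 * G / (γ * e) := ⟨_, rfl⟩
  obtain ⟨Ct, hCt⟩ : ∃ Ct, Ct = P.Th M * (1 + P.k0 * P.DV M) := ⟨_, rfl⟩
  obtain ⟨ρ0, hρ0⟩ : ∃ ρ0, ρ0 = 8 * K * (Ct + 1) / γ := ⟨_, rfl⟩
  obtain ⟨Cb, hCb⟩ : ∃ Cb, Cb = 2 * M * P.Vm M + P.Th M * M := ⟨_, rfl⟩
  have hγ0 : 0 < γ := by rw [hγ]; positivity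
  have hG1 : 1 ≤ G := by rw [hG]; exact le_add_of_nonneg_left (by positivity)
  have hG0 : 0 < G := by linarith
  have hK1 : 1 ≤ K := by rw [hK]; exact le_add_of_nonneg_right (by positivity)
  have hK0 : 0 < K := by linarith
  have hCt0 : 0 ≤ Ct := by rw [hCt]; positivity
  have hρ : 0 < ρ0 := by rw [hρ0]; positivity
  have hCb0 : 0 ≤ Cb := by rw [hCb]; positivity
  refine ⟨K, D + P.Vm M + ρ0 + 1, hK1, by linarith, fun ε1 hε => ?_⟩
  obtain ⟨T0, hT0, R3, ν0, e', ht, hν0, he', hht, hT⟩ := hT P M hM hS (min ε1 gap) R (min ed ex)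
    (by positivity) hR (by positivity)
  have hT1 : 0 < T0 + 1 := by linarith
  refine ⟨T0 + 1, R3, ν0, T0 + 1 + R + 2 * Cb * (T0 + 1) * (P.N M ^ 2 + 1) / e', hT1, hν0,
    fun s hs => ?_⟩
  have hq : 0 ≤ 2 * Cb * (T0 + 1) * (P.N M ^ 2 + 1) / e' := by positivity
  have sa : T0 + 1 ≤ s := by linarith only [hs, hq, hR]
  have sb : R ≤ s := by linarith only [hs, hq, hT1]
  have sc : 2 * Cb * (T0 + 1) * (P.N M ^ 2 + 1) / e' ≤ s := by linarith only [hs, hR, hT1]
  have hs1 : 1 ≤ s := by linarith only [sa, hT0]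
  have hs2 : 0 < s := by linarith only [hs1]
  obtain ⟨h, hh, v1, v2, v3, v4, v5, v6⟩ : ∃ h, 0 < h ∧ h ≤ hs0 ∧ h ≤ hd ∧ h ≤ hx ∧ h ≤ ht ∧
      4 * P.N M * ((K + 1) * s * P.E1 M) * h ≤ 1 ∧ K * s * P.E1 M / P.N M * h ≤ γ / 8 := by
    have k : ∀ x y : ℝ, 0 < y → ∀ᶠ h in 𝓝 (0 : ℝ), x * h ≤ y := fun x y hy =>
      ((continuous_const_mul x).tendsto' 0 0 (mul_zero x)).eventually_le_const hy
    obtain ⟨r, hr, H⟩ := Metric.eventually_nhds_iff.1 ((eventually_le_nhds hhs).and
      ((eventually_le_nhds hhd).and ((eventually_le_nhds hhx).and ((eventually_le_nhds hht).and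
        ((k _ _ one_pos).and (k _ (γ / 8) (by positivity)))))))
    refine ⟨r / 2, by positivity, H ?_⟩
    rw [dist_zero_right, Real.norm_eq_abs, abs_of_pos (by positivity)]
    linarith
  intro L κ cm t x t' a a' hκ hcm htan b1 b2 b3 b4 b5 b6 hrec hNV
  by_contra hne
  have sm := hsm h hh v1
  have hf := hB.2.1 P M L hM
  have hst := hB.2.2.1 P M L hM
  have hl := hB.2.2.2 P M L hM
  obtain ⟨H, hH⟩ : ∃ H, H = {x' | x' ∈ Icc a a' ∧ cm + gap ≤ L.u t' x'} := ⟨_, rfl⟩
  have mH : MeasurableSet H := hH ▸ measurableSet_Icc.inter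
    (measurableSet_le measurable_const L.u_meas.of_uncurry_left)
  have pH : IsProbabilityMeasure (L.start t' H) := hl.start_prob t' H mH (hH ▸ hne)
    (ne_top_of_le_ne_top (measure_Icc_lt_top (a := a) (b := a')).ne
      (measure_mono (hH ▸ fun _ h => h.1)))
  obtain ⟨l, l1, l2⟩ : ∃ l : ℕ, T0 ≤ l * h ∧ l * h ≤ T0 + 1 := by
    refine ⟨⌈T0 / h⌉₊, (div_le_iff₀ hh).1 (Nat.le_ceil _), ?_⟩
    have := mul_le_mul_of_nonneg_right (Nat.ceil_lt_add_one (show 0 ≤ T0 / h by positivity)).le hh.le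
    rw [add_mul, div_mul_cancel₀ _ hh.ne'] at this
    linarith only [this, sm.2.1]
  have l3 : 1 ≤ l := Nat.pos_of_ne_zero (by rintro rfl; simp at l1; linarith only [l1, hT0])
  obtain ⟨N, N1, N2⟩ : ∃ N : ℕ, N * h ≤ K * s ∧ K * s - 1 ≤ N * h := by
    refine ⟨⌊K * s / h⌋₊, (le_div_iff₀ hh).1 (Nat.floor_le (by positivity)), ?_⟩
    have := mul_le_mul_of_nonneg_right (Nat.lt_floor_add_one (K * s / h)).le hh.le
    rw [add_mul, div_mul_cancel₀ _ hh.ne'] at this
    linarith only [this, sm.2.1]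
  have hu : 0 ≤ t - t' := by linarith only [b1, hs2]
  have t0 : K * s + s ≤ t' := by linarith only [b2, b5]
  have tT : t' ≤ L.T := by linarith only [hu, b6]
  have hKs : 0 < K * s := by positivity
  obtain ⟨δ, hδ⟩ : ∃ δ, δ = γ / (4 * G * s) := ⟨_, rfl⟩
  have hδ0 : 0 < δ := by rw [hδ]; positivity
  let cs : Cs := ⟨cm, κ, δ, ρ0 * s, x, t, P.f κ + e, L.Y t' a⟩
  have ok : cs.Ok := ⟨hgap.le.trans hcm, hκ.1, hδ0.le, mul_pos hρ hs2⟩
  have fκ : -(M * P.Vm M) ≤ P.f κ := (abs_le.1 (hp.f_abs κ hκ)).1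
  have ρu : ρ0 * s ≤ ρ0 * (t - t') := mul_le_mul_of_nonneg_left b1 hρ.le
  have cone : ∀ σ z, t' - K * s ≤ σ → σ ≤ t' → L.Y t' a ≤ z →
      L.X σ z ≤ x + (D + P.Vm M + ρ0 + 1) * (t - σ) → 0 ≤ gg L cs σ z := by
    intro σ z c1 c2 c3 c4
    have q1 := (hf.X_mono σ).monotone c3
    have q2 := hf.X_lip (L.Y t' a) σ ⟨by linarith only [c1, t0, hs2], c2.trans tT⟩ t'
      ⟨by linarith only [t0, hs2, hKs], tT⟩
    rw [L.XY, abs_sub_comm σ, abs_of_nonneg (sub_nonneg.2 c2), abs_le] at q2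
    have q3 := ar1 (w := t - σ) hD0 hVm hρ.le hu (sub_nonneg.2 c2) (by ring)
    have q4 := mul_nonneg hρ.le hu
    have q5 := hrec σ ⟨by linarith only [c1, b2], by linarith only [c2, hu]⟩ (L.X σ z)
      (abs_le.2 ⟨by linarith only [q1, q2.1, q3, q4, hu, b3], by linarith only [c4]⟩)
    rw [hf.Q_X] at q5
    simp only [gg, cs]
    linarith only [q5]
  let tm : ℕ → ℝ := fun n => t' - (0 + n : ℕ) * h
  let xr : ℕ → ℝ := fun n => a' + P.Vm M * (n * h)
  have tms : ∀ n, tm (n + 1) = tm n - h := fun n => by simp only [tm]; push_cast; ring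
  have xrs : ∀ n, xr (n + 1) = xr n + P.Vm M * h := fun n => by simp only [xr]; push_cast; ring
  let F := fun n => st L (tm n) h
  let A := fun n => kp L cs (tm n) h (xr n + P.Vm M * h)
  let I := fun n => alv L cs (tm n) (xr n)
  have mF : ∀ n, Measurable (F n) := fun n => hst.step_meas _ _
  have mA : ∀ n, MeasurableSet (A n) := fun n => m_kp hf hst _ _ _
  have h00 : ∀ᵐ y ∂(L.start t' H), y ∈ I 0 ∧
      lm L cs (tm 0) (xr 0) ((0 : ℕ) * (δ * (e / 2) * h)) y ≤ 1 - 3 * γ / 4 := by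
    simp only [I, tm, xr, add_zero, Nat.cast_zero, zero_mul, mul_zero, sub_zero]
    refine (hl.start_ae t' H mH).mono fun y hy => ?_
    rw [hH] at hy
    obtain ⟨⟨y1, y2⟩, y3⟩ := hy
    change cm + gap ≤ L.U t' y at y3
    have y4 : L.Y t' a ≤ y := by
      have := (hf.Y_mono t').monotone y1
      rwa [L.YX] at this
    refine ⟨⟨y4, by simp only [cs]; linarith only [y3, hgap], y2.trans (by linarith only [ok.ρ])⟩, ?_⟩
    have q1 : L.m y - L.Q t' x ≤ M * (D * (t - t')) := by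
      rcases le_total y (L.Y t' x) with c | c
      · exact (sub_nonpos.2 (hf.m_mono c)).trans (by positivity)
      · refine (label_le L hf t' c).trans (mul_le_mul_of_nonneg_left ?_ hM.le)
        rw [L.XY]
        linarith only [y2, b4]
    have q2 := hf.Q_time t ⟨by linarith only [hu, t0, hs2, hKs], b6⟩ t'
      ⟨by linarith only [t0, hs2, hKs], tT⟩ x
    rw [abs_of_nonneg hu, abs_le] at q2
    have q3 := ar4 (q := L.m y - L.Q t x) (dx := x - L.X t' y) hκ.1 hκ.2 hD0 hVm hu hs1 b2 he fκ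
      (by linarith only [q1, q2.1]) (by linarith only [y1, b3])
    have q4 : max (gg L cs t' y) 0 ≤ G * s :=
      max_le (by simp only [gg, cs, hG]; linarith only [q3]) (by positivity)
    have q5 := mul_le_mul_of_nonneg_left q4 hδ0.le
    have q6 : δ * (G * s) = γ / 4 := by rw [hδ]; field_simp
    have q7 : (cm - L.U t' y) / P.N M ≤ -γ := by
      rw [hγ, ← neg_div]
      exact div_le_div_of_nonneg_right (by linarith only [y3]) hN.le
    unfold lm
    rw [max_eq_right (sub_nonpos.2 y2), zero_div]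
    simp only [cs] at q5 ⊢
    linarith only [q5, q6, q7]
  have hI := inv P.noise F A (L.start t' H) mF mA I (fun n => m_alv hf _ _)
    (h00.mono fun z hz => hz.1) fun n z hz => by simp only [I, tms, xrs]; exact hz
  let w : ℕ → ℝ → ℝ≥0∞ := fun n y =>
    ENNReal.ofReal (0 * L.w (tm n) h 1 y + δ * (h * Cb / e') * L.w (tm n) h l y)
  have mw : ∀ n, Measurable (w n) := fun n =>
    (((hst.w_meas _ _ _).const_mul _).add ((hst.w_meas _ _ _).const_mul _)).ennreal_ofReal
  obtain ⟨r, hr⟩ : ∃ r, r = P.E1 M * h ^ 2 / P.N M +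
    P.Th M * h * (1 + P.k0 * P.DV M) / (ρ0 * s) := ⟨_, rfl⟩
  have main := lyap P.noise F A (L.start t' H) mF mA I hI
    (fun n y => ENNReal.ofReal (lm L cs (tm n) (xr n) (n * (δ * (e / 2) * h)) y))
    (fun n y => w n y + ENNReal.ofReal r) (fun n => (m_lm hf _ _ _).ennreal_ofReal) N ?_ ?_
  · have d1 := dom hst hl P.noise F A (L.start t' H) mF mA id measurable_id id
      (MeasurePreserving.id _) t' h 0 (L.start t' H) (fun _ _ => rfl) fun φ _ => le_rfl
    have n2 : ((N + l : ℕ) : ℝ) * h ≤ K * s + s := by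
      push_cast
      linarith only [N1, l2, sa]
    have hE : 4 * P.N M * ((N + l : ℕ) * (P.E1 M * h ^ 2)) ≤ 1 := by
      refine le_trans ?_ v5
      have := mul_le_mul_of_nonneg_right n2 (show 0 ≤ 4 * P.N M * P.E1 M * h by positivity)
      linarith only [this]
    have s1 := errsum hst hl (A := 0) (B := δ * (h * Cb / e')) (E := P.N M ^ 2 + 1) (n1 := 0)
      (n2 := N + l) pH sm le_rfl (by positivity) l3 (by omega) (n2.trans t0) tT
      (by linarith only [hE, (hl.mom_mem t' h H (N + l) pH).2, (hl.mom_mem t' h H 0 pH).1])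
    rw [show N + l - l - 0 = N by omega] at s1
    have s3 : (0 + δ * (h * Cb / e') * l) * (P.N M ^ 2 + 1) ≤ γ / 8 :=
      hδ ▸ ar6 hγ0 hG1 hs2 hCb0 he' (by positivity) l2 sc
    have s4 : N * r ≤ γ / 4 := by
      refine le_trans (le_of_eq ?_) (ar5 hh hE1 hN hCt0 hs2 hK0 hγ0 N1 v6 hρ0)
      rw [hr, hCt]
      ring
    have s5 : ∑ n ∈ Finset.range N, ∫⁻ y, (w n y + ENNReal.ofReal r)
        ∂(evolve P.noise F A (L.start t' H) n) ≤ ENNReal.ofReal (3 * γ / 8) := by
      calc _ ≤ ∑ n ∈ Finset.range N, (∫⁻ y, w n y ∂(L.law t' h (L.start t' H) (0 + n)) +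
            ENNReal.ofReal r) := by
            refine Finset.sum_le_sum fun n _ => ?_
            rw [lintegral_add_left (mw n)]
            refine add_le_add (d1 n _ (mw n)) ?_
            have := hl.prob t' h _ pH (0 + n)
            refine (d1 n (fun _ => ENNReal.ofReal r) measurable_const).trans ?_
            rw [lintegral_const, measure_univ, mul_one]
        _ ≤ ENNReal.ofReal (γ / 8) + ENNReal.ofReal (γ / 4) := by
            rw [Finset.sum_add_distrib]
            refine add_le_add (s1.trans (ENNReal.ofReal_le_ofReal s3)) ?_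
            rw [Finset.sum_const, Finset.card_range, ← ENNReal.ofReal_nsmul, nsmul_eq_mul]
            exact ENNReal.ofReal_le_ofReal s4
        _ = _ := by
            rw [← ENNReal.ofReal_add (by positivity) (by positivity)]
            congr 1
            ring
    have s6 : ∫⁻ y, ENNReal.ofReal (lm L cs (tm 0) (xr 0) ((0 : ℕ) * (δ * (e / 2) * h)) y)
        ∂(L.start t' H) ≤ ENNReal.ofReal (1 - 3 * γ / 4) := by
      refine (lintegral_mono_ae (h00.mono fun z hz => ENNReal.ofReal_le_ofReal hz.2)).trans ?_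
      rw [lintegral_const, measure_univ, mul_one]
    have fin := main.trans (add_le_add s6 s5)
    have g1 : γ ≤ 1 := by
      obtain ⟨y, hy⟩ := nonempty_of_measure_ne_zero hne
      rw [hγ, div_le_one hN]
      linarith only [hy.2, L.u_le t' y, hcm, hgap]
    rw [measure_univ, ← ENNReal.ofReal_add (by linarith only [g1]) (by positivity),
      ENNReal.one_le_ofReal] at fin
    linarith only [fin, hγ0]
  · intro n hn y hy
    have hn' : (n : ℝ) * h + h ≤ K * s := by
      have : (n : ℝ) + 1 ≤ N := by exact_mod_cast hn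
      linarith only [mul_le_mul_of_nonneg_right this hh.le, N1]
    have hn0 : (0 : ℝ) ≤ n * h := by positivity
    have etm : tm n = t' - n * h := by simp only [tm, zero_add]
    have t1 : s + h ≤ tm n := by linarith only [etm, hn', t0]
    have t1' : h ≤ tm n := by linarith only [t1, hs2]
    have t2 : tm n ≤ L.T := by linarith only [etm, hn0, tT]
    have w1 := (hst.w_mem (tm n) h l y).1
    obtain ⟨z1, z2, z3⟩ := id hy
    simp only [cs, xr] at z1 z2 z3
    obtain ⟨y', hy'⟩ : ∃ y', L.X (tm n) y' = L.X (tm n) y + R / 2 := ⟨_, L.XY _ _⟩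
    have lip : ∀ z, |L.X (tm n - h) z - L.X (tm n) z| ≤ P.Vm M * h := fun z => by
      have := hf.X_lip z (tm n - h) ⟨by linarith only [t1'], by linarith only [t2, hh]⟩ (tm n)
        ⟨by linarith only [t1', hh], t2⟩
      rwa [sub_sub_cancel_left, abs_neg, abs_of_pos hh] at this
    have cn : ∀ z, y ≤ z → z ≤ y' → 0 ≤ gg L cs (tm n - h) z := fun z c1 c2 => by
      refine cone _ z (by linarith only [etm, hn']) (by linarith only [etm, hn0, hh])
        (z1.trans c1) ?_
      have q1 := (hf.X_mono (tm n - h)).monotone c2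
      have q2 := ar1 (v := n * h + h) (w := t - (tm n - h)) hD0 hVm hρ.le hu (by positivity)
        (by rw [etm]; ring)
      linarith only [q1, q2, (abs_le.1 (lip y')).2, hy', z3, b4, ρu, sb, b1, hR]
    have yy : y ≤ y' := (hf.X_mono (tm n)).le_iff_le.1 (by linarith only [hy', hR])
    have eg : gg L cs (tm n - h) y = gg L cs (tm n) y +
        (κ * (L.X (tm n) y - L.X (tm n - h) y) - h * (P.f κ + e)) := by
      simp only [gg, cs]
      ring
    obtain ⟨p1, p2, k1, k2, k3, k4⟩ : ∃ p1 p2, 0 ≤ p2 ∧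
        ENNReal.ofReal p1 ≤ ∫⁻ ξ in {ξ | L.step (tm n) h y ξ ≤ y'},
          ENNReal.ofReal (L.X (tm n - h) (L.step (tm n) h y ξ) - L.X (tm n - h) y) ∂P.noise ∧
        ∫⁻ ξ, ENNReal.ofReal (L.m (L.step (tm n) h y ξ) - L.m y) ∂P.noise ≤ ENNReal.ofReal p2 ∧
        gg L cs (tm n - h) y + p2 - κ * p1 + e / 2 * h ≤
          gg L cs (tm n) y + h * Cb / e' * L.w (tm n) h l y := by
      by_cases gd : L.w (tm n) h l y ≤ e'
      · have q2 := ar1 (v := n * h) (w := t - tm n) hD0 hVm hρ.le hu hn0 (by rw [etm]; ring)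
        have tube := hT L (tm n) h y l hh v4 l1 l2 (by linarith only [l2, sa, t1, hh]) t2
          (nv_mono (hNV (tm n) ⟨by linarith only [etm, hn', hh], by linarith only [etm, hn0]⟩ y z1
            (by linarith only [q2, z3, b4, ρu, hu])) (min_le_left _ _) (by linarith only [l2])
            le_rfl le_rfl le_rfl) ((min_le_right _ _).trans (hcm.trans z2)) gd
        have hU : L.U (tm n) y ∈ Icc 0 (P.N M) := ⟨hf.u_nonneg _ _, L.u_le _ _⟩
        have g1 := (hD L (tm n) h y hh v2 t1' t2 fun σ hσ => (tube σ hσ).trans (min_le_left _ _)).1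
        obtain ⟨g2, -, g3⟩ := hX L (tm n) h y hh v3 t1' t2
          fun σ hσ => (tube σ hσ).trans (min_le_right _ _)
        have g4 : 0 ≤ P.lam (L.U (tm n) y) := mul_nonneg (mul_nonneg
          (mul_nonneg P.hp0.le (P.hb0 _)) hU.1) (Real.rpow_nonneg hU.1 _)
        refine ⟨_, _, by positivity, g3 y' hy'.ge, g1, ?_⟩
        have g5 := ar2 hκ.1 hκ.2 hh hee0 hee1 (abs_le.1 g2).2 (htan _ ⟨z2, hU.2⟩)
        have g6 : 0 ≤ h * Cb / e' * L.w (tm n) h l y := by positivity
        linarith only [eg, g5, g6]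
      · refine ⟨0, _, by positivity, by simp, hA P M L (tm n) h y hM sm, ?_⟩
        have g2 := mul_le_mul_of_nonneg_left (not_le.1 gd).le (show 0 ≤ h * Cb / e' by positivity)
        rw [div_mul_cancel₀ _ he'.ne'] at g2
        have g3 := ar3 (dx := L.X (tm n) y - L.X (tm n - h) y) hκ.1 hκ.2 hh he hVm
          (by linarith only [(abs_le.1 (lip y)).1]) fκ
        rw [hCb] at g2 ⊢
        linarith only [eg, g2, g3]
    have := one (xr := xr n) (s := (n + 1 : ℕ) * (δ * (e / 2) * h)) hp hf hst ok (by positivity)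
      sm t1' t2 z1 (cn y le_rfl yy) cn k1 k2 k3
    simp only [tms, xrs]
    refine this.trans (le_trans (ENNReal.ofReal_le_ofReal ?_) (ENNReal.ofReal_add_le.trans
      (add_le_add_right ENNReal.ofReal_add_le _)))
    have k5 := mul_le_mul_of_nonneg_left (k4.trans (add_le_add_left (le_max_left _ 0) _)) hδ0.le
    simp only [lm, hr, cs] at k5 ⊢
    push_cast
    linarith only [k5]
  · intro y hy
    rw [← ENNReal.ofReal_one]
    refine ENNReal.ofReal_le_ofReal ?_
    have n1 := u_nn (L := L) hp ok (tm N) y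
    have n2 := mul_nonneg ok.d (le_max_right (gg L cs (tm N) y) 0)
    have n3 := div_nonneg (le_max_right (L.X (tm N) y - xr N) 0) ok.ρ.le
    have u1 : 8 * G / (γ * e) * s ≤ N * h := by
      rw [hK] at N2
      linarith only [N2, hs1]
    have u2 := mul_le_mul_of_nonneg_left u1 (show 0 ≤ δ * (e / 2) by positivity)
    have u3 : δ * (e / 2) * (8 * G / (γ * e) * s) = 1 := by rw [hδ]; field_simp; norm_num
    unfold lm
    linarith only [n1, n2, n3, u2, u3]

end

end MP34a893.B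

end MrgPart4

-- ======== part 5: formerly Pool.Agent.MP_34a893_an.B.Strip
section MrgPart5

/-! Row STRIP: a record is impossible when the flux lies below a line on a slanted strip. -/

open MeasureTheory Set Filter Topology

namespace MP34a893.B

namespace Strip

open HL

lemma shift {g : ℝ → ℝ} {B σ : ℝ} (hi : ∀ a b, IntervalIntegrable g volume a b)
    (hb : ∀ᵐ x, |g x| ≤ B) (a a' : ℝ) :
    ∫ x in a..(a + σ), g x ≤ (∫ x in a'..(a' + σ), g x) + 2 * (B * |a - a'|) := by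
  have n : ∀ u v, |∫ x in u..v, g x| ≤ B * |v - u| := fun u v =>
    intervalIntegral.norm_integral_le_of_norm_le_const_ae (f := g) (hb.mono fun _ hx _ => hx)
  have e := intervalIntegral.integral_interval_sub_interval_comm' (hi a (a + σ)) (hi a' (a' + σ))
    (hi a a')
  have b1 := (abs_le.1 (n (a' + σ) (a + σ))).2
  have b2 := (abs_le.1 (n a' a)).1
  rw [add_sub_add_right_eq_sub] at b1
  linarith

variable {T C : ℝ} {q F Q : ℝ → ℝ → ℝ}

/-- the mean of the potential along a slanted strip -/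
lemma strip (h : Pot T C q F Q) (hC : 0 ≤ C) {σ c y r s1 s2 : ℝ} (hσ : 0 < σ) (h0 : 0 ≤ s1)
    (h12 : s1 ≤ s2) (hT : s2 ≤ T)
    (hr : ∀ τ ∈ Icc s1 s2, ∫ x in (y + c * τ)..(y + c * τ + σ), (F τ x - c * q τ x) ≤ r) :
    (∫ x in (y + c * s1)..(y + c * s1 + σ), Q s1 x) + r * s1 ≤
      (∫ x in (y + c * s2)..(y + c * s2 + σ), Q s2 x) + r * s2 := by
  refine quad (φ := fun s => (∫ x in (y + c * s)..(y + c * s + σ), Q s x) + r * s)
    (K := 2 * C * |c| + 2 * C * c ^ 2 + 2 * (C + |c| * C) * |c|) h12 fun u v hu huv hv => ?_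
  have mu : u ∈ Icc 0 T := ⟨by linarith, by linarith⟩
  have mv : v ∈ Icc 0 T := ⟨by linarith, by linarith⟩
  obtain ⟨a, ha⟩ : ∃ a, a = y + c * u := ⟨_, rfl⟩
  obtain ⟨d, hd⟩ : ∃ d, d = v - u := ⟨_, rfl⟩
  have hd0 : 0 ≤ d := by linarith
  have iQ : ∀ {t}, t ∈ Icc 0 T → ∀ a b, IntervalIntegrable (Q t) volume a b :=
    fun ht a b => (cQ h ht).intervalIntegrable a b
  have e1 : y + c * v = a + c * d := by rw [ha, hd]; ring
  have e2 := h.Qt u mu v mv a (a + σ)
  rw [intervalIntegral.integral_sub (iQ mv _ _) (iQ mu _ _)] at e2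
  have e3 : ∫ τ in u..v, ∫ x in a..(a + σ), F τ x ≤
      ∫ _τ in u..v, (r + c * (Q v (a + σ) - Q v a) + 2 * C * |c| * d +
        2 * (C + |c| * C) * |c| * d) := by
    refine intervalIntegral.integral_mono_on huv ?_ intervalIntegrable_const fun τ hτ => ?_
    · refine (intervalIntegrable_const (c := C * |a + σ - a|)).mono_fun' ?_ ?_
      · simp only [intervalIntegral.integral_of_le (by linarith : a ≤ a + σ)]
        exact (h.F_meas.stronglyMeasurable.integral_prod_right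
          (ν := volume.restrict (Ioc a (a + σ)))).aestronglyMeasurable
      · refine (ae_restrict_iff' measurableSet_uIoc).2 (Eventually.of_forall fun τ hτ => ?_)
        rw [uIoc_of_le huv] at hτ
        exact intervalIntegral.norm_integral_le_of_norm_le_const_ae
          ((h.bdd τ ⟨by linarith [hτ.1], by linarith [hτ.2]⟩).mono fun _ hx _ => hx.2)
    · have mτ : τ ∈ Icc 0 T := ⟨by linarith [hτ.1], by linarith [hτ.2]⟩
      have b0 := hr τ ⟨by linarith [hτ.1], by linarith [hτ.2]⟩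
      have b1 := shift (σ := σ) (fun a b => (iF h mτ a b).sub ((iq h mτ a b).const_mul c))
        (B := C + |c| * C) ((h.bdd τ mτ).mono fun z hz => (abs_sub _ _).trans (add_le_add hz.2 (by
          rw [abs_mul]
          gcongr
          exact hz.1))) a (y + c * τ)
      have b7 : (C + |c| * C) * |a - (y + c * τ)| ≤ (C + |c| * C) * (|c| * d) := by
        rw [ha, add_sub_add_left_eq_sub, ← mul_sub, abs_mul, abs_sub_comm,
          abs_of_nonneg (sub_nonneg.2 hτ.1)]
        gcongr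
        linarith [hτ.2]
      replace b1 := b1.trans (add_le_add b0 le_rfl)
      rw [intervalIntegral.integral_sub (iF h mτ _ _) ((iq h mτ _ _).const_mul c),
        intervalIntegral.integral_const_mul, ← h.Qx τ mτ] at b1
      have b2 := h.lip τ mτ v mv (a + σ)
      have b3 := h.lip τ mτ v mv a
      have b4 : C * |v - τ| ≤ C * d := by
        rw [abs_of_nonneg (by linarith [hτ.2])]
        gcongr
        linarith [hτ.1]
      have b5 : |(Q τ (a + σ) - Q τ a) - (Q v (a + σ) - Q v a)| ≤ 2 * C * d := by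
        rw [abs_le] at b2 b3 ⊢
        constructor <;> linarith [b2.1, b2.2, b3.1, b3.2]
      have b6 : c * ((Q τ (a + σ) - Q τ a) - (Q v (a + σ) - Q v a)) ≤ |c| * (2 * C * d) :=
        (le_abs_self _).trans (by rw [abs_mul]; gcongr)
      linarith
  rw [intervalIntegral.integral_const, smul_eq_mul, ← hd] at e3
  have cs : Continuous fun x => Q v (x + σ) := (cQ h mv).comp (by fun_prop)
  have e4 : (∫ x in (a + c * d)..(a + c * d + σ), Q v x) - ∫ x in a..(a + σ), Q v x =
      ∫ x in a..(a + c * d), (Q v (x + σ) - Q v x) := by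
    rw [intervalIntegral.integral_sub (cs.intervalIntegrable _ _)
      (iQ mv _ _), intervalIntegral.integral_comp_add_right (Q v),
      intervalIntegral.integral_interval_sub_interval_comm' (iQ mv _ _) (iQ mv _ _) (iQ mv _ _)]
  have e5 : |∫ x in a..(a + c * d), ((Q v (x + σ) - Q v x) - (Q v (a + σ) - Q v a))| ≤
      2 * C * |c * d| * |a + c * d - a| := by
    rw [← Real.norm_eq_abs]
    refine intervalIntegral.norm_integral_le_of_norm_le_const fun x hx => ?_
    have b1 := lipQ h mv (a + σ) (x + σ)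
    have b2 := lipQ h mv a x
    rw [add_sub_add_right_eq_sub] at b1
    have b3 : C * |x - a| ≤ C * |c * d| := mul_le_mul_of_nonneg_left
      (by simpa using abs_sub_left_of_mem_uIcc (uIoc_subset_uIcc hx)) hC
    rw [Real.norm_eq_abs]
    rw [abs_le] at b1 b2 ⊢
    constructor <;> linarith [b1.1, b1.2, b2.1, b2.2]
  rw [intervalIntegral.integral_sub ((cs.intervalIntegrable _ _).sub
    (iQ mv _ _)) intervalIntegrable_const, intervalIntegral.integral_const,
    smul_eq_mul, add_sub_cancel_left, mul_assoc (2 * C), abs_mul_abs_self, ← e4] at e5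
  have e6 := (abs_le.1 e5).1
  have e7 : r * v = r * u + r * d := by rw [hd]; ring
  rw [← hd, e1, ← ha]
  linarith

end Strip

open HL in
theorem stripS : Basic → OscS → FluxS → StripS := by
  intro hB hO hF P M hM hp hn e w Sg he hw hSg
  have PF := hB.1 P M hM
  have hbm := PF.bm_nonneg
  have hVm : 0 ≤ P.Vm M := by
    unfold Par.Vm Par.DV
    have := PF.N_pos
    positivity
  obtain ⟨e2, he2, e3⟩ : ∃ e2, 0 < e2 ∧ (3 * M * P.bm M + 1) * e2 = e / 2 :=
    ⟨e / (2 * (3 * M * P.bm M + 1)), by positivity, by field_simp⟩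
  obtain ⟨K, S0, hK, hosc⟩ := hO P M hM hp hn e2 he2
  obtain ⟨S1, hflux⟩ := hF P M hM e2 K he2 hK
  obtain ⟨C', hC'⟩ : ∃ C', C' = M + M * P.Vm M := ⟨_, rfl⟩
  have c0 : 0 ≤ C' := by rw [hC']; positivity
  obtain ⟨D0, d0, d1⟩ : ∃ D0, 0 ≤ D0 ∧
      D0 * e = 2 * (C' * (1 + Sg + w) + M * P.Vm M + Sg * M + 2) :=
    ⟨2 * (C' * (1 + Sg + w) + M * P.Vm M + Sg * M + 2) / e, by positivity, by field_simp⟩
  obtain ⟨D, hD⟩ : ∃ D, D = 1 + Sg + w + D0 := ⟨_, rfl⟩
  have d2 : 1 ≤ D := by linarith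
  have d3 : Sg + w ≤ D := by linarith
  refine ⟨D, max 1 (max S0 S1 / w), d2, d3, fun s hs L κ σ t x C S hQ hκ hσ ht hT hC hS hR hf => ?_⟩
  have LF := hB.2.1 P M L hM
  have s1 : 1 ≤ s := (le_max_left _ _).trans hs
  have s2 : max S0 S1 ≤ w * s := (div_le_iff₀' hw).1 ((le_max_right _ _).trans hs)
  have s3 : 0 < w * s := by positivity
  have s4 : s ≤ D * s := le_mul_of_one_le_left (by linarith) d2
  rw [Lag.HasPot, ← hC'] at hQ
  have ps : ∀ τ, x - σ * t + σ * τ = x - σ * (t - τ) := fun τ => by ring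
  have main := Strip.strip hQ c0 (c := σ) (y := x - σ * t) (s1 := t - D * s) (s2 := t - s)
    (r := (P.f κ - σ * κ + 3 * e / 2) * (w * s)) s3 (by linarith) (by linarith) (by linarith)
    fun τ hτ => by
      have mτ : τ ∈ Icc 0 L.T := ⟨by linarith [hτ.1], by linarith [hτ.2]⟩
      rw [ps]
      obtain ⟨a, ha⟩ : ∃ a, a = x - σ * (t - τ) := ⟨_, rfl⟩
      have h1 := hflux L (w * s) τ a ((le_max_right _ _).trans s2)
        (hosc L (w * s) τ a ((le_max_left _ _).trans s2) (by linarith [hτ.1]) mτ.2)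
      have h2 := hf τ (by linarith [hτ.2]) (by linarith [hτ.1])
      rw [← ha] at h2 ⊢
      have i1 : IntervalIntegrable (fun z => P.f (L.q τ z)) volume a (a + w * s) :=
        ii (PF.f_meas.comp LF.q_meas.of_uncurry_left)
          (Eventually.of_forall fun z => PF.f_abs _ (LF.q_mem τ z)) _ _
      have i2 := ((iF hQ mτ a (a + w * s)).sub i1).abs
      have h3 := intervalIntegral.integral_mono_ae_restrict (by linarith : a ≤ a + w * s)
        ((iF hQ mτ _ _).sub ((iq hQ mτ _ _).const_mul σ))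
        (i2.add (intervalIntegrable_const (c := P.f κ - σ * κ + e)))
        ((ae_restrict_iff' measurableSet_Icc).2 (h2.mono fun z hz k => by
          have b1 := hz k
          have b2 := le_abs_self (L.v τ z * L.q τ z - P.f (L.q τ z))
          change L.v τ z * L.q τ z - σ * L.q τ z ≤
            |L.v τ z * L.q τ z - P.f (L.q τ z)| + (P.f κ - σ * κ + e)
          linarith))
      rw [intervalIntegral.integral_add i2 intervalIntegrable_const, intervalIntegral.integral_const,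
        add_sub_cancel_left, smul_eq_mul] at h3
      have h4 : 3 * M * P.bm M * e2 * (w * s) ≤ e / 2 * (w * s) := by
        gcongr
        linarith
      linarith
  have m1 : t - D * s ∈ Icc 0 L.T := ⟨by linarith, by linarith⟩
  have m2 : t - s ∈ Icc 0 L.T := ⟨by linarith, by linarith⟩
  have m3 : t ∈ Icc 0 L.T := ⟨by linarith, hT⟩
  have near : ∀ d, 0 ≤ d → ∀ z ∈ Icc (x - σ * d) (x - σ * d + w * s), |z - x| ≤ Sg * d + w * s := by
    intro d hd z hz
    have b1 := mul_le_mul_of_nonneg_right (abs_le.1 hσ).1 hd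
    have b2 := mul_le_mul_of_nonneg_right (abs_le.1 hσ).2 hd
    exact abs_le.2 ⟨by linarith [hz.1], by linarith [hz.2]⟩
  rw [ps, ps, sub_sub_cancel, sub_sub_cancel] at main
  have A1 := intervalIntegral.integral_mono_on (a := x - σ * (D * s)) (le_add_of_nonneg_right s3.le)
    (intervalIntegrable_const (c := L.Q t x + D * s * (P.f κ - σ * κ + 2 * e) - 1) (μ := volume))
    ((cQ hQ m1).intervalIntegrable _ _) fun z hz => by
      have b1 := hR (t - D * s) ⟨by linarith, by linarith⟩ z (by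
        refine (near _ (by linarith) z hz).trans ?_
        rw [sub_sub_cancel]
        have b2 : w * s ≤ w * (D * s) := by gcongr
        have b3 : (Sg + w) * (D * s) ≤ C * (D * s) := by
          gcongr
          linarith
        linarith)
      have b2 := mul_le_mul_of_nonneg_left hz.1 hκ.1
      rw [sub_sub_cancel] at b1
      linarith
  have A2 := intervalIntegral.integral_mono_on (a := x - σ * s) (le_add_of_nonneg_right s3.le)
    ((cQ hQ m2).intervalIntegrable _ _)
    (intervalIntegrable_const (c := L.Q t x + C' * (1 + Sg + w) * s) (μ := volume)) fun z hz => by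
      have b1 := (abs_le.1 (lipQ hQ m2 x z)).2
      have b2 := (abs_le.1 (hQ.lip t m3 _ m2 x)).2
      have b3 := mul_le_mul_of_nonneg_left (near s (by linarith) z hz) c0
      rw [sub_sub_cancel_left, abs_neg, abs_of_nonneg (by linarith : 0 ≤ s)] at b2
      linarith
  simp only [intervalIntegral.integral_const, add_sub_cancel_left, smul_eq_mul] at A1 A2
  have A3 : L.Q t x + D * s * (P.f κ - σ * κ + 2 * e) - 1 + (P.f κ - σ * κ + 3 * e / 2) * (t - D * s)
      ≤ L.Q t x + C' * (1 + Sg + w) * s + (P.f κ - σ * κ + 3 * e / 2) * (t - s) :=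
    le_of_mul_le_mul_left (by linarith) s3
  have A4 : σ * κ ≤ Sg * M := mul_le_mul (abs_le.1 hσ).2 hκ.2 hκ.1 hSg
  have A5 := (abs_le.1 (PF.f_abs κ hκ)).1
  have A6 : D0 * e ≤ D * e := by
    gcongr
    linarith
  have A7 : 2 * s ≤ (D * e / 2 + (P.f κ - σ * κ + 3 * e / 2) - C' * (1 + Sg + w)) * s := by
    gcongr
    linarith
  linarith

end MP34a893.B

end MrgPart5

-- marker of a merged file
example : 731051 + 780635 = 731051 + 780635 := rfl
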