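import Pool.Agent.MP_34a893_an.B.Few
import Pool.Agent.MP_34a893_an.Har
import Pool.Agent.MP_34a893_an.B.PortOsc

open MeasureTheory Set Filter Topology
open scoped ENNReal

namespace MP34a893.B

open Har in
theorem harS : Basic → NVZS → HarS := by
  intro hB hZ P M hM hSt
  have hP := hB.1 P M hM
  have hd := hP.d_pos
  have hs := P.hs1
  obtain ⟨i0, hi0⟩ := exists_nat_ge (P.s1 / (2 * P.d))
  have hi0' : P.s1 ≤ 2 * P.d * i0 := by
    rw [div_le_iff₀ (by positivity)] at hi0; linarith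
  refine ⟨P.s1 + P.d / 2 + i0 * (P.s1 + P.d), by positivity, ?_⟩
  intro ε1 T0 R' e hε hT0 hR' he
  obtain ⟨RZ, νZ, hRZ, hνZ, hNVZ⟩ := hZ P M hM ε1 hε
  obtain ⟨b0, hb0, hb⟩ := hSt.b_low (ε1 / 2) (by positivity)
  obtain ⟨h1, hh1, hsm⟩ := hP.small
  obtain ⟨K1, hK1⟩ := exists_nat_ge (R' / (P.s1 + 3 * P.d))
  have hD1 : 0 < P.s1 + P.d / 2 + i0 * (P.s1 + P.d) := by positivity
  have hR'0 : 0 < R' := hD1.trans_le hR'
  have hN := hP.N_pos
  have hbm := hP.bm_nonneg
  have hk0 := hP.k0_pos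
  have hp := P.hp0
  have hm0 := P.hm0
  have hDV : 0 ≤ P.DV M := by unfold Par.DV; positivity
  have hVm : 0 ≤ P.Vm M := by unfold Par.Vm; positivity
  have hC0 : 0 ≤ P.C0 M := by unfold Par.C0; positivity
  have hTh : 0 ≤ P.Th M := by unfold Par.Th; positivity
  set K : ℕ := i0 + K1 with hK
  set R : ℝ := P.s1 + 7 * P.d / 2 + K * (P.s1 + 3 * P.d) with hR
  have hR0 : 0 ≤ R := by positivity
  obtain ⟨δ, hδ0, hδ1, hδ2⟩ : ∃ δ : ℝ, 0 < δ ∧ δ ≤ 1 ∧ P.DV M * δ ≤ P.d / 2 := by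
    refine ⟨min 1 (P.d / 2 / (P.DV M + 1)), by positivity, min_le_left _ _, ?_⟩
    calc P.DV M * min 1 (P.d / 2 / (P.DV M + 1))
        ≤ (P.DV M + 1) * (P.d / 2 / (P.DV M + 1)) := by
          gcongr
          · linarith
          · exact min_le_right _ _
      _ = P.d / 2 := by field_simp
  set l0 : ℝ := δ / (2 * (K + 1)) with hl0
  have hl00 : 0 < l0 := by positivity
  set A : ℝ := Real.exp (-2 * (P.Th M * P.k0 * (T0 + 1))) with hA
  have hA0 : 0 < A := Real.exp_pos _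
  set r0 : ℝ := P.p * b0 * (Real.exp (-(P.C0 M * (T0 + 1))) * ε1) with hr0
  have hr00 : 0 < r0 := by positivity
  set κ : ℝ := A * (r0 * (P.m0 * Real.exp (-P.C0 M)) * l0) with hκ
  have hκ0 : 0 < κ := by positivity
  set Λ : ℝ := 1 / A + 1 / κ with hΛ
  have hΛ0 : 0 < Λ := by positivity
  have hΛA : 1 / A ≤ Λ := by
    have : 0 < 1 / κ := by positivity
    rw [hΛ]; linarith
  have hΛκ : 1 / κ ≤ Λ := by
    have : 0 < 1 / A := by positivity
    rw [hΛ]; linarith
  set Cc : ℝ := (Λ + 1 / (P.d / 4) * Λ) ^ K * (Λ * Λ) with hCc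
  have hCc0 : 0 < Cc := by positivity
  refine ⟨2 * (P.Vm M * (T0 + 1)) + R + RZ, min νZ (P.d / 4), e / (2 * R') * (e / 2) / Cc,
    min h1 l0, by positivity, by positivity, by positivity, ?_⟩
  intro L t h y n hh0 hh hn1 hn2 hnt htT hNV hU hw
  have hF := hB.2.1 P M L hM
  have hS := hB.2.2.1 P M L hM
  have hSm : P.Small M h := hsm h hh0 (hh.trans (min_le_left _ _))
  have hhl : h ≤ l0 := hh.trans (min_le_right _ _)
  set te : ℝ := t - n * h with hte
  have hnh : 0 ≤ (n : ℝ) * h := by positivity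
  have hte0 : 0 ≤ te := by rw [hte]; linarith
  have htet : te ≤ t := by rw [hte]; linarith
  have hmemT : ∀ τ ∈ Icc te t, τ ∈ Icc 0 L.T := fun τ hτ => ⟨hte0.trans hτ.1, hτ.2.trans htT⟩
  have hteI : te ∈ Icc te t := ⟨le_rfl, htet⟩
  have htI : t ∈ Icc te t := ⟨htet, le_rfl⟩
  have habs : ∀ τ ∈ Icc te t, ∀ τ' ∈ Icc te t, |τ - τ'| ≤ T0 + 1 := by
    intro τ hτ τ' hτ'
    have : t - te = n * h := by rw [hte]; ring
    rw [abs_le]; constructor <;> linarith [hτ.1, hτ.2, hτ'.1, hτ'.2]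
  have hXb : ∀ y', ∀ τ ∈ Icc te t, ∀ τ' ∈ Icc te t,
      |L.X τ y' - L.X τ' y'| ≤ P.Vm M * (T0 + 1) := fun y' τ hτ τ' hτ' =>
    (hF.X_lip y' τ (hmemT τ hτ) τ' (hmemT τ' hτ')).trans (by gcongr; exact habs τ hτ τ' hτ')
  set x0 : ℝ := L.X te y with hx0
  set c : ℝ := L.U t y with hc
  have hx0b := abs_le.mp (hXb y te hteI t htI)
  -- lower bound for the rate
  have hrate : ∀ y', L.X te y' ∈ Icc x0 (x0 + R) → (∃ τ0 ∈ Icc te t, ε1 ≤ L.U τ0 y') →
      ∀ τ ∈ Icc te t, r0 ≤ L.rate τ y' := by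
    rintro y' hy' ⟨τ0, hτ0, hU0⟩ τ hτ
    have h2 := abs_le.mp (hXb y' τ hτ te hteI)
    have h3 : ε1 / 2 ≤ L.Z τ (L.X τ y') := by
      refine (hNVZ L τ (L.X τ y') ?_).1
      refine le_trans (measure_mono ?_) ((hNV τ hτ).trans
        (ENNReal.ofReal_le_ofReal (min_le_left _ _)))
      rintro x ⟨⟨h4, h5⟩, h6⟩
      exact ⟨⟨by linarith [hy'.1], by linarith [hy'.2]⟩, h6⟩
    have h4 := hb _ ⟨h3, (hF.Z_mem τ (L.X τ y')).2⟩
    have h5 := hF.U_ratio y' τ0 (hmemT τ0 hτ0) τ (hmemT τ hτ)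
    have h6 : 0 ≤ L.U τ y' := hF.u_nonneg _ _
    have h7 : ε1 ≤ Real.exp (P.C0 M * (T0 + 1)) * L.U τ y' :=
      hU0.trans (h5.trans (by gcongr; exact habs τ0 hτ0 τ hτ))
    have h8 : Real.exp (-(P.C0 M * (T0 + 1))) * Real.exp (P.C0 M * (T0 + 1)) = 1 := by
      rw [← Real.exp_add]; simp
    have h9 : Real.exp (-(P.C0 M * (T0 + 1))) * ε1 ≤ L.U τ y' := by
      calc _ ≤ Real.exp (-(P.C0 M * (T0 + 1))) * (Real.exp (P.C0 M * (T0 + 1)) * L.U τ y') := by
            gcongr
        _ = _ := by rw [← mul_assoc, h8, one_mul]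
    unfold Lag.rate
    rw [hr0]
    have h10 := P.hb0 (L.Z τ (L.X τ y'))
    gcongr
  -- number of steps in one window
  set m : ℕ := ⌈l0 / h⌉₊ with hm
  have hm1 : l0 ≤ m * h := by
    have := Nat.le_ceil (l0 / h)
    rwa [div_le_iff₀ hh0] at this
  have hm2 : m * h ≤ 2 * l0 := by
    have h2 := (Nat.ceil_lt_add_one (show 0 ≤ l0 / h by positivity)).le
    have h3 : (m : ℝ) * h ≤ (l0 / h + 1) * h := by gcongr
    have h4 : (l0 / h + 1) * h = l0 + h := by field_simp
    linarith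
  have hKm : ((K + 1 : ℝ)) * (m * h) ≤ δ := by
    calc ((K + 1 : ℝ)) * (m * h) ≤ (K + 1) * (2 * l0) := by gcongr
      _ = δ := by rw [hl0]; field_simp
  have hKn : K * m + m ≤ n := by
    have h2 : ((K * m + m : ℕ) : ℝ) * h ≤ n * h := by push_cast; nlinarith
    exact_mod_cast le_of_mul_le_mul_right h2 hh0
  -- the value functions
  set ψ : ℝ → ℝ := fun y' => (L.U te y' - c) ^ 2 with hψ
  have hUm : Measurable (L.U te) := hF.U_meas.comp (measurable_const.prodMk measurable_id)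
  have hψm : Measurable ψ := (hUm.sub_const c).pow_const 2
  have hdiff : ∀ x, |L.u te x - c| ≤ P.N M := fun x => by
    have h2 := hF.u_nonneg te x
    have h3 := L.u_le te x
    have h4 : 0 ≤ c := hF.u_nonneg _ _
    have h5 : c ≤ P.N M := L.u_le _ _
    rw [abs_le]; constructor <;> linarith
  have hψB : ∀ x, ψ x ∈ Icc 0 (P.N M ^ 2) := fun x =>
    ⟨sq_nonneg _, by
      rw [hψ]; simp only; rw [← sq_abs]
      exact pow_le_pow_left₀ (abs_nonneg _) (hdiff _) 2⟩
  have hpow : ∀ j : ℕ, j ≤ n →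
      ENNReal.ofReal A ≤ ENNReal.ofReal (1 - P.Th M * P.k0 * h) ^ j := by
    intro j hj
    refine pow_low j (by positivity) hSm.2.2.1 ?_
    have h2 : (j : ℝ) * h ≤ T0 + 1 := le_trans (by gcongr) hn2
    calc (j : ℝ) * (P.Th M * P.k0 * h) = P.Th M * P.k0 * (j * h) := by ring
      _ ≤ _ := by gcongr
  have hstay : ∀ k j : ℕ, j ≤ n → ∀ y',
      Fk L h te ψ k y' ≤ ENNReal.ofReal Λ * Fk L h te ψ (k + j) y' := by
    intro k j hj y'
    have h2 : ENNReal.ofReal A * Fk L h te ψ k y' ≤ Fk L h te ψ (k + j) y' :=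
      le_trans (by gcongr; exact hpow j hj) (Fk_stay L hP hF hS h te _ hSm ψ hψm hψB k j y')
    exact (le_inv_mul hA0 h2).trans (by gcongr)
  have hjump : ∀ k : ℕ, k + m ≤ K * m + m → ∀ y', L.X te y' ∈ Icc x0 (x0 + R) →
      (∃ τ0 ∈ Icc te t, ε1 ≤ L.U τ0 y') →
      ∫⁻ x in Icc (L.X te y' + (P.s1 + P.d / 2)) (L.X te y' + (P.s1 + 7 * P.d / 2)),
        Fk L h te ψ k (L.Y te x) ≤ ENNReal.ofReal Λ * Fk L h te ψ (k + m) y' := by
    intro k hk y' hy' hU'
    set I := ∫⁻ x in Icc (L.X te y' + (P.s1 + P.d / 2)) (L.X te y' + (P.s1 + 7 * P.d / 2)),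
        Fk L h te ψ k (L.Y te x) with hI
    have hkδ : ((k + m : ℕ) : ℝ) * h ≤ δ := by
      have h2 : ((k + m : ℕ) : ℝ) ≤ (K * m + m : ℕ) := by exact_mod_cast hk
      have h3 : ((k + m : ℕ) : ℝ) * h ≤ (K * m + m : ℕ) * h := by gcongr
      push_cast at h3 ⊢; nlinarith
    have h2 : ∀ τ ∈ Ioc (te + k * h) (te + (k + m : ℕ) * h),
        ENNReal.ofReal r0 * (ENNReal.ofReal (P.m0 * Real.exp (-P.C0 M)) * I) ≤
          Jm L τ y' (Fk L h te ψ k) := by
      intro τ hτ
      have hk0' : 0 ≤ (k : ℝ) * h := by positivity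
      have h3 : te ≤ τ := by linarith [hτ.1]
      have h4 : τ ≤ te + δ := by linarith [hτ.2]
      have h5 : τ ∈ Icc te t := ⟨h3, by rw [hte] at h4; linarith⟩
      have h6 : |te - τ| ≤ δ := by rw [abs_le]; constructor <;> linarith
      unfold Jm
      gcongr
      · exact hrate y' hy' hU' τ h5
      · exact geo L hF te τ y' (hmemT te hteI) (hmemT τ h5) (h6.trans hδ1)
          (le_trans (by gcongr) hδ2) _ (Fk_meas L hS h te ψ hψm k)
    have h3 : ENNReal.ofReal r0 * (ENNReal.ofReal (P.m0 * Real.exp (-P.C0 M)) * I) *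
        ENNReal.ofReal l0 ≤
          ∫⁻ τ in Ioc (te + k * h) (te + (k + m : ℕ) * h), Jm L τ y' (Fk L h te ψ k) := by
      refine le_trans ?_ (setLIntegral_mono' measurableSet_Ioc h2)
      rw [setLIntegral_const, Real.volume_Ioc]
      gcongr
      push_cast; linarith
    have h4 : ENNReal.ofReal κ * I ≤ Fk L h te ψ (k + m) y' := by
      refine le_trans ?_ (Fk_win L hP hF hS h te _ hSm ψ hψm hψB k m y')
      calc ENNReal.ofReal κ * I = ENNReal.ofReal A * (ENNReal.ofReal r0 *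
            (ENNReal.ofReal (P.m0 * Real.exp (-P.C0 M)) * I) * ENNReal.ofReal l0) := by
            rw [hκ, ENNReal.ofReal_mul hA0.le, ENNReal.ofReal_mul (by positivity),
              ENNReal.ofReal_mul hr00.le]
            ring
        _ ≤ _ := by
            gcongr
            exact hpow m (by omega)
    exact (le_inv_mul hκ0 h4).trans (by gcongr)
  have hYm : Measurable (L.Y te) :=
    (L.Y_cont.comp (continuous_const.prodMk continuous_id)).measurable
  have hum : Measurable (L.u te) := L.u_meas.comp (measurable_const.prodMk measurable_id)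
  have hidx : ∀ i < K, (K - (i + 1)) * m + m = (K - i) * m := by
    intro i hi
    have : K - i = K - (i + 1) + 1 := by omega
    rw [this]; ring
  have hch := chain (fun i x => Fk L h te ψ ((K - i) * m) (L.Y te x))
    (fun i => (Fk_meas L hS h te ψ hψm _).comp hYm) {x | ε1 ≤ L.u te x}
    (measurableSet_le measurable_const hum) x0 P.s1 P.d R Λ i0 K hd hs hΛ0.le hi0'
    (by
      refine le_trans (measure_mono ?_) ((hNV te hteI).trans
        (ENNReal.ofReal_le_ofReal (min_le_right _ _)))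
      rintro x ⟨⟨h4, h5⟩, h6⟩
      have h7 : 0 ≤ P.Vm M * (T0 + 1) := by positivity
      exact ⟨⟨by linarith, by linarith⟩, not_le.mp h6⟩)
    le_rfl
    (by
      intro i hi x
      have h2 := hstay ((K - (i + 1)) * m) m (by omega) (L.Y te x)
      rwa [hidx i hi] at h2)
    (by
      intro i hi x hx hx'
      have h1' : (K - (i + 1)) * m ≤ K * m := Nat.mul_le_mul_right m (Nat.sub_le _ _)
      have h2 := hjump ((K - (i + 1)) * m) (by omega) (L.Y te x) (by rw [L.XY]; exact hx')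
        ⟨te, hteI, by unfold Lag.U; rw [L.XY]; exact hx⟩
      rwa [hidx i hi, L.XY] at h2)
    K le_rfl
  have hstart : ∫⁻ x in Icc (x0 + (P.s1 + P.d / 2)) (x0 + (P.s1 + 7 * P.d / 2)),
      Fk L h te ψ (K * m) (L.Y te x) ≤
      ENNReal.ofReal Λ * (ENNReal.ofReal Λ * ENNReal.ofReal (e / (2 * R') * (e / 2) / Cc)) := by
    refine (hjump (K * m) le_rfl y ⟨le_rfl, by linarith⟩ ⟨t, htI, hU⟩).trans ?_
    have h2 := hstay (K * m + m) (n - (K * m + m)) (Nat.sub_le _ _) y
    rw [Nat.add_sub_cancel' hKn] at h2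
    have h3 : Fk L h te ψ n y ≤ ENNReal.ofReal (e / (2 * R') * (e / 2) / Cc) := by
      unfold Fk
      have e1 : te + n * h = t := by rw [hte]; ring
      rw [e1]
      exact ENNReal.ofReal_le_ofReal hw
    gcongr
    exact h2.trans (by gcongr)
  refine final (fun x => L.u te x - c) (hum.sub_const c) (P.N M) x0 _ R' e hdiff hD1 hR' he ?_
  have hmin : min K i0 = i0 := min_eq_right (by omega)
  have hRR : R' ≤ P.s1 + 7 * P.d / 2 + K * (P.s1 + 3 * P.d) := by
    rw [div_le_iff₀ (by positivity)] at hK1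
    have h2 : (K1 : ℝ) ≤ K := by exact_mod_cast (by omega : K1 ≤ K)
    have h3 : (K1 : ℝ) * (P.s1 + 3 * P.d) ≤ K * (P.s1 + 3 * P.d) := by gcongr
    linarith
  simp only [hmin, Nat.sub_self, Nat.zero_mul, Nat.sub_zero] at hch
  calc _ = ∫⁻ x in Icc (x0 + (P.s1 + P.d / 2 + i0 * (P.s1 + P.d))) (x0 + R'),
        Fk L h te ψ 0 (L.Y te x) := by
        refine lintegral_congr fun x => ?_
        unfold Fk
        rw [Lag.Pit, hψ]
        simp only [Lag.U, L.XY]
    _ ≤ _ := lintegral_mono_set (Icc_subset_Icc le_rfl (by linarith))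
    _ ≤ _ := hch
    _ ≤ ENNReal.ofReal ((Λ + 1 / (P.d / 4) * Λ) ^ K) * (ENNReal.ofReal Λ *
          (ENNReal.ofReal Λ * ENNReal.ofReal (e / (2 * R') * (e / 2) / Cc))) := by gcongr
    _ = ENNReal.ofReal (Cc * (e / (2 * R') * (e / 2) / Cc)) := by
        rw [ENNReal.ofReal_mul hCc0.le, hCc, ENNReal.ofReal_mul (by positivity),
          ENNReal.ofReal_mul hΛ0.le]
        ring
    _ = _ := by rw [mul_div_cancel₀ _ hCc0.ne']

open Prog in
theorem progS : Basic → NVZS → ProgS := by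
  intro hB hN P M hM hst ε1 R D e hε hR hD he
  have hP := hB.1 P M hM
  obtain ⟨RZ, νZ, hRZ, hνZ, hZ⟩ := hN P M hM ε1 hε
  obtain ⟨b0, hb0, hb⟩ := hst.b_low (ε1 / 2) (by linarith)
  obtain ⟨hS, hS0, hS1⟩ := hP.small
  obtain ⟨m1, hm1⟩ : ∃ m1, m1 = ε1 ^ (1 / P.p) * P.s1 / 2 := ⟨_, rfl⟩
  have hm : 0 < m1 := by have := P.hs1; rw [hm1]; positivity
  have hk : 0 < P.k P.s1 := by
    have h1 := hP.k_anti (show P.s1 ≤ P.s1 + 2 * P.d by linarith [hP.d_pos])
    have h2 := hP.k_mid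
    have h3 := mul_pos P.hm0 hP.d_pos
    linarith
  have hp := P.hp0
  obtain ⟨κ, hκ⟩ : ∃ κ, κ = P.k P.s1 / 2 * (P.p * b0 * (ε1 / 3)) := ⟨_, rfl⟩
  have hκ0 : 0 < κ := by rw [hκ]; positivity
  obtain ⟨A, hA⟩ : ∃ A, A = Real.exp (D / m1) := ⟨_, rfl⟩
  have hA0 : 0 < A := hA ▸ Real.exp_pos _
  obtain ⟨T0, hT⟩ : ∃ T0, T0 = 1 + 3 * R * A / (e * κ) := ⟨_, rfl⟩
  have hT1 : 1 ≤ T0 := by rw [hT]; exact le_add_of_nonneg_right (by positivity)
  have hbm := hP.bm_nonneg
  have hNp := hP.N_pos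
  have hk0 := hP.k0_pos
  have hV : 0 ≤ P.Vm M := by unfold Par.Vm Par.DV; positivity
  have hC0 : 0 ≤ P.C0 M := by unfold Par.C0; positivity
  have hC2 : 0 ≤ P.C2 M := by unfold Par.C2 Par.Th; positivity
  have hC3 : 0 ≤ P.C3 M := by unfold Par.C3 Par.Th Par.DV; positivity
  obtain ⟨ρ, hρ⟩ : ∃ ρ, ρ = 3 * A * R * P.C3 M * (T0 + 1) / e + 1 := ⟨_, rfl⟩
  have hρ0 : 0 < ρ := by rw [hρ]; positivity
  obtain ⟨E, hE⟩ : ∃ E, E = Real.exp (P.C2 M * (T0 + 1)) := ⟨_, rfl⟩
  have hE0 : 0 < E := hE ▸ Real.exp_pos _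
  refine ⟨T0, hT1, R + ρ + P.Vm M * (T0 + 1) + RZ, min νZ (e / (3 * A * E)), min hS (1 / κ),
    by positivity, by positivity, fun L t h y n h0 h1 h2 h3 h4 h5 hNV => ?_⟩
  have hL := hB.2.1 P M L hM
  have hSt := hB.2.2.1 P M L hM
  have hW := hB.2.2.2 P M L hM
  have hh := hS1 h h0 (h1.trans (min_le_left _ _))
  have hκh : κ * h ≤ 1 := by
    have := h1.trans (min_le_right _ _)
    rwa [le_div_iff₀ hκ0, mul_comm] at this
  have hY : ∀ τ, Measurable (L.Y τ) := fun τ => (hL.Y_mono τ).monotone.measurable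
  have hX : ∀ τ, Measurable (L.X τ) := fun τ => (hL.X_mono τ).monotone.measurable
  set μ0 := (volume.restrict (Icc (L.X t y) (L.X t y + R))).map (L.Y t) with hμ0
  have m0 : μ0 univ = ENNReal.ofReal R := by
    rw [hμ0, Measure.map_apply (hY t) MeasurableSet.univ]
    simp
  have g0 : ∀ᵐ y' ∂μ0, y ≤ y' := by
    rw [hμ0, ae_map_iff (hY t).aemeasurable measurableSet_Ici]
    filter_upwards [ae_restrict_mem measurableSet_Icc] with x hx
    conv_lhs => rw [← L.YX t y]
    exact (hL.Y_mono t).monotone hx.1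
  have g1 : ∀ᵐ y' ∂μ0, L.X t y' ≤ L.X t y + R := by
    rw [hμ0, ae_map_iff (hY t).aemeasurable (measurableSet_le (hX t) measurable_const)]
    filter_upwards [ae_restrict_mem measurableSet_Icc] with x hx
    rw [L.XY]
    exact hx.2
  have key : ∀ i : ℕ, i ≤ n → ∫⁻ y', ψ L m1 y y' ∂(L.law t h μ0 i) ≤
      ENNReal.ofReal ((1 - κ * h) ^ i * R + 2 * e / (3 * A)) := by
    intro i hi
    induction i with
    | zero =>
      refine (lintegral_mono_ae (g := fun _ => 1) ?_).trans ?_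
      · exact g0.mono fun y' hy' => ψ_le hL hm hy'
      · rw [lintegral_one, hW.mass, m0]
        exact ENNReal.ofReal_le_ofReal (by rw [pow_zero, one_mul]; exact le_add_of_nonneg_right (by positivity))
    | succ i ih =>
      have i1 : ((i : ℝ) + 1) * h ≤ n * h :=
        mul_le_mul_of_nonneg_right (by exact_mod_cast hi) h0.le
      have i2 : 0 ≤ (i : ℝ) * h := by positivity
      have i3 : (i : ℝ) * h ≤ t := by linarith
      let B1 : Set ℝ := {y' | L.X (t - i * h) y' ∈ Icc (L.X t y - (R + ρ + P.Vm M * (T0 + 1) + RZ))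
        (L.X t y + (R + ρ + P.Vm M * (T0 + 1) + RZ)) ∧ L.U (t - i * h) y' < ε1}
      let B2 : Set ℝ := {y' | L.X t y + R + ρ < L.X (t - i * h) y'}
      have hB1 : MeasurableSet B1 := ((hX _) measurableSet_Icc).inter
        (measurableSet_lt (hL.U_meas.comp (measurable_const.prodMk measurable_id)) measurable_const)
      have b1 : L.law t h μ0 i B1 ≤ ENNReal.ofReal (e / (3 * A)) := by
        have d1 := hW.dens t h i hh i3 h5 (Icc (L.X t y) (L.X t y + R)) 1 (B1.indicator 1)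
          (measurable_one.indicator hB1)
        rw [one_smul, one_mul, lintegral_indicator_one hB1] at d1
        have d2 : ∫⁻ x, B1.indicator (1 : ℝ → ℝ≥0∞) (L.Y (t - i * h) x) =
            volume (L.Y (t - i * h) ⁻¹' B1) := by
          rw [← lintegral_indicator_one (hY _ hB1)]
          rfl
        have d3 := hNV (t - i * h) ⟨by linarith, by linarith⟩
        have d4 : L.Y (t - i * h) ⁻¹' B1 = {x | x ∈ Icc
            (L.X t y - (R + ρ + P.Vm M * (T0 + 1) + RZ))
            (L.X t y + (R + ρ + P.Vm M * (T0 + 1) + RZ)) ∧ L.u (t - i * h) x < ε1} := by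
          ext x
          simp only [B1, mem_preimage, mem_ofPred_eq, Lag.U, L.XY]
        rw [d2, d4] at d1
        refine d1.trans ((mul_le_mul_right d3 _).trans ?_)
        rw [← ENNReal.ofReal_mul (Real.exp_pos _).le]
        refine ENNReal.ofReal_le_ofReal ?_
        calc _ ≤ E * (e / (3 * A * E)) := mul_le_mul (hE ▸ Real.exp_le_exp.2
              (mul_le_mul_of_nonneg_left (by linarith) hC2)) (min_le_right _ _) (by positivity) hE0.le
          _ = _ := by field_simp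
      have b2 : L.law t h μ0 i B2 ≤ ENNReal.ofReal (e / (3 * A)) := by
        refine (hW.right t h i μ0 _ ρ hh i3 h5 hρ0 g1).trans ?_
        rw [m0, ← ENNReal.ofReal_mul hR.le]
        refine ENNReal.ofReal_le_ofReal ?_
        rw [← mul_div_assoc, div_le_div_iff₀ hρ0 (by positivity), hρ, mul_add,
          mul_div_cancel₀ _ he.ne']
        have := mul_le_mul_of_nonneg_left (show (i : ℝ) * h ≤ T0 + 1 by linarith)
          (show 0 ≤ 3 * A * R * P.C3 M by positivity)
        nlinarith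
      have st : ∀ y', y ≤ y' → ∫⁻ ξ, ψ L m1 y (L.step (t - i * h) h y' ξ) ∂P.noise ≤
          ENNReal.ofReal (1 - κ * h) * ψ L m1 y y' +
            (B1 ∪ B2).indicator (fun _ => ENNReal.ofReal (κ * h)) y' := by
        intro y' hy'
        by_cases c : y' ∈ B1 ∪ B2
        · rw [indicator_of_mem c]
          refine (any hP hL hSt hm _ _ _ _).trans ?_
          calc _ = (ENNReal.ofReal (1 - κ * h) + ENNReal.ofReal (κ * h)) * ψ L m1 y y' := by
                rw [← ENNReal.ofReal_add (by linarith) (by positivity)]; simp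
            _ ≤ _ := by
                rw [add_mul]
                exact add_le_add_right (mul_le_of_le_one_right' (ψ_le hL hm hy')) _
        · rw [indicator_of_notMem c, add_zero, hκ]
          rw [mem_union, not_or] at c
          have c2 : L.X (t - i * h) y' ≤ L.X t y + R + ρ := not_lt.1 c.2
          have lo : ∀ τ ∈ Icc (t - i * h - h) (t - i * h),
              L.X t y - P.Vm M * (T0 + 1) ≤ L.X τ y' := fun τ hτ => by
            have e1 := hL.X_lip y t ⟨by linarith, h5⟩ τ ⟨by linarith [hτ.1], by linarith [hτ.2]⟩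
            have e2 : |t - τ| ≤ T0 + 1 := abs_le.2 ⟨by linarith [hτ.2], by linarith [hτ.1]⟩
            have e3 := mul_le_mul_of_nonneg_left e2 hV
            have e4 := (hL.X_mono τ).monotone hy'
            linarith [(abs_le.1 e1).2]
          have hVT : 0 ≤ P.Vm M * (T0 + 1) := by positivity
          have c1 : ε1 ≤ L.U (t - i * h) y' := not_lt.1 fun c1 => c.1
            ⟨⟨by linarith [lo _ ⟨by linarith, le_rfl⟩], by linarith⟩, c1⟩
          refine good hP hL hSt hm hh y y' fun τ hτ => ?_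
          have t1 : t - i * h ∈ Icc 0 L.T := ⟨by linarith, by linarith⟩
          have t2 : τ ∈ Icc 0 L.T := ⟨by linarith [hτ.1], by linarith [hτ.2]⟩
          have e2 : |t - i * h - τ| ≤ h := abs_le.2 ⟨by linarith [hτ.2], by linarith [hτ.1]⟩
          have e3 := hL.X_lip y' _ t1 τ t2
          have e4 := mul_le_mul_of_nonneg_left (e2.trans (show h ≤ T0 + 1 by linarith [hh.2.1])) hV
          have e5 := lo τ hτ
          have e6 := hZ L τ (L.X τ y') (by
            refine le_trans (measure_mono fun x hx => ?_)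
              ((hNV τ ⟨by linarith [hτ.1], by linarith [hτ.2]⟩).trans
                (ENNReal.ofReal_le_ofReal (min_le_left _ _)))
            exact ⟨⟨by linarith [hx.1.1], by linarith [hx.1.2, (abs_le.1 e3).1]⟩, hx.2⟩)
          refine ⟨?_, hm1 ▸ e6.2⟩
          have e7 := hL.U_ratio y' _ t1 τ t2
          have e8 : Real.exp (P.C0 M * |t - i * h - τ|) ≤ 3 :=
            (Real.exp_le_exp.2 (by
              linarith [mul_le_mul_of_nonneg_left e2 hC0, hh.2.2.2])).trans Real.exp_one_lt_three.le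
          have e9 : 0 ≤ L.U τ y' := hL.u_nonneg _ _
          have e10 := hb _ ⟨e6.1, (hL.Z_mem τ (L.X τ y')).2⟩
          exact mul_le_mul (mul_le_mul_of_nonneg_left e10 hp.le) (by nlinarith) (by positivity)
            (mul_nonneg hp.le (P.hb0 _))
      rw [hW.succ t h μ0 i _ (ψ_meas hL m1 y)]
      refine (lintegral_mono_ae ((hW.ge t h μ0 y g0 i).mono st)).trans ?_
      rw [lintegral_add_left ((ψ_meas hL m1 y).const_mul _), lintegral_const_mul _ (ψ_meas hL m1 y)]
      refine (add_le_add (mul_le_mul_right (ih (by omega)) _) ((lintegral_indicator_const_le _ _).trans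
        (mul_le_mul_right ((measure_union_le _ _).trans (add_le_add b1 b2)) _))).trans ?_
      have p1 : 0 ≤ 1 - κ * h := by linarith
      rw [← ENNReal.ofReal_add (by positivity) (by positivity), ← ENNReal.ofReal_mul p1,
        ← ENNReal.ofReal_mul (by positivity), ← ENNReal.ofReal_add (by positivity) (by positivity)]
      exact ENNReal.ofReal_le_ofReal (le_of_eq (by ring))
  have f1 := mul_meas_ge_le_lintegral₀ (μ := L.law t h μ0 n) (ψ_meas hL m1 y).aemeasurable
    (ENNReal.ofReal A⁻¹)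
  have f2 : L.law t h μ0 n {y' | L.m y' - L.m y < D} ≤
      L.law t h μ0 n {y' | ENNReal.ofReal A⁻¹ ≤ ψ L m1 y y'} := measure_mono fun y' hy' => by
    refine ENNReal.ofReal_le_ofReal ?_
    rw [hA, ← Real.exp_neg, ← neg_div]
    exact Real.exp_le_exp.2 (div_le_div_of_nonneg_right (neg_le_neg (le_of_lt hy')) hm.le)
  have f3 : (1 - κ * h) ^ n * R ≤ e / (3 * A) := by
    have e1 : (1 - κ * h) ^ n ≤ Real.exp (-(κ * T0)) := by
      refine (pow_le_pow_left₀ (by linarith) (Real.one_sub_le_exp_neg _) n).trans ?_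
      rw [← Real.exp_nat_mul]
      exact Real.exp_le_exp.2 (by nlinarith)
    have e2 : 3 * R * A / e ≤ Real.exp (κ * T0) := by
      refine le_trans ?_ (Real.add_one_le_exp _)
      rw [hT, mul_add, show κ * (3 * R * A / (e * κ)) = 3 * R * A / e by field_simp]
      linarith
    rw [Real.exp_neg] at e1
    have e3 := e1.trans (inv_anti₀ (by positivity) e2)
    calc _ ≤ (3 * R * A / e)⁻¹ * R := mul_le_mul_of_nonneg_right e3 hR.le
      _ = _ := by field_simp
  calc _ = ENNReal.ofReal A * (ENNReal.ofReal A⁻¹ * L.law t h μ0 n {y' | L.m y' - L.m y < D}) := by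
        rw [← mul_assoc, ← ENNReal.ofReal_mul hA0.le, mul_inv_cancel₀ hA0.ne']; simp
    _ ≤ ENNReal.ofReal A * ENNReal.ofReal ((1 - κ * h) ^ n * R + 2 * e / (3 * A)) :=
        mul_le_mul_right ((mul_le_mul_right f2 _).trans (f1.trans (key n le_rfl))) _
    _ ≤ _ := by
        rw [← ENNReal.ofReal_mul hA0.le]
        refine ENNReal.ofReal_le_ofReal ?_
        calc _ ≤ A * (e / (3 * A) + 2 * e / (3 * A)) :=
              mul_le_mul_of_nonneg_left (add_le_add_left f3 _) hA0.le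
          _ = e := by field_simp; ring

open Tube in
theorem tubeS : Basic → HarS → ProgS → TubeS := by
  intro hB hH hG P M hM hSt ε1 R e hε hR he
  have hP := hB.1 P M hM
  have hN := hP.N_pos
  have hbm := hP.bm_nonneg
  have hk := hP.k0_pos
  have hp := P.hp0
  have hTh : 0 ≤ P.Th M := by unfold Par.Th; positivity
  have hC0 : 0 ≤ P.C0 M := by unfold Par.C0; positivity
  have hDV : 0 ≤ P.DV M := by unfold Par.DV; positivity
  have hVm : 0 ≤ P.Vm M := by unfold Par.Vm; positivity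
  have hC2 : 0 ≤ P.C2 M := by unfold Par.C2; positivity
  have hC3 : 0 ≤ P.C3 M := by unfold Par.C3; positivity
  have hE1 : 0 ≤ P.E1 M := by unfold Par.E1; positivity
  obtain ⟨D1, hD1, hH⟩ := hH P M hM hSt
  obtain ⟨T0, hT0, R3p, νp, hp0, hνp, hhp, hG⟩ := hG P M hM hSt ε1 (R + 1) (M * D1 + 1)
    (e / 16 / P.N M) hε (by linarith) (by positivity) (by positivity)
  set ρ := (P.N M * ((R + 1) * (P.C3 M * (T0 + 1))) + 1) / (e / 16) with hρ
  have hρ0 : 0 < ρ := by positivity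
  set R' := D1 + (R + 1 + ρ + P.Vm M * (T0 + 1)) with hR'
  have hDR : D1 ≤ R' := by
    have : 0 ≤ R + 1 + ρ + P.Vm M * (T0 + 1) := by positivity
    linarith
  obtain ⟨R3h, νh, e', hh0, hνh, he', hhh, hH⟩ := hH ε1 T0 R'
    (e / 16 / Real.exp (P.C2 M * (T0 + 1))) hε hT0 hDR (by positivity)
  obtain ⟨hs0, hhs, hsm⟩ := hP.small
  refine ⟨T0, hT0, max R3p R3h, min νp νh, e',
    min (min (min hp0 hh0) (min hs0 (1 / (P.DV M + 1))))
      (min (e / 2 / (P.Th M * P.k0 * P.N M * R + 1))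
        (e / 16 / ((R + 1) * ((T0 + 1) * P.E1 M) + 1))),
    lt_min hνp hνh, he', by positivity, ?_⟩
  intro L t h y n h0 hh hn1 hn2 hn ht hNV hU hw τ hτ
  simp only [le_min_iff] at hh
  obtain ⟨⟨⟨a1, a2⟩, a3, a4⟩, a5, a6⟩ := hh
  have hL := hB.2.1 P M L hM
  have hS := hB.2.2.1 P M L hM
  have hW := hB.2.2.2 P M L hM
  have hs := hsm h h0 a3
  have hht : h ≤ t := by linarith [hs.2.1]
  have b1 := hG L t h y n h0 a1 hn1 hn2 hn ht (NV_mono hNV (min_le_left _ _)
    (by linarith [le_max_left R3p R3h]) (by linarith [le_max_left R3p R3h]))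
  have b2 := hH L t h y n h0 a2 hn1 hn2 hn ht (NV_mono hNV (min_le_right _ _)
    (by linarith [le_max_right R3p R3h]) (by linarith [le_max_right R3p R3h])) hU hw
  have b3 := end_le hM hP hL hW t h y n (R + 1) D1 R' ρ _ _ hs hn ht (by linarith) hρ0 hD1 hDR
    (by linarith [mul_le_mul_of_nonneg_left hn2 hVm]) (by positivity) hC3 b1 b2
  have b4 := start_le hL hS hW t h y n (R + 1) hs hn ht (by linarith)
  have b5 := transfer hP hL t h y R τ hs hht ht hR (small_mul hDV h0 a4) hτ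
  have c1 : P.N M * (e / 16 / P.N M) = e / 16 := by field_simp
  have c2 : P.N M * ((R + 1) * (P.C3 M * (n * h) / ρ)) ≤ e / 16 := by
    have h1 : P.N M * ((R + 1) * (P.C3 M * (n * h))) ≤ P.N M * ((R + 1) * (P.C3 M * (T0 + 1))) := by
      gcongr
    have h2 : e / 16 * ρ = P.N M * ((R + 1) * (P.C3 M * (T0 + 1))) + 1 := by
      rw [hρ]
      field_simp
    rw [show P.N M * ((R + 1) * (P.C3 M * (n * h) / ρ)) =
      P.N M * ((R + 1) * (P.C3 M * (n * h))) / ρ by ring, div_le_iff₀ hρ0]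
    linarith
  have c3 : Real.exp (P.C2 M * (n * h)) * (e / 16 / Real.exp (P.C2 M * (T0 + 1))) ≤ e / 16 := by
    have h1 : Real.exp (P.C2 M * (n * h)) ≤ Real.exp (P.C2 M * (T0 + 1)) := by gcongr
    calc _ ≤ Real.exp (P.C2 M * (T0 + 1)) * (e / 16 / Real.exp (P.C2 M * (T0 + 1))) := by gcongr
      _ = e / 16 := by field_simp
  have c4 : (R + 1) * (n * (P.E1 M * h ^ 2)) ≤ e / 16 := by
    have h1 := small_mul (by positivity) h0 a6
    calc (R + 1) * (n * (P.E1 M * h ^ 2)) = (R + 1) * (n * h * P.E1 M) * h := by ring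
      _ ≤ (R + 1) * ((T0 + 1) * P.E1 M) * h := by gcongr
      _ ≤ e / 16 := h1
  have c5 : P.Th M * P.k0 * P.N M * h * R ≤ e / 2 := by
    have h1 := small_mul (by positivity) h0 a5
    linarith
  linarith

end MP34a893.B
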