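import Pool.Agent.MP_34a893_an.All
import Pool.Agent.MP_34a893_an.B.PortVac
import Pool.Agent.MP_34a893_an.B.PortTube
import Pool.Agent.MP_34a893_an.B.PortOsc
import Pool.Agent.MP_34a893_an.B.Rec
import Pool.Agent.MP_34a893_an.B.Strip
import Pool.Agent.MP_34a893_an.B.Few
import Pool.Agent.MP_34a893_an.B.Cmp

namespace MP34a893.B

theorem def_all : DefS := defS basic_all (sparseS basic_all)

theorem vac_all : VacS :=
  vacS basic_all (gapBlockS basic_all (gapBaseS basic_all (widthS basic_all))
    (gapStepS basic_all (widthS basic_all)))

theorem tube_all : TubeS :=
  tubeS basic_all (harS basic_all (nvzS basic_all)) (progS basic_all (nvzS basic_all))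

theorem osc_all : OscS :=
  oscS basic_all def_all vac_all (denseS basic_all (fewS basic_all (cellS basic_all)
    (pairS basic_all (coreS basic_all tube_all (driftS basic_all) (driftAnyS basic_all)
      (driftXS basic_all)))))

theorem rec_all : RecS :=
  recS basic_all (offS basic_all def_all vac_all)
    (linS basic_all tube_all (driftS basic_all) (driftAnyS basic_all) (driftXS basic_all))
    (stripS basic_all osc_all (fluxS basic_all))

theorem main_all : MainS :=
  mainS parS (posS parFactsS) (noBitS parFactsS) (tanS parFactsS) bvS (potS sliceS)
    (rangeS sliceS coneS) (entS coneS renormS) (entLowS (entS coneS renormS)) scale_all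
    (potConvS (subS basic_all) (supS basic_all rec_all) cmpS)
    (lateS basic_all osc_all) (earlyS basic_all (initS basic_all) bvS) blockS strongS basic_all

end MP34a893.B
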